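import Pool.Agent.Lib.MP_8fac0f_nt.C3.LP

/-!
# APH: iterated van der Corput in `y`, for a double average over `y` and `v`

Proof (text APH): `C3.lp M ε` with `V := Y * V`, `Q := Q * V`, `q i := q i * V`, for the functions
`t ↦ φ i (t / V) (t % V)`, `t ↦ Ψ (t / V) (t % V)`, `Bd i t := Y * V ≤ t ∨ Bd i (t / V) (t % V)`;
`(t + q i * V * r) / V = t / V + q i * r`, `(t + q i * V * r) % V = t % V`, and
`∑ t ∈ range (Y * V), g (t / V) (t % V) = ∑ y ∈ range Y, ∑ v ∈ range V, g y v`.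
-/

set_option autoImplicit false

namespace Pool.Agent.Lib.MP_8fac0f_nt.Q4

open Finset Filter Topology

private theorem aph_sum (Y V : ℕ) (hV : 0 < V) (g : ℕ → ℕ → ℝ) :
    ∑ t ∈ range (Y * V), g (t / V) (t % V) = ∑ y ∈ range Y, ∑ v ∈ range V, g y v := by
  induction Y with
  | zero => simp
  | succ Y ih =>
    rw [Nat.succ_mul, sum_range_add, ih, sum_range_succ]
    congr 1
    refine sum_congr rfl fun v hv => ?_
    have hv' := mem_range.1 hv
    have h1 : (Y * V + v) / V = Y := by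
      rw [mul_comm, Nat.mul_add_div hV, Nat.div_eq_of_lt hv', add_zero]
    have h2 : (Y * V + v) % V = v := by
      rw [mul_comm, Nat.mul_add_mod, Nat.mod_eq_of_lt hv']
    rw [h1, h2]

private theorem aph_card (Y V : ℕ) (hV : 0 < V) (B : ℕ → ℕ → Prop) [∀ y v, Decidable (B y v)]
    [DecidablePred fun t => Y * V ≤ t ∨ B (t / V) (t % V)] :
    ((range (Y * V)).filter fun t => Y * V ≤ t ∨ B (t / V) (t % V)).card ≤
      ((range Y ×ˢ range V).filter fun yv : ℕ × ℕ => B yv.1 yv.2).card := by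
  refine card_le_card_of_injOn (fun t => (t / V, t % V)) ?_ ?_
  · intro t ht
    rw [mem_coe, mem_filter, mem_range] at ht
    rw [mem_coe, mem_filter, mem_product, mem_range, mem_range]
    refine ⟨⟨?_, Nat.mod_lt _ hV⟩, ?_⟩
    · exact Nat.div_lt_of_lt_mul (by rw [mul_comm]; exact ht.1)
    · rcases ht.2 with h | h
      · omega
      · exact h
  · intro t _ t' _ h
    have h1 : t / V = t' / V := congrArg Prod.fst h
    have h2 : t % V = t' % V := congrArg Prod.snd h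
    rw [← Nat.div_add_mod t V, ← Nat.div_add_mod t' V, h1, h2]

theorem aph (M : ℕ) (ε : ℝ) (hε : 0 < ε) : ∃ R1 : ℕ, 2 ≤ R1 ∧ ∀ R : ℕ, R1 ≤ R → ∃ ε' : ℝ,
    0 < ε' ∧ ∀ (Y V Q : ℕ) (q : Fin M → ℕ) (φ : Fin M → ℕ → ℕ → ℝ) (Ψ : ℕ → ℕ → ℝ)
      (Bd : Fin M → ℕ → ℕ → Prop) [∀ i y v, Decidable (Bd i y v)], 0 < Y → 0 < V →
      (Q : ℝ) * R ≤ ε' * Y → (∀ i, q i ≤ Q) → (∀ i y v, φ i y v = 1 ∨ φ i y v = -1) →
      (∀ y v, |Ψ y v| ≤ 1) →
      (∀ i r y v, y < Y → v < V → 1 ≤ r → r < R → ¬ Bd i y v →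
        φ i y v * φ i (y + q i * r) v = 1) →
      (∀ i, (((range Y ×ˢ range V).filter fun yv : ℕ × ℕ => Bd i yv.1 yv.2).card : ℝ)
        ≤ ε' * (Y * V)) →
      (∀ r : Fin M → ℕ, (∀ i, 1 ≤ r i ∧ r i < R) →
        |∑ y ∈ range Y, ∑ v ∈ range V, ∏ w : Finset (Fin M), Ψ (y + ∑ i ∈ w, q i * r i) v|
          ≤ ε' * (Y * V)) →
      |∑ y ∈ range Y, ∑ v ∈ range V, (∏ i, φ i y v) * Ψ y v| ≤ ε * (Y * V) := by
  classical
  obtain ⟨R1, hR1, hlp⟩ := Pool.Agent.Lib.MP_8fac0f_nt.C3.lp M ε hε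
  refine ⟨R1, hR1, fun R hR => ?_⟩
  obtain ⟨ε', hε', hlp⟩ := hlp R hR
  refine ⟨ε', hε', ?_⟩
  intro Y V Q q φ Ψ Bd _ hY hV hQ hq hφ hΨ hkill hBd hr
  have hdiv : ∀ t x : ℕ, (t + x * V) / V = t / V + x := fun t x => by
    rw [Nat.add_mul_div_right _ _ hV]
  have hmod : ∀ t x : ℕ, (t + x * V) % V = t % V := fun t x => by
    rw [Nat.add_mul_mod_self_right]
  have hV' : (0 : ℝ) < V := by exact_mod_cast hV
  have key := hlp (Y * V) (Q * V) (fun i => q i * V) (fun i t => φ i (t / V) (t % V))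
    (fun t => Ψ (t / V) (t % V)) (fun i t => Y * V ≤ t ∨ Bd i (t / V) (t % V))
    (Nat.mul_pos hY hV) (by
      push_cast
      nlinarith) (fun i => Nat.mul_le_mul_right V (hq i)) (fun i t => hφ i _ _)
    (fun t => hΨ _ _) (by
      intro i r t hr1 hr2 hb
      rw [not_or, not_le] at hb
      have h1 : t / V < Y := Nat.div_lt_of_lt_mul (by rw [mul_comm]; exact hb.1)
      have h2 := hkill i r (t / V) (t % V) h1 (Nat.mod_lt _ hV) hr1 hr2 hb.2
      have h3 : t + q i * V * r = t + q i * r * V := by ring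
      rw [h3, hdiv, hmod]
      exact h2) (by
      intro i
      have h1 := aph_card Y V hV (Bd i)
      have h2 := hBd i
      have h3 : (((range (Y * V)).filter fun t => Y * V ≤ t ∨ Bd i (t / V) (t % V)).card : ℝ) ≤
        (((range Y ×ˢ range V).filter fun yv : ℕ × ℕ => Bd i yv.1 yv.2).card : ℝ) := by
        exact_mod_cast h1
      push_cast
      exact h3.trans h2) (by
      intro r hr1
      have h1 := hr r hr1
      have h2 := aph_sum Y V hV fun y v => ∏ w : Finset (Fin M), Ψ (y + ∑ i ∈ w, q i * r i) v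
      rw [← h2] at h1
      push_cast
      refine le_trans (le_of_eq ?_) h1
      congr 1
      refine sum_congr rfl fun t _ => prod_congr rfl fun w _ => ?_
      have h3 : t + ∑ i ∈ w, q i * V * r i = t + (∑ i ∈ w, q i * r i) * V := by
        rw [sum_mul]
        congr 1
        exact sum_congr rfl fun i _ => by ring
      rw [h3, hdiv, hmod])
  have h1 := aph_sum Y V hV fun y v => (∏ i, φ i y v) * Ψ y v
  rw [← h1]
  push_cast at key
  exact key

end Pool.Agent.Lib.MP_8fac0f_nt.Q4
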