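import Pool.Agent.Lib.MP_8fac0f_nt.Q4.Defs
import Pool.Agent.Lib.MP_8fac0f_nt.C3.Lin
import Pool.Agent.Lib.MP_8fac0f_nt.C3.Eqm

/-!
# CU: the derivative of a quartic polynomial is rarely close to a multiple of `2 ^ β`

Proof (text CU).  `H` constant `> 8 / ε`, `γ1` constant with `H m0 * √(8 γ1) ≤ ε / 16`,
`γ = min (ε / 16) γ1`.  `β1 = (β + 1) / 2`, `β2 = β / 2`, `β1 + β2 = β`, `M0 = 2 ^ (β2 / 2)`.
* `P1 (n + 2 ^ β1 * m) = P1 n + 2 ^ β1 * m * (2 * P2 n)` mod `2 ^ β` (`P1_add`; `2 β1 ≥ β`), hence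
  `di (m0 * P1 (n + 2 ^ β1 m) / 2 ^ β) = di (m0 * P1 n / 2 ^ β + m * (m0 * (2 * P2 n) / 2 ^ β2))`.
* Average over `m < M0` as in `C3.eqm_fin`, here in the general form `cu_fin`.
* The exceptional `n`: `2 * P2 n = C3.P1 (4 * a) (3 * b) (2 * c) n` (`12 a n ^ 2 + 6 b n + 2 c`), so
  `C3.eqm_bad (4 * a) (3 * b) (2 * c) (H * m0) β2 (2 ^ β)` bounds their number.
-/

set_option autoImplicit false

namespace Pool.Agent.Lib.MP_8fac0f_nt.Q4

open Finset Filter Topology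
open Pool.Agent.Lib.MP_8fac0f_nt.C3 (di ex)

open Classical in
/-- The average over `m < M0` of the shifts `n + x m`, for a function which is nearly linear along
these shifts. -/
theorem cu_fin (F G : ℕ → ℝ) (H N M0 x : ℕ) (γ τ τ' B0 : ℝ) (hH : 1 ≤ H) (hγ : 0 < γ)
    (hτ : 0 ≤ τ') (hM : 0 < M0)
    (hlin : ∀ n < N, ∀ m < M0, di (F (n + x * m)) ≤ τ → di (F n + m * G n) ≤ τ')
    (hB0 : (((range N).filter fun n : ℕ => ∃ m : ℕ, (1 ≤ m ∧ m ≤ H) ∧
      di (m * G n) < γ).card : ℝ) ≤ B0) :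
    (((range N).filter fun n : ℕ => di (F n) ≤ τ).card : ℝ) ≤
      N * (2 * τ' + 1 / H) + N * (H * (4 * τ' / γ + 3)) / M0 + B0 + x * M0 := by
  classical
  have hMr : (0 : ℝ) < M0 := by exact_mod_cast hM
  have hHr : (0 : ℝ) < H := by exact_mod_cast hH
  set E : ℕ → Prop := fun n => di (F n) ≤ τ with hE
  set B : ℕ → Prop := fun n => ∃ m : ℕ, (1 ≤ m ∧ m ≤ H) ∧ di (m * G n) < γ with hB
  have h1 : ∀ m ∈ range M0, (((range N).filter E).card : ℝ) ≤
      (((range N).filter fun n => E (n + x * m)).card : ℝ) + x * M0 := by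
    intro m hm
    have h2 := C3.eqm_shift E N (x * m)
    have h3 : x * m ≤ x * M0 := Nat.mul_le_mul_left _ (mem_range.1 hm).le
    have h4 : ((range N).filter E).card ≤
      ((range N).filter fun n => E (n + x * m)).card + x * M0 := by omega
    exact_mod_cast h4
  have h2 : (M0 : ℝ) * (((range N).filter E).card : ℝ) ≤
      ∑ m ∈ range M0, (((range N).filter fun n => E (n + x * m)).card : ℝ)
        + M0 * (x * M0) := by
    have := sum_le_sum h1
    rw [sum_const, card_range, nsmul_eq_mul, sum_add_distrib, sum_const, card_range,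
      nsmul_eq_mul] at this
    exact this
  have h3 : ∑ m ∈ range M0, (((range N).filter fun n => E (n + x * m)).card : ℝ) =
      ∑ n ∈ range N, (((range M0).filter fun m => E (n + x * m)).card : ℝ) := by
    have h4 : ∑ m ∈ range M0, ((range N).filter fun n => E (n + x * m)).card =
        ∑ n ∈ range N, ((range M0).filter fun m => E (n + x * m)).card := by
      simp only [card_filter]
      exact sum_comm
    exact_mod_cast h4
  have h4 : ∀ n ∈ range N, (((range M0).filter fun m => E (n + x * m)).card : ℝ) ≤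
      (M0 * (2 * τ' + 1 / H) + H * (4 * τ' / γ + 3)) + M0 * (if B n then 1 else 0) := by
    intro n hnN
    by_cases hn : B n
    · rw [if_pos hn, mul_one]
      have h5 : (((range M0).filter fun m => E (n + x * m)).card : ℝ) ≤ M0 := by
        have := card_filter_le (range M0) fun m => E (n + x * m)
        rw [card_range] at this
        exact_mod_cast this
      have h6 : 0 ≤ M0 * (2 * τ' + 1 / H) + H * (4 * τ' / γ + 3) := by positivity
      linarith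
    · rw [if_neg hn, mul_zero, add_zero]
      have h5 := C3.lin_count (G n) (F n) γ τ' H M0 hH hγ hτ (by
          intro m hm1 hm2
          by_contra hcon
          exact hn ⟨m, ⟨hm1, hm2⟩, not_le.1 hcon⟩)
      refine le_trans ?_ h5
      have h6 : ((range M0).filter fun m => E (n + x * m)).card ≤
          ((range M0).filter fun m : ℕ => di (F n + m * G n) ≤ τ').card := by
        apply card_le_card
        intro m hm
        rw [mem_filter, mem_range] at hm ⊢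
        exact ⟨hm.1, hlin n (mem_range.1 hnN) m hm.1 hm.2⟩
      exact_mod_cast h6
  have h6 : ∑ n ∈ range N, (((range M0).filter fun m => E (n + x * m)).card : ℝ) ≤
      N * (M0 * (2 * τ' + 1 / H) + H * (4 * τ' / γ + 3)) + M0 * (((range N).filter B).card : ℝ) := by
    refine (sum_le_sum h4).trans_eq ?_
    rw [sum_add_distrib, sum_const, card_range, nsmul_eq_mul, ← mul_sum, sum_boole]
  have h7 : (((range N).filter B).card : ℝ) ≤ B0 := hB0
  have h8 : (M0 : ℝ) * (((range N).filter E).card : ℝ) ≤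
      M0 * (N * (2 * τ' + 1 / H) + N * (H * (4 * τ' / γ + 3)) / M0 + B0 + x * M0) := by
    have h9 : (M0 : ℝ) * (N * (2 * τ' + 1 / H) + N * (H * (4 * τ' / γ + 3)) / M0 +
      B0 + x * M0) =
      N * (M0 * (2 * τ' + 1 / H) + H * (4 * τ' / γ + 3)) + M0 * B0 + M0 * (x * M0) := by
      have h10 : (M0 : ℝ) * (N * (H * (4 * τ' / γ + 3)) / M0) = N * (H * (4 * τ' / γ + 3)) := by
        field_simp
      rw [mul_add, mul_add, mul_add, h10]
      ring
    rw [h9]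
    have h10 := mul_le_mul_of_nonneg_left h7 hMr.le
    linarith
  exact le_of_mul_le_mul_left h8 hMr

private theorem cu_lin (p : Co) (m0 n j b' m : ℕ) (h : b' ≤ j) :
    di ((m0 * p.P1 (n + 2 ^ j * m) / 2 ^ (j + b') : ℝ)) =
      di ((m0 * p.P1 n / 2 ^ (j + b') : ℝ) + m * (m0 * (C3.P1 (4 * p.a) (3 * p.b) (2 * p.c) n : ℝ)
        / 2 ^ b')) := by
  obtain ⟨k, hk⟩ := Nat.exists_eq_add_of_le h
  have h1 := C3.di_add_int ((m0 * p.P1 n / 2 ^ (j + b') : ℝ)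
      + m * (m0 * (C3.P1 (4 * p.a) (3 * p.b) (2 * p.c) n : ℝ) / 2 ^ b'))
    ((m0 * (2 ^ k * m ^ 2 * (3 * p.P3 n + 4 * p.a * (2 ^ j * m))) : ℕ) : ℤ)
  rw [← h1]
  congr 1
  rw [Co.P1_add, Int.cast_natCast]
  have h2 : (2 : ℝ) ^ j = 2 ^ b' * 2 ^ k := by rw [hk, pow_add]
  have h3 : C3.P1 (4 * p.a) (3 * p.b) (2 * p.c) n = 2 * p.P2 n := by
    unfold C3.P1 Co.P2; ring
  rw [h3]
  push_cast
  rw [pow_add, h2]
  field_simp
  ring

theorem cu (p : Co) (ha : 1 ≤ p.a) (m0 : ℕ) (hm : 1 ≤ m0) (ε : ℝ) (hε : 0 < ε) : ∃ γ : ℝ, 0 < γ ∧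
    ∀ᶠ β : ℕ in atTop,
      (((range (2 ^ β)).filter fun n : ℕ => di (m0 * p.P1 n / 2 ^ β) ≤ γ).card : ℝ)
        ≤ ε * 2 ^ β := by
  classical
  obtain ⟨H, hH⟩ := exists_nat_gt (8 / ε)
  have hHr : (0 : ℝ) < H := lt_trans (by positivity) hH
  have hH1 : 1 ≤ H := by exact_mod_cast hHr
  have hHε : 1 / (H : ℝ) ≤ ε / 8 := by
    rw [div_le_div_iff₀ hHr (by norm_num)]
    rw [div_lt_iff₀ hε] at hH
    linarith
  obtain ⟨K, hK⟩ : ∃ K : ℕ, K = H * m0 := ⟨_, rfl⟩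
  have hK1 : 1 ≤ K := by rw [hK]; exact Nat.mul_pos hH1 hm
  have hKr : (0 : ℝ) < K := by exact_mod_cast hK1
  set γ : ℝ := (ε / (16 * K)) ^ 2 / 8 with hγdef
  have hγ : 0 < γ := by positivity
  set τ : ℝ := min (ε / 16) γ with hτdef
  have hτ : 0 < τ := lt_min (by positivity) hγ
  have hτ1 : τ ≤ ε / 16 := min_le_left _ _
  have hτ2 : τ ≤ γ := min_le_right _ _
  have ha4 : 1 ≤ 4 * p.a := by omega
  -- limits
  have hl1 : Tendsto (fun x : ℕ => (6 * (4 * p.a : ℕ) * K * x + 1 : ℝ) / 2 ^ x) atTop (𝓝 0) := by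
    have h1 := tendsto_pow_const_mul_const_pow_of_abs_lt_one 1
      (show |(1 / 2 : ℝ)| < 1 by rw [abs_of_pos] <;> norm_num)
    have h2 := tendsto_pow_const_mul_const_pow_of_abs_lt_one 0
      (show |(1 / 2 : ℝ)| < 1 by rw [abs_of_pos] <;> norm_num)
    have h3 := (h1.const_mul (6 * (4 * p.a : ℕ) * K : ℝ)).add h2
    simp only [mul_zero, add_zero] at h3
    refine h3.congr fun x => ?_
    rw [div_pow, one_pow, pow_zero, pow_one]
    ring
  have hl2 : ∀ᶠ x : ℕ in atTop, (6 * (4 * p.a : ℕ) * K * x + 1 : ℝ) / 2 ^ x ≤ 4 * γ := by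
    have h1 := hl1.eventually (gt_mem_nhds (show (0 : ℝ) < 4 * γ by linarith))
    exact h1.mono fun x hx => hx.le
  obtain ⟨B0, hB0⟩ := eventually_atTop.1 hl2
  have hl3 : Tendsto (fun x : ℕ => (2 : ℝ) ^ x) atTop atTop :=
    tendsto_pow_atTop_atTop_of_one_lt (by norm_num)
  obtain ⟨E0, hE0⟩ := eventually_atTop.1 (hl3.eventually_ge_atTop ((56 * H + 8) / ε))
  refine ⟨τ, hτ, eventually_atTop.2 ⟨2 * B0 + 4 * E0 + 4, ?_⟩⟩
  intro β hβ
  obtain ⟨b', hb'⟩ : ∃ b', b' = β / 2 := ⟨_, rfl⟩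
  obtain ⟨j, hj⟩ : ∃ j, j = (β + 1) / 2 := ⟨_, rfl⟩
  have hjb : j + b' = β := by omega
  have hbj : b' ≤ j := by omega
  have hb1 : B0 ≤ b' := by omega
  obtain ⟨N, hN⟩ : ∃ N : ℕ, N = 2 ^ β := ⟨_, rfl⟩
  have hNb : 2 ^ b' ≤ N := by
    rw [hN]
    exact Nat.pow_le_pow_right (by norm_num) (by omega)
  have hNr : (0 : ℝ) < N := by
    rw [hN]
    positivity
  have hNc : (N : ℝ) = 2 ^ β := by rw [hN]; push_cast; rfl
  have hM0 : 0 < 2 ^ (b' / 2) := Nat.pos_of_ne_zero (by positivity)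
  have hbad := C3.eqm_bad (4 * p.a) (3 * p.b) (2 * p.c) K b' N ha4 γ hγ hNb
  have hmain := cu_fin (fun n => (m0 * p.P1 n / 2 ^ β : ℝ))
    (fun n => (m0 * (C3.P1 (4 * p.a) (3 * p.b) (2 * p.c) n : ℝ) / 2 ^ b')) H N (2 ^ (b' / 2))
    (2 ^ j) γ τ τ (2 * N * (K * √(4 * γ + (6 * (4 * p.a : ℕ) * K * b' + 1) / 2 ^ b'))) hH1 hγ hτ.le
    hM0 (by
      intro n _ m _ h
      rw [← hjb] at h ⊢
      rw [cu_lin p m0 n j b' m hbj] at h
      exact h) (by
      refine le_trans ?_ hbad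
      have : ((range N).filter fun n : ℕ => ∃ m : ℕ, (1 ≤ m ∧ m ≤ H) ∧
          di (m * (m0 * (C3.P1 (4 * p.a) (3 * p.b) (2 * p.c) n : ℝ) / 2 ^ b')) < γ).card ≤
          ((range N).filter fun n : ℕ => ∃ m : ℕ, (1 ≤ m ∧ m ≤ K) ∧
          di (m * (C3.P1 (4 * p.a) (3 * p.b) (2 * p.c) n / 2 ^ b' : ℝ)) < γ).card := by
        apply card_le_card
        intro n hn
        rw [mem_filter] at hn ⊢
        obtain ⟨hn1, m, hm1, hm2⟩ := hn
        refine ⟨hn1, m * m0, ⟨Nat.mul_pos hm1.1 hm, ?_⟩, ?_⟩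
        · rw [hK]
          exact Nat.mul_le_mul_right _ hm1.2
        · convert hm2 using 2
          push_cast
          ring
      exact_mod_cast this)
  rw [← hNc, hN] at *
  refine hmain.trans ?_
  have hE1 : (56 * H + 8) / ε ≤ (2 : ℝ) ^ (b' / 2) := hE0 _ (by omega)
  rw [div_le_iff₀ hε] at hE1
  have hpow : (0 : ℝ) < 2 ^ (b' / 2) := by positivity
  -- first term
  have t1 : ((2 ^ β : ℕ) : ℝ) * (2 * τ + 1 / H) ≤ ((2 ^ β : ℕ) : ℝ) * (ε / 4) := by
    apply mul_le_mul_of_nonneg_left _ hNr.le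
    linarith
  -- second term
  have t2 : ((2 ^ β : ℕ) : ℝ) * (H * (4 * τ / γ + 3)) / ((2 ^ (b' / 2) : ℕ) : ℝ)
      ≤ ((2 ^ β : ℕ) : ℝ) * (ε / 8) := by
    rw [mul_div_assoc]
    apply mul_le_mul_of_nonneg_left _ hNr.le
    push_cast
    rw [div_le_iff₀ hpow]
    have h1 : 4 * τ / γ ≤ 4 := by
      rw [div_le_iff₀ hγ]
      linarith
    have h2 : (H : ℝ) * (4 * τ / γ + 3) ≤ H * 7 :=
      mul_le_mul_of_nonneg_left (by linarith) hHr.le
    linarith
  -- third term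
  have t3 : 2 * ((2 ^ β : ℕ) : ℝ) * (K * √(4 * γ + (6 * (4 * p.a : ℕ) * K * b' + 1) / 2 ^ b'))
      ≤ ((2 ^ β : ℕ) : ℝ) * (ε / 8) := by
    have h1 : √(4 * γ + (6 * (4 * p.a : ℕ) * K * b' + 1) / 2 ^ b') ≤ ε / (16 * K) := by
      rw [Real.sqrt_le_left (by positivity)]
      have h2 := hB0 b' hb1
      have h3 : (ε / (16 * K)) ^ 2 = 8 * γ := by rw [hγdef]; ring
      rw [h3]
      linarith
    have h2 : (K : ℝ) * √(4 * γ + (6 * (4 * p.a : ℕ) * K * b' + 1) / 2 ^ b') ≤ K * (ε / (16 * K)) :=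
      mul_le_mul_of_nonneg_left h1 hKr.le
    have h3 : (K : ℝ) * (ε / (16 * K)) = ε / 16 := by field_simp
    rw [h3] at h2
    have h4 := mul_le_mul_of_nonneg_left h2 (show (0 : ℝ) ≤ 2 * ((2 ^ β : ℕ) : ℝ) by positivity)
    linarith
  -- fourth term
  have t4 : ((2 ^ j : ℕ) : ℝ) * ((2 ^ (b' / 2) : ℕ) : ℝ) ≤ ((2 ^ β : ℕ) : ℝ) * (ε / 8) := by
    push_cast
    rw [← pow_add]
    have h1 : (2 : ℝ) ^ (j + b' / 2) * 2 ^ (b' / 2) ≤ 2 ^ β := by
      rw [← pow_add]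
      apply pow_le_pow_right₀ (by norm_num)
      omega
    have h3 : 8 ≤ (2 : ℝ) ^ (b' / 2) * ε := by
      have : (0 : ℝ) ≤ 56 * H := by positivity
      linarith
    have h4 : (2 : ℝ) ^ (j + b' / 2) * 8 ≤ 2 ^ (j + b' / 2) * (2 ^ (b' / 2) * ε) :=
      mul_le_mul_of_nonneg_left h3 (by positivity)
    have h5 : (2 : ℝ) ^ (j + b' / 2) * (2 ^ (b' / 2) * ε) ≤ 2 ^ β * ε := by
      rw [← mul_assoc]
      exact mul_le_mul_of_nonneg_right h1 hε.le
    linarith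
  have : (0 : ℝ) ≤ ((2 ^ β : ℕ) : ℝ) * ε := by positivity
  linarith

end Pool.Agent.Lib.MP_8fac0f_nt.Q4
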