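import Pool.Agent.Lib.MP_8fac0f_nt.Q4.Defs
import Pool.Agent.Lib.MP_8fac0f_nt.Q4.CU
import Pool.Agent.Lib.MP_8fac0f_nt.C3.Lin
import Pool.Agent.Lib.MP_8fac0f_nt.C3.Eqm

/-!
# EQL: the values of a quartic polynomial are rarely close to a multiple of `2 ^ s`, `s` low

Proof (text EQL), a copy of `C3.eqm` with `cu` in the place of `C3.sq_count`.  `H` constant
`> 8 / ε`; `γ` = the minimum of the constants of `cu p ha m _ (ε / (16 H))` for `1 ≤ m ≤ H`;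
`τ = min (ε / 16) γ`.  `j' = (s + 1) / 2`, `b' = s / 2`, `j' + b' = s`, `b' ≤ 1999999 e`,
`j' ≤ 1999999 e`, `M0 = 2 ^ (e / 2)`.
* `P (n + 2 ^ j' * m) = P n + 2 ^ j' * m * P1 n` mod `2 ^ s` (`P_add`, `2 j' ≥ s`), so
  `di (P (n + 2 ^ j' m) / 2 ^ s) = di (P n / 2 ^ s + m * (P1 n / 2 ^ b'))`.
* the set of `n` with `di (m * P1 n / 2 ^ b') < γ` for some `1 ≤ m ≤ H` is periodic mod `2 ^ b' ≤ N`:
  `C3.eqm_per` and `cu` (`b'` is large with `e`): at most `2 N * H * ε / (16 H)` elements below `N`.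
* `C3.lin_count` for the other `n`, average over `m < M0` (`cu_fin`), loss `2 ^ j' * M0 ≤ ε / 8 * N`.
-/

set_option autoImplicit false

namespace Pool.Agent.Lib.MP_8fac0f_nt.Q4

open Finset Filter Topology
open Pool.Agent.Lib.MP_8fac0f_nt.C3 (di ex)

private theorem eql_lin (p : Co) (n j b' m : ℕ) (h : b' ≤ j) :
    di ((p.P (n + 2 ^ j * m) / 2 ^ (j + b') : ℝ)) =
      di ((p.P n / 2 ^ (j + b') : ℝ) + m * (p.P1 n / 2 ^ b')) := by
  obtain ⟨k, hk⟩ := Nat.exists_eq_add_of_le h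
  have h1 := C3.di_add_int ((p.P n / 2 ^ (j + b') : ℝ) + m * (p.P1 n / 2 ^ b'))
    ((2 ^ k * m ^ 2 * (p.P2 n + p.P3 n * (2 ^ j * m) + p.a * (2 ^ j * m) ^ 2) : ℕ) : ℤ)
  rw [← h1]
  congr 1
  rw [Co.P_add, Int.cast_natCast]
  have h2 : (2 : ℝ) ^ j = 2 ^ b' * 2 ^ k := by rw [hk, pow_add]
  push_cast
  rw [pow_add, h2]
  field_simp
  ring

private theorem eql_mod (p : Co) (D n m : ℕ) (hD : 0 < D) :
    di (m * (p.P1 n / D : ℝ)) = di (m * (p.P1 (n % D) / D : ℝ)) := by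
  have hDp : (0 : ℝ) < D := by exact_mod_cast hD
  have h3 := Nat.div_add_mod n D
  have h4 := C3.di_add_int (m * (p.P1 (n % D) / D : ℝ))
    ((m * (n / D) * (2 * p.P2 (n % D) + 3 * p.P3 (n % D) * (D * (n / D))
      + 4 * p.a * (D * (n / D)) ^ 2) : ℕ) : ℤ)
  rw [Int.cast_natCast] at h4
  rw [← h4]
  have h5 : p.P1 n = p.P1 (n % D + D * (n / D)) := by
    rw [add_comm, h3]
  rw [h5, Co.P1_add]
  congr 1
  generalize n / D = x
  push_cast
  field_simp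
  ring

private theorem eql_gam (p : Co) (ha : 1 ≤ p.a) (H : ℕ) (ε : ℝ) (hε : 0 < ε) : ∃ γ : ℝ, 0 < γ ∧
    ∀ᶠ β : ℕ in atTop, ∀ m : ℕ, 1 ≤ m → m ≤ H →
      (((range (2 ^ β)).filter fun n : ℕ => di (m * p.P1 n / 2 ^ β) ≤ γ).card : ℝ)
        ≤ ε * 2 ^ β := by
  induction H with
  | zero =>
    refine ⟨1, one_pos, Eventually.of_forall fun β m h1 h2 => ?_⟩
    omega
  | succ H ih =>
    obtain ⟨γ1, hγ1, h1⟩ := ih
    obtain ⟨γ2, hγ2, h2⟩ := cu p ha (H + 1) (by omega) ε hε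
    refine ⟨min γ1 γ2, lt_min hγ1 hγ2, ?_⟩
    filter_upwards [h1, h2] with β h1 h2 m hm1 hm2
    rcases Nat.lt_or_ge m (H + 1) with h | h
    · refine le_trans ?_ (h1 m hm1 (by omega))
      have : ((range (2 ^ β)).filter fun n : ℕ => di (m * p.P1 n / 2 ^ β) ≤ min γ1 γ2).card ≤
          ((range (2 ^ β)).filter fun n : ℕ => di (m * p.P1 n / 2 ^ β) ≤ γ1).card := by
        apply card_le_card
        intro n hn
        rw [mem_filter] at hn ⊢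
        exact ⟨hn.1, hn.2.trans (min_le_left _ _)⟩
      exact_mod_cast this
    · have hmH : m = H + 1 := by omega
      subst hmH
      refine le_trans ?_ h2
      have : ((range (2 ^ β)).filter fun n : ℕ =>
          di (((H + 1 : ℕ) : ℝ) * p.P1 n / 2 ^ β) ≤ min γ1 γ2).card ≤
          ((range (2 ^ β)).filter fun n : ℕ =>
          di (((H + 1 : ℕ) : ℝ) * p.P1 n / 2 ^ β) ≤ γ2).card := by
        apply card_le_card
        intro n hn
        rw [mem_filter] at hn ⊢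
        exact ⟨hn.1, hn.2.trans (min_le_right _ _)⟩
      exact_mod_cast this

open Classical in
private theorem eql_bad (p : Co) (H b' N : ℕ) (γ ε : ℝ) (hN : 2 ^ b' ≤ N)
    (hc : ∀ m : ℕ, 1 ≤ m → m ≤ H →
      (((range (2 ^ b')).filter fun n : ℕ => di (m * p.P1 n / 2 ^ b') ≤ γ).card : ℝ)
        ≤ ε * 2 ^ b') (hε : 0 ≤ ε) :
    (((range N).filter fun n : ℕ => ∃ m : ℕ, (1 ≤ m ∧ m ≤ H) ∧
      di (m * (p.P1 n / 2 ^ b' : ℝ)) < γ).card : ℝ) ≤ 2 * N * (H * ε) := by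
  classical
  set D := 2 ^ b' with hD
  have hD0 : 0 < D := Nat.pos_of_ne_zero (by positivity)
  have hDr : ((2 : ℝ) ^ b') = (D : ℝ) := by rw [hD]; push_cast; rfl
  rw [hDr] at hc ⊢
  have hDp : (0 : ℝ) < D := by exact_mod_cast hD0
  have h1 := C3.eqm_per (fun n : ℕ => ∃ m : ℕ, (1 ≤ m ∧ m ≤ H) ∧
      di (m * (p.P1 n / D : ℝ)) < γ) D N hD0 (by
    rintro n ⟨m, hm, h2⟩
    refine ⟨m, hm, ?_⟩
    rw [← eql_mod p D n m hD0]
    exact h2)
  have h2 : ((range D).filter fun n : ℕ => ∃ m : ℕ, (1 ≤ m ∧ m ≤ H) ∧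
      di (m * (p.P1 n / D : ℝ)) < γ).card ≤ ∑ m ∈ Icc 1 H,
      ((range D).filter fun n : ℕ => di (m * p.P1 n / D) ≤ γ).card := by
    refine (card_le_card ?_).trans card_biUnion_le
    intro n hn
    rw [mem_filter] at hn
    obtain ⟨hn1, m, hm, h3⟩ := hn
    rw [mem_biUnion]
    refine ⟨m, mem_Icc.2 hm, ?_⟩
    rw [mem_filter]
    refine ⟨hn1, ?_⟩
    rw [← mul_div_assoc] at h3
    exact h3.le
  have h4 : (((range D).filter fun n : ℕ => ∃ m : ℕ, (1 ≤ m ∧ m ≤ H) ∧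
      di (m * (p.P1 n / D : ℝ)) < γ).card : ℝ) ≤ H * (ε * D) := by
    have h5 : (((range D).filter fun n : ℕ => ∃ m : ℕ, (1 ≤ m ∧ m ≤ H) ∧
      di (m * (p.P1 n / D : ℝ)) < γ).card : ℝ) ≤ ∑ m ∈ Icc 1 H,
      (((range D).filter fun n : ℕ => di (m * p.P1 n / D) ≤ γ).card : ℝ) := by
      exact_mod_cast h2
    refine h5.trans ((sum_le_sum fun m hm => hc m (mem_Icc.1 hm).1 (mem_Icc.1 hm).2).trans_eq ?_)
    rw [sum_const, Nat.card_Icc, nsmul_eq_mul, Nat.add_sub_cancel]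
  have h5 : (((range N).filter fun n : ℕ => ∃ m : ℕ, (1 ≤ m ∧ m ≤ H) ∧
      di (m * (p.P1 n / D : ℝ)) < γ).card : ℝ) ≤ ((N / D : ℕ) + 1 : ℝ) *
      (((range D).filter fun n : ℕ => ∃ m : ℕ, (1 ≤ m ∧ m ≤ H) ∧
      di (m * (p.P1 n / D : ℝ)) < γ).card : ℝ) := by
    exact_mod_cast h1
  have h6 : ((N / D : ℕ) + 1 : ℝ) * D ≤ 2 * N := by
    have h7 : (N / D) * D ≤ N := Nat.div_mul_le_self _ _
    have h8 : ((N / D : ℕ) : ℝ) * D ≤ N := by exact_mod_cast h7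
    have h9 : (D : ℝ) ≤ N := by exact_mod_cast hN
    linarith
  calc _ ≤ ((N / D : ℕ) + 1 : ℝ) * (H * (ε * D)) :=
        h5.trans (mul_le_mul_of_nonneg_left h4 (by positivity))
    _ = (((N / D : ℕ) + 1 : ℝ) * D) * (H * ε) := by ring
    _ ≤ 2 * N * (H * ε) :=
        mul_le_mul_of_nonneg_right h6 (by positivity)

theorem eql (p : Co) (ha : 1 ≤ p.a) (κ : ℕ) (ε : ℝ) (hε : 0 < ε) : ∃ τ : ℝ, 0 < τ ∧
    ∀ᶠ e : ℕ in atTop, ∀ s N : ℕ, 1999999 * e ≤ s → s ≤ 3999998 * e →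
      2 ^ (2000000 * e) ≤ N → N ≤ κ * 2 ^ (2000000 * e) →
      (((range N).filter fun n : ℕ => di (p.P n / 2 ^ s) ≤ τ).card : ℝ) ≤ ε * N := by
  classical
  obtain ⟨H, hH⟩ := exists_nat_gt (8 / ε)
  have hHr : (0 : ℝ) < H := lt_trans (by positivity) hH
  have hH1 : 1 ≤ H := by exact_mod_cast hHr
  have hHε : 1 / (H : ℝ) ≤ ε / 8 := by
    rw [div_le_div_iff₀ hHr (by norm_num)]
    rw [div_lt_iff₀ hε] at hH
    linarith
  obtain ⟨γ, hγ, hg⟩ := eql_gam p ha H (ε / (16 * H)) (by positivity)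
  obtain ⟨B0, hB0⟩ := eventually_atTop.1 hg
  set τ : ℝ := min (ε / 16) γ with hτdef
  have hτ : 0 < τ := lt_min (by positivity) hγ
  have hτ1 : τ ≤ ε / 16 := min_le_left _ _
  have hτ2 : τ ≤ γ := min_le_right _ _
  have hl3 : Tendsto (fun x : ℕ => (2 : ℝ) ^ x) atTop atTop :=
    tendsto_pow_atTop_atTop_of_one_lt (by norm_num)
  obtain ⟨E0, hE0⟩ := eventually_atTop.1 (hl3.eventually_ge_atTop ((56 * H + 8) / ε))
  refine ⟨τ, hτ, eventually_atTop.2 ⟨max B0 (2 * E0), ?_⟩⟩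
  intro e he β N hβ1 hβ2 hN _
  have he1 : B0 ≤ e := (le_max_left _ _).trans he
  have he2 : 2 * E0 ≤ e := (le_max_right _ _).trans he
  obtain ⟨b', hb'⟩ : ∃ b', b' = β / 2 := ⟨_, rfl⟩
  obtain ⟨j, hj⟩ : ∃ j, j = (β + 1) / 2 := ⟨_, rfl⟩
  have hjb : j + b' = β := by omega
  have hbj : b' ≤ j := by omega
  have hb1 : B0 ≤ b' := by omega
  have hb2 : b' ≤ 2000000 * e := by omega
  have hj2 : j ≤ 1999999 * e := by omega
  have hNb : 2 ^ b' ≤ N := (Nat.pow_le_pow_right (by norm_num) hb2).trans hN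
  have hM0 : 0 < 2 ^ (e / 2) := Nat.pos_of_ne_zero (by positivity)
  have hNr : (0 : ℝ) < N := by
    have : 0 < N := lt_of_lt_of_le (Nat.pos_of_ne_zero (by positivity)) hNb
    exact_mod_cast this
  have hbad := eql_bad p H b' N γ (ε / (16 * H)) hNb (hB0 b' hb1) (by positivity)
  have hmain := cu_fin (fun n => (p.P n / 2 ^ β : ℝ)) (fun n => (p.P1 n / 2 ^ b' : ℝ)) H N
    (2 ^ (e / 2)) (2 ^ j) γ τ τ (2 * N * (H * (ε / (16 * H)))) hH1 hγ hτ.le hM0 (by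
      intro n _ m _ h
      rw [← hjb] at h ⊢
      rw [eql_lin p n j b' m hbj] at h
      exact h) hbad
  refine hmain.trans ?_
  have hE1 : (56 * H + 8) / ε ≤ (2 : ℝ) ^ (e / 2) := hE0 _ (by omega)
  rw [div_le_iff₀ hε] at hE1
  have hpow : (0 : ℝ) < 2 ^ (e / 2) := by positivity
  -- first term
  have t1 : (N : ℝ) * (2 * τ + 1 / H) ≤ N * (ε / 4) := by
    apply mul_le_mul_of_nonneg_left _ hNr.le
    linarith
  -- second term
  have t2 : (N : ℝ) * (H * (4 * τ / γ + 3)) / ((2 ^ (e / 2) : ℕ) : ℝ) ≤ N * (ε / 8) := by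
    rw [mul_div_assoc]
    apply mul_le_mul_of_nonneg_left _ hNr.le
    push_cast
    rw [div_le_iff₀ hpow]
    have h1 : 4 * τ / γ ≤ 4 := by
      rw [div_le_iff₀ hγ]
      linarith
    have h2 : (H : ℝ) * (4 * τ / γ + 3) ≤ H * 7 :=
      mul_le_mul_of_nonneg_left (by linarith) hHr.le
    linarith
  -- third term
  have t3 : 2 * (N : ℝ) * (H * (ε / (16 * H))) = N * (ε / 8) := by
    field_simp
    ring
  -- fourth term
  have t4 : ((2 ^ j : ℕ) : ℝ) * ((2 ^ (e / 2) : ℕ) : ℝ) ≤ N * (ε / 8) := by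
    push_cast
    rw [← pow_add]
    have h1 : (2 : ℝ) ^ (j + e / 2) * 2 ^ (e / 2) ≤ 2 ^ (2000000 * e) := by
      rw [← pow_add]
      apply pow_le_pow_right₀ (by norm_num)
      omega
    have h2 : (2 : ℝ) ^ (2000000 * e) ≤ N := by exact_mod_cast hN
    have h3 : 8 ≤ (2 : ℝ) ^ (e / 2) * ε := by
      have : (0 : ℝ) ≤ 56 * H := by positivity
      linarith
    have h4 : (2 : ℝ) ^ (j + e / 2) * 8 ≤ 2 ^ (j + e / 2) * (2 ^ (e / 2) * ε) :=
      mul_le_mul_of_nonneg_left h3 (by positivity)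
    have h5 : (2 : ℝ) ^ (j + e / 2) * (2 ^ (e / 2) * ε) ≤ N * ε := by
      rw [← mul_assoc]
      exact mul_le_mul_of_nonneg_right (h1.trans h2) hε.le
    linarith
  have : (0 : ℝ) ≤ N * ε := by positivity
  linarith

end Pool.Agent.Lib.MP_8fac0f_nt.Q4
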