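import Pool.Agent.Lib.MP_8fac0f_nt.Q4.EQH
import Pool.Agent.Lib.MP_8fac0f_nt.Q4.EQL

/-!
# BDS: typical starting points are good for all the digits at which slices begin

Proof (text BDS).  Put `nS = 1999999 * E + 1 + 1998090` (number of cuts `s`),
`ε1 = ε * ε2 / (16 * nS)`.  `τ1`, `τ2` from `eqh p ha lam (2 * κ) ε1`, `eql p ha (2 * κ) ε1`; `t` with
`1 / 2 ^ t ≤ min τ1 τ2`.
* One cut `s`, one `y < 2 * 2 ^ (950 e)`: the pairs `(ν, v)`, `ν < 2 ^ j` (`j = 1999999 e`), `v < V`,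
  with `di (P (ν + y + 2 ^ j v) / 2 ^ s) ≤ 1 / 2 ^ t` inject by `n = ν + 2 ^ j v + y` into the `n < N`,
  `N = 2 ^ j * V + 2 * 2 ^ (950 e)`; `2 ^ (2000000 e) ≤ N ≤ 2 * 2 ^ j * V ≤ 2 κ 2 ^ (2000000 e)`.
  So there are at most `ε1 * (2 * 2 ^ j * V)` of them.  Sum over `y`: `≤ 4 ε1 2 ^ (950 e) 2 ^ j V`.
* Markov: the number of `ν` with more than `ε2 2 ^ (950 e) V` pairs `(y, v)` is
  `≤ 4 ε1 2 ^ j / ε2`; union over the `nS` cuts.
-/

set_option autoImplicit false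

namespace Pool.Agent.Lib.MP_8fac0f_nt.Q4

open Finset Filter Topology
open Pool.Agent.Lib.MP_8fac0f_nt.C3 (di ex)

/-- The digits at which the slices begin: `1999999 e + i l` for `i ≤ 1999999 E` and
`6000000 e - lam - (i + 1) e` for `i < 1998090`. -/
def Cut (E lam l e s : ℕ) : Prop :=
  (∃ i ≤ 1999999 * E, s = 1999999 * e + i * l) ∨
    (∃ i < 1998090, s + lam + (i + 1) * e = 6000000 * e)

/-- For every cut `s` the numbers `P (ν + y + 2 ^ (1999999 e) v)`, `y < 2 ^ (950 e + 1)`, `v < V`,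
are rarely close to a multiple of `2 ^ s`. -/
def GoodS (p : Co) (E lam t l e V : ℕ) (ε2 : ℝ) (ν : ℕ) : Prop :=
  ∀ s : ℕ, Cut E lam l e s →
    (((range (2 ^ (950 * e + 1)) ×ˢ range V).filter fun yv : ℕ × ℕ =>
      di (p.P (ν + yv.1 + 2 ^ (1999999 * e) * yv.2) / 2 ^ s) ≤ 1 / 2 ^ t).card : ℝ)
      ≤ ε2 * (2 ^ (950 * e) * V)

/-- Counting pairs through one sequence. -/
private theorem bds_one (Q : ℕ → Prop) [DecidablePred Q] (D V Y2 : ℕ) :
    ∑ ν ∈ range D, ((range Y2 ×ˢ range V).filter fun yv : ℕ × ℕ =>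
      Q (ν + yv.1 + D * yv.2)).card ≤ Y2 * ((range (D * V + Y2)).filter Q).card := by
  have h1 : ∀ y ∈ range Y2, ∑ ν ∈ range D, ∑ v ∈ range V, (if Q (ν + y + D * v) then 1 else 0) ≤
      ((range (D * V + Y2)).filter Q).card := by
    intro y hy
    have h2 : ∑ ν ∈ range D, ∑ v ∈ range V, (if Q (ν + y + D * v) then 1 else 0) =
        ((range D ×ˢ range V).filter fun x : ℕ × ℕ => Q (x.1 + y + D * x.2)).card := by
      rw [card_filter, sum_product]
    rw [h2]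
    refine card_le_card_of_injOn (fun x : ℕ × ℕ => x.1 + y + D * x.2) ?_ ?_
    · intro x hx
      rw [mem_coe, mem_filter, mem_product, mem_range, mem_range] at hx
      rw [mem_coe, mem_filter, mem_range]
      refine ⟨?_, hx.2⟩
      have hy' := mem_range.1 hy
      have h3 : D * x.2 + D ≤ D * V := by
        rw [← Nat.mul_succ]
        exact Nat.mul_le_mul_left D hx.1.2
      have h4 := hx.1.1
      show x.1 + y + D * x.2 < D * V + Y2
      omega
    · intro x hx x' hx' h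
      rw [mem_coe, mem_filter, mem_product, mem_range, mem_range] at hx hx'
      have h3 : x.1 + D * x.2 = x'.1 + D * x'.2 := by
        have : x.1 + y + D * x.2 = x'.1 + y + D * x'.2 := h
        omega
      have h4 : x.1 = x'.1 := by
        have h5 := congrArg (· % D) h3
        simp only [Nat.add_mul_mod_self_left] at h5
        rwa [Nat.mod_eq_of_lt hx.1.1, Nat.mod_eq_of_lt hx'.1.1] at h5
      have h6 : D * x.2 = D * x'.2 := by omega
      have hD : 0 < D := lt_of_le_of_lt (Nat.zero_le _) hx.1.1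
      exact Prod.ext h4 (Nat.eq_of_mul_eq_mul_left hD h6)
  have h2 : ∀ ν, ((range Y2 ×ˢ range V).filter fun yv : ℕ × ℕ => Q (ν + yv.1 + D * yv.2)).card =
      ∑ y ∈ range Y2, ∑ v ∈ range V, (if Q (ν + y + D * v) then 1 else 0) := by
    intro ν
    rw [card_filter, sum_product]
  simp_rw [h2]
  rw [sum_comm]
  refine (sum_le_sum h1).trans ?_
  rw [sum_const, card_range, smul_eq_mul]

/-- Markov for one cut. -/
private theorem bds_markov (Q : ℕ → Prop) [DecidablePred Q] (D V Y2 : ℕ) (ε1 T : ℝ)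
    (h : (((range (D * V + Y2)).filter Q).card : ℝ) ≤ ε1 * (D * V + Y2 : ℕ))
    [DecidablePred fun ν : ℕ => T < (((range Y2 ×ˢ range V).filter fun yv : ℕ × ℕ =>
      Q (ν + yv.1 + D * yv.2)).card : ℝ)] :
    (((range D).filter fun ν : ℕ => T < (((range Y2 ×ˢ range V).filter fun yv : ℕ × ℕ =>
      Q (ν + yv.1 + D * yv.2)).card : ℝ)).card : ℝ) * T ≤ Y2 * (ε1 * (D * V + Y2 : ℕ)) := by
  have h1 := bds_one Q D V Y2
  have h2 : ∑ ν ∈ range D, (((range Y2 ×ˢ range V).filter fun yv : ℕ × ℕ =>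
      Q (ν + yv.1 + D * yv.2)).card : ℝ) ≤ Y2 * (((range (D * V + Y2)).filter Q).card : ℝ) := by
    exact_mod_cast h1
  have h3 := h2.trans (mul_le_mul_of_nonneg_left h (Nat.cast_nonneg Y2))
  refine le_trans ?_ h3
  calc (((range D).filter fun ν : ℕ => T < (((range Y2 ×ˢ range V).filter fun yv : ℕ × ℕ =>
        Q (ν + yv.1 + D * yv.2)).card : ℝ)).card : ℝ) * T
      = ∑ ν ∈ (range D).filter fun ν : ℕ => T < (((range Y2 ×ˢ range V).filter
          fun yv : ℕ × ℕ => Q (ν + yv.1 + D * yv.2)).card : ℝ), T := by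
        rw [sum_const, nsmul_eq_mul]
    _ ≤ ∑ ν ∈ (range D).filter fun ν : ℕ => T < (((range Y2 ×ˢ range V).filter
          fun yv : ℕ × ℕ => Q (ν + yv.1 + D * yv.2)).card : ℝ),
        (((range Y2 ×ˢ range V).filter fun yv : ℕ × ℕ => Q (ν + yv.1 + D * yv.2)).card : ℝ) :=
        sum_le_sum fun ν hν => (mem_filter.1 hν).2.le
    _ ≤ _ := sum_le_sum_of_subset_of_nonneg (filter_subset _ _) fun _ _ _ => Nat.cast_nonneg _

theorem bds (p : Co) (ha : 1 ≤ p.a) (E lam κ : ℕ) (hE : 1 ≤ E) (ε ε2 : ℝ) (hε : 0 < ε)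
    (hε2 : 0 < ε2) : ∃ t : ℕ, ∀ᶠ l : ℕ in atTop, ∀ e V : ℕ, e = E * l → 2 ^ e ≤ V →
      V ≤ κ * 2 ^ e → ∃ bad : Finset ℕ, (bad.card : ℝ) ≤ ε * 2 ^ (1999999 * e) ∧
        ∀ ν < 2 ^ (1999999 * e), ν ∉ bad → GoodS p E lam t l e V ε2 ν := by
  classical
  obtain ⟨nS, hnS⟩ : ∃ nS : ℕ, nS = 1999999 * E + 1 + 1998090 := ⟨_, rfl⟩
  have hnS1 : 0 < nS := by omega
  have hnSr : (0 : ℝ) < nS := by exact_mod_cast hnS1
  set ε1 : ℝ := ε * ε2 / (4 * nS) with hε1def
  have hε1 : 0 < ε1 := by positivity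
  obtain ⟨τ1, hτ1, H1⟩ := eqh p ha lam (2 * κ) ε1 hε1
  obtain ⟨τ2, hτ2, H2⟩ := eql p ha (2 * κ) ε1 hε1
  obtain ⟨e1, H1⟩ := eventually_atTop.1 H1
  obtain ⟨e2, H2⟩ := eventually_atTop.1 H2
  obtain ⟨t, ht⟩ : ∃ t : ℕ, (1 / 2 : ℝ) ^ t < min τ1 τ2 :=
    exists_pow_lt_of_lt_one (lt_min hτ1 hτ2) (by norm_num)
  have ht' : (1 : ℝ) / 2 ^ t = (1 / 2) ^ t := by rw [one_div_pow]
  have ht1 : (1 : ℝ) / 2 ^ t ≤ τ1 := ht' ▸ (ht.le.trans (min_le_left _ _))
  have ht2 : (1 : ℝ) / 2 ^ t ≤ τ2 := ht' ▸ (ht.le.trans (min_le_right _ _))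
  refine ⟨t, eventually_atTop.2 ⟨e1 + e2 + 1, ?_⟩⟩
  intro l hl e V he hV1 hV2
  have hle : l ≤ e := by
    rw [he]
    exact Nat.le_mul_of_pos_left l hE
  have he1 : e1 ≤ e := by omega
  have he2 : e2 ≤ e := by omega
  have he0 : 1 ≤ e := by omega
  obtain ⟨D, hD⟩ : ∃ D : ℕ, D = 2 ^ (1999999 * e) := ⟨_, rfl⟩
  obtain ⟨Y2, hY2⟩ : ∃ Y2 : ℕ, Y2 = 2 ^ (950 * e + 1) := ⟨_, rfl⟩
  have hDpos : 0 < D := hD ▸ Nat.pos_of_ne_zero (by positivity)
  have hVpos : 0 < V := lt_of_lt_of_le (Nat.pos_of_ne_zero (by positivity)) hV1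
  have hDV : 2 ^ (2000000 * e) ≤ D * V := by
    calc 2 ^ (2000000 * e) = 2 ^ (1999999 * e) * 2 ^ e := by rw [← pow_add]; congr 1; ring
      _ ≤ D * V := hD ▸ Nat.mul_le_mul_left _ hV1
  have hDV2 : D * V ≤ κ * 2 ^ (2000000 * e) := by
    calc D * V ≤ D * (κ * 2 ^ e) := Nat.mul_le_mul_left _ hV2
      _ = κ * (2 ^ (1999999 * e) * 2 ^ e) := by rw [hD]; ring
      _ = κ * 2 ^ (2000000 * e) := by rw [← pow_add]; congr 2; ring
  have hYDV : Y2 ≤ D * V := by
    refine le_trans ?_ hDV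
    rw [hY2]
    exact Nat.pow_le_pow_right (by norm_num) (by omega)
  have hN1 : 2 ^ (2000000 * e) ≤ D * V + Y2 := hDV.trans (Nat.le_add_right _ _)
  have hN2 : D * V + Y2 ≤ 2 * κ * 2 ^ (2000000 * e) := by
    have : 2 * κ * 2 ^ (2000000 * e) = κ * 2 ^ (2000000 * e) + κ * 2 ^ (2000000 * e) := by ring
    omega
  -- one cut
  have hcut : ∀ s : ℕ, Cut E lam l e s →
      (((range (D * V + Y2)).filter fun n : ℕ => di (p.P n / 2 ^ s) ≤ 1 / 2 ^ t).card : ℝ) ≤
        ε1 * (D * V + Y2 : ℕ) := by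
    intro s hs
    rcases hs with ⟨i, hi, hs⟩ | ⟨i, hi, hs⟩
    · have h1 : i * l ≤ 1999999 * e := by
        calc i * l ≤ 1999999 * E * l := Nat.mul_le_mul_right l hi
          _ = 1999999 * e := by rw [he]; ring
      refine le_trans ?_ (H2 e he2 s (D * V + Y2) (by omega) (by omega) hN1 hN2)
      have : ((range (D * V + Y2)).filter fun n : ℕ => di (p.P n / 2 ^ s) ≤ 1 / 2 ^ t) ⊆
          (range (D * V + Y2)).filter fun n : ℕ => di (p.P n / 2 ^ s) ≤ τ2 := by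
        intro n hn
        rw [mem_filter] at hn ⊢
        exact ⟨hn.1, hn.2.trans ht2⟩
      exact_mod_cast card_le_card this
    · have h1 : (i + 1) * e ≤ 1998090 * e := Nat.mul_le_mul_right e (by omega)
      refine le_trans ?_ (H1 e he1 s (D * V + Y2) (by omega) (by omega) hN1 hN2)
      have : ((range (D * V + Y2)).filter fun n : ℕ => di (p.P n / 2 ^ s) ≤ 1 / 2 ^ t) ⊆
          (range (D * V + Y2)).filter fun n : ℕ => di (p.P n / 2 ^ s) ≤ τ1 := by
        intro n hn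
        rw [mem_filter] at hn ⊢
        exact ⟨hn.1, hn.2.trans ht1⟩
      exact_mod_cast card_le_card this
  -- the bad points of one cut
  let badS : ℕ → Finset ℕ := fun s => (range D).filter fun ν : ℕ =>
    ε2 * (2 ^ (950 * e) * V) < (((range Y2 ×ˢ range V).filter fun yv : ℕ × ℕ =>
      di (p.P (ν + yv.1 + D * yv.2) / 2 ^ s) ≤ 1 / 2 ^ t).card : ℝ)
  have hVr : (0 : ℝ) < V := by exact_mod_cast hVpos
  have hDr : (0 : ℝ) < D := by exact_mod_cast hDpos
  have hT : 0 < ε2 * ((2 : ℝ) ^ (950 * e) * V) := by positivity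
  have hbadS : ∀ s, Cut E lam l e s → ((badS s).card : ℝ) ≤ ε / nS * D := by
    intro s hs
    have h1 := bds_markov (fun n : ℕ => di (p.P n / 2 ^ s) ≤ 1 / 2 ^ t) D V Y2 ε1 (ε2 * ((2 : ℝ) ^ (950 * e) * V))
      (hcut s hs)
    have h2 : (Y2 : ℝ) * (ε1 * (D * V + Y2 : ℕ)) ≤
        (2 * 2 ^ (950 * e)) * (ε1 * (2 * (D * V))) := by
      have h3 : (Y2 : ℝ) = 2 * 2 ^ (950 * e) := by rw [hY2]; push_cast; rw [pow_succ]; ring
      have h4 : ((D * V + Y2 : ℕ) : ℝ) ≤ 2 * (D * V) := by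
        have : D * V + Y2 ≤ 2 * (D * V) := by omega
        exact_mod_cast this
      rw [← h3]
      gcongr
    have h3 : ((badS s).card : ℝ) * (ε2 * (2 ^ (950 * e) * V)) ≤
        (ε / nS * D) * (ε2 * (2 ^ (950 * e) * V)) := by
      refine (h1.trans h2).trans_eq ?_
      rw [hε1def]
      field_simp
      ring
    exact le_of_mul_le_mul_right h3 hT
  -- all the cuts
  let cuts : Finset ℕ := (range (1999999 * E + 1)).image (fun i => 1999999 * e + i * l) ∪
    (range 1998090).image fun i => 6000000 * e - lam - (i + 1) * e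
  have hcutsc : cuts.card ≤ nS := by
    refine (card_union_le _ _).trans ?_
    rw [hnS]
    refine Nat.add_le_add ?_ ?_
    · exact card_image_le.trans_eq (card_range _)
    · exact card_image_le.trans_eq (card_range _)
  have hcuts : ∀ s, Cut E lam l e s → s ∈ cuts := by
    intro s hs
    rw [mem_union, mem_image, mem_image]
    rcases hs with ⟨i, hi, hs⟩ | ⟨i, hi, hs⟩
    · exact Or.inl ⟨i, mem_range.2 (by omega), hs.symm⟩
    · exact Or.inr ⟨i, mem_range.2 hi, by omega⟩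
  refine ⟨(cuts.filter fun s => Cut E lam l e s).biUnion badS, ?_, ?_⟩
  · have h1 : (((cuts.filter fun s => Cut E lam l e s).biUnion badS).card : ℝ) ≤
        ∑ s ∈ cuts.filter fun s => Cut E lam l e s, ((badS s).card : ℝ) := by
      exact_mod_cast card_biUnion_le
    have h2 : ∑ s ∈ cuts.filter fun s => Cut E lam l e s, ((badS s).card : ℝ) ≤
        ∑ s ∈ cuts.filter fun s => Cut E lam l e s, ε / nS * D :=
      sum_le_sum fun s hs => hbadS s (mem_filter.1 hs).2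
    refine (h1.trans h2).trans ?_
    rw [sum_const, nsmul_eq_mul]
    have h3 : ((cuts.filter fun s => Cut E lam l e s).card : ℝ) ≤ nS := by
      exact_mod_cast (card_filter_le _ _).trans hcutsc
    calc ((cuts.filter fun s => Cut E lam l e s).card : ℝ) * (ε / nS * D)
        ≤ nS * (ε / nS * D) := mul_le_mul_of_nonneg_right h3 (by positivity)
      _ = ε * 2 ^ (1999999 * e) := by
          rw [hD]
          push_cast
          field_simp
  · intro ν hν hbad s hs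
    by_contra hcon
    rw [not_le] at hcon
    apply hbad
    rw [mem_biUnion]
    refine ⟨s, mem_filter.2 ⟨hcuts s hs, hs⟩, ?_⟩
    rw [mem_filter, mem_range]
    refine ⟨hD ▸ hν, ?_⟩
    rw [hD, hY2]
    exact hcon

end Pool.Agent.Lib.MP_8fac0f_nt.Q4
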