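import Pool.Agent.Lib.MP_8fac0f_nt.Q4.Defs
import Pool.Agent.Lib.MP_8fac0f_nt.C3.Cells

/-!
# CL4: the derivative along the cells
-/

set_option autoImplicit false

namespace Pool.Agent.Lib.MP_8fac0f_nt.Q4

open Finset Filter Topology
open Pool.Agent.Lib.MP_8fac0f_nt.C3 (di ex card_le_of_diam_nat div_bounds)

/-- Differences of `P1`. -/
theorem P1_diff4 (p : Co) (n m : ℕ) : (p.P1 m : ℝ) - p.P1 n
    = (m - n) * (4 * p.a * (m ^ 2 + m * n + n ^ 2) + 3 * p.b * (m + n) + 2 * p.c) := by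
  unfold Co.P1; push_cast; ring

/-- Upper bound for `P1` on the range. -/
theorem P1_le4 (p : Co) (κ e n0 v : ℕ) (hn0 : n0 < 2 ^ (1999999 * e + 1)) (hv : v ≤ κ * 2 ^ e) :
    p.P1 (n0 + 2 ^ (1999999 * e) * v) ≤ 4 * p.S * 2 ^ (3 * (κ + 2)) * 2 ^ (6000000 * e) := by
  have hn : n0 + 2 ^ (1999999 * e) * v ≤ 2 ^ (2000000 * e + (κ + 2)) := by
    have e1 : 2 ^ (2000000 * e) = 2 ^ (1999999 * e) * 2 ^ e := by rw [← pow_add]; congr 1; ring
    have e2 : 2 ^ (1999999 * e) * v ≤ 2 ^ (1999999 * e) * (κ * 2 ^ e) := Nat.mul_le_mul_left _ hv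
    have e3 : (1 : ℕ) ≤ 2 ^ e := Nat.one_le_two_pow
    have e4 : 2 ^ (1999999 * e) * 1 ≤ 2 ^ (1999999 * e) * 2 ^ e := Nat.mul_le_mul_left _ e3
    have e5 : κ + 2 ≤ 2 ^ (κ + 2) := Nat.lt_two_pow_self.le
    rw [pow_succ] at hn0
    rw [pow_add, e1]
    have e6 : 2 ^ (1999999 * e) * 2 ^ e * (κ + 2) ≤ 2 ^ (1999999 * e) * 2 ^ e * 2 ^ (κ + 2) :=
      Nat.mul_le_mul_left _ e5
    nlinarith
  have h1 := p.P1_le _ _ hn
  refine h1.trans_eq ?_
  rw [mul_assoc (4 * p.S), ← pow_add]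
  congr 2
  ring

/-- (CL4) -/
theorem cells4 (p : Co) (ha : 1 ≤ p.a) (κ : ℕ) : ∃ C : ℕ, ∀ (lam : ℕ) (η : ℝ), 0 < η → η ≤ 1 →
    ∃ H0 : ℕ, ∀ H : ℕ, H0 ≤ H → ∀ᶠ e : ℕ in atTop, ∀ n0 < 2 ^ (1999999 * e + 1), ∀ V : ℕ,
      2 ^ e ≤ V → V ≤ κ * 2 ^ e → ∀ w : ℕ → ℝ, (∀ n, 0 ≤ w n ∧ w n ≤ 1) →
      ∑ h ∈ range H, w (p.P1 (n0 + 2 ^ (1999999 * e) * (h * V / H)) / 2 ^ (6000000 * e - lam))
        ≤ H * (η + C / (η ^ 2 * 2 ^ lam) * ∑ n ∈ range (C * 2 ^ lam), w n) := by
  classical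
  obtain ⟨C, hC⟩ : ∃ C : ℕ, C = 4 * p.S * 2 ^ (3 * (κ + 2)) + 6 := ⟨_, rfl⟩
  refine ⟨C, fun lam η hη hη1 => ?_⟩
  refine ⟨max (2 ^ lam) (⌈2 / η⌉₊ + 1), fun H hH => ?_⟩
  have hH1 : 2 ^ lam ≤ H := le_trans (le_max_left _ _) hH
  have hH2 : ⌈2 / η⌉₊ + 1 ≤ H := le_trans (le_max_right _ _) hH
  have hHpos : 0 < H := by omega
  have hHr : (0 : ℝ) < H := by exact_mod_cast hHpos
  have hH2r : 2 / η ≤ H := by
    have : 2 / η ≤ (⌈2 / η⌉₊ : ℝ) := Nat.le_ceil _
    have h2 : ((⌈2 / η⌉₊ + 1 : ℕ) : ℝ) ≤ H := by exact_mod_cast hH2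
    push_cast at h2
    linarith
  have hHη : 2 ≤ η * H := by
    rw [div_le_iff₀ hη] at hH2r; linarith
  have hH1r : (2 : ℝ) ^ lam ≤ H := by exact_mod_cast hH1
  have hη2 : 0 < η ^ 2 := by positivity
  have hη21 : η ^ 2 ≤ 1 := by nlinarith
  have htend : Tendsto (fun e : ℕ => (2 : ℝ) ^ e) atTop atTop :=
    tendsto_pow_atTop_atTop_of_one_lt (by norm_num)
  filter_upwards [htend.eventually (eventually_ge_atTop (H : ℝ)),
    htend.eventually (eventually_ge_atTop (4 / η)), eventually_ge_atTop lam] with e he1 he2 he3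
  intro n0 hn0 V hV1 hV2 w hw
  have hV1r : (2 : ℝ) ^ e ≤ V := by exact_mod_cast hV1
  have h2e : (0 : ℝ) < 2 ^ e := by positivity
  have hVpos : (0 : ℝ) < V := lt_of_lt_of_le h2e hV1r
  obtain ⟨X, hX⟩ : ∃ X : ℕ → ℕ, X = fun h =>
    p.P1 (n0 + 2 ^ (1999999 * e) * (h * V / H)) / 2 ^ (6000000 * e - lam) := ⟨_, rfl⟩
  have hXh : ∀ h, p.P1 (n0 + 2 ^ (1999999 * e) * (h * V / H)) / 2 ^ (6000000 * e - lam) = X h :=
    fun h => by rw [hX]
  rw [sum_congr rfl fun h _ => congrArg w (hXh h)]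
  have hsplit : ∑ h ∈ range H, w (X h)
      = ∑ h ∈ (range H).filter (fun h : ℕ => (h : ℝ) < η / 2 * H), w (X h)
        + ∑ h ∈ (range H).filter (fun h : ℕ => ¬ (h : ℝ) < η / 2 * H), w (X h) :=
    (Finset.sum_filter_add_sum_filter_not _ _ _).symm
  -- first part
  have hpart1 : ∑ h ∈ (range H).filter (fun h : ℕ => (h : ℝ) < η / 2 * H), w (X h)
      ≤ H * η := by
    have h1 : ∑ h ∈ (range H).filter (fun h : ℕ => (h : ℝ) < η / 2 * H), w (X h)
        ≤ ∑ h ∈ (range H).filter (fun h : ℕ => (h : ℝ) < η / 2 * H), (1 : ℝ) :=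
      Finset.sum_le_sum fun h _ => (hw _).2
    refine h1.trans ?_
    rw [Finset.sum_const, nsmul_eq_mul, mul_one]
    have h2 := card_le_of_diam_nat ((range H).filter (fun h : ℕ => (h : ℝ) < η / 2 * H))
      (η / 2 * H) (by positivity) (fun x _ y hy _ => by
        have := (Finset.mem_filter.1 hy).2
        have hx0 : (0 : ℝ) ≤ x := by positivity
        linarith)
    linarith
  -- second part
  have hXlt : ∀ h < H, X h < C * 2 ^ lam := by
    intro h hh
    have hv : h * V / H ≤ κ * 2 ^ e := by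
      apply Nat.div_le_of_le_mul
      calc h * V ≤ H * V := Nat.mul_le_mul_right _ hh.le
        _ ≤ H * (κ * 2 ^ e) := Nat.mul_le_mul_left _ hV2
    have h1 := P1_le4 p κ e n0 (h * V / H) hn0 hv
    have e1 : 2 ^ (6000000 * e) = 2 ^ lam * 2 ^ (6000000 * e - lam) := by
      rw [← pow_add]; congr 1; omega
    rw [← hXh h]
    rw [Nat.div_lt_iff_lt_mul (by positivity)]
    have e2 : C * 2 ^ lam * 2 ^ (6000000 * e - lam) = C * 2 ^ (6000000 * e) := by
      rw [e1]; ring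
    rw [e2]
    refine lt_of_le_of_lt h1 ?_
    apply Nat.mul_lt_mul_of_pos_right _ (by positivity)
    omega
  have hfib : ∀ n : ℕ, ((((range H).filter (fun h : ℕ => ¬ (h : ℝ) < η / 2 * H)).filter
      fun h => X h = n).card : ℝ) ≤ H * (C / (η ^ 2 * 2 ^ lam)) := by
    intro n
    have ha' : (1 : ℝ) ≤ p.a := by exact_mod_cast ha
    have key := card_le_of_diam_nat
      (((range H).filter (fun h : ℕ => ¬ (h : ℝ) < η / 2 * H)).filter fun h => X h = n)
      (1 + H / (4 * p.a * (η / 4) ^ 2 * 2 ^ lam)) (by positivity) ?_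
    · refine key.trans ?_
      have e1 : H * ((C : ℝ) / (η ^ 2 * 2 ^ lam)) = C * H / (η ^ 2 * 2 ^ lam) := by ring
      rw [e1, le_div_iff₀ (by positivity)]
      have e2 : (H : ℝ) / (4 * p.a * (η / 4) ^ 2 * 2 ^ lam) ≤ H / (1 / 4 * η ^ 2 * 2 ^ lam) := by
        apply div_le_div_of_nonneg_left hHr.le (by positivity)
        apply mul_le_mul_of_nonneg_right _ (by positivity)
        nlinarith
      have e3 : (H : ℝ) / (1 / 4 * η ^ 2 * 2 ^ lam) * (η ^ 2 * 2 ^ lam) = 4 * H := by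
        field_simp
      have e4 : η ^ 2 * 2 ^ lam ≤ H := by
        have : η ^ 2 * 2 ^ lam ≤ 1 * 2 ^ lam := mul_le_mul_of_nonneg_right hη21 (by positivity)
        linarith
      have e5 : (6 : ℝ) * H ≤ C * H := by
        apply mul_le_mul_of_nonneg_right _ hHr.le
        rw [hC]; push_cast
        have : (0 : ℝ) ≤ 4 * p.S * 2 ^ (3 * (κ + 2)) := by positivity
        linarith
      have e6 : (0 : ℝ) ≤ η ^ 2 * 2 ^ lam := by positivity
      have e7 := mul_le_mul_of_nonneg_right e2 e6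
      rw [e3] at e7
      linarith
    · intro x hx y hy hxy
      obtain ⟨hx1, hx2⟩ := Finset.mem_filter.1 hx
      obtain ⟨hy1, hy2⟩ := Finset.mem_filter.1 hy
      obtain ⟨hx3, hx4⟩ := Finset.mem_filter.1 hx1
      rw [not_lt] at hx4
      obtain ⟨vx, hvx⟩ : ∃ vx : ℕ, vx = x * V / H := ⟨_, rfl⟩
      obtain ⟨vy, hvy⟩ : ∃ vy : ℕ, vy = y * V / H := ⟨_, rfl⟩
      obtain ⟨bx1, bx2⟩ := div_bounds x V H hHpos
      obtain ⟨by1, by2⟩ := div_bounds y V H hHpos
      rw [← hvx] at bx1 bx2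
      rw [← hvy] at by1 by2
      by_contra hcon
      rw [not_le] at hcon
      -- the difference of the values of `P1`
      have hlt : (p.P1 (n0 + 2 ^ (1999999 * e) * vy) : ℝ) - p.P1 (n0 + 2 ^ (1999999 * e) * vx)
          < 2 ^ (6000000 * e - lam) := by
        have q1 : p.P1 (n0 + 2 ^ (1999999 * e) * vy) / 2 ^ (6000000 * e - lam)
            = p.P1 (n0 + 2 ^ (1999999 * e) * vx) / 2 ^ (6000000 * e - lam) := by
          have := hy2.trans hx2.symm
          rw [← hXh, ← hXh, ← hvx, ← hvy] at this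
          exact this
        have q2 := Nat.lt_div_mul_add (a := p.P1 (n0 + 2 ^ (1999999 * e) * vy))
          (b := 2 ^ (6000000 * e - lam)) (by positivity)
        have q3 := Nat.div_mul_le_self (p.P1 (n0 + 2 ^ (1999999 * e) * vx))
          (2 ^ (6000000 * e - lam))
        rw [q1] at q2
        have q4 : p.P1 (n0 + 2 ^ (1999999 * e) * vy)
            < p.P1 (n0 + 2 ^ (1999999 * e) * vx) + 2 ^ (6000000 * e - lam) := by linarith
        have q5 : (p.P1 (n0 + 2 ^ (1999999 * e) * vy) : ℝ)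
            < p.P1 (n0 + 2 ^ (1999999 * e) * vx) + 2 ^ (6000000 * e - lam) := by
          exact_mod_cast q4
        linarith
      rw [P1_diff4] at hlt
      push_cast at hlt
      -- lower bounds
      have r1 : (η / 2) * V ≤ x * V / H := by
        rw [le_div_iff₀ hHr]
        have := mul_le_mul_of_nonneg_right hx4 hVpos.le
        linarith
      have r2 : 1 ≤ (η / 4) * V := by
        have : 4 / η ≤ V := he2.trans hV1r
        rw [div_le_iff₀ hη] at this
        linarith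
      have r3 : (x : ℝ) * V / H ≤ y * V / H := by
        apply div_le_div_of_nonneg_right _ hHr.le
        apply mul_le_mul_of_nonneg_right _ hVpos.le
        exact_mod_cast hxy
      have r4 : (η / 4) * V ≤ (vy : ℝ) := by linarith
      have r6 : (2 : ℝ) ^ (6000000 * e - lam) * 2 ^ lam
          = (2 ^ (1999999 * e)) ^ 3 * (2 ^ e) ^ 3 := by
        rw [← pow_add, ← pow_mul, ← pow_mul, ← pow_add]; congr 1; omega
      obtain ⟨J, hJ⟩ : ∃ J : ℝ, J = 2 ^ (1999999 * e) := ⟨_, rfl⟩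
      have hJ0 : 0 < J := by rw [hJ]; positivity
      rw [← hJ] at hlt r6
      have s1 : ((y : ℝ) - x) * V / H - 1 ≥ V / (4 * p.a * (η / 4) ^ 2 * 2 ^ lam) := by
        have t1 : (1 + H / (4 * p.a * (η / 4) ^ 2 * 2 ^ lam)) * V / H ≤ ((y : ℝ) - x) * V / H := by
          apply div_le_div_of_nonneg_right _ hHr.le
          exact mul_le_mul_of_nonneg_right hcon.le hVpos.le
        have t2 : (1 + H / (4 * p.a * (η / 4) ^ 2 * 2 ^ lam)) * V / H
            = V / H + V / (4 * p.a * (η / 4) ^ 2 * 2 ^ lam) := by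
          field_simp
        have t3 : 1 ≤ (V : ℝ) / H := by
          rw [le_div_iff₀ hHr]; linarith
        rw [t2] at t1
        linarith
      have s2 : 0 < (V : ℝ) / (4 * p.a * (η / 4) ^ 2 * 2 ^ lam) := by positivity
      have s3 : (V : ℝ) / (4 * p.a * (η / 4) ^ 2 * 2 ^ lam) ≤ (vy : ℝ) - vx := by
        have : ((y : ℝ) - x) * V / H = y * V / H - x * V / H := by ring
        rw [this] at s1
        linarith
      have u1 : J * (V / (4 * p.a * (η / 4) ^ 2 * 2 ^ lam))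
          ≤ (n0 : ℝ) + J * vy - (n0 + J * vx) := by
        have := mul_le_mul_of_nonneg_left s3 hJ0.le
        linarith
      have u2 : 4 * p.a * (J * ((η / 4) * V)) ^ 2
          ≤ 4 * p.a * (((n0 : ℝ) + J * vy) ^ 2 + (n0 + J * vy) * (n0 + J * vx)
            + (n0 + J * vx) ^ 2) + 3 * p.b * (n0 + J * vy + (n0 + J * vx)) + 2 * p.c := by
        have v1 := mul_le_mul_of_nonneg_left r4 hJ0.le
        have v2 : J * ((η / 4) * V) ≤ (n0 : ℝ) + J * vy := by
          have : (0 : ℝ) ≤ n0 := by positivity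
          linarith
        have v3 : (J * ((η / 4) * V)) ^ 2 ≤ ((n0 : ℝ) + J * vy) ^ 2 :=
          pow_le_pow_left₀ (by positivity) v2 2
        have v4 := mul_le_mul_of_nonneg_left v3 (show (0 : ℝ) ≤ 4 * p.a by positivity)
        have v5 : (0 : ℝ) ≤ 4 * p.a * ((n0 + J * vy) * (n0 + J * vx) + (n0 + J * vx) ^ 2) := by
          positivity
        have v6 : (0 : ℝ) ≤ 3 * p.b * (n0 + J * vy + (n0 + J * vx)) := by positivity
        have v7 : (0 : ℝ) ≤ 2 * p.c := by positivity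
        linarith
      have s4 := mul_le_mul u1 u2 (by positivity) (le_trans (by positivity) u1)
      have s5 : (J * (V / (4 * p.a * (η / 4) ^ 2 * 2 ^ lam))) * (4 * p.a * (J * ((η / 4) * V)) ^ 2)
          = J ^ 3 * V ^ 3 / 2 ^ lam := by
        have : (p.a : ℝ) ≠ 0 := by positivity
        field_simp
      have s6 : (2 : ℝ) ^ (6000000 * e - lam) ≤ J ^ 3 * V ^ 3 / 2 ^ lam := by
        rw [le_div_iff₀ (by positivity), r6]
        apply mul_le_mul_of_nonneg_left _ (by positivity)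
        exact pow_le_pow_left₀ h2e.le hV1r 3
      rw [s5] at s4
      linarith
  have hpart2 : ∑ h ∈ (range H).filter (fun h : ℕ => ¬ (h : ℝ) < η / 2 * H), w (X h)
      ≤ H * (C / (η ^ 2 * 2 ^ lam)) * ∑ n ∈ range (C * 2 ^ lam), w n := by
    have h1 : ∑ h ∈ (range H).filter (fun h : ℕ => ¬ (h : ℝ) < η / 2 * H), w (X h)
        = ∑ n ∈ range (C * 2 ^ lam),
          ∑ h ∈ ((range H).filter (fun h : ℕ => ¬ (h : ℝ) < η / 2 * H)).filter
            (fun h => X h = n), w (X h) := by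
      rw [Finset.sum_fiberwise_of_maps_to]
      intro h hh
      rw [Finset.mem_range]
      exact hXlt h (Finset.mem_range.1 (Finset.mem_filter.1 hh).1)
    rw [h1, Finset.mul_sum]
    apply Finset.sum_le_sum
    intro n _
    have h2 : ∑ h ∈ ((range H).filter (fun h : ℕ => ¬ (h : ℝ) < η / 2 * H)).filter
            (fun h => X h = n), w (X h)
        = ∑ h ∈ ((range H).filter (fun h : ℕ => ¬ (h : ℝ) < η / 2 * H)).filter
            (fun h => X h = n), w n :=
      Finset.sum_congr rfl fun h hh => by rw [(Finset.mem_filter.1 hh).2]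
    rw [h2, Finset.sum_const, nsmul_eq_mul]
    exact mul_le_mul_of_nonneg_right (hfib n) (hw n).1
  rw [hsplit]
  have : (H : ℝ) * (η + C / (η ^ 2 * 2 ^ lam) * ∑ n ∈ range (C * 2 ^ lam), w n)
      = H * η + H * (C / (η ^ 2 * 2 ^ lam)) * ∑ n ∈ range (C * 2 ^ lam), w n := by ring
  rw [this]
  exact add_le_add hpart1 hpart2

end Pool.Agent.Lib.MP_8fac0f_nt.Q4
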