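import Pool.Agent.Lib.MP_8fac0f_nt.Q4.Defs
import Pool.Agent.Lib.MP_8fac0f_nt.C3.Dig

/-!
# DIG2: sums over numbers with a weight for each digit block of a given set
-/

set_option autoImplicit false

namespace Pool.Agent.Lib.MP_8fac0f_nt.Q4

open Finset Filter Topology
open Pool.Agent.Lib.MP_8fac0f_nt.C3 (di ex)

/-- A product of functions of the blocks. -/
theorem dig2_prod (l0 A : ℕ) (l1 : ℕ) : ∀ g : ℕ → ℕ → ℝ,
    ∑ n ∈ range (A * 2 ^ (l1 * l0)), ∏ i ∈ range l1, g i (n / 2 ^ (i * l0) % 2 ^ l0) =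
      A * ∏ i ∈ range l1, ∑ b ∈ range (2 ^ l0), g i b := by
  induction l1 with
  | zero => intro g; simp
  | succ l1 ih =>
    intro g
    rw [show A * 2 ^ ((l1 + 1) * l0) = (A * 2 ^ (l1 * l0)) * 2 ^ l0 by ring,
      Pool.Agent.Lib.MP_8fac0f_nt.C3.dig_sum_mul]
    have h1 : ∀ m ∈ range (A * 2 ^ (l1 * l0)), ∑ b ∈ range (2 ^ l0),
        ∏ i ∈ range (l1 + 1), g i ((2 ^ l0 * m + b) / 2 ^ (i * l0) % 2 ^ l0) =
        (∑ b ∈ range (2 ^ l0), g 0 b) *
          ∏ i ∈ range l1, g (i + 1) (m / 2 ^ (i * l0) % 2 ^ l0) := by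
      intro m _
      rw [sum_mul]
      refine sum_congr rfl fun b hb => ?_
      have hb' : b < 2 ^ l0 := mem_range.mp hb
      rw [prod_range_succ', mul_comm]
      congr 1
      · rw [zero_mul, pow_zero, Nat.div_one, Nat.mul_add_mod, Nat.mod_eq_of_lt hb']
      · refine prod_congr rfl fun i _ => ?_
        have : (2 ^ l0 * m + b) / 2 ^ ((i + 1) * l0) = m / 2 ^ (i * l0) := by
          rw [show (i + 1) * l0 = l0 + i * l0 by ring, pow_add, ← Nat.div_div_eq_div_mul]
          congr 1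
          rw [Nat.mul_add_div (by positivity), Nat.div_eq_of_lt hb', add_zero]
        rw [this]
    rw [sum_congr rfl h1, ← mul_sum, ih (fun i => g (i + 1)), prod_range_succ']
    ring

/-- (DIG2) -/
theorem digsum2 (l0 x0 l1 A : ℕ) (hx : x0 < 2 ^ l0) (δ : ℝ) (S : Finset ℕ)
    (hS : S ⊆ range l1) :
    ∑ n ∈ range (A * 2 ^ (l1 * l0)),
      (1 - δ) ^ ((S.filter fun i => n / 2 ^ (i * l0) % 2 ^ l0 = x0).card) =
      A * 2 ^ (l1 * l0) * (1 - δ / 2 ^ l0) ^ S.card := by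
  have e1 : ∀ n ∈ range (A * 2 ^ (l1 * l0)),
      (1 - δ) ^ ((S.filter fun i => n / 2 ^ (i * l0) % 2 ^ l0 = x0).card) =
      ∏ i ∈ range l1, (if i ∈ S ∧ n / 2 ^ (i * l0) % 2 ^ l0 = x0 then (1 - δ) else 1) := by
    intro n _
    rw [← prod_filter, prod_const]
    congr 2
    ext i
    simp only [mem_filter, mem_range]
    constructor
    · rintro ⟨h1, h2⟩
      exact ⟨mem_range.mp (hS h1), h1, h2⟩
    · rintro ⟨_, h1, h2⟩
      exact ⟨h1, h2⟩
  rw [sum_congr rfl e1, dig2_prod l0 A l1 (fun i b => if i ∈ S ∧ b = x0 then (1 - δ) else 1)]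
  have e2 : ∀ i ∈ range l1, ∑ b ∈ range (2 ^ l0),
      (if i ∈ S ∧ b = x0 then (1 - δ) else (1 : ℝ)) =
      2 ^ l0 * (if i ∈ S then (1 - δ / 2 ^ l0) else 1) := by
    intro i _
    by_cases hi : i ∈ S
    · have h3 : ∀ b ∈ range (2 ^ l0), (if i ∈ S ∧ b = x0 then (1 - δ) else (1 : ℝ))
          = 1 + (if b = x0 then (-δ) else 0) := by
        intro b _
        by_cases hb : b = x0
        · rw [if_pos ⟨hi, hb⟩, if_pos hb]; ring
        · rw [if_neg (fun h => hb h.2), if_neg hb]; ring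
      rw [sum_congr rfl h3, sum_add_distrib, sum_ite_eq', if_pos (mem_range.2 hx), if_pos hi,
        sum_const, card_range, nsmul_eq_mul]
      have : (2 : ℝ) ^ l0 ≠ 0 := by positivity
      push_cast
      field_simp
      ring
    · have h3 : ∀ b ∈ range (2 ^ l0), (if i ∈ S ∧ b = x0 then (1 - δ) else (1 : ℝ)) = 1 := by
        intro b _
        rw [if_neg (fun h => hi h.1)]
      rw [sum_congr rfl h3, if_neg hi, sum_const, card_range, nsmul_eq_mul]
      push_cast
      ring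
  rw [prod_congr rfl e2, prod_mul_distrib, prod_const, card_range, ← prod_filter, prod_const]
  have e3 : (range l1).filter (fun i => i ∈ S) = S := by
    ext i
    simp only [mem_filter, mem_range]
    exact ⟨fun h => h.2, fun h => ⟨mem_range.mp (hS h), h⟩⟩
  rw [e3, ← pow_mul, mul_comm l0 l1]
  ring

end Pool.Agent.Lib.MP_8fac0f_nt.Q4
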