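import Pool.Agent.Lib.MP_8fac0f_nt.Q4.Defs
import Pool.Agent.Lib.MP_8fac0f_nt.C3.QW

/-!
# CW: cubic Weyl sums

Proof. As `C3.quad_weyl`: `|S| ^ 2 <= V + 2 sum_(1 <= h < V) |sum_(v in Ico v1 (v2 - h)) ex (f (v+h) - f v)|`
(`C3.pairs_by_diff`), `f (v+h) - f v = (3 h alpha) v ^ 2 + (3 h^2 alpha + 2 h beta) v + const`, and by
`C3.quad_weyl` with `alpha := 3 h alpha` the inner sum is at most
`sqrt (V + 2 V cnt_h + V / gamma)`, `cnt_h = #{t in Ico 1 V : di (6 t h alpha) < gamma}`.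
Cauchy-Schwarz over `h`: `sum_h sqrt (X_h) <= sqrt (V * sum_h X_h)` (`h` runs over fewer than `V` values).
-/

set_option autoImplicit false

namespace Pool.Agent.Lib.MP_8fac0f_nt.Q4

open Finset Filter Topology
open Pool.Agent.Lib.MP_8fac0f_nt.C3 (di ex)
open Pool.Agent.Lib.MP_8fac0f_nt.C3 (ex_add ex_zero norm_ex pairs_by_diff quad_weyl)

/-- Van der Corput: the square of an exponential sum by differences. -/
private theorem cw_vdc (f : ℕ → ℝ) (V v1 v2 : ℕ) (hV : v2 ≤ v1 + V) :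
    ‖∑ v ∈ Ico v1 v2, ex (f v)‖ ^ 2
      ≤ V + 2 * ∑ h ∈ Ico 1 V, ‖∑ v ∈ Ico v1 (v2 - h), ex (f (v + h) - f v)‖ := by
  have hcard : ((Ico v1 v2).card : ℝ) ≤ V := by
    rw [Nat.card_Ico]; exact_mod_cast (by omega : v2 - v1 ≤ V)
  set D : ℂ := ∑ v ∈ Ico v1 v2, ∑ v' ∈ Ico (v + 1) v2, ex (f v' - f v) with hD
  have hconj : ∀ x : ℝ, (starRingEnd ℂ) (ex x) = ex (-x) := by
    intro x
    unfold ex
    rw [← Complex.exp_conj]
    congr 1
    simp only [map_mul, Complex.conj_ofReal, Complex.conj_I, Complex.ofReal_neg]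
    rw [map_ofNat]
    ring
  have hsq : ((‖∑ v ∈ Ico v1 v2, ex (f v)‖ ^ 2 : ℝ) : ℂ)
      = (Ico v1 v2).card + D + (starRingEnd ℂ) D := by
    have e1 : ((‖∑ v ∈ Ico v1 v2, ex (f v)‖ ^ 2 : ℝ) : ℂ)
        = ∑ v ∈ Ico v1 v2, ∑ v' ∈ Ico v1 v2, ex (f v' - f v) := by
      have : ((‖∑ v ∈ Ico v1 v2, ex (f v)‖ ^ 2 : ℝ) : ℂ)
          = (starRingEnd ℂ) (∑ v ∈ Ico v1 v2, ex (f v)) * (∑ v ∈ Ico v1 v2, ex (f v)) := by
        rw [mul_comm, Complex.mul_conj, Complex.normSq_eq_norm_sq]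
      rw [this, map_sum, Finset.sum_mul_sum]
      refine Finset.sum_congr rfl fun v _ => Finset.sum_congr rfl fun v' _ => ?_
      rw [hconj, ← ex_add]; congr 1; ring
    have e2 : ∀ v ∈ Ico v1 v2, ∑ v' ∈ Ico v1 v2, ex (f v' - f v)
        = 1 + ∑ v' ∈ Ico (v + 1) v2, ex (f v' - f v) + ∑ v' ∈ Ico v1 v, ex (f v' - f v) := by
      intro v hv
      rw [Finset.mem_Ico] at hv
      rw [← Finset.sum_Ico_consecutive _ hv.1 hv.2.le, Finset.sum_eq_sum_Ico_succ_bot hv.2]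
      rw [sub_self, ex_zero]; ring
    have e3 : ∑ v ∈ Ico v1 v2, ∑ v' ∈ Ico v1 v, ex (f v' - f v)
        = (starRingEnd ℂ) D := by
      have e4 : ∀ v ∈ Ico v1 v2, ∑ v' ∈ Ico v1 v, ex (f v' - f v)
          = ∑ v' ∈ Ico v1 v2, if v' < v then ex (f v' - f v) else 0 := by
        intro v hv
        rw [Finset.mem_Ico] at hv
        rw [← Finset.sum_filter]
        refine Finset.sum_congr ?_ fun _ _ => rfl
        ext w; rw [Finset.mem_filter, Finset.mem_Ico, Finset.mem_Ico]; omega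
      rw [Finset.sum_congr rfl e4, Finset.sum_comm, hD, map_sum]
      refine Finset.sum_congr rfl fun v hv => ?_
      rw [Finset.mem_Ico] at hv
      rw [← Finset.sum_filter, map_sum]
      refine Finset.sum_congr ?_ fun w _ => ?_
      · ext w; rw [Finset.mem_filter, Finset.mem_Ico, Finset.mem_Ico]; omega
      · rw [hconj]; congr 1; ring
    rw [e1, Finset.sum_congr rfl e2, Finset.sum_add_distrib, Finset.sum_add_distrib, e3]
    simp [hD]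
  have hle : ‖∑ v ∈ Ico v1 v2, ex (f v)‖ ^ 2 ≤ V + 2 * ‖D‖ := by
    have e5 : ‖∑ v ∈ Ico v1 v2, ex (f v)‖ ^ 2
        = ‖((‖∑ v ∈ Ico v1 v2, ex (f v)‖ ^ 2 : ℝ) : ℂ)‖ := by
      rw [Complex.norm_real, Real.norm_of_nonneg (by positivity)]
    rw [e5, hsq]
    refine (norm_add_le _ _).trans ?_
    rw [RCLike.norm_conj]
    have := norm_add_le ((Ico v1 v2).card : ℂ) D
    rw [Complex.norm_natCast] at this
    linarith
  have hDle : ‖D‖ ≤ ∑ h ∈ Ico 1 V, ‖∑ v ∈ Ico v1 (v2 - h), ex (f (v + h) - f v)‖ := by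
    rw [hD, pairs_by_diff (fun v v' => ex (f v' - f v)) V v1 v2 hV]
    exact norm_sum_le _ _
  linarith

theorem cubic_weyl (α β δ γ : ℝ) (hγ : 0 < γ) (V v1 v2 : ℕ) (hV : v2 ≤ v1 + V) (T : ℝ)
    (hT : ((∑ h ∈ Ico 1 V, ((Ico 1 V).filter fun t : ℕ => di (6 * t * h * α) < γ).card : ℕ) : ℝ)
      ≤ T) :
    ‖∑ v ∈ Ico v1 v2, ex (α * v ^ 3 + β * v ^ 2 + δ * v)‖ ^ 2
      ≤ V + 2 * √(V * (V ^ 2 + 2 * V * T + V ^ 2 / γ)) := by
  set cnt : ℕ → ℕ := fun h => ((Ico 1 V).filter fun t : ℕ => di (6 * t * h * α) < γ).card with hcnt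
  set X : ℕ → ℝ := fun h => V + 2 * V * (cnt h : ℝ) + V / γ with hX
  have hX0 : ∀ h, 0 ≤ X h := fun h => by simp only [hX]; positivity
  have h1 := cw_vdc (fun v : ℕ => α * (v : ℝ) ^ 3 + β * (v : ℝ) ^ 2 + δ * (v : ℝ)) V v1 v2 hV
  have h2 : ∀ h ∈ Ico 1 V, ‖∑ v ∈ Ico v1 (v2 - h),
      ex ((α * ((v + h : ℕ) : ℝ) ^ 3 + β * ((v + h : ℕ) : ℝ) ^ 2 + δ * ((v + h : ℕ) : ℝ))
        - (α * (v : ℝ) ^ 3 + β * (v : ℝ) ^ 2 + δ * (v : ℝ)))‖ ≤ √(X h) := by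
    intro h _
    have e1 : ∀ v : ℕ, ex ((α * ((v + h : ℕ) : ℝ) ^ 3 + β * ((v + h : ℕ) : ℝ) ^ 2
        + δ * ((v + h : ℕ) : ℝ)) - (α * (v : ℝ) ^ 3 + β * (v : ℝ) ^ 2 + δ * (v : ℝ)))
        = ex (α * (h : ℝ) ^ 3 + β * (h : ℝ) ^ 2 + δ * h)
          * ex ((3 * h * α) * (v : ℝ) ^ 2 + (3 * (h : ℝ) ^ 2 * α + 2 * h * β) * v) := by
      intro v
      rw [← ex_add]; congr 1; push_cast; ring
    simp_rw [e1]
    rw [← Finset.mul_sum, norm_mul, norm_ex, one_mul]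
    refine Real.le_sqrt_of_sq_le ?_
    have h3 := quad_weyl (3 * h * α) (3 * (h : ℝ) ^ 2 * α + 2 * h * β) γ hγ V v1 (v2 - h)
      (by omega)
    refine h3.trans (le_of_eq ?_)
    have e2 : ((Ico 1 V).filter fun t : ℕ => di (2 * t * (3 * h * α)) < γ)
        = ((Ico 1 V).filter fun t : ℕ => di (6 * t * h * α) < γ) := by
      refine Finset.filter_congr fun t _ => ?_
      have e3 : 2 * (t : ℝ) * (3 * h * α) = 6 * t * h * α := by ring
      rw [e3]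
    rw [e2]
  have h4 : ∑ h ∈ Ico 1 V, √(X h) ≤ √(V * (V ^ 2 + 2 * V * T + V ^ 2 / γ)) := by
    refine Real.le_sqrt_of_sq_le ?_
    have hc : ((Ico 1 V).card : ℝ) ≤ V := by
      rw [Nat.card_Ico]; exact_mod_cast Nat.sub_le V 1
    have h5 : (∑ h ∈ Ico 1 V, √(X h)) ^ 2 ≤ (Ico 1 V).card * ∑ h ∈ Ico 1 V, √(X h) ^ 2 :=
      sq_sum_le_card_mul_sum_sq
    have h6 : ∑ h ∈ Ico 1 V, √(X h) ^ 2 = (Ico 1 V).card * (V + V / γ)
        + 2 * V * ((∑ h ∈ Ico 1 V, cnt h : ℕ) : ℝ) := by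
      have : ∀ h ∈ Ico 1 V, √(X h) ^ 2 = (V + V / γ) + 2 * V * (cnt h : ℝ) := by
        intro h _
        rw [Real.sq_sqrt (hX0 h)]
        simp only [hX]; ring
      rw [Finset.sum_congr rfl this, Finset.sum_add_distrib, Finset.sum_const, nsmul_eq_mul,
        ← Finset.mul_sum]
      push_cast
      ring
    have h7 : ∑ h ∈ Ico 1 V, √(X h) ^ 2 ≤ V ^ 2 + 2 * V * T + V ^ 2 / γ := by
      rw [h6]
      have a1 : ((Ico 1 V).card : ℝ) * (V + V / γ) ≤ V * (V + V / γ) :=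
        mul_le_mul_of_nonneg_right hc (by positivity)
      have a2 : 2 * (V : ℝ) * ((∑ h ∈ Ico 1 V, cnt h : ℕ) : ℝ) ≤ 2 * V * T :=
        mul_le_mul_of_nonneg_left hT (by positivity)
      have a3 : (V : ℝ) * (V + V / γ) = V ^ 2 + V ^ 2 / γ := by ring
      linarith
    refine h5.trans ?_
    refine (mul_le_mul_of_nonneg_right hc (Finset.sum_nonneg fun h _ => by positivity)).trans ?_
    exact mul_le_mul_of_nonneg_left h7 (by positivity)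
  have h8 := Finset.sum_le_sum h2
  linarith

end Pool.Agent.Lib.MP_8fac0f_nt.Q4
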