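import Pool.Agent.Lib.MP_8fac0f_nt.Q4.Defs4
import Pool.Agent.Lib.MP_8fac0f_nt.Q4.CW
import Pool.Agent.Lib.MP_8fac0f_nt.C3.WGood

/-!
# WG4: the Weyl sums of the window

`N = n0 + 2 ^ j v`, `j = 1999999 e`, `K = 6000000 e + ρ`, `al = P3 n0 / 2 ^ (3 e + ρ)`. By `Co.P_add`,
`Co.P1_add`, `Co.P2_add` the phase is, up to integers and a constant,
`x0 (al v ^ 3 + .. v ^ 2 + .. v) + m1 (3 al v ^ 2 + .. v) + m2 (3 al v)`.
`x0 ≠ 0`: `cubic_weyl`; `x0 = 0`, `m1 ≠ 0`: `C3.quad_weyl`; `x0 = m1 = 0`, `m2 ≠ 0`: `C3.lin_weyl`.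
-/

set_option autoImplicit false

namespace Pool.Agent.Lib.MP_8fac0f_nt.Q4

open Finset Filter Topology
open Pool.Agent.Lib.MP_8fac0f_nt.N (sg)
open Pool.Agent.Lib.MP_8fac0f_nt.C3 (di ex)
open Pool.Agent.Lib.MP_8fac0f_nt.C3 (ex_add ex_add_int norm_ex quad_weyl lin_weyl di_natAbs)

/-- The phase. -/
private theorem wg_phase (p : Co) (ρ e n0 : ℕ) (he : ρ ≤ e) (x0 m1 m2 : ℤ) :
    ∃ A B C' : ℝ, ∀ v : ℕ,
      ex (x0 * (p.P (n0 + 2 ^ (1999999 * e) * v) / 2 ^ (6000000 * e + ρ))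
        + m1 * (2 ^ (1999999 * e) * p.P1 (n0 + 2 ^ (1999999 * e) * v) / 2 ^ (6000000 * e + ρ))
        + m2 * (2 ^ (3999998 * e) * p.P2 (n0 + 2 ^ (1999999 * e) * v)
            / 2 ^ (6000000 * e + ρ)))
      = ex A * ex (x0 * (p.P3 n0 / 2 ^ (3 * e + ρ) : ℝ) * v ^ 3
          + (x0 * C' + 3 * m1 * (p.P3 n0 / 2 ^ (3 * e + ρ) : ℝ)) * v ^ 2
          + (x0 * B + 2 * m1 * C' + 3 * m2 * (p.P3 n0 / 2 ^ (3 * e + ρ) : ℝ)) * v) := by
  obtain ⟨J, hJ⟩ : ∃ J : ℕ, J = 2 ^ (1999999 * e) := ⟨_, rfl⟩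
  obtain ⟨Z, hZ⟩ : ∃ Z : ℕ, Z = 2 ^ (1999996 * e - ρ) := ⟨_, rfl⟩
  obtain ⟨KK, hKK⟩ : ∃ KK : ℝ, KK = 2 ^ (6000000 * e + ρ) := ⟨_, rfl⟩
  obtain ⟨L, hL⟩ : ∃ L : ℝ, L = 2 ^ (3 * e + ρ) := ⟨_, rfl⟩
  have hK0 : KK ≠ 0 := by rw [hKK]; positivity
  have hL0 : L ≠ 0 := by rw [hL]; positivity
  have hJr : (J : ℝ) = 2 ^ (1999999 * e) := by rw [hJ]; push_cast; rfl
  have hZr : (Z : ℝ) = 2 ^ (1999996 * e - ρ) := by rw [hZ]; push_cast; rfl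
  have hJ2 : (2 : ℝ) ^ (3999998 * e) = (J : ℝ) * J := by
    rw [hJr, ← pow_add]; congr 1; ring
  have hJ3 : (J : ℝ) * J * J = KK / L := by
    rw [hJr, hKK, hL, eq_div_iff (by positivity), ← pow_add, ← pow_add, ← pow_add]; congr 1; ring
  have hJ4 : (J : ℝ) * J * J * J = KK * Z := by
    rw [hJr, hKK, hZr, ← pow_add, ← pow_add, ← pow_add, ← pow_add]; congr 1; omega
  rw [← hKK, ← hL, hJ2, ← hJr, ← hJ]
  set Al : ℝ := (p.P3 n0 : ℝ) / L with hAl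
  set A : ℝ := (p.P n0 : ℝ) / KK with hA
  set B : ℝ := (J : ℝ) * (p.P1 n0 : ℝ) / KK with hB
  set C' : ℝ := (J : ℝ) * J * (p.P2 n0 : ℝ) / KK with hC'
  refine ⟨x0 * A + m1 * B + m2 * C', B, C', fun v => ?_⟩
  have hexp : (p.P (n0 + J * v) : ℝ) / KK
      = A + B * v + C' * v ^ 2 + Al * v ^ 3 + ((p.a * v ^ 4 * Z : ℕ) : ℤ) := by
    rw [Co.P_add]
    push_cast
    have e1 : (p.P n0 : ℝ) + (J : ℝ) * v * p.P1 n0 + ((J : ℝ) * v) ^ 2 * p.P2 n0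
        + ((J : ℝ) * v) ^ 3 * p.P3 n0 + p.a * ((J : ℝ) * v) ^ 4
        = (p.P n0 : ℝ) + (J : ℝ) * v * p.P1 n0 + (J : ℝ) * J * v ^ 2 * p.P2 n0
        + ((J : ℝ) * J * J) * (v ^ 3 * p.P3 n0) + p.a * v ^ 4 * ((J : ℝ) * J * J * J) := by ring
    rw [e1, hJ4, hJ3, hA, hB, hC', hAl]
    field_simp
  have hexp1 : (J : ℝ) * (p.P1 (n0 + J * v) : ℝ) / KK
      = B + 2 * C' * v + 3 * Al * v ^ 2 + ((4 * p.a * v ^ 3 * Z : ℕ) : ℤ) := by
    rw [Co.P1_add]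
    push_cast
    have e1 : (J : ℝ) * ((p.P1 n0 : ℝ) + 2 * ((J : ℝ) * v) * p.P2 n0
        + 3 * ((J : ℝ) * v) ^ 2 * p.P3 n0 + 4 * p.a * ((J : ℝ) * v) ^ 3)
        = (J : ℝ) * p.P1 n0 + 2 * ((J : ℝ) * J) * v * p.P2 n0
        + ((J : ℝ) * J * J) * (3 * v ^ 2 * p.P3 n0)
        + 4 * p.a * v ^ 3 * ((J : ℝ) * J * J * J) := by ring
    rw [e1, hJ4, hJ3, hB, hC', hAl]
    field_simp
  have hexp2 : (J : ℝ) * J * (p.P2 (n0 + J * v) : ℝ) / KK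
      = C' + 3 * Al * v + ((6 * p.a * v ^ 2 * Z : ℕ) : ℤ) := by
    rw [Co.P2_add]
    push_cast
    have e1 : (J : ℝ) * J * ((p.P2 n0 : ℝ) + 3 * ((J : ℝ) * v) * p.P3 n0
        + 6 * p.a * ((J : ℝ) * v) ^ 2)
        = (J : ℝ) * J * p.P2 n0 + ((J : ℝ) * J * J) * (3 * v * p.P3 n0)
        + 6 * p.a * v ^ 2 * ((J : ℝ) * J * J * J) := by ring
    rw [e1, hJ4, hJ3, hC', hAl]
    field_simp
  rw [hexp, hexp1, hexp2, ← ex_add]
  have : (x0 : ℝ) * (A + B * v + C' * v ^ 2 + Al * v ^ 3 + ((p.a * v ^ 4 * Z : ℕ) : ℤ))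
      + m1 * (B + 2 * C' * v + 3 * Al * v ^ 2 + ((4 * p.a * v ^ 3 * Z : ℕ) : ℤ))
      + m2 * (C' + 3 * Al * v + ((6 * p.a * v ^ 2 * Z : ℕ) : ℤ))
      = (x0 * A + m1 * B + m2 * C' + (x0 * Al * v ^ 3 + (x0 * C' + 3 * m1 * Al) * v ^ 2
          + (x0 * B + 2 * m1 * C' + 3 * m2 * Al) * v))
        + ((x0 * ((p.a * v ^ 4 * Z : ℕ) : ℤ) + m1 * ((4 * p.a * v ^ 3 * Z : ℕ) : ℤ)
          + m2 * ((6 * p.a * v ^ 2 * Z : ℕ) : ℤ) : ℤ) : ℝ) := by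
    push_cast; ring
  rw [this, ex_add_int]

theorem weyl_good4 (p : Co) (ρ κ Ξ : ℕ) (ε0 : ℝ) (hε0 : 0 < ε0) : ∀ᶠ e : ℕ in atTop,
    ∀ n0 : ℕ, Good4 p ρ κ Ξ e n0 → ∀ x0 m1 m2 : ℤ,
      |x0| ≤ Ξ → |m1| ≤ Ξ * 2 ^ (e / 16) → |m2| ≤ Ξ * 2 ^ (e / 8) →
      (x0 ≠ 0 ∨ m1 ≠ 0 ∨ m2 ≠ 0) →
      ∀ v1 v2 : ℕ, v1 ≤ v2 → v2 ≤ κ * 2 ^ e →
      ‖∑ v ∈ Ico v1 v2, ex (x0 * (p.P (n0 + 2 ^ (1999999 * e) * v) / 2 ^ (6000000 * e + ρ))
        + m1 * (2 ^ (1999999 * e) * p.P1 (n0 + 2 ^ (1999999 * e) * v) / 2 ^ (6000000 * e + ρ))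
        + m2 * (2 ^ (3999998 * e) * p.P2 (n0 + 2 ^ (1999999 * e) * v)
            / 2 ^ (6000000 * e + ρ)))‖
        ≤ ε0 * 2 ^ e := by
  obtain ⟨n1, hn1⟩ := pow_unbounded_of_one_lt (64 * ((κ : ℝ) + 1) ^ 3 / ε0 ^ 4)
    (by norm_num : (1 : ℝ) < 2)
  obtain ⟨n2, hn2⟩ := pow_unbounded_of_one_lt (2 * (κ : ℝ) / ε0 ^ 2) (by norm_num : (1 : ℝ) < 2)
  obtain ⟨n3, hn3⟩ := pow_unbounded_of_one_lt (4 * (κ : ℝ) / ε0 ^ 2) (by norm_num : (1 : ℝ) < 2)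
  obtain ⟨n4, hn4⟩ := pow_unbounded_of_one_lt (1 / (2 * ε0)) (by norm_num : (1 : ℝ) < 2)
  filter_upwards [eventually_ge_atTop ρ, eventually_ge_atTop (8 * n1), eventually_ge_atTop n2,
    eventually_ge_atTop (8 * n3), eventually_ge_atTop (2 * n4)] with e he0 he1 he2 he3 he4
  intro n0 hgood x0 m1 m2 hx0 hm1 hm2 hne v1 v2 hv hv2
  obtain ⟨A, B, C', hph⟩ := wg_phase p ρ e n0 he0 x0 m1 m2
  simp_rw [hph]
  rw [← Finset.mul_sum, norm_mul, norm_ex, one_mul]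
  set Al : ℝ := (p.P3 n0 : ℝ) / 2 ^ (3 * e + ρ) with hAl
  have hV0 : (0 : ℝ) ≤ κ * 2 ^ e := by positivity
  have hsplit : (2 : ℝ) ^ e = 2 ^ (e - e / 8) * 2 ^ (e / 8) := by
    rw [← pow_add]; congr 1; omega
  by_cases hx : x0 = 0
  · by_cases hm : m1 = 0
    · -- linear sums
      have hm2' : m2 ≠ 0 := by
        rcases hne with h | h | h
        · exact absurd hx h
        · exact absurd hm h
        · exact h
      have hz1 : 1 ≤ m2.natAbs := Int.natAbs_pos.2 hm2'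
      have hz2 : m2.natAbs ≤ Ξ * 2 ^ (e / 8) := by
        have : ((m2.natAbs : ℕ) : ℤ) ≤ Ξ * 2 ^ (e / 8) := by rw [Int.natCast_natAbs]; exact hm2
        exact_mod_cast this
      have hd := hgood.2.2 m2.natAbs hz1 hz2
      have hd' : 1 / 2 ^ (e / 2) ≤ di (3 * m2 * Al) := by
        refine hd.trans (le_of_eq ?_)
        have h := di_natAbs m2 (3 * Al)
        rw [← hAl]
        rw [show 3 * (m2 : ℝ) * Al = (m2 : ℝ) * (3 * Al) by ring, ← h]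
        congr 1; ring
      have hl := lin_weyl (3 * m2 * Al) (1 / 2 ^ (e / 2)) (by positivity) hd' v1 v2
      have hs : ∀ v : ℕ, (x0 : ℝ) * Al * v ^ 3 + (x0 * C' + 3 * m1 * Al) * v ^ 2
          + (x0 * B + 2 * m1 * C' + 3 * m2 * Al) * v = 3 * m2 * Al * v := by
        intro v; rw [hx, hm]; push_cast; ring
      simp_rw [hs]
      refine hl.trans ?_
      have h3 : (2 : ℝ) ^ n4 ≤ 2 ^ (e - e / 2) := pow_le_pow_right₀ (by norm_num) (by omega)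
      have h4 : 1 ≤ 2 * ε0 * 2 ^ (e - e / 2) := by
        have := hn4.le.trans h3
        rw [div_le_iff₀ (by positivity)] at this
        linarith
      have h5 : 1 / (2 * (1 / 2 ^ (e / 2))) = (2 : ℝ) ^ (e / 2) / 2 := by
        field_simp
      have h6 : (2 : ℝ) ^ e = 2 ^ (e / 2) * 2 ^ (e - e / 2) := by
        rw [← pow_add]; congr 1; omega
      rw [h5, h6]
      have : (0 : ℝ) < 2 ^ (e / 2) := by positivity
      nlinarith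
    · -- quadratic sums
      have hq := quad_weyl (3 * m1 * Al) (2 * m1 * C' + 3 * m2 * Al) (1 / 2 ^ (e / 2))
        (by positivity) (κ * 2 ^ e) v1 v2 (by omega)
      have hz1 : 1 ≤ m1.natAbs := Int.natAbs_pos.2 hm
      have hz2 : m1.natAbs ≤ Ξ * 2 ^ (e / 16) := by
        have : ((m1.natAbs : ℕ) : ℤ) ≤ Ξ * 2 ^ (e / 16) := by rw [Int.natCast_natAbs]; exact hm1
        exact_mod_cast this
      have hbad := hgood.2.1 m1.natAbs (κ * 2 ^ e) hz1 hz2 le_rfl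
      have hsame : ((Ico 1 (κ * 2 ^ e)).filter fun t : ℕ =>
            di (2 * t * (3 * m1 * Al)) < 1 / 2 ^ (e / 2))
          = ((Ico 1 (κ * 2 ^ e)).filter fun t : ℕ =>
            di (6 * t * m1.natAbs * (p.P3 n0 / 2 ^ (3 * e + ρ) : ℝ)) < 1 / 2 ^ (e / 2)) := by
        refine Finset.filter_congr fun t _ => ?_
        have : di (2 * t * (3 * m1 * Al))
            = di (6 * t * m1.natAbs * (p.P3 n0 / 2 ^ (3 * e + ρ) : ℝ)) := by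
          have h := di_natAbs m1 (6 * t * Al)
          rw [← hAl]
          rw [show 2 * (t : ℝ) * (3 * m1 * Al) = (m1 : ℝ) * (6 * t * Al) by ring, ← h]
          congr 1; ring
        rw [this]
      rw [hsame] at hq
      set nb := ((Ico 1 (κ * 2 ^ e)).filter fun t : ℕ =>
            di (6 * t * m1.natAbs * (p.P3 n0 / 2 ^ (3 * e + ρ) : ℝ)) < 1 / 2 ^ (e / 2)).card
        with hnb
      have hbad' : (nb : ℝ) ≤ 2 ^ (e - e / 8) := by exact_mod_cast hbad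
      have h1 : (2 : ℝ) ^ (e / 2) ≤ 2 ^ (e - e / 8) :=
        pow_le_pow_right₀ (by norm_num) (by omega)
      have h2 : (1 : ℝ) ≤ 2 ^ (e - e / 8) := one_le_pow₀ (by norm_num)
      have h3 : (2 : ℝ) ^ n3 ≤ 2 ^ (e / 8) := pow_le_pow_right₀ (by norm_num) (by omega)
      have h4 : 4 * κ ≤ ε0 ^ 2 * 2 ^ (e / 8) := by
        have := hn3.le.trans h3
        rw [div_le_iff₀ (by positivity)] at this
        linarith
      have hs : ∀ v : ℕ, (x0 : ℝ) * Al * v ^ 3 + (x0 * C' + 3 * m1 * Al) * v ^ 2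
          + (x0 * B + 2 * m1 * C' + 3 * m2 * Al) * v
          = 3 * m1 * Al * v ^ 2 + (2 * m1 * C' + 3 * m2 * Al) * v := by
        intro v; rw [hx]; push_cast; ring
      simp_rw [hs]
      have hq' : ‖∑ v ∈ Ico v1 v2, ex (3 * m1 * Al * v ^ 2 + (2 * m1 * C' + 3 * m2 * Al) * v)‖ ^ 2
          ≤ (ε0 * 2 ^ e) ^ 2 := by
        refine hq.trans ?_
        push_cast
        have hdiv : (κ : ℝ) * 2 ^ e / (1 / 2 ^ (e / 2)) = κ * 2 ^ e * 2 ^ (e / 2) := by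
          field_simp
        rw [hdiv]
        have s1 : (κ : ℝ) * 2 ^ e + 2 * (κ * 2 ^ e) * nb + κ * 2 ^ e * 2 ^ (e / 2)
            ≤ κ * 2 ^ e * (4 * 2 ^ (e - e / 8)) := by nlinarith
        refine s1.trans ?_
        have s2 : (κ : ℝ) * 2 ^ e * (4 * 2 ^ (e - e / 8)) = (4 * κ) * (2 ^ e * 2 ^ (e - e / 8)) := by
          ring
        have s3 : (ε0 * 2 ^ e) ^ 2 = (ε0 ^ 2 * 2 ^ (e / 8)) * (2 ^ e * 2 ^ (e - e / 8)) := by
          rw [mul_pow, sq ((2 : ℝ) ^ e)]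
          nth_rewrite 2 [hsplit]
          ring
        rw [s2, s3]
        exact mul_le_mul_of_nonneg_right h4 (by positivity)
      exact (pow_le_pow_iff_left₀ (norm_nonneg _) (by positivity) two_ne_zero).1 hq'
  · -- cubic sums
    have hz1 : 1 ≤ x0.natAbs := Int.natAbs_pos.2 hx
    have hz2 : x0.natAbs ≤ Ξ := by
      have : ((x0.natAbs : ℕ) : ℤ) ≤ Ξ := by rw [Int.natCast_natAbs]; exact hx0
      exact_mod_cast this
    have hbad := hgood.1 x0.natAbs (κ * 2 ^ e) hz1 hz2 le_rfl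
    have hsame : ∀ h : ℕ, ((Ico 1 (κ * 2 ^ e)).filter fun t : ℕ =>
          di (6 * t * h * (x0 * Al)) < 1 / 2 ^ (e / 2))
        = ((Ico 1 (κ * 2 ^ e)).filter fun t : ℕ =>
          di (6 * t * h * x0.natAbs * (p.P3 n0 / 2 ^ (3 * e + ρ) : ℝ)) < 1 / 2 ^ (e / 2)) := by
      intro h
      refine Finset.filter_congr fun t _ => ?_
      have : di (6 * t * h * (x0 * Al))
          = di (6 * t * h * x0.natAbs * (p.P3 n0 / 2 ^ (3 * e + ρ) : ℝ)) := by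
        have h' := di_natAbs x0 (6 * t * h * Al)
        rw [← hAl]
        rw [show 6 * (t : ℝ) * h * (x0 * Al) = (x0 : ℝ) * (6 * t * h * Al) by ring, ← h']
        congr 1; ring
      rw [this]
    have hT : ((∑ h ∈ Ico 1 (κ * 2 ^ e), ((Ico 1 (κ * 2 ^ e)).filter fun t : ℕ =>
        di (6 * t * h * (x0 * Al)) < 1 / 2 ^ (e / 2)).card : ℕ) : ℝ) ≤ 2 ^ (2 * e - e / 8) := by
      rw [sum_congr rfl fun h _ => congrArg Finset.card (hsame h)]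
      exact_mod_cast hbad
    have hq := cubic_weyl (x0 * Al) (x0 * C' + 3 * m1 * Al) (x0 * B + 2 * m1 * C' + 3 * m2 * Al)
      (1 / 2 ^ (e / 2)) (by positivity) (κ * 2 ^ e) v1 v2 (by omega) _ hT
    have hq' : ‖∑ v ∈ Ico v1 v2, ex (x0 * Al * v ^ 3 + (x0 * C' + 3 * m1 * Al) * v ^ 2
          + (x0 * B + 2 * m1 * C' + 3 * m2 * Al) * v)‖ ^ 2 ≤ (ε0 * 2 ^ e) ^ 2 := by
      refine hq.trans ?_
      push_cast
      set E : ℝ := 2 ^ e with hE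
      have hE1 : 1 ≤ E := one_le_pow₀ (by norm_num)
      have hdiv : ((κ : ℝ) * E) ^ 2 / (1 / 2 ^ (e / 2)) = (κ * E) ^ 2 * 2 ^ (e / 2) := by
        field_simp
      rw [hdiv]
      -- the part under the root
      have b1 : (2 : ℝ) ^ (2 * e - e / 8) = E * 2 ^ (e - e / 8) := by
        rw [hE, ← pow_add]; congr 1; omega
      have b2 : (2 : ℝ) ^ (e / 2) ≤ 2 ^ (e - e / 8) := pow_le_pow_right₀ (by norm_num) (by omega)
      have b3 : (1 : ℝ) ≤ 2 ^ (e - e / 8) := one_le_pow₀ (by norm_num)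
      have b4 : E ^ 4 = E ^ 3 * 2 ^ (e - e / 8) * 2 ^ (e / 8) := by
        rw [mul_assoc, ← hsplit]; ring
      set F : ℝ := 2 ^ (e - e / 8) with hF
      have hF0 : 0 < F := by positivity
      have h3 : (2 : ℝ) ^ n1 ≤ 2 ^ (e / 8) := pow_le_pow_right₀ (by norm_num) (by omega)
      have h4 : 64 * ((κ : ℝ) + 1) ^ 3 ≤ ε0 ^ 4 * 2 ^ (e / 8) := by
        have := hn1.le.trans h3
        rw [div_le_iff₀ (by positivity)] at this
        linarith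
      have hX : (κ : ℝ) * E * ((κ * E) ^ 2 + 2 * (κ * E) * 2 ^ (2 * e - e / 8)
          + (κ * E) ^ 2 * 2 ^ (e / 2)) ≤ (ε0 ^ 2 / 4 * E ^ 2) ^ 2 := by
        rw [b1]
        have c1 : (κ : ℝ) * E * ((κ * E) ^ 2 + 2 * (κ * E) * (E * F) + (κ * E) ^ 2 * 2 ^ (e / 2))
            ≤ (κ : ℝ) * E * ((κ * E) ^ 2 * F + 2 * (κ * E) * (E * F) + (κ * E) ^ 2 * F) := by
          apply mul_le_mul_of_nonneg_left _ (by positivity)
          have d1 : ((κ : ℝ) * E) ^ 2 ≤ (κ * E) ^ 2 * F := le_mul_of_one_le_right (by positivity) b3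
          have d2 : ((κ : ℝ) * E) ^ 2 * 2 ^ (e / 2) ≤ (κ * E) ^ 2 * F :=
            mul_le_mul_of_nonneg_left b2 (by positivity)
          linarith
        refine c1.trans ?_
        have c2 : (κ : ℝ) * E * ((κ * E) ^ 2 * F + 2 * (κ * E) * (E * F) + (κ * E) ^ 2 * F)
            = (2 * κ ^ 3 + 2 * κ ^ 2) * (E ^ 3 * F) := by ring
        rw [c2]
        have c3 : (2 * (κ : ℝ) ^ 3 + 2 * κ ^ 2) ≤ 4 * (κ + 1) ^ 3 := by
          have : (0 : ℝ) ≤ κ := Nat.cast_nonneg _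
          nlinarith [pow_nonneg this 3, pow_nonneg this 2]
        have c4 : (ε0 ^ 2 / 4 * E ^ 2) ^ 2 = (ε0 ^ 4 * 2 ^ (e / 8)) / 16 * (E ^ 3 * F) := by
          have : (ε0 ^ 2 / 4 * E ^ 2) ^ 2 = ε0 ^ 4 / 16 * E ^ 4 := by ring
          rw [this, b4]; ring
        rw [c4]
        apply mul_le_mul_of_nonneg_right _ (by positivity)
        linarith
      have hroot : √((κ : ℝ) * E * ((κ * E) ^ 2 + 2 * (κ * E) * 2 ^ (2 * e - e / 8)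
          + (κ * E) ^ 2 * 2 ^ (e / 2))) ≤ ε0 ^ 2 / 4 * E ^ 2 :=
        (Real.sqrt_le_left (by positivity)).2 hX
      have h5 : (2 : ℝ) ^ n2 ≤ E := pow_le_pow_right₀ (by norm_num) he2
      have h6 : 2 * κ ≤ ε0 ^ 2 * E := by
        have := hn2.le.trans h5
        rw [div_le_iff₀ (by positivity)] at this
        linarith
      have h7 : (κ : ℝ) * E ≤ ε0 ^ 2 / 2 * E ^ 2 := by
        have := mul_le_mul_of_nonneg_right h6 (show (0 : ℝ) ≤ E by positivity)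
        nlinarith
      have h8 : (ε0 * E) ^ 2 = ε0 ^ 2 / 2 * E ^ 2 + 2 * (ε0 ^ 2 / 4 * E ^ 2) := by ring
      rw [h8]
      linarith
    exact (pow_le_pow_iff_left₀ (norm_nonneg _) (by positivity) two_ne_zero).1 hq'

end Pool.Agent.Lib.MP_8fac0f_nt.Q4
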