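import Pool.Agent.Lib.MP_8fac0f_nt.Q4.CL4

/-!
# XV4: the derivative varies little on a cell
-/

set_option autoImplicit false

namespace Pool.Agent.Lib.MP_8fac0f_nt.Q4

open Finset Filter Topology
open Pool.Agent.Lib.MP_8fac0f_nt.C3 (di ex div_bounds)

/-- (XV4) -/
theorem xvar4 (p : Co) (κ lam w : ℕ) : ∃ H0 : ℕ, ∀ H : ℕ, H0 ≤ H → ∀ᶠ e : ℕ in atTop,
    ∀ n0 < 2 ^ (1999999 * e + 1), ∀ V : ℕ, 2 ^ e ≤ V → V ≤ κ * 2 ^ e → ∀ h v : ℕ, h < H →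
      h * V / H ≤ v → v ≤ (h + 1) * V / H →
      (p.P1 (n0 + 2 ^ (1999999 * e) * v) : ℝ) / 2 ^ (6000000 * e - lam)
        - p.P1 (n0 + 2 ^ (1999999 * e) * (h * V / H)) / 2 ^ (6000000 * e - lam) ≤ 1 / 2 ^ w := by
  obtain ⟨C, hC⟩ : ∃ C : ℕ, C = (12 * p.a + 6 * p.b + 2 * p.c) * (κ + 2) ^ 3 := ⟨_, rfl⟩
  refine ⟨C * 2 ^ (lam + w) + 1, fun H hH => ?_⟩
  have hHpos : 0 < H := by omega
  have hHr : (0 : ℝ) < H := by exact_mod_cast hHpos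
  have hHC : (C : ℝ) * 2 ^ (lam + w) ≤ H := by
    have : C * 2 ^ (lam + w) ≤ H := by omega
    exact_mod_cast this
  have htend : Tendsto (fun e : ℕ => (2 : ℝ) ^ e) atTop atTop :=
    tendsto_pow_atTop_atTop_of_one_lt (by norm_num)
  filter_upwards [htend.eventually (eventually_ge_atTop (H : ℝ)),
    eventually_ge_atTop lam] with e he1 he3
  intro n0 hn0 V hV1 hV2 h v hh hv1 hv2
  have hV2r : (V : ℝ) ≤ κ * 2 ^ e := by exact_mod_cast hV2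
  have h2e : (0 : ℝ) < 2 ^ e := by positivity
  obtain ⟨v0, hv0⟩ : ∃ v0 : ℕ, v0 = h * V / H := ⟨_, rfl⟩
  obtain ⟨b1, b2⟩ := div_bounds h V H hHpos
  rw [← hv0] at b1 b2 hv1
  obtain ⟨b3, b4⟩ := div_bounds (h + 1) V H hHpos
  have hv2r : (v : ℝ) ≤ (((h + 1) * V / H : ℕ) : ℝ) := by exact_mod_cast hv2
  have hv1r : (v0 : ℝ) ≤ v := by exact_mod_cast hv1
  push_cast at b3
  have hvV : v ≤ κ * 2 ^ e := by
    refine hv2.trans ?_
    apply Nat.div_le_of_le_mul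
    calc (h + 1) * V ≤ H * V := Nat.mul_le_mul_right _ hh
      _ ≤ H * (κ * 2 ^ e) := Nat.mul_le_mul_left _ hV2
  have hvVr : (v : ℝ) ≤ κ * 2 ^ e := by exact_mod_cast hvV
  have r1 : (v : ℝ) - v0 ≤ (κ + 2) * 2 ^ e / H := by
    have e1 : ((h : ℝ) + 1) * V / H = h * V / H + V / H := by ring
    have e2 : (v : ℝ) - v0 ≤ V / H + 1 := by linarith
    have e3 : (V : ℝ) / H + 1 ≤ (κ + 2) * 2 ^ e / H := by
      rw [le_div_iff₀ hHr, add_mul, div_mul_cancel₀ _ hHr.ne']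
      linarith
    linarith
  rw [← hv0, ← sub_div, P1_diff4]
  have r6 : (2 : ℝ) ^ (6000000 * e - lam) * 2 ^ lam = (2 ^ (1999999 * e)) ^ 3 * (2 ^ e) ^ 3 := by
    rw [← pow_add, ← pow_mul, ← pow_mul, ← pow_add]; congr 1; omega
  have hn0r : (n0 : ℝ) ≤ 2 * 2 ^ (1999999 * e) := by
    have : n0 ≤ 2 ^ (1999999 * e) * 2 := by rw [← pow_succ]; exact hn0.le
    have h2 : (n0 : ℝ) ≤ 2 ^ (1999999 * e) * 2 := by exact_mod_cast this
    linarith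
  have hJ1 : (1 : ℝ) ≤ 2 ^ (1999999 * e) := one_le_pow₀ (by norm_num)
  push_cast
  obtain ⟨J, hJ⟩ : ∃ J : ℝ, J = 2 ^ (1999999 * e) := ⟨_, rfl⟩
  rw [← hJ] at r6 hn0r hJ1 ⊢
  have hJ0 : 0 < J := by linarith
  obtain ⟨E, hE⟩ : ∃ E : ℝ, E = 2 ^ e := ⟨_, rfl⟩
  have h1e : (1 : ℝ) ≤ 2 ^ e := one_le_pow₀ (by norm_num)
  rw [← hE] at r6 r1 hvVr h1e h2e
  obtain ⟨m, hm⟩ : ∃ m : ℝ, m = J * ((κ + 2) * E) := ⟨_, rfl⟩
  have hκ0 : (0 : ℝ) ≤ κ := by positivity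
  have hone : (1 : ℝ) ≤ m := by
    rw [hm]
    have : (1 : ℝ) ≤ (κ + 2) * E := by nlinarith
    nlinarith
  have s1 : (n0 : ℝ) + J * v - (n0 + J * v0) ≤ m / H := by
    have := mul_le_mul_of_nonneg_left r1 hJ0.le
    rw [hm, mul_div_assoc]
    linarith
  have s1' : 0 ≤ (n0 : ℝ) + J * v - (n0 + J * v0) := by
    have := mul_le_mul_of_nonneg_left hv1r hJ0.le
    linarith
  have hn : (n0 : ℝ) + J * v ≤ m := by
    have q1 := mul_le_mul_of_nonneg_left hvVr hJ0.le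
    have q2 : J * 1 ≤ J * E := mul_le_mul_of_nonneg_left h1e hJ0.le
    rw [hm]
    nlinarith
  have hn0' : (n0 : ℝ) + J * v0 ≤ m := by
    have := mul_le_mul_of_nonneg_left hv1r hJ0.le
    linarith
  have hx0 : (0 : ℝ) ≤ n0 + J * v := by positivity
  have hy0 : (0 : ℝ) ≤ n0 + J * v0 := by positivity
  have s2 : 4 * (p.a : ℝ) * ((n0 + J * v) ^ 2 + (n0 + J * v) * (n0 + J * v0) + (n0 + J * v0) ^ 2)
      + 3 * p.b * (n0 + J * v + (n0 + J * v0)) + 2 * p.c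
      ≤ (12 * p.a + 6 * p.b + 2 * p.c) * m ^ 2 := by
    have q1 : ((n0 : ℝ) + J * v) ^ 2 ≤ m ^ 2 := pow_le_pow_left₀ hx0 hn 2
    have q2 : ((n0 : ℝ) + J * v0) ^ 2 ≤ m ^ 2 := pow_le_pow_left₀ hy0 hn0' 2
    have q3 : ((n0 : ℝ) + J * v) * (n0 + J * v0) ≤ m ^ 2 := by
      rw [pow_two]
      exact mul_le_mul hn hn0' hy0 (by linarith)
    have q4 : m ≤ m ^ 2 := by nlinarith
    have q5 : (1 : ℝ) ≤ m ^ 2 := by nlinarith
    have t1 : 4 * (p.a : ℝ) * ((n0 + J * v) ^ 2 + (n0 + J * v) * (n0 + J * v0)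
        + (n0 + J * v0) ^ 2) ≤ 4 * p.a * (3 * m ^ 2) :=
      mul_le_mul_of_nonneg_left (by linarith) (by positivity)
    have t2 : 3 * (p.b : ℝ) * (n0 + J * v + (n0 + J * v0)) ≤ 3 * p.b * (2 * m ^ 2) :=
      mul_le_mul_of_nonneg_left (by linarith) (by positivity)
    have t3 : 2 * (p.c : ℝ) * 1 ≤ 2 * p.c * m ^ 2 := mul_le_mul_of_nonneg_left q5 (by positivity)
    linarith
  have s3 := mul_le_mul s1 s2 (by positivity) (by positivity : (0 : ℝ) ≤ m / H)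
  rw [div_le_div_iff₀ (by positivity) (by positivity), one_mul]
  have s4 : m / H * ((12 * p.a + 6 * p.b + 2 * p.c) * m ^ 2)
      = C * (J ^ 3 * E ^ 3) / H := by
    rw [hC, hm]; push_cast; ring
  rw [s4, ← r6] at s3
  have s5 := mul_le_mul_of_nonneg_right s3 (show (0 : ℝ) ≤ 2 ^ w by positivity)
  refine s5.trans ?_
  have s6 : (C : ℝ) * (2 ^ (6000000 * e - lam) * 2 ^ lam) / H * 2 ^ w
      = (C * 2 ^ (lam + w)) * 2 ^ (6000000 * e - lam) / H := by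
    rw [pow_add]; ring
  rw [s6, div_le_iff₀ hHr]
  have := mul_le_mul_of_nonneg_right hHC (show (0 : ℝ) ≤ 2 ^ (6000000 * e - lam) by positivity)
  linarith

end Pool.Agent.Lib.MP_8fac0f_nt.Q4
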