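import Pool.Agent.Lib.MP_8fac0f_nt.Q4.BEV4a
import Pool.Agent.Lib.MP_8fac0f_nt.Q4.WG4
import Pool.Agent.Lib.MP_8fac0f_nt.Q4.CL4
import Pool.Agent.Lib.MP_8fac0f_nt.Q4.XV4
import Pool.Agent.Lib.MP_8fac0f_nt.Q4.DIG2
import Pool.Agent.Lib.MP_8fac0f_nt.C3.BEval

/-!
# BEV4: the window `[3 k - lam, 3 k + ρ)` for one pair, one good `n0`
-/

set_option autoImplicit false

namespace Pool.Agent.Lib.MP_8fac0f_nt.Q4

open Finset Filter Topology
open Pool.Agent.Lib.MP_8fac0f_nt.C3 (di ex)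
open Pool.Agent.Lib.MP_8fac0f_nt.N (sg)

theorem choose_l2 (C l0 : ℕ) (δ η : ℝ) (hδ : 0 < δ) (hδ1 : δ ≤ 1) (hη : 0 < η) :
    ∃ l2 : ℕ, ∀ n : ℕ, l2 ≤ n → (C : ℝ) ^ 2 / η ^ 2 * (1 - δ / 2 ^ l0) ^ n ≤ η := by
  have h2 : (1 : ℝ) ≤ 2 ^ l0 := one_le_pow₀ (by norm_num)
  have h2' : (0 : ℝ) < 2 ^ l0 := by positivity
  set θ : ℝ := 1 - δ / 2 ^ l0 with hθ
  have hq : δ / 2 ^ l0 ≤ 1 := by rw [div_le_one h2']; linarith
  have hq' : 0 < δ / 2 ^ l0 := by positivity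
  have hθ0 : 0 ≤ θ := by linarith
  have hθ1 : θ < 1 := by linarith
  obtain ⟨n, hn⟩ := exists_pow_lt_of_lt_one (show (0 : ℝ) < η ^ 3 / (C ^ 2 + 1) by positivity) hθ1
  refine ⟨n, fun m hm => ?_⟩
  have h3 : θ ^ m ≤ η ^ 3 / (C ^ 2 + 1) :=
    (pow_le_pow_of_le_one hθ0 hθ1.le hm).trans hn.le
  calc (C : ℝ) ^ 2 / η ^ 2 * θ ^ m ≤ C ^ 2 / η ^ 2 * (η ^ 3 / (C ^ 2 + 1)) :=
        mul_le_mul_of_nonneg_left h3 (by positivity)
    _ = η * (C ^ 2 / (C ^ 2 + 1)) := by field_simp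
    _ ≤ η * 1 := by
        apply mul_le_mul_of_nonneg_left _ hη.le
        rw [div_le_one (by positivity)]; linarith
    _ = η := mul_one _

theorem beval4_alg (P0 m jP1 j2P2 j3P3 u P1v w D' s Δ D z Kk Wp KK Xh : ℝ) (hK : Kk ≠ 0)
    (hW : Wp ≠ 0) (hKK : KK = Wp * Kk) :
    (P0 + m * jP1 + m ^ 2 * j2P2 + m ^ 3 * j3P3 + u * P1v + w * D' * Kk + s * Δ + D + z * KK) / Kk
      - (Wp * (P0 / KK + m * (jP1 / KK) + m ^ 2 * (j2P2 / KK))
        + (m ^ 3 * j3P3 / Kk + u * Xh + w * D' + s * (Δ / Kk))) - Wp * z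
      = u * (P1v / Kk - Xh) + D / Kk := by
  subst hKK
  field_simp
  ring

/-- The angles. -/
noncomputable def Th4 {M : ℕ} (h : Fin M → ℕ) (A B C : ℕ → ℝ) (v : ℕ)
    (i : Option (Fin M ⊕ Pr M)) : ℝ :=
  i.elim (A v) (Sum.elim (fun k => h k * B v) (fun x => h x.1.1 * h x.1.2 * C v))

theorem Th4_sum {M : ℕ} (h : Fin M → ℕ) (A B C : ℕ → ℝ) (v : ℕ)
    (ξ : Option (Fin M ⊕ Pr M) → ℤ) :
    ∑ i, (ξ i : ℝ) * Th4 h A B C v i =
      (ξ none : ℝ) * A v + ((∑ k, ξ (some (Sum.inl k)) * (h k : ℤ) : ℤ) : ℝ) * B v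
        + ((∑ x : Pr M, ξ (some (Sum.inr x)) * ((h x.1.1 : ℤ) * h x.1.2) : ℤ) : ℝ) * C v := by
  rw [Fintype.sum_option, Fintype.sum_sum_type, add_assoc]
  congr 1
  push_cast
  rw [sum_mul, sum_mul]
  congr 1
  · refine sum_congr rfl fun k _ => ?_
    simp only [Th4, Option.elim, Sum.elim_inl]
    ring
  · refine sum_congr rfl fun x _ => ?_
    simp only [Th4, Option.elim, Sum.elim_inr]
    ring

theorem Th4_CT {M : ℕ} (h : Fin M → ℕ) (A B C : ℕ → ℝ) (v : ℕ) {S : Type}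
    (t : Finset (Fin M) × S) :
    ∑ i, (CT t i : ℝ) * Th4 h A B C v i =
      A v + ((∑ k ∈ t.1, h k : ℕ) : ℝ) * B v + ((∑ k ∈ t.1, h k : ℕ) : ℝ) ^ 2 * C v := by
  rw [Fintype.sum_option, Fintype.sum_sum_type, add_assoc]
  congr 1
  · simp [CT, Th4]
  congr 1
  · push_cast
    rw [sum_mul]
    have : ∀ k : Fin M, (CT t (some (Sum.inl k)) : ℝ) * Th4 h A B C v (some (Sum.inl k)) =
        if k ∈ t.1 then (h k : ℝ) * B v else 0 := by
      intro k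
      simp only [CT_some, CG, Th4, Option.elim, Sum.elim_inl]
      split_ifs <;> simp
    rw [sum_congr rfl fun k _ => this k, ← sum_filter]
    congr 1
    ext k; simp
  · have h1 := sq_partial t.1 (fun k => (h k : ℝ))
    push_cast
    rw [← h1, sum_mul]
    refine sum_congr rfl fun x _ => ?_
    simp only [CT_some, Th4, Option.elim, Sum.elim_inr]
    ring

/-- The expansion in real form. -/
theorem approx4 (p : Co) (U : Finset ℕ) (MA κ lam ρ R w' e n0 Δ M : ℕ) (r : Fin MA → ℕ)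
    (pt : Finset (Fin MA) → ℕ → ℕ → ℕ) (h : Fin M → ℕ)
    (he : 4 * (lam + w' + 1) + 4 ≤ e)
    (hP : PtExp p U MA κ lam ρ e n0 Δ (fun i => r i * bet R i) pt)
    (hh : ∑ i, h i ≤ 2 ^ (e / 16)) (v v0 : ℕ) (hv : v ≤ κ * 2 ^ e) (hv0 : v0 ≤ v)
    (hX : (p.P1 (n0 + 2 ^ (1999999 * e) * v) : ℝ) / 2 ^ (6000000 * e - lam)
        - p.P1 (n0 + 2 ^ (1999999 * e) * v0) / 2 ^ (6000000 * e - lam)
          ≤ 1 / 2 ^ (w' + 1 + U.sup id))
    (t : Finset (Fin M) × St U MA) : ∃ z : ℤ,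
    |(p.P (pt t.2.2.2 t.2.2.1.1 t.2.1.1 + 2 ^ (1999999 * e) * (v + ∑ i ∈ t.1, h i)) : ℝ)
        / 2 ^ (6000000 * e - lam)
      - (2 ^ (lam + ρ) * (∑ i, (CT t i : ℝ) * Th4 h
          (fun v => (p.P (n0 + 2 ^ (1999999 * e) * v) : ℝ) / 2 ^ (6000000 * e + ρ))
          (fun v => 2 ^ (1999999 * e) * p.P1 (n0 + 2 ^ (1999999 * e) * v)
            / 2 ^ (6000000 * e + ρ))
          (fun v => 2 ^ (3999998 * e) * p.P2 (n0 + 2 ^ (1999999 * e) * v)
            / 2 ^ (6000000 * e + ρ)) v i)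
        + (((∑ k ∈ t.1, h k : ℕ) : ℝ) ^ 3 * (2 ^ (5999997 * e) * p.P3 n0)
            / 2 ^ (6000000 * e - lam)
          + t.2.1.1 * ((p.P1 (n0 + 2 ^ (1999999 * e) * v0) : ℝ) / 2 ^ (6000000 * e - lam))
          + Aw R r t.2.2.2 * ((Δ / 2 ^ (6000000 * e - lam) : ℕ) : ℝ)
          + t.2.2.1.1 * ((Δ : ℝ) / 2 ^ (6000000 * e - lam)))) - 2 ^ (lam + ρ) * z|
      ≤ 1 / 2 ^ w' := by
  have hu : t.2.1.1 ≤ U.sup id := Finset.le_sup (f := id) t.2.1.2
  have hm : ∑ k ∈ t.1, h k ≤ 2 ^ (e / 16) :=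
    le_trans (sum_le_univ_sum_of_nonneg fun _ => Nat.zero_le _) hh
  obtain ⟨D, z, hZ, hD⟩ := hP t.2.2.2 t.2.2.1.1 t.2.1.1 v (∑ k ∈ t.1, h k) t.2.2.1.2 t.2.1.2 hv hm
  refine ⟨z, ?_⟩
  have hlam : lam ≤ 6000000 * e := by omega
  have hKK : (2 : ℝ) ^ (6000000 * e + ρ) = 2 ^ (lam + ρ) * 2 ^ (6000000 * e - lam) := by
    rw [← pow_add]; congr 1; omega
  have hZ' := congrArg (fun z : ℤ => (z : ℝ)) hZ
  rw [Int.cast_natCast] at hZ'
  have hKpos : (0 : ℝ) < 2 ^ (6000000 * e - lam) := by positivity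
  have hA : (∑ i ∈ t.2.2.2, ((r i * bet R i : ℕ) : ℤ)) = (Aw R r t.2.2.2 : ℤ) := by
    unfold Aw bet; push_cast; rfl
  rw [hA] at hZ'
  have hx : (p.P (pt t.2.2.2 t.2.2.1.1 t.2.1.1 + 2 ^ (1999999 * e) * (v + ∑ i ∈ t.1, h i)) : ℝ)
        / 2 ^ (6000000 * e - lam)
      - (2 ^ (lam + ρ) * (∑ i, (CT t i : ℝ) * Th4 h
          (fun v => (p.P (n0 + 2 ^ (1999999 * e) * v) : ℝ) / 2 ^ (6000000 * e + ρ))
          (fun v => 2 ^ (1999999 * e) * p.P1 (n0 + 2 ^ (1999999 * e) * v)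
            / 2 ^ (6000000 * e + ρ))
          (fun v => 2 ^ (3999998 * e) * p.P2 (n0 + 2 ^ (1999999 * e) * v)
            / 2 ^ (6000000 * e + ρ)) v i)
        + (((∑ k ∈ t.1, h k : ℕ) : ℝ) ^ 3 * (2 ^ (5999997 * e) * p.P3 n0)
            / 2 ^ (6000000 * e - lam)
          + t.2.1.1 * ((p.P1 (n0 + 2 ^ (1999999 * e) * v0) : ℝ) / 2 ^ (6000000 * e - lam))
          + Aw R r t.2.2.2 * ((Δ / 2 ^ (6000000 * e - lam) : ℕ) : ℝ)
          + t.2.2.1.1 * ((Δ : ℝ) / 2 ^ (6000000 * e - lam)))) - 2 ^ (lam + ρ) * z =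
      t.2.1.1 * ((p.P1 (n0 + 2 ^ (1999999 * e) * v) : ℝ) / 2 ^ (6000000 * e - lam)
        - p.P1 (n0 + 2 ^ (1999999 * e) * v0) / 2 ^ (6000000 * e - lam))
        + D / 2 ^ (6000000 * e - lam) := by
    rw [Th4_CT]
    rw [hZ']
    simp only [Int.cast_add, Int.cast_mul, Int.cast_pow, Int.cast_ofNat, Int.cast_natCast]
    exact beval4_alg _ _ _ _ _ _ _ _ _ _ _ _ _ _ _ _ _ hKpos.ne' (by positivity) hKK
  rw [hx]
  have hX0 : 0 ≤ (p.P1 (n0 + 2 ^ (1999999 * e) * v) : ℝ) / 2 ^ (6000000 * e - lam)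
        - p.P1 (n0 + 2 ^ (1999999 * e) * v0) / 2 ^ (6000000 * e - lam) := by
    rw [← sub_div]
    apply div_nonneg _ hKpos.le
    rw [sub_nonneg]
    exact_mod_cast p.P1_mono (by gcongr)
  have t1 : |(t.2.1.1 : ℝ) * ((p.P1 (n0 + 2 ^ (1999999 * e) * v) : ℝ) / 2 ^ (6000000 * e - lam)
        - p.P1 (n0 + 2 ^ (1999999 * e) * v0) / 2 ^ (6000000 * e - lam))| ≤ 1 / 2 ^ (w' + 1) := by
    rw [abs_of_nonneg (mul_nonneg (Nat.cast_nonneg _) hX0)]
    have hsup : (t.2.1.1 : ℝ) ≤ 2 ^ (U.sup id) := by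
      have : t.2.1.1 ≤ 2 ^ (U.sup id) := hu.trans (Nat.lt_two_pow_self).le
      exact_mod_cast this
    calc (t.2.1.1 : ℝ) * ((p.P1 (n0 + 2 ^ (1999999 * e) * v) : ℝ) / 2 ^ (6000000 * e - lam)
        - p.P1 (n0 + 2 ^ (1999999 * e) * v0) / 2 ^ (6000000 * e - lam))
        ≤ 2 ^ (U.sup id) * (1 / 2 ^ (w' + 1 + U.sup id)) :=
          mul_le_mul hsup hX hX0 (by positivity)
      _ = 1 / 2 ^ (w' + 1) := by rw [pow_add]; field_simp
  have t2 : |(D : ℝ) / 2 ^ (6000000 * e - lam)| ≤ 1 / 2 ^ (w' + 1) := by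
    rw [abs_div, abs_of_pos hKpos, div_le_div_iff₀ hKpos (by positivity), one_mul]
    have hD' : |(D : ℝ)| ≤ 2 ^ (6000000 * e - e / 4) := by exact_mod_cast hD
    calc |(D : ℝ)| * 2 ^ (w' + 1) ≤ 2 ^ (6000000 * e - e / 4) * 2 ^ (w' + 1) :=
          mul_le_mul_of_nonneg_right hD' (by positivity)
      _ = 2 ^ (6000000 * e - e / 4 + (w' + 1)) := by rw [← pow_add]
      _ ≤ 2 ^ (6000000 * e - lam) := pow_le_pow_right₀ (by norm_num) (by omega)
  refine (abs_add_le _ _).trans ((add_le_add t1 t2).trans_eq ?_)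
  rw [pow_succ]; field_simp; norm_num

/-- The points of the correlation. -/
noncomputable def Xt4 (p : Co) (lam e : ℕ) {M MA : ℕ} (h : Fin M → ℕ)
    (pt : Finset (Fin MA) → ℕ → ℕ → ℕ) {U : Finset ℕ} (t : Finset (Fin M) × St U MA) (v : ℕ) : ℝ :=
  (p.P (pt t.2.2.2 t.2.2.1.1 t.2.1.1 + 2 ^ (1999999 * e) * (v + ∑ i ∈ t.1, h i)) : ℝ)
    / 2 ^ (6000000 * e - lam)

theorem Xt4_prod (p : Co) (lam e W : ℕ) {M MA : ℕ} (h : Fin M → ℕ)
    (pt : Finset (Fin MA) → ℕ → ℕ → ℕ) (U : Finset ℕ) (v : ℕ) :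
    ∏ w : Finset (Fin M), ∏ wA : Finset (Fin MA), ∏ s ∈ range 2, ∏ u ∈ U,
      sg (p.P (pt wA s u + 2 ^ (1999999 * e) * (v + ∑ i ∈ w, h i))
            / 2 ^ (6000000 * e - lam) % 2 ^ W) =
    ∏ t : Finset (Fin M) × St U MA, sg (⌊Xt4 p lam e h pt t v⌋₊ % 2 ^ W) := by
  classical
  rw [Fintype.prod_prod_type]
  refine prod_congr rfl fun w _ => ?_
  rw [Fintype.prod_prod_type]
  have e1 : ∀ (wA : Finset (Fin MA)), ∏ s ∈ range 2, ∏ u ∈ U,
      sg (p.P (pt wA s u + 2 ^ (1999999 * e) * (v + ∑ i ∈ w, h i))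
            / 2 ^ (6000000 * e - lam) % 2 ^ W) =
      ∏ s : Fin 2, ∏ u : ↥U, sg (p.P (pt wA s.1 u.1 + 2 ^ (1999999 * e) * (v + ∑ i ∈ w, h i))
            / 2 ^ (6000000 * e - lam) % 2 ^ W) := by
    intro wA
    rw [Finset.prod_range]
    refine prod_congr rfl fun s _ => ?_
    exact (prod_coe_sort U (fun u => sg (p.P (pt wA s.1 u + 2 ^ (1999999 * e) *
      (v + ∑ i ∈ w, h i)) / 2 ^ (6000000 * e - lam) % 2 ^ W))).symm
  rw [prod_congr rfl fun wA _ => e1 wA]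
  have e2 : ∀ u : ↥U, ∏ y : Fin 2 × Finset (Fin MA),
      sg (⌊Xt4 p lam e h pt (w, (u, y)) v⌋₊ % 2 ^ W) =
      ∏ s : Fin 2, ∏ wA : Finset (Fin MA),
        sg (p.P (pt wA s.1 u.1 + 2 ^ (1999999 * e) * (v + ∑ i ∈ w, h i))
            / 2 ^ (6000000 * e - lam) % 2 ^ W) := by
    intro u
    rw [Fintype.prod_prod_type]
    refine prod_congr rfl fun s _ => prod_congr rfl fun wA _ => ?_
    congr 2
    exact C3.fl_pow _ _
  rw [prod_congr rfl fun u _ => e2 u]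
  generalize hF : (fun (wA : Finset (Fin MA)) (s : Fin 2) (u : ↥U) =>
    sg (p.P (pt wA s.1 u.1 + 2 ^ (1999999 * e) * (v + ∑ i ∈ w, h i))
            / 2 ^ (6000000 * e - lam) % 2 ^ W)) = F
  have hF' : ∀ (wA : Finset (Fin MA)) (s : Fin 2) (u : ↥U),
      sg (p.P (pt wA s.1 u.1 + 2 ^ (1999999 * e) * (v + ∑ i ∈ w, h i))
            / 2 ^ (6000000 * e - lam) % 2 ^ W) = F wA s u := fun wA s u => by rw [← hF]
  simp only [hF']
  rw [Finset.prod_comm]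
  rw [prod_congr rfl fun (s : Fin 2) _ => Finset.prod_comm
    (s := (univ : Finset (Finset (Fin MA)))) (t := (univ : Finset ↥U))
    (f := fun (wA : Finset (Fin MA)) (u : ↥U) => F wA s u)]
  rw [Finset.prod_comm]

theorem abs_lin_le {ι : Type} (I : Finset ι) (ξ : ι → ℤ) (h : ι → ℤ) (Ξ : ℤ) (hΞ : ∀ i, |ξ i| ≤ Ξ)
    (hh : ∀ i, 0 ≤ h i) : |∑ i ∈ I, ξ i * h i| ≤ Ξ * ∑ i ∈ I, h i := by
  calc |∑ i ∈ I, ξ i * h i| ≤ ∑ i ∈ I, |ξ i * h i| := abs_sum_le_sum_abs _ _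
    _ ≤ ∑ i ∈ I, Ξ * h i := by
        apply sum_le_sum
        intro i _
        rw [abs_mul, abs_of_nonneg (hh i)]
        exact mul_le_mul_of_nonneg_right (hΞ i) (hh i)
    _ = Ξ * ∑ i ∈ I, h i := by rw [mul_sum]

theorem sum_Pr_le {M : ℕ} (h : Fin M → ℕ) :
    ∑ x : Pr M, h x.1.1 * h x.1.2 ≤ (∑ i, h i) ^ 2 := by
  classical
  rw [sq, sum_mul_sum, ← Fintype.sum_prod_type']
  rw [← sum_subtype (p := fun x : Fin M × Fin M => x.1 ≤ x.2)
    (univ.filter (fun x : Fin M × Fin M => x.1 ≤ x.2)) (by simp) (fun x => h x.1 * h x.2)]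
  exact sum_le_sum_of_subset (filter_subset _ _)

/-- The double-index form of quadratic independence gives the form over pairs. -/
theorem pr_of_dbl {M : ℕ} (h : Fin M → ℕ) (Ξ : ℤ) (hΞ : 0 ≤ Ξ)
    (H : ∀ ξ : Fin M → Fin M → ℤ, (∃ i l, i ≤ l ∧ ξ i l ≠ 0) → (∀ i l, |ξ i l| ≤ Ξ) →
      ∑ i, ∑ l ∈ univ.filter (fun l => i ≤ l), ξ i l * ((h i : ℤ) * h l) ≠ 0)
    (ξ : Pr M → ℤ) (h0 : ξ ≠ 0) (h1 : ∀ x, |ξ x| ≤ Ξ) :
    ∑ x, ξ x * ((h x.1.1 : ℤ) * h x.1.2) ≠ 0 := by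
  classical
  set ξ' : Fin M → Fin M → ℤ := fun i l => if hil : i ≤ l then ξ ⟨(i, l), hil⟩ else 0 with hξ'
  have key := H ξ' (by
      obtain ⟨x, hx⟩ := Function.ne_iff.mp h0
      refine ⟨x.1.1, x.1.2, x.2, ?_⟩
      simp only [hξ']
      rw [dif_pos x.2]
      exact hx)
    (by
      intro i l
      simp only [hξ']
      split_ifs with hil
      · exact h1 _
      · simpa using hΞ)
  intro hcon
  apply key
  rw [← hcon]
  have e1 : ∀ i : Fin M, ∑ l ∈ univ.filter (fun l => i ≤ l), ξ' i l * ((h i : ℤ) * h l) =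
      ∑ l, if i ≤ l then ξ' i l * ((h i : ℤ) * h l) else 0 := fun i => sum_filter _ _
  rw [sum_congr rfl fun i _ => e1 i]
  rw [← Fintype.sum_prod_type' (f := fun i l => if i ≤ l then ξ' i l * ((h i : ℤ) * h l) else 0)]
  rw [← sum_filter, sum_subtype (p := fun x : Fin M × Fin M => x.1 ≤ x.2)
    (univ.filter (fun x : Fin M × Fin M => x.1 ≤ x.2)) (by simp)
    (fun x => ξ' x.1 x.2 * ((h x.1 : ℤ) * h x.2))]
  refine sum_congr rfl fun x _ => ?_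
  simp only [hξ']
  rw [dif_pos x.2]

/-- (BEV4) -/
theorem beval4 (p : Co) (ha : 1 ≤ p.a) (U : Finset ℕ) (hU : U.Nonempty) (M MA R κ : ℕ)
    (ε : ℝ) (hε : 0 < ε) :
    ∃ l0 y0 l2 : ℕ, 1 ≤ l0 ∧ y0 < 2 ^ l0 ∧ ∀ l1 r0 : ℕ, 1 ≤ l1 → ∃ Ξ : ℕ,
      ∀ᶠ e : ℕ in atTop, ∀ n0 < 2 ^ (1999999 * e + 1), Good4 p (r0 * l0) κ Ξ e n0 →
        ∀ (V Δ : ℕ) (h : Fin M → ℕ) (r : Fin MA → ℕ) (pt : Finset (Fin MA) → ℕ → ℕ → ℕ),
        2 ^ e ≤ V → V ≤ κ * 2 ^ e → (∀ i, 1 ≤ r i ∧ r i < R) →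
        l2 ≤ ((range l1).filter fun i =>
          Δ / 2 ^ (6000000 * e - l1 * l0) / 2 ^ (i * l0) % 2 ^ l0 = y0).card →
        ∑ i, h i ≤ 2 ^ (e / 16) →
        Gen Ξ h →
        PtExp p U MA κ (l1 * l0) (r0 * l0) e n0 Δ (fun i => r i * bet R i) pt →
        |∑ v ∈ range V, ∏ w : Finset (Fin M), ∏ wA : Finset (Fin MA), ∏ s ∈ range 2, ∏ u ∈ U,
          sg (p.P (pt wA s u + 2 ^ (1999999 * e) * (v + ∑ i ∈ w, h i))
            / 2 ^ (6000000 * e - l1 * l0) % 2 ^ ((l1 + r0) * l0))| ≤ ε * V := by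
  classical
  obtain ⟨C, hC⟩ := cells4 p ha κ
  obtain ⟨l0, x0, y0, δ, hl0, hx0, hy0, hδ, hδ1, hcontr⟩ := contr_use4 M MA R U hU
  set η : ℝ := min (ε / 8) 1 with hη
  have hη0 : 0 < η := lt_min (by linarith) one_pos
  have hη1 : η ≤ 1 := min_le_right _ _
  have hηε : η ≤ ε / 8 := min_le_left _ _
  obtain ⟨l2, hl2⟩ := choose_l2 C l0 δ η hδ hδ1 hη0
  refine ⟨l0, y0, l2, hl0, hy0, fun l1 r0 hl1 => ?_⟩
  obtain ⟨w', Ξ, ε0, hε0, heval⟩ := C3.evalb (Pt := Finset (Fin M) × St U MA) CT none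
    CT_none ((l1 + r0) * l0) (ε / 4) (by linarith)
  refine ⟨Ξ, ?_⟩
  obtain ⟨H0, hH0⟩ := hC (l1 * l0) η hη0 hη1
  obtain ⟨H1, hH1⟩ := xvar4 p κ (l1 * l0) (w' + 1 + U.sup id)
  set H := max H0 H1 + 1 with hHdef
  have hHpos : 1 ≤ H := by omega
  have hHR : (0 : ℝ) < H := by exact_mod_cast hHpos
  filter_upwards [hH0 H (by omega), hH1 H (by omega),
    weyl_good4 p (r0 * l0) κ Ξ (ε0 / (2 * H)) (by positivity),
    eventually_ge_atTop (2 * H), eventually_ge_atTop (4 * (l1 * l0 + w' + 1) + 4)]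
    with e h1 h2 h3 h5 h6
  intro n0 hn0 hgood V Δ h r pt hV1 hV2 hr hl2c hh hgen hP
  obtain ⟨hhξ, hhξ2'⟩ := hgen
  have hhξ2 := pr_of_dbl h Ξ (Int.natCast_nonneg _) hhξ2'
  have hVH : 2 * H ≤ V := by
    have : e < 2 ^ e := Nat.lt_two_pow_self
    omega
  have hVpos : (0 : ℝ) < V := by
    have : 0 < V := by omega
    exact_mod_cast this
  set S : Finset ℕ := (range l1).filter fun i =>
    Δ / 2 ^ (6000000 * e - l1 * l0) / 2 ^ (i * l0) % 2 ^ l0 = y0 with hS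
  set wt : ℕ → ℝ := fun n =>
    (1 - δ) ^ ((S.filter fun i => n / 2 ^ (i * l0) % 2 ^ l0 = x0).card) with hwt
  have hwt01 : ∀ n, 0 ≤ wt n ∧ wt n ≤ 1 := fun n =>
    ⟨pow_nonneg (by linarith) _, pow_le_one₀ (by linarith) (by linarith)⟩
  set Dr : ℝ := (Δ : ℝ) / 2 ^ (6000000 * e - l1 * l0) with hDr
  have hDr0 : 0 ≤ Dr := by positivity
  have hDfl : ⌊Dr⌋₊ = Δ / 2 ^ (6000000 * e - l1 * l0) := C3.fl_pow _ _
  have hW : (l1 + r0) * l0 = l1 * l0 + r0 * l0 := by ring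
  -- one piece
  have piece : ∀ n < H, |∑ v ∈ Ico (n * V / H) ((n + 1) * V / H),
      ∏ w : Finset (Fin M), ∏ wA : Finset (Fin MA), ∏ s ∈ range 2, ∏ u ∈ U,
          sg (p.P (pt wA s u + 2 ^ (1999999 * e) * (v + ∑ i ∈ w, h i))
            / 2 ^ (6000000 * e - l1 * l0) % 2 ^ ((l1 + r0) * l0))| ≤
      (wt (p.P1 (n0 + 2 ^ (1999999 * e) * (n * V / H)) / 2 ^ (6000000 * e - l1 * l0)) + ε / 4) *
        (V / H + 1) := by
    intro n hn
    set I := Ico (n * V / H) ((n + 1) * V / H) with hI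
    obtain ⟨hI1, hI2⟩ := C3.piece_card V H n hHpos
    rw [← hI] at hI1 hI2
    have hle : n * V / H ≤ (n + 1) * V / H :=
      Nat.div_le_div_right (Nat.mul_le_mul_right _ (Nat.le_succ n))
    have hleV : (n + 1) * V / H ≤ V := C3.piece_le V H n hHpos hn
    have hVHR : (1 : ℝ) ≤ V / (2 * H) := by
      rw [le_div_iff₀ (by positivity), one_mul]
      exact_mod_cast hVH
    have hIcard : (V : ℝ) / (2 * H) ≤ I.card := by
      have : (V : ℝ) / H = V / (2 * H) + V / (2 * H) := by field_simp; norm_num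
      linarith
    have hIne : I.Nonempty := by
      rw [← card_pos]
      have : (0 : ℝ) < I.card := by linarith
      exact_mod_cast this
    rw [sum_congr rfl fun v _ => Xt4_prod p (l1 * l0) e ((l1 + r0) * l0) h pt U v]
    set Xh : ℝ := (p.P1 (n0 + 2 ^ (1999999 * e) * (n * V / H)) : ℝ) / 2 ^ (6000000 * e - l1 * l0)
      with hXh
    have hXh0 : 0 ≤ Xh := by positivity
    have hfl : ⌊Xh⌋₊ = p.P1 (n0 + 2 ^ (1999999 * e) * (n * V / H))
        / 2 ^ (6000000 * e - l1 * l0) := C3.fl_pow _ _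
    set κr : Finset (Fin M) → ℝ := fun g =>
      ((∑ k ∈ g, h k : ℕ) : ℝ) ^ 3 * (2 ^ (5999997 * e) * p.P3 n0) / 2 ^ (6000000 * e - l1 * l0)
      with hκr
    have hκr0 : ∀ g, 0 ≤ κr g := fun g => by positivity
    have hev := heval I (Th4 h
          (fun v => (p.P (n0 + 2 ^ (1999999 * e) * v) : ℝ) / 2 ^ (6000000 * e + r0 * l0))
          (fun v => 2 ^ (1999999 * e) * p.P1 (n0 + 2 ^ (1999999 * e) * v)
            / 2 ^ (6000000 * e + r0 * l0))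
          (fun v => 2 ^ (3999998 * e) * p.P2 (n0 + 2 ^ (1999999 * e) * v)
            / 2 ^ (6000000 * e + r0 * l0)))
      (fun t => κr t.1 + t.2.1.1 * Xh + Aw R r t.2.2.2 * ⌊Dr⌋₊ + t.2.2.1.1 * Dr)
      (fun t v => Xt4 p (l1 * l0) e h pt t v) (wt ⌊Xh⌋₊) hIne
      (fun t => by have := hκr0 t.1; positivity)
      (fun t v => by unfold Xt4; positivity)
      (by
        intro ξ hξ hξΞ
        simp only [Th4_sum]
        have hb1 : |∑ k, ξ (some (Sum.inl k)) * (h k : ℤ)| ≤ Ξ * 2 ^ (e / 16) := by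
          refine (abs_lin_le univ (fun k => ξ (some (Sum.inl k))) (fun k => (h k : ℤ)) Ξ
            (fun k => hξΞ _) (fun k => Int.natCast_nonneg _)).trans ?_
          apply mul_le_mul_of_nonneg_left _ (Int.natCast_nonneg _)
          exact_mod_cast hh
        have hb2 : |∑ x : Pr M, ξ (some (Sum.inr x)) * ((h x.1.1 : ℤ) * h x.1.2)|
            ≤ Ξ * 2 ^ (e / 8) := by
          refine (abs_lin_le univ (fun x : Pr M => ξ (some (Sum.inr x)))
            (fun x => ((h x.1.1 : ℤ) * h x.1.2)) Ξ (fun k => hξΞ _)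
            (fun k => by positivity)).trans ?_
          apply mul_le_mul_of_nonneg_left _ (Int.natCast_nonneg _)
          have hs := sum_Pr_le h
          have hs2 : (∑ i, h i) ^ 2 ≤ 2 ^ (e / 8) := by
            refine (Nat.pow_le_pow_left hh 2).trans ?_
            rw [← pow_mul]
            exact Nat.pow_le_pow_right (by norm_num) (by omega)
          exact_mod_cast hs.trans hs2
        have hcond : (ξ none ≠ 0 ∨ (∑ k, ξ (some (Sum.inl k)) * (h k : ℤ)) ≠ 0 ∨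
            (∑ x : Pr M, ξ (some (Sum.inr x)) * ((h x.1.1 : ℤ) * h x.1.2)) ≠ 0) := by
          by_cases c0 : ξ none = 0
          · right
            by_cases c1 : (fun k => ξ (some (Sum.inl k))) = 0
            · right
              apply hhξ2 (fun x => ξ (some (Sum.inr x)))
              · intro hcon
                apply hξ
                funext i
                rcases i with _ | k | x
                · exact c0
                · exact congrFun c1 k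
                · exact congrFun hcon x
              · intro x; exact hξΞ _
            · left
              exact hhξ (fun k => ξ (some (Sum.inl k))) c1 (fun k => hξΞ _)
          · left; exact c0
        have hw := h3 n0 hgood (ξ none) (∑ k, ξ (some (Sum.inl k)) * (h k : ℤ))
          (∑ x : Pr M, ξ (some (Sum.inr x)) * ((h x.1.1 : ℤ) * h x.1.2)) (hξΞ none) hb1 hb2 hcond
          (n * V / H) ((n + 1) * V / H) hle (hleV.trans hV2)
        refine hw.trans ?_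
        have hV1' : ((2 : ℝ) ^ e) ≤ V := by exact_mod_cast hV1
        calc ε0 / (2 * H) * 2 ^ e ≤ ε0 / (2 * H) * V :=
              mul_le_mul_of_nonneg_left hV1' (by positivity)
          _ = ε0 * (V / (2 * H)) := by ring
          _ ≤ ε0 * I.card := mul_le_mul_of_nonneg_left hIcard hε0.le)
      (by
        intro t v hv
        rw [hI, mem_Ico] at hv
        have hvV : v ≤ κ * 2 ^ e := by omega
        have hx := h2 n0 hn0 V hV1 hV2 n v hn hv.1 hv.2.le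
        obtain ⟨z, hz⟩ := approx4 p U MA κ (l1 * l0) (r0 * l0) R w' e n0 Δ M r pt h h6 hP hh v
          (n * V / H) hvV hv.1 hx t
        refine ⟨z, ?_⟩
        rw [hW, hDfl]
        exact hz)
      (by
        intro cc hcc
        have := hcontr l1 r0 r hr κr hκr0 Xh Dr hXh0 hDr0 cc hcc
        refine this.trans_eq ?_
        rw [Fintype.card_option, hDfl])
    refine hev.trans ?_
    rw [hfl]
    apply mul_le_mul_of_nonneg_left hI1
    have := (hwt01 (p.P1 (n0 + 2 ^ (1999999 * e) * (n * V / H)) / 2 ^ (6000000 * e - l1 * l0))).1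
    linarith
  rw [C3.pieces V H hHpos]
  refine (abs_sum_le_sum_abs _ _).trans ?_
  have hsumle : ∑ n ∈ range H, |∑ v ∈ Ico (n * V / H) ((n + 1) * V / H),
      ∏ w : Finset (Fin M), ∏ wA : Finset (Fin MA), ∏ s ∈ range 2, ∏ u ∈ U,
          sg (p.P (pt wA s u + 2 ^ (1999999 * e) * (v + ∑ i ∈ w, h i))
            / 2 ^ (6000000 * e - l1 * l0) % 2 ^ ((l1 + r0) * l0))| ≤
      ∑ n ∈ range H, (wt (p.P1 (n0 + 2 ^ (1999999 * e) * (n * V / H))
        / 2 ^ (6000000 * e - l1 * l0)) + ε / 4) * (V / H + 1) :=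
    sum_le_sum fun n hn => piece n (mem_range.mp hn)
  refine hsumle.trans ?_
  rw [← sum_mul, sum_add_distrib, sum_const, card_range, nsmul_eq_mul]
  have hcell := h1 n0 hn0 V hV1 hV2 wt hwt01
  have hcell2 : ∑ n ∈ range H, wt (p.P1 (n0 + 2 ^ (1999999 * e) * (n * V / H))
      / 2 ^ (6000000 * e - l1 * l0)) ≤ H * (η + η) := by
    refine hcell.trans (mul_le_mul_of_nonneg_left ?_ hHR.le)
    have hds := digsum2 l0 x0 l1 C hx0 δ S (filter_subset _ _)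
    rw [hwt, hds]
    have e1 : (C : ℝ) / (η ^ 2 * 2 ^ (l1 * l0)) * (C * 2 ^ (l1 * l0)
        * (1 - δ / 2 ^ l0) ^ S.card) = C ^ 2 / η ^ 2 * (1 - δ / 2 ^ l0) ^ S.card := by
      have hp : (2 : ℝ) ^ (l1 * l0) ≠ 0 := by positivity
      field_simp
    rw [e1]
    linarith [hl2 S.card hl2c]
  have hVH' : (H : ℝ) ≤ V := by
    have : H ≤ V := by omega
    exact_mod_cast this
  have hfac : (0 : ℝ) ≤ V / H + 1 := by positivity
  calc (∑ n ∈ range H, wt (p.P1 (n0 + 2 ^ (1999999 * e) * (n * V / H))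
      / 2 ^ (6000000 * e - l1 * l0)) + H * (ε / 4)) * (V / H + 1)
      ≤ (H * (η + η) + H * (ε / 4)) * (V / H + 1) := by
        apply mul_le_mul_of_nonneg_right _ hfac
        linarith
    _ = (η + η + ε / 4) * (V + H) := by field_simp
    _ ≤ (ε / 8 + ε / 8 + ε / 4) * (V + V) := by
        apply mul_le_mul _ _ (by positivity) (by positivity)
        · linarith
        · linarith
    _ = ε * V := by ring

end Pool.Agent.Lib.MP_8fac0f_nt.Q4
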