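import Pool.Agent.Lib.MP_8fac0f_nt.Q4.Defs4
import Pool.Agent.Lib.MP_8fac0f_nt.C3.CONTR
import Pool.Agent.Lib.MP_8fac0f_nt.C3.EvalB

/-!
# BEV4, first part: coefficients, offsets and the use of the contraction lemma
-/

set_option autoImplicit false

namespace Pool.Agent.Lib.MP_8fac0f_nt.Q4

open Finset Filter Topology
open Pool.Agent.Lib.MP_8fac0f_nt.C3 (di ex)
open Pool.Agent.Lib.MP_8fac0f_nt.N (sg)

/-- Pairs `i ≤ l` of indices: the products `h i * h l`. -/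
abbrev Pr (M : ℕ) : Type := {x : Fin M × Fin M // x.1 ≤ x.2}

/-- Coefficients of the parameters. -/
def CG {M : ℕ} (g : Finset (Fin M)) : Fin M ⊕ Pr M → ℕ :=
  Sum.elim (fun k => if k ∈ g then 1 else 0)
    (fun x => if x.1.1 ∈ g ∧ x.1.2 ∈ g then (if x.1.1 = x.1.2 then 1 else 2) else 0)

/-- Coefficients of the linear forms. -/
def CT {M : ℕ} {S : Type} (t : Finset (Fin M) × S) (i : Option (Fin M ⊕ Pr M)) : ℕ :=
  i.elim 1 (CG t.1)

theorem CT_none {M : ℕ} {S : Type} (t : Finset (Fin M) × S) : CT t none = 1 := rfl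

theorem CT_some {M : ℕ} {S : Type} (t : Finset (Fin M) × S) (k : Fin M ⊕ Pr M) :
    CT t (some k) = CG t.1 k := rfl

theorem CG_le {M : ℕ} (g : Finset (Fin M)) (i : Fin M ⊕ Pr M) : CG g i ≤ 2 := by
  unfold CG
  rcases i with k | x
  · simp only [Sum.elim_inl]; split_ifs <;> omega
  · simp only [Sum.elim_inr]; split_ifs <;> omega

theorem sum_CT_le {M : ℕ} {S : Type} (t : Finset (Fin M) × S) :
    ∑ i, CT t i ≤ 1 + 2 * Fintype.card (Fin M ⊕ Pr M) := by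
  rw [Fintype.sum_option, CT_none]
  have : ∑ k, CT t (some k) ≤ ∑ _k : Fin M ⊕ Pr M, 2 := by
    apply sum_le_sum
    intro k _
    rw [CT_some]; exact CG_le _ _
  rw [sum_const, card_univ, smul_eq_mul] at this
  omega

/-- The square of a partial sum. -/
theorem sq_partial {M : ℕ} (g : Finset (Fin M)) (h : Fin M → ℝ) :
    ∑ x : Pr M, (CG g (Sum.inr x) : ℝ) * (h x.1.1 * h x.1.2) = (∑ i ∈ g, h i) ^ 2 := by
  classical
  set f : Fin M × Fin M → ℝ := fun x => if x.1 ∈ g ∧ x.2 ∈ g then h x.1 * h x.2 else 0 with hf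
  have h1 : (∑ i ∈ g, h i) ^ 2 = ∑ x : Fin M × Fin M, f x := by
    rw [sq, sum_mul_sum, ← sum_product', Fintype.sum_prod_type, ← Fintype.sum_prod_type,
      ← sum_filter]
    apply sum_congr _ (fun _ _ => rfl)
    ext x
    simp
  have h2 : ∑ x : Fin M × Fin M, f x = ∑ x ∈ univ.filter (fun x : Fin M × Fin M => x.1 ≤ x.2), f x
      + ∑ x ∈ univ.filter (fun x : Fin M × Fin M => ¬ x.1 ≤ x.2), f x :=
    (sum_filter_add_sum_filter_not _ _ _).symm
  have h3 : ∑ x ∈ univ.filter (fun x : Fin M × Fin M => ¬ x.1 ≤ x.2), f x =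
      ∑ x ∈ univ.filter (fun x : Fin M × Fin M => x.1 ≤ x.2), (if x.1 = x.2 then 0 else f x) := by
    rw [sum_filter, sum_filter]
    rw [← Equiv.sum_comp (Equiv.prodComm (Fin M) (Fin M))]
    apply sum_congr rfl
    intro x _
    simp only [Equiv.prodComm_apply, Prod.fst_swap, Prod.snd_swap]
    have hs : f x.swap = f x := by
      simp only [hf, Prod.fst_swap, Prod.snd_swap]
      by_cases hx : x.1 ∈ g ∧ x.2 ∈ g
      · rw [if_pos hx, if_pos hx.symm, mul_comm]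
      · rw [if_neg hx, if_neg (fun hc => hx hc.symm)]
    rw [hs]
    rcases lt_trichotomy x.1 x.2 with hlt | heq | hgt
    · rw [if_pos (not_le.mpr hlt), if_pos hlt.le, if_neg hlt.ne]
    · rw [if_neg (not_not.mpr heq.ge), if_pos heq.le, if_pos heq]
    · rw [if_neg (not_not.mpr hgt.le), if_neg (not_le.mpr hgt)]
  rw [h1, h2, h3, ← sum_add_distrib]
  rw [sum_subtype (p := fun x : Fin M × Fin M => x.1 ≤ x.2)
    (univ.filter (fun x : Fin M × Fin M => x.1 ≤ x.2)) (by simp)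
    (fun x => f x + (if x.1 = x.2 then 0 else f x))]
  apply sum_congr rfl
  intro x _
  simp only [CG, Sum.elim_inr, hf]
  by_cases hx : x.1.1 ∈ g ∧ x.1.2 ∈ g
  · rw [if_pos hx, if_pos hx]
    by_cases he : x.1.1 = x.1.2
    · rw [if_pos he, if_pos he]; push_cast; ring
    · rw [if_neg he, if_neg he]; push_cast; ring
  · rw [if_neg hx, if_neg hx]
    split_ifs <;> simp

/-- Digits in base `b` are unique. -/
theorem dig_inj (b : ℕ) (hb : 0 < b) : ∀ (n : ℕ) (a a' : ℕ → ℕ), (∀ i, a i < b) →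
    (∀ i, a' i < b) → ∑ i ∈ range n, a i * b ^ i = ∑ i ∈ range n, a' i * b ^ i →
    ∀ i < n, a i = a' i := by
  intro n
  induction n with
  | zero => intro a a' _ _ _ i hi; omega
  | succ n ih =>
    intro a a' ha ha' hs
    rw [sum_range_succ', sum_range_succ'] at hs
    have e1 : ∀ a : ℕ → ℕ, ∑ i ∈ range n, a (i + 1) * b ^ (i + 1) =
        b * ∑ i ∈ range n, a (i + 1) * b ^ i := by
      intro a
      rw [mul_sum]
      exact sum_congr rfl fun i _ => by ring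
    rw [e1, e1, pow_zero, mul_one, mul_one] at hs
    have h0 : a 0 = a' 0 := by
      have := congrArg (· % b) hs
      simp only [Nat.mul_add_mod] at this
      rwa [Nat.mod_eq_of_lt (ha 0), Nat.mod_eq_of_lt (ha' 0)] at this
    have h1 : ∑ i ∈ range n, a (i + 1) * b ^ i = ∑ i ∈ range n, a' (i + 1) * b ^ i := by
      rw [h0] at hs
      exact Nat.eq_of_mul_eq_mul_left hb (Nat.add_right_cancel hs)
    have h2 := ih (fun i => a (i + 1)) (fun i => a' (i + 1)) (fun i => ha _) (fun i => ha' _) h1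
    intro i hi
    cases i with
    | zero => exact h0
    | succ i => exact h2 i (by omega)

/-- The total multiplier of the environment number in a point. -/
def Aw {MA : ℕ} (R : ℕ) (r : Fin MA → ℕ) (w : Finset (Fin MA)) : ℕ :=
  ∑ i ∈ w, r i * (2 * R) ^ (i.1 + 1)

theorem Aw_inj {MA : ℕ} (R : ℕ) (r : Fin MA → ℕ) (hr : ∀ i, 1 ≤ r i ∧ r i < R)
    (w w' : Finset (Fin MA)) (s s' : ℕ) (hs : s < 2) (hs' : s' < 2)
    (h : s + Aw R r w = s' + Aw R r w') : s = s' ∧ w = w' := by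
  classical
  rcases Nat.eq_zero_or_pos MA with hM0 | hM0
  · subst hM0
    have e1 : w = w' := by ext i; exact i.elim0
    subst e1
    exact ⟨by omega, rfl⟩
  have hR : 1 ≤ R := by
    have := hr ⟨0, hM0⟩
    omega
  set dg : Finset (Fin MA) → ℕ → ℕ → ℕ := fun w s i =>
    if hi : 1 ≤ i ∧ i - 1 < MA then (if (⟨i - 1, hi.2⟩ : Fin MA) ∈ w then r ⟨i - 1, hi.2⟩ else 0)
    else (if i = 0 then s else 0) with hdg
  have hlt : ∀ w s, s < 2 → ∀ i, dg w s i < 2 * R := by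
    intro w s hs i
    simp only [hdg]
    split_ifs with h1 h2 h3
    · have := (hr ⟨i - 1, h1.2⟩).2
      omega
    · omega
    · omega
    · omega
  have hsum : ∀ w s, ∑ i ∈ range (MA + 1), dg w s i * (2 * R) ^ i = s + Aw R r w := by
    intro w s
    rw [sum_range_succ', add_comm]
    congr 1
    · simp [hdg]
    · unfold Aw
      rw [Finset.sum_range]
      rw [← Finset.sum_filter_add_sum_filter_not univ (fun i : Fin MA => i ∈ w)]
      rw [Finset.filter_mem_eq_inter, Finset.univ_inter]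
      have z : ∑ i ∈ univ.filter (fun i : Fin MA => i ∉ w),
          dg w s (i.1 + 1) * (2 * R) ^ (i.1 + 1) = 0 := by
        apply sum_eq_zero
        intro i hi
        rw [mem_filter] at hi
        have : dg w s (i.1 + 1) = 0 := by
          simp only [hdg, Nat.add_sub_cancel]
          rw [dif_pos ⟨by omega, i.2⟩, if_neg hi.2]
        rw [this, zero_mul]
      rw [z, add_zero]
      apply sum_congr rfl
      intro i hi
      have : dg w s (i.1 + 1) = r i := by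
        simp only [hdg, Nat.add_sub_cancel]
        rw [dif_pos ⟨by omega, i.2⟩, if_pos hi]
      rw [this]
  have key := dig_inj (2 * R) (by omega) (MA + 1) (dg w s) (dg w' s') (hlt w s hs)
    (hlt w' s' hs') (by rw [hsum, hsum, h])
  constructor
  · have := key 0 (by omega)
    simpa [hdg] using this
  · ext i
    have h1 := key (i.1 + 1) (by omega)
    have h2 : ∀ w s, dg w s (i.1 + 1) = if i ∈ w then r i else 0 := by
      intro w s
      simp only [hdg, Nat.add_sub_cancel]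
      rw [dif_pos ⟨by omega, i.2⟩]
    rw [h2, h2] at h1
    have h3 := (hr i).1
    by_cases ha : i ∈ w <;> by_cases hb : i ∈ w' <;> simp [ha, hb] at h1 ⊢ <;> omega

/-- The points of the correlation: `u`, the point of the pair, a set of shifts. -/
abbrev St (U : Finset ℕ) (MA : ℕ) := ↥U × Fin 2 × Finset (Fin MA)

theorem contr_use4 (M MA R : ℕ) (U : Finset ℕ) (hU : U.Nonempty) :
    ∃ (l0 x0 y0 : ℕ) (δ : ℝ), 1 ≤ l0 ∧ x0 < 2 ^ l0 ∧ y0 < 2 ^ l0 ∧ 0 < δ ∧ δ ≤ 1 ∧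
      ∀ l1 r0 : ℕ, ∀ r : Fin MA → ℕ, (∀ i, 1 ≤ r i ∧ r i < R) →
      ∀ (κr : Finset (Fin M) → ℝ), (∀ g, 0 ≤ κr g) →
      ∀ Xr Dr : ℝ, 0 ≤ Xr → 0 ≤ Dr → ∀ c : Finset (Fin M) × St U MA → ℕ,
      (∀ t, ⌊κr t.1 + t.2.1.1 * Xr + Aw R r t.2.2.2 * ⌊Dr⌋₊ + t.2.2.1.1 * Dr⌋₊ ≤ c t ∧
        c t ≤ ⌊κr t.1 + t.2.1.1 * Xr + Aw R r t.2.2.2 * ⌊Dr⌋₊ + t.2.2.1.1 * Dr⌋₊
          + ∑ i, CT t i + 1) →
      |∑ p ∈ Fintype.piFinset (fun _ : Option (Fin M ⊕ Pr M) => range (2 ^ ((l1 + r0) * l0))),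
        ∏ t, sg ((∑ i, CT t i * p i + c t) % 2 ^ ((l1 + r0) * l0))|
      ≤ (1 - δ) ^ ((((range l1).filter fun i => ⌊Dr⌋₊ / 2 ^ (i * l0) % 2 ^ l0 = y0).filter
          fun i => ⌊Xr⌋₊ / 2 ^ (i * l0) % 2 ^ l0 = x0).card)
          * 2 ^ ((l1 + r0) * l0 * (Fintype.card (Fin M ⊕ Pr M) + 1)) := by
  classical
  obtain ⟨l0, x0, y0, δ, hl0, hx0, hy0, hδ, hδ1, H⟩ := C3.contr (G := Finset (Fin M))
    (D := Fin M ⊕ Pr M) CG univ (by
      intro g hg
      obtain ⟨i, hi⟩ : ∃ i, i ∉ g := by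
        by_contra hcon
        push Not at hcon
        exact hg (eq_univ_iff_forall.mpr hcon)
      exact ⟨Sum.inl i, by simp [CG, hi], by simp [CG]⟩)
    ((univ : Finset (Fin MA → Fin R)).image fun r =>
      (univ : Finset (St U MA)).image fun s => (s.1.1, s.2.1.1 + Aw R (fun i => (r i).1) s.2.2))
    (by
      intro O hO
      obtain ⟨r, -, rfl⟩ := mem_image.mp hO
      obtain ⟨u, hu⟩ := hU
      exact (univ_nonempty_iff.mpr ⟨(⟨u, hu⟩, 0, ∅)⟩).image _)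
    (U.sup id + 4 + 2 * Fintype.card (Fin M ⊕ Pr M))
  refine ⟨l0, x0, y0, δ, hl0, hx0, hy0, hδ, hδ1, ?_⟩
  intro l1 r0 r hr κr hκ Xr Dr hX hD c hc
  set B := l1 + r0 with hB
  set Y := ⌊Dr⌋₊ with hY
  set O : Finset (ℕ × ℕ) := (univ : Finset (St U MA)).image
    fun s => (s.1.1, s.2.1.1 + Aw R r s.2.2) with hO
  have hOO : O ∈ ((univ : Finset (Fin MA → Fin R)).image fun r =>
      (univ : Finset (St U MA)).image
        fun s => (s.1.1, s.2.1.1 + Aw R (fun i => (r i).1) s.2.2)) :=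
    mem_image.mpr ⟨fun i => ⟨r i, (hr i).2⟩, mem_univ _, rfl⟩
  have hinj : Function.Injective (fun s : St U MA => (s.1.1, s.2.1.1 + Aw R r s.2.2)) := by
    rintro ⟨u, s, w⟩ ⟨u', s', w'⟩ h
    simp only [Prod.mk.injEq] at h
    obtain ⟨h1, h2⟩ := h
    obtain ⟨h3, h4⟩ := Aw_inj R r hr w w' s.1 s'.1 s.2 s'.2 h2
    rw [Subtype.ext h1, Fin.ext h3, h4]
  have hlow : ∀ t : Finset (Fin M) × St U MA,
      ⌊κr t.1⌋₊ + t.2.1.1 * ⌊Xr⌋₊ + (t.2.2.1.1 + Aw R r t.2.2.2) * Y ≤ c t := by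
    intro t
    refine le_trans ?_ (hc t).1
    apply Nat.le_floor
    push_cast
    have h1 := Nat.floor_le (hκ t.1)
    have h2 := Nat.floor_le hX
    have h2' := Nat.floor_le hD
    have h3 : (t.2.1.1 : ℝ) * ⌊Xr⌋₊ ≤ t.2.1.1 * Xr :=
      mul_le_mul_of_nonneg_left h2 (Nat.cast_nonneg _)
    have h4 : (t.2.2.1.1 : ℝ) * ⌊Dr⌋₊ ≤ t.2.2.1.1 * Dr :=
      mul_le_mul_of_nonneg_left h2' (Nat.cast_nonneg _)
    rw [hY]
    linarith
  have hupp : ∀ t : Finset (Fin M) × St U MA,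
      c t ≤ ⌊κr t.1⌋₊ + t.2.1.1 * ⌊Xr⌋₊ + (t.2.2.1.1 + Aw R r t.2.2.2) * Y
        + (U.sup id + 4 + 2 * Fintype.card (Fin M ⊕ Pr M)) := by
    intro t
    have h0 : ⌊κr t.1 + t.2.1.1 * Xr + Aw R r t.2.2.2 * Y + t.2.2.1.1 * Dr⌋₊
        ≤ ⌊κr t.1⌋₊ + t.2.1.1 * ⌊Xr⌋₊ + (t.2.2.1.1 + Aw R r t.2.2.2) * Y
          + (1 + t.2.1.1 + t.2.2.1.1) := by
      have h1 := Nat.lt_floor_add_one (κr t.1)
      have h2 := Nat.lt_floor_add_one Xr
      have h2' := Nat.lt_floor_add_one Dr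
      have h3 : (t.2.1.1 : ℝ) * Xr ≤ t.2.1.1 * (⌊Xr⌋₊ + 1) :=
        mul_le_mul_of_nonneg_left h2.le (Nat.cast_nonneg _)
      have h3' : (t.2.2.1.1 : ℝ) * Dr ≤ t.2.2.1.1 * (Y + 1) :=
        mul_le_mul_of_nonneg_left h2'.le (Nat.cast_nonneg _)
      have hnn : (0 : ℝ) ≤ κr t.1 + t.2.1.1 * Xr + Aw R r t.2.2.2 * Y + t.2.2.1.1 * Dr := by
        have := hκ t.1
        positivity
      have h4 := Nat.floor_le hnn
      have h5 : ((⌊κr t.1 + t.2.1.1 * Xr + Aw R r t.2.2.2 * Y + t.2.2.1.1 * Dr⌋₊ : ℕ) : ℝ) <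
          ((⌊κr t.1⌋₊ + t.2.1.1 * ⌊Xr⌋₊ + (t.2.2.1.1 + Aw R r t.2.2.2) * Y
            + (1 + t.2.1.1 + t.2.2.1.1) : ℕ) : ℝ) := by
        push_cast
        linarith
      exact (Nat.cast_lt.mp h5).le
    have h6 := (hc t).2
    have h7 := sum_CT_le t
    have h8 : t.2.1.1 ≤ U.sup id := Finset.le_sup (f := id) t.2.1.2
    have h9 : t.2.2.1.1 ≤ 1 := by have := t.2.2.1.2; omega
    omega
  set c' : Finset (Fin M) → ℕ × ℕ → ℕ := fun g o =>
    if h : ∃ s : St U MA, (s.1.1, s.2.1.1 + Aw R r s.2.2) = o then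
      c (g, h.choose) - (⌊κr g⌋₊ + o.1 * ⌊Xr⌋₊ + o.2 * Y) else 0 with hc'
  have hc's : ∀ g (s : St U MA), c' g (s.1.1, s.2.1.1 + Aw R r s.2.2) =
      c (g, s) - (⌊κr g⌋₊ + s.1.1 * ⌊Xr⌋₊ + (s.2.1.1 + Aw R r s.2.2) * Y) := by
    intro g s
    have hex : ∃ s' : St U MA, (s'.1.1, s'.2.1.1 + Aw R r s'.2.2) =
        (s.1.1, s.2.1.1 + Aw R r s.2.2) := ⟨s, rfl⟩
    simp only [hc']
    rw [dif_pos hex]
    have : hex.choose = s := hinj hex.choose_spec
    rw [this]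
  have hc'le : ∀ g o, c' g o ≤ U.sup id + 4 + 2 * Fintype.card (Fin M ⊕ Pr M) := by
    intro g o
    by_cases h : ∃ s : St U MA, (s.1.1, s.2.1.1 + Aw R r s.2.2) = o
    · obtain ⟨s, rfl⟩ := h
      rw [hc's]
      have := hupp (g, s)
      simp only at this
      omega
    · simp only [hc']
      rw [dif_neg h]
      exact Nat.zero_le _
  have key := H B O hOO (fun g => ⌊κr g⌋₊) ⌊Xr⌋₊ Y c' hc'le
  have hcount : (((range l1).filter fun i => Y / 2 ^ (i * l0) % 2 ^ l0 = y0).filter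
          fun i => ⌊Xr⌋₊ / 2 ^ (i * l0) % 2 ^ l0 = x0).card ≤
      ((range B).filter fun i => ⌊Xr⌋₊ / 2 ^ (i * l0) % 2 ^ l0 = x0 ∧
        Y / 2 ^ (i * l0) % 2 ^ l0 = y0).card := by
    apply card_le_card
    intro i hi
    rw [mem_filter, mem_filter, mem_range] at hi
    rw [mem_filter, mem_range]
    exact ⟨by omega, hi.2, hi.1.2⟩
  have hpow := pow_le_pow_of_le_one (show (0 : ℝ) ≤ 1 - δ by linarith) (by linarith) hcount
  have hsum : ∀ p : Option (Fin M ⊕ Pr M) → ℕ,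
      ∏ t, sg ((∑ i, CT t i * p i + c t) % 2 ^ (B * l0)) =
      ∏ g : Finset (Fin M), ∏ o ∈ O, sg ((p none + ∑ i, CG g i * p (some i)
        + ⌊κr g⌋₊ + o.1 * ⌊Xr⌋₊ + o.2 * Y + c' g o) % 2 ^ (B * l0)) := by
    intro p
    rw [Fintype.prod_prod_type]
    refine prod_congr rfl fun g _ => ?_
    rw [hO, prod_image (fun s _ s' _ hss => hinj hss)]
    refine prod_congr rfl fun s _ => ?_
    have h2 := hlow (g, s)
    simp only at h2
    have h3 : ∑ i, CT (g, s) i * p i + c (g, s) =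
        p none + ∑ i, CG g i * p (some i)
          + ⌊κr g⌋₊ + s.1.1 * ⌊Xr⌋₊ + (s.2.1.1 + Aw R r s.2.2) * Y
          + c' g (s.1.1, s.2.1.1 + Aw R r s.2.2) := by
      rw [Fintype.sum_option, hc's]
      simp only [CT_none, CT_some, one_mul]
      omega
    rw [h3]
  rw [sum_congr rfl fun p _ => hsum p]
  refine key.trans ?_
  exact mul_le_mul_of_nonneg_right hpow (by positivity)

end Pool.Agent.Lib.MP_8fac0f_nt.Q4
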