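import Pool.Agent.Lib.MP_8fac0f_nt.Q4.Defs4

/-!
# SEL2: choice of linearly and quadratically independent multipliers

Model: `C3.select` (file C3/Select.lean). Induction on the number of chosen `q_i` (prove it for functions
`Fin n → ℕ` with `Fin.snoc`, or by recursion over `Fin M` with the statement for the indices below `n`): given
`q_0, .., q_{n-1}` with the two properties, forbid for `q_n` (a) for each `ξ : Fin (n+1) → ℤ`, `|ξ i| ≤ Ξ`, `ξ_n ≠ 0`:
the at most one value with `sum ξ_i q_i = 0` (if `ξ_n = 0` use the induction hypothesis); (b) for each quadratic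
`ξ`: the equation in `x = q_n` is `ξ_nn x ^ 2 + (sum_{i<n} ξ_in q_i) x + Q(q_0, .., q_{n-1}) = 0`; if `ξ_nn ≠ 0` at most two
values; if `ξ_nn = 0` and some `ξ_in ≠ 0` the linear coefficient is nonzero by the linear property of the earlier ones: at most
one value; otherwise `Q ≠ 0` by the induction hypothesis. So `n0 = 2 * (2 * Ξ + 1) ^ (M * M) + (2 * Ξ + 1) ^ M + 1` works (any finite
bound is fine; a cheap way to count the forbidden values: they lie in a finset image of the finite set of all `ξ`).
-/

set_option autoImplicit false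

namespace Pool.Agent.Lib.MP_8fac0f_nt.Q4

open Finset Filter Topology
open Pool.Agent.Lib.MP_8fac0f_nt.C3 (di ex)
open Pool.Agent.Lib.MP_8fac0f_nt.N (sg)

open Polynomial in
/-- A large set contains an integer that is no root of finitely many polynomials of degree at most two. -/
private theorem SEL2_pick {ι : Type*} (s : Finset ι) (p : ι → ℤ[X]) (hd : ∀ i ∈ s, (p i).natDegree ≤ 2)
    (K : Finset ℕ) (hK : 2 * s.card < K.card) :
    ∃ x ∈ K, ∀ i ∈ s, p i ≠ 0 → (p i).eval (x : ℤ) ≠ 0 := by
  classical
  by_contra hcon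
  push Not at hcon
  have h1 : K.image (fun x : ℕ => (x : ℤ)) ⊆ s.biUnion fun i => (p i).roots.toFinset := by
    intro y hy
    obtain ⟨x, hx, rfl⟩ := mem_image.1 hy
    obtain ⟨i, hi, h0, he⟩ := hcon x hx
    refine mem_biUnion.2 ⟨i, hi, ?_⟩
    rw [Multiset.mem_toFinset, mem_roots h0]
    exact he
  have h2 := card_le_card h1
  rw [card_image_of_injective K Nat.cast_injective] at h2
  have h3 : (s.biUnion fun i => (p i).roots.toFinset).card ≤ s.card * 2 := by
    refine card_biUnion_le_card_mul _ _ _ fun i hi => ?_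
    exact (Multiset.toFinset_card_le _).trans ((card_roots' _).trans (hd i hi))
  omega

open Polynomial in
private theorem SEL2_deg (a b c : ℤ) : (C a * X ^ 2 + C b * X + C c).natDegree ≤ 2 :=
  natDegree_quadratic_le

open Polynomial in
private theorem SEL2_ne {a b c : ℤ} (h : a ≠ 0 ∨ b ≠ 0 ∨ c ≠ 0) : (C a * X ^ 2 + C b * X + C c) ≠ 0 := by
  intro h0
  have h2 := congrArg (fun f : ℤ[X] => f.coeff 2) h0
  have h1 := congrArg (fun f : ℤ[X] => f.coeff 1) h0
  have h3 := congrArg (fun f : ℤ[X] => f.coeff 0) h0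
  simp only [coeff_add, coeff_C_mul, coeff_X_pow, coeff_X, coeff_C, coeff_zero] at h1 h2 h3
  rcases h with h | h | h
  · exact h (by simpa using h2)
  · exact h (by simpa using h1)
  · exact h (by simpa using h3)

/-- The quadratic form at `Fin.snoc q x`. -/
private theorem SEL2_quad {M : ℕ} (q : Fin M → ℕ) (x : ℕ) (ξ : Fin (M + 1) → Fin (M + 1) → ℤ) :
    ∑ i, ∑ l ∈ univ.filter (fun l => i ≤ l), ξ i l *
      (((Fin.snoc (α := fun _ => ℕ) q x : Fin (M + 1) → ℕ) i : ℤ) *
        (Fin.snoc (α := fun _ => ℕ) q x : Fin (M + 1) → ℕ) l) =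
      ξ (Fin.last M) (Fin.last M) * (x : ℤ) ^ 2 +
        (∑ i : Fin M, ξ i.castSucc (Fin.last M) * (q i : ℤ)) * x +
        ∑ i : Fin M, ∑ l ∈ univ.filter (fun l => i ≤ l), ξ i.castSucc l.castSucc * ((q i : ℤ) * q l) := by
  have hlast : ∀ l : Fin M, ¬ Fin.last M ≤ l.castSucc := fun l h =>
    absurd (lt_of_lt_of_le (Fin.castSucc_lt_last l) h) (lt_irrefl _)
  simp only [sum_filter, Fin.sum_univ_castSucc, Fin.snoc_castSucc, Fin.snoc_last, Fin.castSucc_le_castSucc_iff,
    Fin.le_last, if_true, hlast, if_false, sum_const_zero, zero_add]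
  rw [sum_add_distrib, sum_mul]
  have h1 : ∀ i : Fin M, ξ i.castSucc (Fin.last M) * ((q i : ℤ) * (x : ℤ)) =
      ξ i.castSucc (Fin.last M) * (q i : ℤ) * x := fun i => by ring
  simp only [h1]
  ring

theorem sel2 (M Ξ : ℕ) : ∃ n0 : ℕ, ∀ K : Fin M → Finset ℕ, (∀ i, n0 ≤ (K i).card) →
    ∃ q : Fin M → ℕ, (∀ i, q i ∈ K i) ∧ Gen Ξ q := by
  classical
  induction M with
  | zero =>
    refine ⟨0, fun K _ => ⟨fun i => i.elim0, fun i => i.elim0, ?_, ?_⟩⟩
    · intro ξ hξ
      exact (hξ (Subsingleton.elim _ _)).elim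
    · rintro ξ ⟨i, -⟩
      exact i.elim0
  | succ M ih =>
    obtain ⟨n0, hn0⟩ := ih
    set b1 : Finset (Fin (M + 1) → ℤ) := Fintype.piFinset (fun _ => Icc (-(Ξ : ℤ)) Ξ) with hb1
    set b2 : Finset (Fin (M + 1) → Fin (M + 1) → ℤ) := Fintype.piFinset (fun _ => b1) with hb2
    refine ⟨max n0 (2 * (b1.card + b2.card) + 1), fun K hK => ?_⟩
    obtain ⟨q, hq, hg1, hg2⟩ := hn0 (fun i => K i.castSucc) fun i => (le_max_left _ _).trans (hK _)
    obtain ⟨x, hx, hx2⟩ := SEL2_pick (b1.disjSum b2)
      (fun t : (Fin (M + 1) → ℤ) ⊕ (Fin (M + 1) → Fin (M + 1) → ℤ) => match t with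
        | Sum.inl ξ => Polynomial.C 0 * Polynomial.X ^ 2 + Polynomial.C (ξ (Fin.last M)) * Polynomial.X +
            Polynomial.C (∑ i : Fin M, ξ i.castSucc * (q i : ℤ))
        | Sum.inr ξ => Polynomial.C (ξ (Fin.last M) (Fin.last M)) * Polynomial.X ^ 2 +
            Polynomial.C (∑ i : Fin M, ξ i.castSucc (Fin.last M) * (q i : ℤ)) * Polynomial.X +
            Polynomial.C (∑ i : Fin M, ∑ l ∈ univ.filter (fun l => i ≤ l),
              ξ i.castSucc l.castSucc * ((q i : ℤ) * q l)))
      (by
        rintro (ξ | ξ) -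
        · exact SEL2_deg _ _ _
        · exact SEL2_deg _ _ _)
      (K (Fin.last M)) (by
        rw [card_disjSum]
        exact lt_of_lt_of_le (Nat.lt_succ_self _) ((le_max_right _ _).trans (hK _)))
    refine ⟨Fin.snoc (α := fun _ => ℕ) q x, ?_, ?_, ?_⟩
    · intro i
      induction i using Fin.lastCases with
      | last => simpa using hx
      | cast i => simpa using hq i
    · intro ξ hξ hξb hsum
      rw [Fin.sum_univ_castSucc] at hsum
      simp only [Fin.snoc_castSucc, Fin.snoc_last] at hsum
      refine hx2 (Sum.inl ξ) ?_ ?_ ?_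
      · rw [inl_mem_disjSum, hb1, Fintype.mem_piFinset]
        intro i
        rw [mem_Icc]
        exact abs_le.1 (hξb i)
      · refine SEL2_ne ?_
        by_cases h0 : ξ (Fin.last M) = 0
        · refine Or.inr (Or.inr (hg1 (fun i => ξ i.castSucc) ?_ fun i => hξb _))
          intro hz
          apply hξ
          funext i
          induction i using Fin.lastCases with
          | last => simpa using h0
          | cast i => exact congrFun hz i
        · exact Or.inr (Or.inl h0)
      · simp only [Polynomial.eval_add, Polynomial.eval_mul, Polynomial.eval_C, Polynomial.eval_X,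
          Polynomial.eval_pow]
        linarith
    · rintro ξ ⟨i, l, hil, hne⟩ hξb hsum
      rw [SEL2_quad] at hsum
      refine hx2 (Sum.inr ξ) ?_ ?_ ?_
      · rw [inr_mem_disjSum, hb2, Fintype.mem_piFinset]
        intro i
        rw [hb1, Fintype.mem_piFinset]
        intro l
        rw [mem_Icc]
        exact abs_le.1 (hξb i l)
      · refine SEL2_ne ?_
        by_cases h0 : ξ (Fin.last M) (Fin.last M) = 0
        · by_cases h1 : (fun i : Fin M => ξ i.castSucc (Fin.last M)) = 0
          · refine Or.inr (Or.inr (hg2 (fun i l => ξ i.castSucc l.castSucc) ?_ fun i l => hξb _ _))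
            induction l using Fin.lastCases with
            | last =>
              induction i using Fin.lastCases with
              | last => exact absurd h0 hne
              | cast i => exact absurd (congrFun h1 i) hne
            | cast l =>
              induction i using Fin.lastCases with
              | last => exact absurd (lt_of_lt_of_le (Fin.castSucc_lt_last l) hil) (lt_irrefl _)
              | cast i => exact ⟨i, l, Fin.castSucc_le_castSucc_iff.1 hil, hne⟩
          · exact Or.inr (Or.inl (hg1 _ h1 fun i => hξb _ _))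
        · exact Or.inl h0
      · simp only [Polynomial.eval_add, Polynomial.eval_mul, Polynomial.eval_C, Polynomial.eval_X,
          Polynomial.eval_pow]
        exact hsum

end Pool.Agent.Lib.MP_8fac0f_nt.Q4
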