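import Pool.Agent.Lib.MP_8fac0f_nt.Q4.PIGF
import Pool.Agent.Lib.MP_8fac0f_nt.Q4.SEL2
import Pool.Agent.Lib.MP_8fac0f_nt.C3.LP
import Pool.Agent.Lib.MP_8fac0f_nt.C3.Stab
import Pool.Agent.Lib.MP_8fac0f_nt.C3.BPhase

/-!
# BPH: the digits below `2 j`, `j = 1999999 e`, for a family of points

Model: `C3.bphase` (file C3/BPhase.lean), here for a family `pt : ι → ℕ` and an abstract function `Ψ`; `M l = 1999999 e`.
`R, ε'` from `C3.lp M ε` (take `R = R1`). Digits below `j` are constant in `v` (`P (n + 2 ^ j v) = P n` mod `2 ^ j`);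
`C3.BPhase_split` splits `sg (x % 2 ^ (j + M l))`. Slice `i` is killed by the multipliers of `pigf` with
`A x = P1 (pt x)`, `m = (i + 1) l`, `L = l + (t + R)`, `Q = 2 ^ ((|ι| + 2) l)`: since
`P (pt + 2 ^ j (v + q r)) = P (pt + 2 ^ j v) + 2 ^ j q r P1 (pt + 2 ^ j v) = P (pt + 2 ^ j v) + 2 ^ j q r P1 pt` modulo `2 ^ (2 j)`
(`P_add`, `P1_add`), the digits `[j + i l, j + (i + 1) l)` at `v + q r` and `v` agree if
`1 / 2 ^ t < di (P (pt + 2 ^ j v) / 2 ^ (j + i l))` (`C3.stab`). `|K_i| ≥ 2 ^ l ≥ n0` with `n0` from `sel2 M (Ξ * R ^ 2)`; the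
`h_i = q_i r_i`, `1 ≤ r_i < R`, satisfy `Gen Ξ h` (coefficients `ξ_i r_i`, `ξ_il r_i r_l`), and `sum h ≤ M R Q ≤ 2 ^ (e / 16)`
because `e / 16 = (|ι| + 4) l`.
-/

set_option autoImplicit false

namespace Pool.Agent.Lib.MP_8fac0f_nt.Q4

open Finset Filter Topology
open Pool.Agent.Lib.MP_8fac0f_nt.C3 (di ex)
open Pool.Agent.Lib.MP_8fac0f_nt.N (sg)

/-- a slice is not changed by the shift `2 ^ j * (q * r)` -/
private theorem bph_kill (p : Co) (n j s L q r v : ℕ) (hj : j ≤ s) (hs : s + L ≤ 2 * j) (δ : ℝ)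
    (hq : di (q * p.P1 n / 2 ^ (s + L - j)) ≤ δ)
    (hd : r * δ * 2 ^ L < di (p.P (n + 2 ^ j * v) / 2 ^ s)) :
    p.P (n + 2 ^ j * (v + q * r)) / 2 ^ s % 2 ^ L = p.P (n + 2 ^ j * v) / 2 ^ s % 2 ^ L := by
  obtain ⟨z, D, hz, hD⟩ := C3.int_of_di (q * p.P1 n) (s + L - j) δ (by
    push_cast; exact hq)
  obtain ⟨k, hk⟩ := Nat.exists_eq_add_of_le hs
  have hpow : (2 : ℤ) ^ j * 2 ^ (s + L - j) = 2 ^ (s + L) := by
    rw [← pow_add]; congr 1; omega
  have hpow2 : (2 : ℤ) ^ j * 2 ^ j = 2 ^ (s + L) * 2 ^ k := by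
    rw [← pow_add, ← pow_add]; congr 1; omega
  refine C3.stab _ _ s L (r * 2 ^ j * D)
    (r * z + 2 ^ k * (((v + q * r : ℕ) : ℤ) ^ 2 - v ^ 2) * p.P2 n
    + 2 ^ k * 2 ^ j * (((v + q * r : ℕ) : ℤ) ^ 3 - v ^ 3) * p.P3 n
    + 2 ^ k * 2 ^ j * 2 ^ j * p.a * (((v + q * r : ℕ) : ℤ) ^ 4 - v ^ 4)) ?_ ?_
  · have e1 := p.P_add n (2 ^ j * (v + q * r))
    have e2 := p.P_add n (2 ^ j * v)
    rw [e1, e2]
    push_cast
    have e3 : (2 : ℤ) ^ j * (q * r) * p.P1 n = r * z * 2 ^ (s + L) + r * 2 ^ j * D := by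
      calc (2 : ℤ) ^ j * (q * r) * p.P1 n = r * 2 ^ j * (q * p.P1 n) := by ring
        _ = r * 2 ^ j * (z * 2 ^ (s + L - j) + D) := by rw [hz]
        _ = r * z * (2 ^ j * 2 ^ (s + L - j)) + r * 2 ^ j * D := by ring
        _ = _ := by rw [hpow]
    linear_combination e3 + ((((v : ℤ) + q * r) ^ 2 - v ^ 2) * p.P2 n
      + 2 ^ j * (((v : ℤ) + q * r) ^ 3 - v ^ 3) * p.P3 n
      + 2 ^ j * 2 ^ j * p.a * (((v : ℤ) + q * r) ^ 4 - v ^ 4)) * hpow2
  · push_cast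
    rw [abs_mul, abs_mul, Nat.abs_cast, abs_of_pos (by positivity : (0 : ℝ) < 2 ^ j)]
    have hs' : (0 : ℝ) < 2 ^ s := by positivity
    calc (r : ℝ) * 2 ^ j * |(D : ℝ)| ≤ r * 2 ^ j * (δ * 2 ^ (s + L - j)) := by gcongr
      _ = r * δ * (2 ^ j * 2 ^ (s + L - j)) := by ring
      _ = r * δ * 2 ^ (s + L) := by rw [← pow_add]; congr 2; omega
      _ = (r * δ * 2 ^ L) * 2 ^ s := by rw [pow_add]; ring
      _ < _ := by gcongr

private theorem bph_mod (p : Co) (j n v : ℕ) : p.P (n + 2 ^ j * v) % 2 ^ j = p.P n % 2 ^ j := by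
  rw [p.P_add]
  have : p.P n + 2 ^ j * v * p.P1 n + (2 ^ j * v) ^ 2 * p.P2 n + (2 ^ j * v) ^ 3 * p.P3 n
      + p.a * (2 ^ j * v) ^ 4 = p.P n + 2 ^ j * (v * p.P1 n + 2 ^ j * v ^ 2 * p.P2 n
        + 2 ^ j * 2 ^ j * v ^ 3 * p.P3 n + p.a * 2 ^ j * 2 ^ j * 2 ^ j * v ^ 4) := by ring
  rw [this, Nat.add_mul_mod_self_left]

/-- the multipliers times small numbers stay independent -/
private theorem bph_gen {M : ℕ} (Ξ R : ℕ) (q r : Fin M → ℕ) (hR : 1 ≤ R) (h : Gen (Ξ * R ^ 2) q)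
    (hr : ∀ i, 1 ≤ r i ∧ r i < R) : Gen Ξ fun i => q i * r i := by
  have hR2 : (R : ℤ) ≤ (R : ℤ) ^ 2 := by
    have : (1 : ℤ) ≤ R := by exact_mod_cast hR
    nlinarith
  have hrR : ∀ i, (r i : ℤ) ≤ R := fun i => by exact_mod_cast (hr i).2.le
  have hr0 : ∀ i, (0 : ℤ) ≤ r i := fun i => Nat.cast_nonneg _
  refine ⟨fun ξ hξ hb => ?_, fun ξ hξ hb => ?_⟩
  · have h1 := h.1 (fun i => ξ i * (r i : ℤ)) (by
      intro h0
      apply hξ
      funext i
      have h4 := congrFun h0 i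
      simp only [Pi.zero_apply, mul_eq_zero] at h4
      rcases h4 with h4 | h4
      · exact h4
      · have := (hr i).1
        omega) (by
      intro i
      rw [abs_mul, abs_of_nonneg (hr0 i)]
      push_cast
      calc |ξ i| * (r i : ℤ) ≤ Ξ * R := mul_le_mul (hb i) (hrR i) (hr0 i) (by positivity)
        _ ≤ Ξ * (R : ℤ) ^ 2 := mul_le_mul_of_nonneg_left hR2 (by positivity))
    intro h0
    refine h1 (Eq.trans (Finset.sum_congr rfl fun i _ => ?_) h0)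
    push_cast
    ring
  · have h1 := h.2 (fun i l => ξ i l * ((r i : ℤ) * r l)) (by
      obtain ⟨i, l, hil, h0⟩ := hξ
      refine ⟨i, l, hil, mul_ne_zero h0 (mul_ne_zero ?_ ?_)⟩
      · have := (hr i).1
        omega
      · have := (hr l).1
        omega) (by
      intro i l
      rw [abs_mul, abs_of_nonneg (mul_nonneg (hr0 i) (hr0 l))]
      push_cast
      refine mul_le_mul (hb i l) ?_ (mul_nonneg (hr0 i) (hr0 l)) (by positivity)
      rw [sq]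
      exact mul_le_mul (hrR i) (hrR l) (hr0 l) (by positivity))
    intro h0
    refine h1 (Eq.trans (Finset.sum_congr rfl fun i _ => Finset.sum_congr rfl fun l _ => ?_) h0)
    push_cast
    ring

theorem bph (ι : Type) [Fintype ι] (p : Co) (E M κ : ℕ) (hE : E = 16 * (Fintype.card ι + 4))
    (hM : M = 1999999 * E) (ε : ℝ) (hε : 0 < ε) : ∃ ε' : ℝ, 0 < ε' ∧ ∀ Ξ t : ℕ,
      ∀ᶠ l : ℕ in atTop, ∀ e : ℕ, e = E * l → ∀ (V : ℕ) (pt : ι → ℕ) (Ψ : ℕ → ℝ),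
      2 ^ e ≤ V → V ≤ κ * 2 ^ e → (∀ v, |Ψ v| ≤ 1) →
      (∀ i < M, (((range V).filter fun v : ℕ => ∃ x,
        di (p.P (pt x + 2 ^ (1999999 * e) * v) / 2 ^ (1999999 * e + i * l)) ≤ 1 / 2 ^ t).card : ℝ)
        ≤ ε' * V) →
      (∀ h : Fin M → ℕ, ∑ i, h i ≤ 2 ^ (e / 16) → Gen Ξ h →
        |∑ v ∈ range V, ∏ w : Finset (Fin M), Ψ (v + ∑ i ∈ w, h i)| ≤ ε' * V) →
      |∑ v ∈ range V, (∏ x, sg (p.P (pt x + 2 ^ (1999999 * e) * v) % 2 ^ (3999998 * e))) * Ψ v|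
        ≤ ε * V := by
  classical
  obtain ⟨R, hR1, hLP⟩ := C3.lp M ε hε
  obtain ⟨ε', hε', hLP⟩ := hLP R le_rfl
  refine ⟨ε', hε', fun Ξ t => ?_⟩
  obtain ⟨n0, hn0⟩ := sel2 M (Ξ * R ^ 2)
  obtain ⟨n1, hn1⟩ := exists_nat_gt ((R : ℝ) / ε')
  obtain ⟨c, hc⟩ : ∃ c, c = Fintype.card ι := ⟨_, rfl⟩
  rw [← hc] at hE
  refine eventually_atTop.2 ⟨n0 + n1 + M * R + c * (t + R) + 1, fun l hl e he V pt Ψ hV1 hV2 hΨ1 hBd hS => ?_⟩
  have he' : e = 16 * ((c + 4) * l) := by rw [he, hE]; ring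
  have hMe : M * l = 1999999 * e := by rw [hM, he]; ring
  have hl2 : l < 2 ^ l := Nat.lt_two_pow_self
  -- the multipliers
  obtain ⟨Q, hQ⟩ : ∃ Q, Q = 2 ^ ((c + 2) * l) := ⟨_, rfl⟩
  have hQ1 : 1 ≤ Q := by rw [hQ]; exact Nat.one_le_two_pow
  choose K hK1 hK2 using fun i : Fin M =>
    pigf (fun x => p.P1 (pt x)) (((i : ℕ) + 1) * l) (l + (t + R)) Q hQ1
  have hKc : ∀ i, n0 ≤ (K i).card := by
    intro i
    have h4 : Q = 2 ^ (2 * l - c * (t + R)) * 2 ^ ((l + (t + R)) * c) := by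
      rw [hQ, ← pow_add]
      congr 1
      have : c * (t + R) ≤ 2 * l := by omega
      zify [this]
      ring
    have h5 : 2 ^ (2 * l - c * (t + R)) ≤ (K i).card + 1 := by
      have h6 := hK2 i
      rw [← hc, h4] at h6
      exact Nat.le_of_mul_le_mul_right h6 (by positivity)
    have h7 : 2 ^ l ≤ 2 ^ (2 * l - c * (t + R)) := Nat.pow_le_pow_right (by norm_num) (by omega)
    omega
  obtain ⟨qq, hqK, hqGen⟩ := hn0 K hKc
  have hqQ : ∀ i, qq i ≤ Q := fun i => (hK1 i (qq i) (hqK i)).2.1.le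
  -- the functions
  set φ : Fin M → ℕ → ℝ := fun i v => ∏ x,
    sg (p.P (pt x + 2 ^ (1999999 * e) * v) / 2 ^ (1999999 * e + i * l) % 2 ^ l) with hφ
  set Bd : Fin M → ℕ → Prop := fun i v => ∃ x,
    di (p.P (pt x + 2 ^ (1999999 * e) * v) / 2 ^ (1999999 * e + i * l)) ≤ 1 / 2 ^ t with hBdd
  have hprod : ∀ F : ι → ℝ, (∀ x, F x = 1 ∨ F x = -1) → (∏ x, F x = 1) ∨ (∏ x, F x = -1) := by
    intro F hF
    have h1 : (∏ x, F x) * (∏ x, F x) = 1 := by
      rw [← prod_mul_distrib]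
      refine prod_eq_one fun x _ => ?_
      rcases hF x with h | h <;> rw [h] <;> norm_num
    exact mul_self_eq_one_iff.1 h1
  have hφ1 : ∀ i v, φ i v = 1 ∨ φ i v = -1 := fun i v => hprod _ fun x => N.sg_cases _
  have hV0 : 0 < V := lt_of_lt_of_le (by positivity) hV1
  have hVR : (2 : ℝ) ^ e ≤ V := by exact_mod_cast hV1
  have hQe : Q * 2 ^ l ≤ 2 ^ (e / 16) := by
    rw [hQ, ← pow_add, he', Nat.mul_div_cancel_left _ (by norm_num : 0 < 16)]
    refine Nat.pow_le_pow_right (by norm_num) ?_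
    calc (c + 2) * l + l = (c + 3) * l := by ring
      _ ≤ (c + 4) * l := Nat.mul_le_mul_right _ (by omega)
  have hQRV : (Q : ℝ) * R ≤ ε' * V := by
    have h3 : (R : ℝ) ≤ ε' * 2 ^ l := by
      have : (R : ℝ) / ε' < 2 ^ l := hn1.trans_le (by
        have : n1 ≤ 2 ^ l := by omega
        exact_mod_cast this)
      rw [div_lt_iff₀ hε'] at this
      linarith
    have h4 : (Q : ℝ) * 2 ^ l ≤ 2 ^ e := by
      have : Q * 2 ^ l ≤ 2 ^ e :=
        hQe.trans (Nat.pow_le_pow_right (by norm_num) (Nat.div_le_self _ _))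
      exact_mod_cast this
    calc (Q : ℝ) * R ≤ Q * (ε' * 2 ^ l) := by gcongr
      _ = ε' * (Q * 2 ^ l) := by ring
      _ ≤ ε' * 2 ^ e := by gcongr
      _ ≤ ε' * V := by gcongr
  have hkill : ∀ i r v, 1 ≤ r → r < R → ¬ Bd i v → φ i v * φ i (v + qq i * r) = 1 := by
    intro i r' v hr'1 hr'2 hnb
    simp only [hφ]
    rw [← prod_mul_distrib]
    refine prod_eq_one fun x _ => ?_
    have hi : ((i : ℕ) + 1) * l ≤ 1999999 * e := by
      rw [← hMe]; exact Nat.mul_le_mul_right _ i.2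
    have hi' : ((i : ℕ) + 1) * l = i * l + l := by ring
    have hq' := (hK1 i (qq i) (hqK i)).2.2 x
    have hd : (1 : ℝ) / 2 ^ t < di (p.P (pt x + 2 ^ (1999999 * e) * v)
        / 2 ^ (1999999 * e + i * l)) := by
      by_contra hcon
      exact hnb ⟨x, not_lt.1 hcon⟩
    have key := bph_kill p (pt x) (1999999 * e) (1999999 * e + i * l) l (qq i) r' v
      (by omega) (by omega) (1 / 2 ^ (l + (t + R))) (by
        rw [show 1999999 * e + (i : ℕ) * l + l - 1999999 * e = ((i : ℕ) + 1) * l by omega]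
        exact hq') (by
        refine lt_of_le_of_lt ?_ hd
        have h3 : (r' : ℝ) ≤ 2 ^ R := by
          have : r' ≤ 2 ^ R := by
            have : R < 2 ^ R := Nat.lt_two_pow_self
            omega
          exact_mod_cast this
        rw [pow_add, pow_add]
        have h4 : (r' : ℝ) * (1 / (2 ^ l * (2 ^ t * 2 ^ R))) * 2 ^ l = r' / 2 ^ R * (1 / 2 ^ t) := by
          field_simp
        rw [h4]
        have h5 : (r' : ℝ) / 2 ^ R ≤ 1 := by
          rw [div_le_one (by positivity)]; exact h3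
        calc (r' : ℝ) / 2 ^ R * (1 / 2 ^ t) ≤ 1 * (1 / 2 ^ t) := by gcongr
          _ = _ := one_mul _)
    rw [key, N.sg_sq]
  have hfin := hLP V Q qq φ Ψ Bd hV0 hQRV hqQ hφ1 hΨ1 hkill (fun i => by
      have := hBd i i.2
      exact this) (by
    intro rr hrr
    have hsum : ∑ i, qq i * rr i ≤ 2 ^ (e / 16) := by
      calc ∑ i, qq i * rr i ≤ ∑ _i : Fin M, Q * R :=
            sum_le_sum fun i _ => Nat.mul_le_mul (hqQ i) (hrr i).2.le
        _ = Q * (M * R) := by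
            rw [sum_const, card_univ, Fintype.card_fin, smul_eq_mul]; ring
        _ ≤ Q * 2 ^ l := Nat.mul_le_mul_left _ (by omega)
        _ ≤ _ := hQe
    exact hS (fun i => qq i * rr i) hsum (bph_gen Ξ R qq rr (by omega) hqGen hrr))
  -- assembly
  have hconst : ∀ v, (∏ x, sg (p.P (pt x + 2 ^ (1999999 * e) * v) % 2 ^ (3999998 * e))) * Ψ v =
      (∏ x, sg (p.P (pt x) % 2 ^ (1999999 * e))) * ((∏ i, φ i v) * Ψ v) := by
    intro v
    rw [← mul_assoc]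
    congr 1
    have h3 : ∀ x, sg (p.P (pt x + 2 ^ (1999999 * e) * v) % 2 ^ (3999998 * e)) =
        sg (p.P (pt x) % 2 ^ (1999999 * e)) *
          ∏ i : Fin M, sg (p.P (pt x + 2 ^ (1999999 * e) * v)
            / 2 ^ (1999999 * e + (i : ℕ) * l) % 2 ^ l) := by
      intro x
      have h4 := C3.BPhase_split (1999999 * e) l (p.P (pt x + 2 ^ (1999999 * e) * v)) M
      have h5 := bph_mod p (1999999 * e) (pt x) v
      rw [← h5, ← h4, hMe]
      congr 3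
      omega
    rw [Finset.prod_congr rfl fun x _ => h3 x, prod_mul_distrib]
    congr 1
    simp only [hφ]
    rw [Finset.prod_comm]
  simp only [hconst, ← mul_sum, abs_mul]
  have h7 : |∏ x, sg (p.P (pt x) % 2 ^ (1999999 * e))| = 1 := by
    rcases hprod (fun x => sg (p.P (pt x) % 2 ^ (1999999 * e))) (fun x => N.sg_cases _) with h | h <;>
      rw [h] <;> simp
  rw [h7, one_mul]
  exact hfin

end Pool.Agent.Lib.MP_8fac0f_nt.Q4
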