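import Pool.Agent.Lib.MP_8fac0f_nt.Q4.Defs
import Pool.Agent.Lib.MP_8fac0f_nt.C3.Sq

/-!
# LING: linear progressions modulo a power of two

Proof. (1) `per_count`: a predicate with period `2 ^ beta` (`q (n + 2 ^ beta) <-> q n`) has
`2 ^ (J - beta)` times as many solutions in `range (2 ^ J)` as in `range (2 ^ beta)`
(induction on `J`, or `n = r + 2 ^ beta u`).
(2) `lin_g`: the condition has period `2 ^ beta` because `A`, `B` are integers (`C3.di_add_int`). In
`range (2 ^ beta)`: `C3.sq_lin` with `N = 2 ^ beta`, the natural number `|A|` and `y = B / 2 ^ beta`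
(for `A < 0` use `C3.di_neg` first), `gcd (|A|, N) <= |A|`.
-/

set_option autoImplicit false

namespace Pool.Agent.Lib.MP_8fac0f_nt.Q4

open Finset Filter Topology
open Pool.Agent.Lib.MP_8fac0f_nt.C3 (di ex)

theorem per_count (q : ℕ → Prop) [DecidablePred q] (β J : ℕ) (hβ : β ≤ J)
    (hq : ∀ n, q (n + 2 ^ β) ↔ q n) :
    ((range (2 ^ J)).filter q).card = 2 ^ (J - β) * ((range (2 ^ β)).filter q).card := by
  have hper : ∀ m n, q (n + m * 2 ^ β) ↔ q n := by
    intro m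
    induction m with
    | zero => intro n; simp
    | succ m ih =>
      intro n
      rw [show n + (m + 1) * 2 ^ β = (n + m * 2 ^ β) + 2 ^ β by ring, hq, ih]
  obtain ⟨k, rfl⟩ := Nat.exists_eq_add_of_le hβ
  rw [Nat.add_sub_cancel_left, ← Nat.count_eq_card_filter_range, ← Nat.count_eq_card_filter_range]
  clear hβ
  induction k with
  | zero => simp
  | succ k ih =>
    have h1 : Nat.count (fun n => q (2 ^ (β + k) + n)) (2 ^ (β + k)) = Nat.count q (2 ^ (β + k)) := by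
      rw [Nat.count_eq_card_filter_range, Nat.count_eq_card_filter_range]
      congr 1
      refine filter_congr fun n _ => ?_
      rw [show 2 ^ (β + k) + n = n + 2 ^ k * 2 ^ β by ring]
      exact hper _ _
    rw [show 2 ^ (β + (k + 1)) = 2 ^ (β + k) + 2 ^ (β + k) by ring, Nat.count_add, h1, ih]
    ring

theorem lin_g (A B : ℤ) (β J : ℕ) (hβ : β ≤ J) (δ : ℝ) (hA : A ≠ 0) (hδ : 0 ≤ δ) :
    (((range (2 ^ J)).filter fun n : ℕ => di ((A * n + B) / 2 ^ β) ≤ δ).card : ℝ)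
      ≤ 2 ^ J * (2 * δ + |(A : ℝ)| / 2 ^ β) := by
  have hN0 : (0 : ℝ) < 2 ^ β := by positivity
  have hNn : 0 < 2 ^ β := by positivity
  have hcast : ((2 ^ β : ℕ) : ℝ) = 2 ^ β := by push_cast; rfl
  have hper : ∀ n : ℕ, di ((A * ((n + 2 ^ β : ℕ) : ℝ) + B) / 2 ^ β) ≤ δ ↔ di ((A * n + B) / 2 ^ β) ≤ δ := by
    intro n
    have h1 : (A * ((n + 2 ^ β : ℕ) : ℝ) + B) / 2 ^ β = (A * n + B) / 2 ^ β + A := by
      push_cast
      field_simp
      ring
    rw [h1, C3.di_add_int]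
  rw [per_count (fun n : ℕ => di ((A * n + B) / 2 ^ β) ≤ δ) β J hβ hper]
  have hkey : (((range (2 ^ β)).filter fun n : ℕ => di ((A * n + B) / 2 ^ β) ≤ δ).card : ℝ)
      ≤ 2 * δ * 2 ^ β + |(A : ℝ)| := by
    have hgcd : ((Nat.gcd A.natAbs (2 ^ β) : ℕ) : ℝ) ≤ |(A : ℝ)| := by
      have h1 : Nat.gcd A.natAbs (2 ^ β) ≤ A.natAbs := Nat.gcd_le_left _ (Int.natAbs_pos.2 hA)
      have h2 : ((A.natAbs : ℕ) : ℝ) = |(A : ℝ)| := by
        rw [← Int.cast_natCast, Int.natCast_natAbs, Int.cast_abs]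
      rw [← h2]
      exact_mod_cast h1
    rcases lt_or_gt_of_ne hA with h | h
    · have h3 := C3.sq_lin (2 ^ β) A.natAbs hNn (-(B : ℝ) / 2 ^ β) δ hδ
      rw [hcast] at h3
      have h4 : ∀ n : ℕ, di ((A * n + B) / 2 ^ β) = di (((A.natAbs * n : ℕ) : ℝ) / 2 ^ β + -(B : ℝ) / 2 ^ β) := by
        intro n
        have h5 : ((A.natAbs : ℕ) : ℝ) = -(A : ℝ) := by
          rw [← Int.cast_natCast, Int.natCast_natAbs, Int.cast_abs, abs_of_neg]
          exact_mod_cast h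
        rw [← C3.di_neg]
        congr 1
        push_cast
        rw [h5]
        ring
      rw [filter_congr (fun n _ => by rw [h4 n])]
      linarith
    · have h3 := C3.sq_lin (2 ^ β) A.natAbs hNn ((B : ℝ) / 2 ^ β) δ hδ
      rw [hcast] at h3
      have h4 : ∀ n : ℕ, di ((A * n + B) / 2 ^ β) = di (((A.natAbs * n : ℕ) : ℝ) / 2 ^ β + (B : ℝ) / 2 ^ β) := by
        intro n
        have h5 : ((A.natAbs : ℕ) : ℝ) = (A : ℝ) := by
          rw [← Int.cast_natCast, Int.natCast_natAbs, Int.cast_abs, abs_of_pos]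
          exact_mod_cast h
        congr 1
        push_cast
        rw [h5]
        ring
      rw [filter_congr (fun n _ => by rw [h4 n])]
      linarith
  have hJ : (2 : ℝ) ^ J = 2 ^ (J - β) * 2 ^ β := by
    rw [← pow_add, Nat.sub_add_cancel hβ]
  rw [hJ]
  push_cast
  have h6 : (0 : ℝ) < 2 ^ (J - β) := by positivity
  calc (2 : ℝ) ^ (J - β) * (((range (2 ^ β)).filter fun n : ℕ => di ((A * n + B) / 2 ^ β) ≤ δ).card : ℝ)
      ≤ 2 ^ (J - β) * (2 * δ * 2 ^ β + |(A : ℝ)|) := mul_le_mul_of_nonneg_left hkey h6.le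
    _ = 2 ^ (J - β) * 2 ^ β * (2 * δ + |(A : ℝ)| / 2 ^ β) := by
      field_simp

end Pool.Agent.Lib.MP_8fac0f_nt.Q4
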