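import Pool.Agent.Lib.MP_8fac0f_nt.Q4.Defs
import Pool.Agent.Lib.MP_8fac0f_nt.Q4.LinG

/-!
# GMC1: the cubic condition fails for few `μ`

Proof. `L = 2 ^ (400000 e)`, `beta = 1200003 e + rho <= 1599999 e = J` for large `e`. For fixed
`z < 2 ^ (lam + rho)`, `h, t < L`, all at least 1: the number of `mu < 2 ^ J` with
`di (6 t h z P3 mu / 2 ^ beta) < 2 ^ (-200000 e)` is by `lin_g` with `A = 24 a z h t <> 0`,
`B = 6 z h t b` at most `2 ^ J (2 * 2 ^ (-200000 e) + 24 a z h t / 2 ^ beta) <= 2 ^ J * 2 ^ (2 - 200000 e)`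
(`24 a z h t <= 24 a 2 ^ (lam + rho + 800000 e)`). Sum over `h`, `t`: the sum over `mu` of the quantity in
`GM1` is at most `2 ^ (J + 600000 e + 2)`; Markov: it is `> 2 ^ (750000 e)` for at most
`2 ^ (J - 150000 e + 2)` of the `mu`; times the number `2 ^ (lam + rho)` of the `z`:
`<= 2 ^ (J - 45000 e) = 2 ^ (1554999 e)` for large `e`. `bad` = the set of `mu < 2 ^ J` without `GM1`
(classical).
-/

set_option autoImplicit false

namespace Pool.Agent.Lib.MP_8fac0f_nt.Q4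

open Finset Filter Topology
open Pool.Agent.Lib.MP_8fac0f_nt.C3 (di ex)

/-- The count for fixed `z`, `h`, `t`. -/
private theorem gmc1_ht (p : Co) (ha : 1 ≤ p.a) (w β J ℓ s z h t : ℕ) (hβ : β ≤ J)
    (hb : 24 * p.a * 2 ^ w * 2 ^ (2 * ℓ) * 2 ^ s ≤ 2 * 2 ^ β) (hz : 1 ≤ z) (hz2 : z < 2 ^ w)
    (hh : 1 ≤ h) (hh2 : h < 2 ^ ℓ) (ht : 1 ≤ t) (ht2 : t < 2 ^ ℓ) :
    ((range (2 ^ J)).filter fun μ : ℕ =>
      di (6 * t * h * z * p.P3 μ / 2 ^ β) < 1 / 2 ^ s).card * 2 ^ s ≤ 4 * 2 ^ J := by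
  have hA : (24 * p.a * z * h * t : ℤ) ≠ 0 := by positivity
  have h1 := lin_g (24 * p.a * z * h * t) (6 * z * h * t * p.b) β J hβ (1 / 2 ^ s) hA
    (by positivity)
  have h2 : ((range (2 ^ J)).filter fun μ : ℕ =>
      di (6 * t * h * z * p.P3 μ / 2 ^ β) < 1 / 2 ^ s).card ≤
      ((range (2 ^ J)).filter fun n : ℕ =>
        di ((((24 * p.a * z * h * t : ℤ) : ℝ) * n + ((6 * z * h * t * p.b : ℤ) : ℝ)) / 2 ^ β)
          ≤ 1 / 2 ^ s).card := by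
    apply card_le_card
    intro μ hμ
    rw [mem_filter] at hμ ⊢
    refine ⟨hμ.1, ?_⟩
    have e : (((24 * p.a * z * h * t : ℤ) : ℝ) * μ + ((6 * z * h * t * p.b : ℤ) : ℝ)) =
        6 * t * h * z * p.P3 μ := by
      unfold Co.P3; push_cast; ring
    rw [e]
    exact hμ.2.le
  have h3 : (0 : ℝ) < 2 ^ s := by positivity
  have h4 : (0 : ℝ) < 2 ^ β := by positivity
  have h5 : |((24 * p.a * z * h * t : ℤ) : ℝ)| / 2 ^ β * 2 ^ s ≤ 2 := by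
    rw [div_mul_eq_mul_div, div_le_iff₀ h4, abs_of_nonneg (by positivity)]
    have h6 : 24 * p.a * z * h * t * 2 ^ s ≤ 24 * p.a * 2 ^ w * 2 ^ (2 * ℓ) * 2 ^ s := by
      have h7 : h * t ≤ 2 ^ ℓ * 2 ^ ℓ := Nat.mul_le_mul hh2.le ht2.le
      have h8 : (2 : ℕ) ^ (2 * ℓ) = 2 ^ ℓ * 2 ^ ℓ := by rw [two_mul, pow_add]
      rw [h8, mul_assoc (24 * p.a * z) h t]
      exact Nat.mul_le_mul (Nat.mul_le_mul (Nat.mul_le_mul le_rfl hz2.le) h7) le_rfl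
    have h9 : ((24 * p.a * z * h * t * 2 ^ s : ℕ) : ℝ) ≤ ((2 * 2 ^ β : ℕ) : ℝ) := by
      exact_mod_cast h6.trans hb
    push_cast at h9 ⊢
    exact h9
  have h10 : (((range (2 ^ J)).filter fun μ : ℕ =>
      di (6 * t * h * z * p.P3 μ / 2 ^ β) < 1 / 2 ^ s).card : ℝ) * 2 ^ s ≤ 4 * 2 ^ J := by
    calc _ ≤ (2 : ℝ) ^ J * (2 * (1 / 2 ^ s) + |((24 * p.a * z * h * t : ℤ) : ℝ)| / 2 ^ β) * 2 ^ s := by
          refine mul_le_mul_of_nonneg_right ?_ h3.le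
          exact (by exact_mod_cast h2 : _ ≤ _).trans h1
      _ = (2 : ℝ) ^ J * (2 * (1 / 2 ^ s * 2 ^ s) +
            |((24 * p.a * z * h * t : ℤ) : ℝ)| / 2 ^ β * 2 ^ s) := by ring
      _ ≤ (2 : ℝ) ^ J * (2 * 1 + 2) := by
          refine mul_le_mul_of_nonneg_left ?_ (by positivity)
          rw [one_div, inv_mul_cancel₀ h3.ne']
          linarith
      _ = 4 * 2 ^ J := by ring
  exact_mod_cast h10

/-- The count for fixed `z`. -/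
private theorem gmc1_z (p : Co) (ha : 1 ≤ p.a) (w β J ℓ s m z : ℕ) (hβ : β ≤ J)
    (hb : 24 * p.a * 2 ^ w * 2 ^ (2 * ℓ) * 2 ^ s ≤ 2 * 2 ^ β) (hz : 1 ≤ z) (hz2 : z < 2 ^ w) :
    ((range (2 ^ J)).filter fun μ : ℕ => 2 ^ m < ∑ h ∈ Ico (1 : ℕ) (2 ^ ℓ),
      ((Ico 1 (2 ^ ℓ)).filter fun t : ℕ =>
        di (6 * t * h * z * p.P3 μ / 2 ^ β) < 1 / 2 ^ s).card).card * (2 ^ m * 2 ^ s)
      ≤ 4 * 2 ^ J * (2 ^ ℓ * 2 ^ ℓ) := by
  set F : ℕ → ℕ := fun μ => ∑ h ∈ Ico (1 : ℕ) (2 ^ ℓ), ((Ico 1 (2 ^ ℓ)).filter fun t : ℕ =>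
        di (6 * t * h * z * p.P3 μ / 2 ^ β) < 1 / 2 ^ s).card with hF
  have h1 : ((range (2 ^ J)).filter fun μ : ℕ => 2 ^ m < F μ).card * 2 ^ m ≤
      ∑ μ ∈ range (2 ^ J), F μ := by
    calc ((range (2 ^ J)).filter fun μ : ℕ => 2 ^ m < F μ).card * 2 ^ m
        = ∑ μ ∈ (range (2 ^ J)).filter fun μ : ℕ => 2 ^ m < F μ, 2 ^ m := by
          rw [sum_const, smul_eq_mul]
      _ ≤ ∑ μ ∈ (range (2 ^ J)).filter fun μ : ℕ => 2 ^ m < F μ, F μ :=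
          sum_le_sum fun μ hμ => (mem_filter.1 hμ).2.le
      _ ≤ ∑ μ ∈ range (2 ^ J), F μ :=
          sum_le_sum_of_subset (filter_subset _ _)
  have h2 : ∑ μ ∈ range (2 ^ J), F μ = ∑ h ∈ Ico (1 : ℕ) (2 ^ ℓ), ∑ t ∈ Ico (1 : ℕ) (2 ^ ℓ),
      ((range (2 ^ J)).filter fun μ : ℕ =>
        di (6 * t * h * z * p.P3 μ / 2 ^ β) < 1 / 2 ^ s).card := by
    simp only [hF, card_filter]
    rw [sum_comm]
    refine sum_congr rfl fun h _ => ?_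
    rw [sum_comm]
  calc _ = ((range (2 ^ J)).filter fun μ : ℕ => 2 ^ m < F μ).card * 2 ^ m * 2 ^ s := by
        rw [mul_assoc]
    _ ≤ (∑ μ ∈ range (2 ^ J), F μ) * 2 ^ s := Nat.mul_le_mul_right _ h1
    _ = ∑ h ∈ Ico (1 : ℕ) (2 ^ ℓ), ∑ t ∈ Ico (1 : ℕ) (2 ^ ℓ),
      ((range (2 ^ J)).filter fun μ : ℕ =>
        di (6 * t * h * z * p.P3 μ / 2 ^ β) < 1 / 2 ^ s).card * 2 ^ s := by
        rw [h2, sum_mul]
        refine sum_congr rfl fun h _ => ?_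
        rw [sum_mul]
    _ ≤ ∑ h ∈ Ico (1 : ℕ) (2 ^ ℓ), ∑ t ∈ Ico (1 : ℕ) (2 ^ ℓ), 4 * 2 ^ J := by
        refine sum_le_sum fun h hh => sum_le_sum fun t ht => ?_
        rw [mem_Ico] at hh ht
        exact gmc1_ht p ha w β J ℓ s z h t hβ hb hz hz2 hh.1 hh.2 ht.1 ht.2
    _ = (2 ^ ℓ - 1) * ((2 ^ ℓ - 1) * (4 * 2 ^ J)) := by
        rw [sum_const, sum_const, Nat.card_Ico, smul_eq_mul, smul_eq_mul]
    _ ≤ 2 ^ ℓ * (2 ^ ℓ * (4 * 2 ^ J)) :=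
        Nat.mul_le_mul (Nat.sub_le _ _) (Nat.mul_le_mul (Nat.sub_le _ _) le_rfl)
    _ = 4 * 2 ^ J * (2 ^ ℓ * 2 ^ ℓ) := by ring

theorem gmc1 (p : Co) (ha : 1 ≤ p.a) (lam ρ : ℕ) : ∀ᶠ e : ℕ in atTop, ∃ bad : Finset ℕ,
    bad.card ≤ 2 ^ (1554999 * e) ∧ ∀ μ < 2 ^ (1599999 * e), μ ∉ bad → GM1 p lam ρ e μ := by
  filter_upwards [eventually_ge_atTop (24 * p.a + lam + ρ + 2)] with e he
  classical
  refine ⟨(range (2 ^ (1599999 * e))).filter fun μ => ¬ GM1 p lam ρ e μ, ?_, ?_⟩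
  · have hβ : 1200003 * e + ρ ≤ 1599999 * e := by omega
    have hb : 24 * p.a * 2 ^ (lam + ρ) * 2 ^ (2 * (400000 * e)) * 2 ^ (200000 * e) ≤
        2 * 2 ^ (1200003 * e + ρ) := by
      have h1 : 24 * p.a ≤ 2 ^ (24 * p.a) := Nat.lt_two_pow_self.le
      calc 24 * p.a * 2 ^ (lam + ρ) * 2 ^ (2 * (400000 * e)) * 2 ^ (200000 * e)
          ≤ 2 ^ (24 * p.a) * 2 ^ (lam + ρ) * 2 ^ (2 * (400000 * e)) * 2 ^ (200000 * e) := by
            gcongr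
        _ = 2 ^ (24 * p.a + (lam + ρ) + 2 * (400000 * e) + 200000 * e) := by
            rw [← pow_add, ← pow_add, ← pow_add]
        _ ≤ 2 ^ (1 + (1200003 * e + ρ)) := Nat.pow_le_pow_right (by norm_num) (by omega)
        _ = 2 * 2 ^ (1200003 * e + ρ) := by rw [pow_add, pow_one]
    have hsub : (range (2 ^ (1599999 * e))).filter (fun μ => ¬ GM1 p lam ρ e μ) ⊆
        (Ico (1 : ℕ) (2 ^ (lam + ρ))).biUnion fun z : ℕ => (range (2 ^ (1599999 * e))).filter fun μ : ℕ =>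
          2 ^ (750000 * e) < ∑ h ∈ Ico (1 : ℕ) (2 ^ (400000 * e)),
            ((Ico 1 (2 ^ (400000 * e))).filter fun t : ℕ =>
              di (6 * t * h * z * p.P3 μ / 2 ^ (1200003 * e + ρ)) < 1 / 2 ^ (200000 * e)).card := by
      intro μ hμ
      rw [mem_filter] at hμ
      obtain ⟨h1, h2⟩ := hμ
      unfold GM1 at h2
      push Not at h2
      obtain ⟨z, hz1, hz2, hz3⟩ := h2
      rw [mem_biUnion]
      exact ⟨z, mem_Ico.2 ⟨hz1, hz2⟩, mem_filter.2 ⟨h1, hz3⟩⟩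
    have hz : ∀ z ∈ Ico (1 : ℕ) (2 ^ (lam + ρ)), ((range (2 ^ (1599999 * e))).filter fun μ : ℕ =>
          2 ^ (750000 * e) < ∑ h ∈ Ico (1 : ℕ) (2 ^ (400000 * e)),
            ((Ico 1 (2 ^ (400000 * e))).filter fun t : ℕ =>
              di (6 * t * h * z * p.P3 μ / 2 ^ (1200003 * e + ρ)) < 1 / 2 ^ (200000 * e)).card).card
        ≤ 2 ^ (1449999 * e + 2) := by
      intro z hz
      rw [mem_Ico] at hz
      have h1 := gmc1_z p ha (lam + ρ) (1200003 * e + ρ) (1599999 * e) (400000 * e) (200000 * e)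
        (750000 * e) z hβ hb hz.1 hz.2
      have h2 : 4 * 2 ^ (1599999 * e) * (2 ^ (400000 * e) * 2 ^ (400000 * e)) =
          2 ^ (1449999 * e + 2) * (2 ^ (750000 * e) * 2 ^ (200000 * e)) := by
        have h3 : (4 : ℕ) = 2 ^ 2 := by norm_num
        rw [h3, ← pow_add, ← pow_add, ← pow_add, ← pow_add, ← pow_add]
        congr 1
        omega
      rw [h2] at h1
      exact Nat.le_of_mul_le_mul_right h1 (by positivity)
    calc _ ≤ _ := card_le_card hsub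
      _ ≤ (Ico (1 : ℕ) (2 ^ (lam + ρ))).card * 2 ^ (1449999 * e + 2) := card_biUnion_le_card_mul _ _ _ hz
      _ ≤ 2 ^ (lam + ρ) * 2 ^ (1449999 * e + 2) := by
          refine Nat.mul_le_mul_right _ ?_
          rw [Nat.card_Ico]; exact Nat.sub_le _ _
      _ = 2 ^ (lam + ρ + (1449999 * e + 2)) := by rw [← pow_add]
      _ ≤ 2 ^ (1554999 * e) := Nat.pow_le_pow_right (by norm_num) (by omega)
  · intro μ hμ hb
    by_contra h
    exact hb (mem_filter.2 ⟨mem_range.2 hμ, h⟩)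

end Pool.Agent.Lib.MP_8fac0f_nt.Q4
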