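import Pool.Agent.Lib.MP_8fac0f_nt.Q4.Defs
import Pool.Agent.Lib.MP_8fac0f_nt.Q4.LinG
import Pool.Agent.Lib.MP_8fac0f_nt.C3.Sq

/-!
# SQG: quadratic polynomials modulo a power of two

Proof. The condition has period `2 ^ beta` in `n`, so by `per_count` let `J = beta`. `S` = the set,
as a subset of the residues modulo `N = 2 ^ beta`. `|S| ^ 2 = sum_(h < N) #{n < N : n in S, (n + h) in S}`
(second condition = the predicate at `n + h`, periodic). For `n, n + h` in `S`: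
`di ((2 A h n + (A h ^ 2 + B h)) / N) <= 2 delta`. `h = 0`: at most `N`. `h <> 0`: by the proof of `C3.sq_lin`
(`C3.sq_lin` with the natural number `|2 A h|`, sign by `C3.di_neg`) at most
`4 delta N + gcd (2 |A| h, N)` and `gcd (2 |A| h, N) <= 2 |A| gcd (h, N)`; `sum_(1 <= h < N) gcd (h, N) <= beta N`
(`C3.sq_gcd`). Total `|S| ^ 2 <= N + 4 delta N ^ 2 + 2 |A| beta N <= N ^ 2 (4 delta + X (beta + 1) / N)`
because `2 |A| <= X` and `X >= 2 >= 1`. This is `C3.sq_count` with general coefficients.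
-/

set_option autoImplicit false

namespace Pool.Agent.Lib.MP_8fac0f_nt.Q4

open Finset Filter Topology
open Pool.Agent.Lib.MP_8fac0f_nt.C3 (di ex di_add_int di_sub di_neg)

/-- the periodic count for one period -/
private theorem sqG_one (A B C : ℤ) (β : ℕ) (δ : ℝ) (hA : A ≠ 0) (hδ : 0 ≤ δ) :
    (((range (2 ^ β)).filter fun n : ℕ => di ((A * n ^ 2 + B * n + C) / 2 ^ β) ≤ δ).card : ℝ)
      ≤ 2 ^ β * √(4 * δ + (2 * |(A : ℝ)| * β + 1) / 2 ^ β) := by
  set N := 2 ^ β with hN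
  have hN0 : 0 < N := Nat.pos_of_ne_zero (by positivity)
  have hNr : (0 : ℝ) < N := by exact_mod_cast hN0
  have hNc : ((2 : ℝ) ^ β) = (N : ℝ) := by rw [hN]; push_cast; rfl
  obtain ⟨a, ha⟩ : ∃ a : ℕ, a = A.natAbs := ⟨_, rfl⟩
  have ha0 : 0 < a := by
    rw [ha]
    exact Int.natAbs_pos.2 hA
  have haA : |(A : ℝ)| = a := by
    rw [ha]
    have h1 : ((A.natAbs : ℤ) : ℝ) = ((|A| : ℤ) : ℝ) := by rw [Int.natCast_natAbs]
    rw [Int.cast_natCast] at h1
    rw [h1, Int.cast_abs]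
  have hsgn : (A : ℝ) = a ∨ (A : ℝ) = -a := by
    rcases Int.natAbs_eq A with h | h
    · left
      rw [ha]
      have h1 : (A : ℝ) = ((A.natAbs : ℤ) : ℝ) := congrArg _ h
      rwa [Int.cast_natCast] at h1
    · right
      rw [ha]
      have h1 : (A : ℝ) = ((-(A.natAbs : ℤ) : ℤ) : ℝ) := congrArg _ h
      rwa [Int.cast_neg, Int.cast_natCast] at h1
  rw [hNc, haA]
  let p : ℕ → Prop := fun n => di (((A : ℝ) * n ^ 2 + B * n + C) / N) ≤ δ
  have hper : Function.Periodic p N := by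
    intro n
    simp only [p]
    have h1 := di_add_int (((A : ℝ) * n ^ 2 + B * n + C) / N) (A * (2 * n + N) + B)
    have h2 : ((A : ℝ) * ((n + N : ℕ) : ℝ) ^ 2 + B * ((n + N : ℕ) : ℝ) + C) / N =
        ((A : ℝ) * n ^ 2 + B * n + C) / N + ((A * (2 * n + N) + B : ℤ) : ℝ) := by
      push_cast
      field_simp
      ring
    rw [h2, h1]
  set S := (range N).filter p with hS
  have hcount : ∀ n, ((range N).filter fun h => p (n + h)).card = S.card := by
    intro n
    have h1 := Nat.filter_Ico_card_eq_of_periodic n N p hper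
    have h2 := Nat.filter_Ico_card_eq_of_periodic 0 N p hper
    have h3 : ((range N).filter fun h => p (n + h)).card = ((Ico n (n + N)).filter p).card := by
      apply card_bij (fun h _ => n + h)
      · intro h hh
        rw [mem_filter, mem_range] at hh
        rw [mem_filter, mem_Ico]
        exact ⟨⟨by omega, by omega⟩, hh.2⟩
      · intro h _ h' _ he
        omega
      · intro x hx
        rw [mem_filter, mem_Ico] at hx
        refine ⟨x - n, ?_, by omega⟩
        rw [mem_filter, mem_range]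
        refine ⟨by omega, ?_⟩
        rw [show n + (x - n) = x by omega]
        exact hx.2
    rw [h3, h1, hS, range_eq_Ico, ← h2, zero_add]
  -- second moment
  have hsq : (S.card : ℝ) * S.card = ∑ h ∈ range N, ((S.filter fun n => p (n + h)).card : ℝ) := by
    have h1 : S.card * S.card = ∑ h ∈ range N, (S.filter fun n => p (n + h)).card := by
      calc S.card * S.card = ∑ n ∈ S, ((range N).filter fun h => p (n + h)).card := by
            rw [sum_congr rfl (fun n _ => hcount n), sum_const, smul_eq_mul]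
        _ = ∑ n ∈ S, ∑ h ∈ range N, (if p (n + h) then 1 else 0) := by
            apply sum_congr rfl
            intro n _
            rw [card_filter]
        _ = ∑ h ∈ range N, ∑ n ∈ S, (if p (n + h) then 1 else 0) := sum_comm
        _ = _ := by
            apply sum_congr rfl
            intro h _
            rw [card_filter]
    exact_mod_cast h1
  have hoff : ∀ h ∈ Ico 1 N, ((S.filter fun n => p (n + h)).card : ℝ) ≤
      4 * δ * N + 2 * a * (Nat.gcd h N : ℝ) := by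
    intro h hh
    have key : ∃ y : ℝ, ∀ n : ℕ, p n → p (n + h) →
        di (((2 * a * h * n : ℕ) : ℝ) / N + y) ≤ 2 * δ := by
      rcases hsgn with h0 | h0
      · refine ⟨(A * h ^ 2 + B * h : ℝ) / N, fun n h2 h3 => ?_⟩
        have h2' : di (((A : ℝ) * n ^ 2 + B * n + C) / N) ≤ δ := h2
        have h3' : di (((A : ℝ) * ((n + h : ℕ) : ℝ) ^ 2 + B * ((n + h : ℕ) : ℝ) + C) / N) ≤ δ := h3
        have h4 := di_sub (((A : ℝ) * ((n + h : ℕ) : ℝ) ^ 2 + B * ((n + h : ℕ) : ℝ) + C) / N)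
          (((A : ℝ) * n ^ 2 + B * n + C) / N)
        have h5 : ((A : ℝ) * ((n + h : ℕ) : ℝ) ^ 2 + B * ((n + h : ℕ) : ℝ) + C) / N -
            ((A : ℝ) * n ^ 2 + B * n + C) / N =
            ((2 * a * h * n : ℕ) : ℝ) / N + (A * h ^ 2 + B * h : ℝ) / N := by
          push_cast
          rw [← h0]
          field_simp
          ring
        rw [h5] at h4
        linarith
      · refine ⟨-((A * h ^ 2 + B * h : ℝ) / N), fun n h2 h3 => ?_⟩
        have h2' : di (((A : ℝ) * n ^ 2 + B * n + C) / N) ≤ δ := h2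
        have h3' : di (((A : ℝ) * ((n + h : ℕ) : ℝ) ^ 2 + B * ((n + h : ℕ) : ℝ) + C) / N) ≤ δ := h3
        have h4 := di_sub (((A : ℝ) * n ^ 2 + B * n + C) / N)
          (((A : ℝ) * ((n + h : ℕ) : ℝ) ^ 2 + B * ((n + h : ℕ) : ℝ) + C) / N)
        have h5 : ((A : ℝ) * n ^ 2 + B * n + C) / N -
            ((A : ℝ) * ((n + h : ℕ) : ℝ) ^ 2 + B * ((n + h : ℕ) : ℝ) + C) / N =
            ((2 * a * h * n : ℕ) : ℝ) / N + -((A * h ^ 2 + B * h : ℝ) / N) := by
          have h6 : (a : ℝ) = -A := by rw [h0, neg_neg]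
          push_cast
          rw [h6]
          field_simp
          ring
        rw [h5] at h4
        linarith
    obtain ⟨y, hy⟩ := key
    have h1 : (S.filter fun n => p (n + h)).card ≤ ((range N).filter fun n : ℕ =>
        di (((2 * a * h * n : ℕ) : ℝ) / N + y) ≤ 2 * δ).card := by
      apply card_le_card
      intro n hn
      rw [hS, mem_filter, mem_filter] at hn
      rw [mem_filter]
      exact ⟨hn.1.1, hy n hn.1.2 hn.2⟩
    have h2 := C3.sq_lin N (2 * a * h) hN0 y (2 * δ) (by linarith)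
    have h3 : Nat.gcd (2 * a * h) N ≤ 2 * a * Nat.gcd h N := by
      have h4 : Nat.gcd (2 * a * h) N ∣ Nat.gcd (2 * a) N * Nat.gcd h N :=
        Nat.gcd_mul_left_dvd_mul_gcd _ _ _
      have h5 : 0 < Nat.gcd (2 * a) N := Nat.gcd_pos_of_pos_right _ hN0
      have h6 : 0 < Nat.gcd h N := Nat.gcd_pos_of_pos_right _ hN0
      refine (Nat.le_of_dvd (Nat.mul_pos h5 h6) h4).trans ?_
      apply Nat.mul_le_mul_right
      apply Nat.gcd_le_left
      omega
    have h4 : ((Nat.gcd (2 * a * h) N : ℕ) : ℝ) ≤ 2 * a * (Nat.gcd h N : ℝ) := by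
      exact_mod_cast h3
    have h5 : ((S.filter fun n => p (n + h)).card : ℝ) ≤ _ := Nat.cast_le.2 h1
    refine h5.trans (h2.trans ?_)
    linarith
  have hS0 : (S.card : ℝ) ≤ N := by
    have := card_filter_le (range N) p
    rw [card_range] at this
    exact_mod_cast this
  have hmain : (S.card : ℝ) * S.card ≤ N * N * (4 * δ + (2 * a * β + 1) / N) := by
    rw [hsq, range_eq_Ico, sum_eq_sum_Ico_succ_bot hN0]
    have h1 : ((S.filter fun n => p (n + 0)).card : ℝ) ≤ N :=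
      (Nat.cast_le.2 (card_filter_le S _)).trans hS0
    have h2 : ∑ h ∈ Ico (0 + 1) N, ((S.filter fun n => p (n + h)).card : ℝ) ≤
        ∑ h ∈ Ico 1 N, (4 * δ * N + 2 * a * (Nat.gcd h N : ℝ)) := sum_le_sum hoff
    have h3 : ∑ h ∈ Ico 1 N, (4 * δ * N + 2 * a * (Nat.gcd h N : ℝ)) =
        ((N - 1 : ℕ) : ℝ) * (4 * δ * N) + 2 * a * ((∑ h ∈ Ico 1 N, Nat.gcd h N : ℕ) : ℝ) := by
      rw [sum_add_distrib, sum_const, Nat.card_Ico, nsmul_eq_mul, ← mul_sum]
      push_cast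
      rfl
    have h4 : ((∑ h ∈ Ico 1 N, Nat.gcd h N : ℕ) : ℝ) ≤ β * N := by
      have := C3.sq_gcd β
      rw [← hN] at this
      exact_mod_cast this
    have h5 : ((N - 1 : ℕ) : ℝ) ≤ N := by exact_mod_cast Nat.sub_le _ _
    have h6 : ((N - 1 : ℕ) : ℝ) * (4 * δ * N) ≤ N * (4 * δ * N) :=
      mul_le_mul_of_nonneg_right h5 (by positivity)
    have h7 : 2 * (a : ℝ) * ((∑ h ∈ Ico 1 N, Nat.gcd h N : ℕ) : ℝ) ≤
        2 * a * (β * N) := mul_le_mul_of_nonneg_left h4 (by positivity)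
    have h8 : (N : ℝ) * N * (4 * δ + (2 * a * β + 1) / N) =
        N * (4 * δ * N) + 2 * a * (β * N) + N := by
      field_simp
      ring
    rw [h8]
    linarith
  have h1 : (S.card : ℝ) ≤ √(N * N * (4 * δ + (2 * a * β + 1) / N)) := by
    apply Real.le_sqrt_of_sq_le
    rw [sq]
    exact hmain
  refine h1.trans_eq ?_
  rw [Real.sqrt_mul (by positivity), Real.sqrt_mul_self hNr.le]

theorem sq_g (A B C : ℤ) (β J : ℕ) (hβ : β ≤ J) (X δ : ℝ) (hA : A ≠ 0) (hX : 2 * |(A : ℝ)| ≤ X)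
    (hδ : 0 ≤ δ) :
    (((range (2 ^ J)).filter fun n : ℕ => di ((A * n ^ 2 + B * n + C) / 2 ^ β) ≤ δ).card : ℝ)
      ≤ 2 ^ J * √(4 * δ + X * (β + 1) / 2 ^ β) := by
  classical
  have hN0 : (0 : ℝ) < 2 ^ β := by positivity
  have hper : ∀ n : ℕ, di ((A * ((n + 2 ^ β : ℕ) : ℝ) ^ 2 + B * ((n + 2 ^ β : ℕ) : ℝ) + C) / 2 ^ β) ≤ δ ↔
      di ((A * (n : ℝ) ^ 2 + B * n + C) / 2 ^ β) ≤ δ := by
    intro n
    have h1 := C3.di_add_int (((A : ℝ) * n ^ 2 + B * n + C) / 2 ^ β) (A * (2 * n + 2 ^ β) + B)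
    have h2 : ((A : ℝ) * ((n + 2 ^ β : ℕ) : ℝ) ^ 2 + B * ((n + 2 ^ β : ℕ) : ℝ) + C) / 2 ^ β =
        ((A : ℝ) * n ^ 2 + B * n + C) / 2 ^ β + ((A * (2 * n + 2 ^ β) + B : ℤ) : ℝ) := by
      push_cast
      field_simp
      ring
    rw [h2, h1]
  have h1 := per_count (fun n : ℕ => di ((A * n ^ 2 + B * n + C) / 2 ^ β) ≤ δ) β J hβ hper
  have h2 := sqG_one A B C β δ hA hδ
  have h3 : (((range (2 ^ J)).filter fun n : ℕ => di ((A * n ^ 2 + B * n + C) / 2 ^ β) ≤ δ).card : ℝ)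
      = 2 ^ (J - β) * (((range (2 ^ β)).filter fun n : ℕ =>
        di ((A * n ^ 2 + B * n + C) / 2 ^ β) ≤ δ).card : ℝ) := by
    exact_mod_cast h1
  rw [h3]
  have hA1 : (1 : ℝ) ≤ |(A : ℝ)| := by
    rw [← Int.cast_abs]
    exact_mod_cast Int.one_le_abs hA
  have hb : (0 : ℝ) ≤ β := Nat.cast_nonneg _
  have h4 : 2 * |(A : ℝ)| * β + 1 ≤ X * (β + 1) := by
    have h5 : 2 * |(A : ℝ)| * β ≤ X * β := mul_le_mul_of_nonneg_right hX hb
    linarith
  have h5 : √(4 * δ + (2 * |(A : ℝ)| * β + 1) / 2 ^ β) ≤ √(4 * δ + X * (β + 1) / 2 ^ β) := by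
    apply Real.sqrt_le_sqrt
    have := div_le_div_of_nonneg_right h4 hN0.le
    linarith
  calc (2 : ℝ) ^ (J - β) * _ ≤ 2 ^ (J - β) * (2 ^ β * √(4 * δ + (2 * |(A : ℝ)| * β + 1) / 2 ^ β)) :=
        mul_le_mul_of_nonneg_left h2 (by positivity)
    _ ≤ 2 ^ (J - β) * (2 ^ β * √(4 * δ + X * (β + 1) / 2 ^ β)) := by
        gcongr
    _ = 2 ^ J * √(4 * δ + X * (β + 1) / 2 ^ β) := by
        rw [← mul_assoc, ← pow_add, Nat.sub_add_cancel hβ]

end Pool.Agent.Lib.MP_8fac0f_nt.Q4
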