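import Pool.Agent.Lib.MP_8fac0f_nt.Q4.Defs
import Pool.Agent.Lib.MP_8fac0f_nt.Q4.SqG

/-!
# GMC2: the quadratic condition fails for few `μ`

Proof. `J = 1599999 e`, `beta = 801912 e <= J`. Fix integers `(x, y) <> 0` in the box and `1 <= t < 2 ^ (400000 e)`.
`2 t (x P2 mu + 3 y P3 mu) = 12 a t x mu ^ 2 + (6 b x + 24 a y) t mu + 2 t (x c + 3 y b)`.
If `x <> 0`: `sq_g` with `A = 12 a t x`, `2 |A| <= X = 2 ^ (401913 e)` (large `e`), `delta = 2 ^ (-200000 e)`: the
number of `mu` is at most `2 ^ J sqrt (4 * 2 ^ (-200000 e) + 2 ^ (401913 e) (beta + 1) / 2 ^ (801912 e))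
<= 2 ^ J * 2 ^ (2 - 100000 e)`. If `x = 0`: `lin_g` with `A = 24 a t y`:
`<= 2 ^ J (2 ^ (1 - 200000 e) + 24 a t |y| / 2 ^ beta)`, smaller. Sum over `t`: `2 ^ (J + 300000 e + 2)`; Markov with
`2 ^ (350000 e)`: `2 ^ (J - 50000 e + 2)`; the number of `(x, y)` is at most `2 ^ (4774 e + 2 c + 2)`: total
`<= 2 ^ (J - 45000 e) = 2 ^ (1554999 e)` for large `e`.
-/

set_option autoImplicit false

namespace Pool.Agent.Lib.MP_8fac0f_nt.Q4

open Finset Filter Topology
open Pool.Agent.Lib.MP_8fac0f_nt.C3 (di ex)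

/-- One pair `(x, y)` and one `t`. -/
private theorem gmc2_one (p : Co) (ha : 1 ≤ p.a) (c e : ℕ) (he : 24 * p.a * 2 ^ c ≤ 2 ^ e)
    (he1 : 1 ≤ e) (x y : ℤ) (hxy : x ≠ 0 ∨ y ≠ 0) (hx : |x| < 2 ^ (1912 * e + c))
    (hy : |y| < 2 ^ (2862 * e + c)) (t : ℕ) (ht1 : 1 ≤ t) (ht : t < 2 ^ (400000 * e)) :
    (((range (2 ^ (1599999 * e))).filter fun μ : ℕ =>
      di (2 * t * (x * p.P2 μ + 3 * y * p.P3 μ) / 2 ^ (801912 * e)) < 1 / 2 ^ (200000 * e)).card : ℝ)
      ≤ 2 ^ (1599999 * e) * (4 / 2 ^ (100000 * e)) := by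
  have heR : (24 * p.a * 2 ^ c : ℝ) ≤ 2 ^ e := by exact_mod_cast he
  have htR : (t : ℝ) ≤ 2 ^ (400000 * e) := by exact_mod_cast ht.le
  have haR : (1 : ℝ) ≤ p.a := by exact_mod_cast ha
  have ht0 : (t : ℤ) ≠ 0 := by
    have : t ≠ 0 := by omega
    exact_mod_cast this
  have ha0 : (p.a : ℤ) ≠ 0 := by
    have : p.a ≠ 0 := by omega
    exact_mod_cast this
  have hmono : ∀ (f : ℕ → ℝ), (((range (2 ^ (1599999 * e))).filter fun μ : ℕ =>
      di (f μ) < 1 / 2 ^ (200000 * e)).card : ℝ) ≤ (((range (2 ^ (1599999 * e))).filter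
      fun μ : ℕ => di (f μ) ≤ 1 / 2 ^ (200000 * e)).card : ℝ) := by
    intro f
    have : ((range (2 ^ (1599999 * e))).filter fun μ : ℕ =>
      di (f μ) < 1 / 2 ^ (200000 * e)).card ≤ ((range (2 ^ (1599999 * e))).filter
      fun μ : ℕ => di (f μ) ≤ 1 / 2 ^ (200000 * e)).card := by
      apply card_le_card
      intro μ hμ
      rw [mem_filter] at hμ ⊢
      exact ⟨hμ.1, hμ.2.le⟩
    exact_mod_cast this
  refine (hmono _).trans ?_
  by_cases hx0 : x = 0
  · -- linear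
    have hy0 : y ≠ 0 := by
      rcases hxy with h | h
      · exact absurd hx0 h
      · exact h
    subst hx0
    have hyR : |(y : ℝ)| ≤ 2 ^ (2862 * e + c) := by
      have : |y| ≤ 2 ^ (2862 * e + c) := hy.le
      exact_mod_cast this
    have key := lin_g (24 * p.a * t * y) (6 * t * y * p.b) (801912 * e) (1599999 * e) (by omega)
      (1 / 2 ^ (200000 * e)) (by
        refine mul_ne_zero (mul_ne_zero (mul_ne_zero (by norm_num) ha0) ht0) hy0) (by positivity)
    have e1 : ∀ μ : ℕ, (2 * (t : ℝ) * (((0 : ℤ) : ℝ) * p.P2 μ + 3 * y * p.P3 μ)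
        / 2 ^ (801912 * e)) = (((24 * p.a * t * y : ℤ) : ℝ) * μ + ((6 * t * y * p.b : ℤ) : ℝ))
          / 2 ^ (801912 * e) := by
      intro μ
      unfold Co.P3
      push_cast
      ring
    have e2 : ((range (2 ^ (1599999 * e))).filter fun μ : ℕ =>
        di (2 * (t : ℝ) * (((0 : ℤ) : ℝ) * p.P2 μ + 3 * y * p.P3 μ) / 2 ^ (801912 * e))
          ≤ 1 / 2 ^ (200000 * e)) = ((range (2 ^ (1599999 * e))).filter fun μ : ℕ =>
        di ((((24 * p.a * t * y : ℤ) : ℝ) * μ + ((6 * t * y * p.b : ℤ) : ℝ)) / 2 ^ (801912 * e))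
          ≤ 1 / 2 ^ (200000 * e)) := by
      apply filter_congr
      intro μ _
      rw [e1]
    rw [e2]
    refine key.trans ?_
    apply mul_le_mul_of_nonneg_left _ (by positivity)
    have b1 : |((24 * p.a * t * y : ℤ) : ℝ)| ≤ 2 ^ e * 2 ^ (400000 * e) * 2 ^ (2862 * e) := by
      push_cast
      rw [abs_mul, abs_of_nonneg (by positivity : (0 : ℝ) ≤ 24 * p.a * t)]
      calc 24 * (p.a : ℝ) * t * |(y : ℝ)| ≤ 24 * p.a * 2 ^ (400000 * e) * 2 ^ (2862 * e + c) := by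
            apply mul_le_mul _ hyR (abs_nonneg _) (by positivity)
            exact mul_le_mul_of_nonneg_left htR (by positivity)
        _ = (24 * p.a * 2 ^ c) * 2 ^ (400000 * e) * 2 ^ (2862 * e) := by rw [pow_add]; ring
        _ ≤ 2 ^ e * 2 ^ (400000 * e) * 2 ^ (2862 * e) := by
            apply mul_le_mul_of_nonneg_right _ (by positivity)
            exact mul_le_mul_of_nonneg_right heR (by positivity)
    have b2 : |((24 * p.a * t * y : ℤ) : ℝ)| / 2 ^ (801912 * e) ≤ 1 / 2 ^ (100000 * e) := by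
      rw [div_le_div_iff₀ (by positivity) (by positivity), one_mul]
      refine (mul_le_mul_of_nonneg_right b1 (by positivity)).trans ?_
      rw [← pow_add, ← pow_add, ← pow_add]
      exact pow_le_pow_right₀ (by norm_num) (by omega)
    have b3 : (1 : ℝ) / 2 ^ (200000 * e) ≤ 1 / 2 ^ (100000 * e) := by
      apply one_div_le_one_div_of_le (by positivity)
      exact pow_le_pow_right₀ (by norm_num) (by omega)
    have b4 : (4 : ℝ) / 2 ^ (100000 * e) = 4 * (1 / 2 ^ (100000 * e)) := by ring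
    rw [b4]
    have b5 : (0 : ℝ) ≤ 1 / 2 ^ (100000 * e) := by positivity
    linarith
  · -- quadratic
    have hxR : |(x : ℝ)| ≤ 2 ^ (1912 * e + c) := by
      have : |x| ≤ 2 ^ (1912 * e + c) := hx.le
      exact_mod_cast this
    have b1 : 2 * |((12 * p.a * t * x : ℤ) : ℝ)| ≤ 2 ^ (401913 * e) := by
      push_cast
      rw [abs_mul, abs_of_nonneg (by positivity : (0 : ℝ) ≤ 12 * p.a * t)]
      calc 2 * (12 * (p.a : ℝ) * t * |(x : ℝ)|) = 24 * (p.a : ℝ) * t * |(x : ℝ)| := by ring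
        _ ≤ 24 * p.a * 2 ^ (400000 * e) * 2 ^ (1912 * e + c) := by
            apply mul_le_mul _ hxR (abs_nonneg _) (by positivity)
            exact mul_le_mul_of_nonneg_left htR (by positivity)
        _ = (24 * p.a * 2 ^ c) * 2 ^ (400000 * e) * 2 ^ (1912 * e) := by rw [pow_add]; ring
        _ ≤ 2 ^ e * 2 ^ (400000 * e) * 2 ^ (1912 * e) := by
            apply mul_le_mul_of_nonneg_right _ (by positivity)
            exact mul_le_mul_of_nonneg_right heR (by positivity)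
        _ = 2 ^ (401913 * e) := by
            rw [← pow_add, ← pow_add]; congr 1; ring
    have key := sq_g (12 * p.a * t * x) ((6 * p.b * x + 24 * p.a * y) * t)
      (2 * t * (x * p.c + 3 * y * p.b)) (801912 * e) (1599999 * e) (by omega)
      (2 ^ (401913 * e)) (1 / 2 ^ (200000 * e)) (by
        refine mul_ne_zero (mul_ne_zero (mul_ne_zero (by norm_num) ha0) ht0) hx0) b1
        (by positivity)
    have e1 : ∀ μ : ℕ, (2 * (t : ℝ) * ((x : ℝ) * p.P2 μ + 3 * y * p.P3 μ)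
        / 2 ^ (801912 * e)) = (((12 * p.a * t * x : ℤ) : ℝ) * μ ^ 2
          + (((6 * p.b * x + 24 * p.a * y) * t : ℤ) : ℝ) * μ
          + ((2 * t * (x * p.c + 3 * y * p.b) : ℤ) : ℝ)) / 2 ^ (801912 * e) := by
      intro μ
      unfold Co.P3 Co.P2
      push_cast
      ring
    have e2 : ((range (2 ^ (1599999 * e))).filter fun μ : ℕ =>
        di (2 * (t : ℝ) * ((x : ℝ) * p.P2 μ + 3 * y * p.P3 μ) / 2 ^ (801912 * e))
          ≤ 1 / 2 ^ (200000 * e)) = ((range (2 ^ (1599999 * e))).filter fun μ : ℕ =>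
        di ((((12 * p.a * t * x : ℤ) : ℝ) * μ ^ 2
          + (((6 * p.b * x + 24 * p.a * y) * t : ℤ) : ℝ) * μ
          + ((2 * t * (x * p.c + 3 * y * p.b) : ℤ) : ℝ)) / 2 ^ (801912 * e))
          ≤ 1 / 2 ^ (200000 * e)) := by
      apply filter_congr
      intro μ _
      rw [e1]
    rw [e2]
    refine key.trans ?_
    apply mul_le_mul_of_nonneg_left _ (by positivity)
    rw [Real.sqrt_le_left (by positivity)]
    have c1 : (((801912 * e : ℕ) : ℝ) + 1) ≤ 2 ^ (21 * e) := by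
      have h1 : 801912 * e + 1 ≤ 2 ^ (21 * e) := by
        obtain ⟨k, rfl⟩ : ∃ k, e = k + 1 := ⟨e - 1, by omega⟩
        have h2 : k + 1 ≤ 2 ^ k := Nat.lt_two_pow_self
        have h3 : 2 ^ (21 * (k + 1)) = 2 ^ 21 * (2 ^ k * 2 ^ (20 * k)) := by
          rw [← pow_add, ← pow_add]; congr 1; ring
        have h4 : 1 ≤ 2 ^ (20 * k) := Nat.one_le_two_pow
        have h5 : 2 ^ k ≤ 2 ^ k * 2 ^ (20 * k) := Nat.le_mul_of_pos_right _ h4
        rw [h3]
        calc 801912 * (k + 1) + 1 ≤ 2097152 * (k + 1) := by omega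
          _ ≤ 2097152 * (2 ^ k * 2 ^ (20 * k)) := Nat.mul_le_mul_left _ (h2.trans h5)
          _ = 2 ^ 21 * (2 ^ k * 2 ^ (20 * k)) := by norm_num
      exact_mod_cast h1
    have c2 : (2 : ℝ) ^ (401913 * e) * (((801912 * e : ℕ) : ℝ) + 1) / 2 ^ (801912 * e)
        ≤ 1 / 2 ^ (200000 * e) := by
      rw [div_le_div_iff₀ (by positivity) (by positivity), one_mul]
      calc (2 : ℝ) ^ (401913 * e) * (((801912 * e : ℕ) : ℝ) + 1) * 2 ^ (200000 * e)
          ≤ 2 ^ (401913 * e) * 2 ^ (21 * e) * 2 ^ (200000 * e) := by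
            apply mul_le_mul_of_nonneg_right _ (by positivity)
            exact mul_le_mul_of_nonneg_left c1 (by positivity)
        _ ≤ 2 ^ (801912 * e) := by
            rw [← pow_add, ← pow_add]
            exact pow_le_pow_right₀ (by norm_num) (by omega)
    have c3 : ((4 : ℝ) / 2 ^ (100000 * e)) ^ 2 = 16 * (1 / 2 ^ (200000 * e)) := by
      rw [div_pow, ← pow_mul, show 100000 * e * 2 = 200000 * e by ring]
      ring
    rw [c3]
    have c4 : (0 : ℝ) ≤ 1 / 2 ^ (200000 * e) := by positivity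
    linarith

theorem gmc2 (p : Co) (ha : 1 ≤ p.a) (c : ℕ) : ∀ᶠ e : ℕ in atTop, ∃ bad : Finset ℕ,
    bad.card ≤ 2 ^ (1554999 * e) ∧ ∀ μ < 2 ^ (1599999 * e), μ ∉ bad → GM2 p c e μ := by
  classical
  filter_upwards [eventually_ge_atTop (24 * p.a * 2 ^ c + 2 * c + 7)] with e he
  have hlt : e < 2 ^ e := Nat.lt_two_pow_self
  have he1 : 24 * p.a * 2 ^ c ≤ 2 ^ e := by omega
  have he2 : 1 ≤ e := by omega
  -- the box
  set Bx : Finset (ℤ × ℤ) := ((Ioo (-(2 : ℤ) ^ (1912 * e + c)) (2 ^ (1912 * e + c))) ×ˢ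
    (Ioo (-(2 : ℤ) ^ (2862 * e + c)) (2 ^ (2862 * e + c)))).filter
      (fun z => z.1 ≠ 0 ∨ z.2 ≠ 0) with hBx
  have hBxcard : Bx.card ≤ 2 ^ (4774 * e + 2 * c + 2) := by
    refine (card_filter_le _ _).trans ?_
    rw [card_product, Int.card_Ioo, Int.card_Ioo]
    have h1 : ((2 : ℤ) ^ (1912 * e + c) - -2 ^ (1912 * e + c) - 1).toNat
        ≤ 2 ^ (1912 * e + c + 1) := by
      rw [Int.toNat_le]
      push_cast
      rw [pow_succ]
      linarith
    have h2 : ((2 : ℤ) ^ (2862 * e + c) - -2 ^ (2862 * e + c) - 1).toNat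
        ≤ 2 ^ (2862 * e + c + 1) := by
      rw [Int.toNat_le]
      push_cast
      rw [pow_succ]
      linarith
    refine (Nat.mul_le_mul h1 h2).trans ?_
    rw [← pow_add]
    exact Nat.pow_le_pow_right (by norm_num) (by omega)
  set cnt : ℤ × ℤ → ℕ → ℕ := fun z μ => ((Ico 1 (2 ^ (400000 * e))).filter fun t : ℕ =>
    di (2 * t * (z.1 * p.P2 μ + 3 * z.2 * p.P3 μ) / 2 ^ (801912 * e))
      < 1 / 2 ^ (200000 * e)).card with hcnt
  set Bd : ℤ × ℤ → Finset ℕ := fun z => (range (2 ^ (1599999 * e))).filter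
    (fun μ => 2 ^ (350000 * e) < cnt z μ) with hBd
  have hBdc : ∀ z ∈ Bx, (Bd z).card ≤ 2 ^ (1549999 * e + 2) := by
    intro z hz
    rw [hBx, mem_filter, mem_product, mem_Ioo, mem_Ioo] at hz
    have hz1 : |z.1| < 2 ^ (1912 * e + c) := abs_lt.mpr hz.1.1
    have hz2 : |z.2| < 2 ^ (2862 * e + c) := abs_lt.mpr hz.1.2
    have hsum : (∑ μ ∈ range (2 ^ (1599999 * e)), (cnt z μ : ℝ))
        ≤ 2 ^ (400000 * e) * (2 ^ (1599999 * e) * (4 / 2 ^ (100000 * e))) := by
      have h1 : ∑ μ ∈ range (2 ^ (1599999 * e)), cnt z μ =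
          ∑ t ∈ Ico (1 : ℕ) (2 ^ (400000 * e)), ((range (2 ^ (1599999 * e))).filter fun μ : ℕ =>
            di (2 * t * (z.1 * p.P2 μ + 3 * z.2 * p.P3 μ) / 2 ^ (801912 * e))
              < 1 / 2 ^ (200000 * e)).card := by
        simp only [hcnt, card_filter]
        exact sum_comm
      have h2 : (∑ μ ∈ range (2 ^ (1599999 * e)), (cnt z μ : ℝ)) =
          ∑ t ∈ Ico (1 : ℕ) (2 ^ (400000 * e)), (((range (2 ^ (1599999 * e))).filter fun μ : ℕ =>
            di (2 * t * (z.1 * p.P2 μ + 3 * z.2 * p.P3 μ) / 2 ^ (801912 * e))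
              < 1 / 2 ^ (200000 * e)).card : ℝ) := by
        exact_mod_cast h1
      rw [h2]
      have h3 : ∀ t ∈ Ico (1 : ℕ) (2 ^ (400000 * e)), (((range (2 ^ (1599999 * e))).filter
          fun μ : ℕ => di (2 * t * (z.1 * p.P2 μ + 3 * z.2 * p.P3 μ) / 2 ^ (801912 * e))
              < 1 / 2 ^ (200000 * e)).card : ℝ)
          ≤ 2 ^ (1599999 * e) * (4 / 2 ^ (100000 * e)) := by
        intro t ht
        rw [mem_Ico] at ht
        exact gmc2_one p ha c e he1 he2 z.1 z.2 hz.2 hz1 hz2 t ht.1 ht.2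
      refine (sum_le_sum h3).trans ?_
      rw [sum_const, Nat.card_Ico, nsmul_eq_mul]
      apply mul_le_mul_of_nonneg_right _ (by positivity)
      have : ((2 ^ (400000 * e) - 1 : ℕ) : ℝ) ≤ ((2 ^ (400000 * e) : ℕ) : ℝ) := by
        exact_mod_cast Nat.sub_le _ _
      refine this.trans_eq ?_
      push_cast
      ring
    have hmark : ((Bd z).card : ℝ) * 2 ^ (350000 * e)
        ≤ ∑ μ ∈ range (2 ^ (1599999 * e)), (cnt z μ : ℝ) := by
      calc ((Bd z).card : ℝ) * 2 ^ (350000 * e) = ∑ _μ ∈ Bd z, (2 : ℝ) ^ (350000 * e) := by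
            rw [sum_const, nsmul_eq_mul]
        _ ≤ ∑ μ ∈ Bd z, (cnt z μ : ℝ) := by
            apply sum_le_sum
            intro μ hμ
            rw [hBd, mem_filter] at hμ
            have := hμ.2.le
            exact_mod_cast this
        _ ≤ ∑ μ ∈ range (2 ^ (1599999 * e)), (cnt z μ : ℝ) :=
            sum_le_sum_of_subset_of_nonneg (filter_subset _ _) (fun _ _ _ => Nat.cast_nonneg _)
    have h5 := hmark.trans hsum
    have h6 : (2 : ℝ) ^ (400000 * e) * (2 ^ (1599999 * e) * (4 / 2 ^ (100000 * e))) =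
        2 ^ (1549999 * e + 2) * 2 ^ (350000 * e) := by
      rw [mul_div_assoc', mul_div_assoc', div_eq_iff (by positivity)]
      rw [show (4 : ℝ) = 2 ^ 2 by norm_num, ← pow_add, ← pow_add, ← pow_add, ← pow_add]
      congr 1
      ring
    rw [h6] at h5
    have h7 := le_of_mul_le_mul_right h5 (by positivity)
    exact_mod_cast h7
  refine ⟨Bx.biUnion Bd, ?_, ?_⟩
  · calc (Bx.biUnion Bd).card ≤ ∑ z ∈ Bx, (Bd z).card := card_biUnion_le
      _ ≤ ∑ _z ∈ Bx, 2 ^ (1549999 * e + 2) := sum_le_sum hBdc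
      _ = Bx.card * 2 ^ (1549999 * e + 2) := by rw [sum_const, smul_eq_mul]
      _ ≤ 2 ^ (4774 * e + 2 * c + 2) * 2 ^ (1549999 * e + 2) := Nat.mul_le_mul_right _ hBxcard
      _ ≤ 2 ^ (1554999 * e) := by
          rw [← pow_add]
          exact Nat.pow_le_pow_right (by norm_num) (by omega)
  · intro μ hμ hnot x y hxy hx hy
    by_contra hcon
    push Not at hcon
    apply hnot
    rw [mem_biUnion]
    refine ⟨(x, y), ?_, ?_⟩
    · rw [hBx, mem_filter, mem_product, mem_Ioo, mem_Ioo]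
      exact ⟨⟨abs_lt.mp hx, abs_lt.mp hy⟩, hxy⟩
    · rw [hBd, mem_filter, mem_range]
      exact ⟨hμ, hcon⟩

end Pool.Agent.Lib.MP_8fac0f_nt.Q4
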