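import Pool.Agent.Lib.MP_8fac0f_nt.Q4.Defs
import Pool.Agent.Lib.MP_8fac0f_nt.Q4.SqG

/-!
# GMC3: the linear condition fails for few `μ`

Proof. `J = 1599999 e`, `beta = 401912 e <= J`. Fix integers `(x, y) <> 0` in the box.
`2 x P2 mu + 3 y P3 mu = 12 a x mu ^ 2 + (6 b x + 12 a y) mu + (2 c x + 3 b y)`. If `x <> 0`: `sq_g` with
`A = 12 a x`, `2 |A| <= X = 24 a 2 ^ (1913 e + c)`, `delta = 2 ^ (-100000 e)`: the number of `mu` with
`di (..) < 2 ^ (-100000 e)` is at most `2 ^ J sqrt (4 * 2 ^ (-100000 e) + X (beta + 1) / 2 ^ (401912 e))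
<= 2 ^ J * 2 ^ (2 - 50000 e)`. If `x = 0`: `lin_g` with `A = 12 a y`, smaller. The number of `(x, y)` is at most
`2 ^ (4776 e + 2 c + 2)`: total `<= 2 ^ (J - 45000 e) = 2 ^ (1554999 e)` for large `e`.
-/

set_option autoImplicit false

namespace Pool.Agent.Lib.MP_8fac0f_nt.Q4

open Finset Filter Topology
open Pool.Agent.Lib.MP_8fac0f_nt.C3 (di ex)

/-- Quadratic phases, with exponents. -/
private theorem gmc3_sq (A B C : ℤ) (β J u v d : ℕ) (hβ : β ≤ J) (hA : A ≠ 0)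
    (hu : 2 * |(A : ℝ)| ≤ 2 ^ u) (hv : (β : ℝ) + 1 ≤ 2 ^ v) (huv : u + v + 2 * d ≤ β) :
    ((range (2 ^ J)).filter fun n : ℕ =>
      di ((A * n ^ 2 + B * n + C) / 2 ^ β) < 1 / 2 ^ (2 * d)).card * 2 ^ d ≤ 2 ^ (J + 2) := by
  have hδ : (0 : ℝ) ≤ 1 / 2 ^ (2 * d) := by positivity
  have h1 := sq_g A B C β J hβ (2 ^ u) (1 / 2 ^ (2 * d)) hA hu hδ
  have h2 : ((range (2 ^ J)).filter fun n : ℕ =>
      di ((A * n ^ 2 + B * n + C) / 2 ^ β) < 1 / 2 ^ (2 * d)).card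
      ≤ ((range (2 ^ J)).filter fun n : ℕ =>
      di ((A * n ^ 2 + B * n + C) / 2 ^ β) ≤ 1 / 2 ^ (2 * d)).card := by
    apply card_le_card
    intro n hn
    rw [mem_filter] at hn ⊢
    exact ⟨hn.1, hn.2.le⟩
  have h3 : (2 : ℝ) ^ u * ((β : ℝ) + 1) / 2 ^ β ≤ 1 / 2 ^ (2 * d) := by
    rw [div_le_div_iff₀ (by positivity) (by positivity), one_mul]
    calc (2 : ℝ) ^ u * ((β : ℝ) + 1) * 2 ^ (2 * d) ≤ 2 ^ u * 2 ^ v * 2 ^ (2 * d) := by gcongr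
      _ = 2 ^ (u + v + 2 * d) := by rw [pow_add, pow_add]
      _ ≤ 2 ^ β := pow_le_pow_right₀ (by norm_num) huv
  have h4 : √(4 * (1 / 2 ^ (2 * d)) + (2 : ℝ) ^ u * (β + 1) / 2 ^ β) ≤ 4 / 2 ^ d := by
    rw [Real.sqrt_le_left (by positivity)]
    have h5 : (4 / (2 : ℝ) ^ d) ^ 2 = 16 * (1 / 2 ^ (2 * d)) := by
      rw [mul_comm 2 d, pow_mul, div_pow]; norm_num; ring
    rw [h5]
    have h6 : (0 : ℝ) ≤ 1 / 2 ^ (2 * d) := by positivity
    linarith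
  have h7 : (((range (2 ^ J)).filter fun n : ℕ =>
      di ((A * n ^ 2 + B * n + C) / 2 ^ β) < 1 / 2 ^ (2 * d)).card : ℝ) ≤ 2 ^ J * (4 / 2 ^ d) := by
    refine (Nat.cast_le.mpr h2).trans (h1.trans ?_)
    gcongr
  have h8 : (((range (2 ^ J)).filter fun n : ℕ =>
      di ((A * n ^ 2 + B * n + C) / 2 ^ β) < 1 / 2 ^ (2 * d)).card : ℝ) * 2 ^ d ≤ 2 ^ (J + 2) := by
    calc _ ≤ (2 : ℝ) ^ J * (4 / 2 ^ d) * 2 ^ d := by gcongr
      _ = 2 ^ (J + 2) := by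
        have : (2 : ℝ) ^ d ≠ 0 := by positivity
        field_simp
        rw [pow_add]; norm_num
  exact_mod_cast h8

/-- Linear phases, with exponents. -/
private theorem gmc3_lin (A B : ℤ) (β J u d : ℕ) (hβ : β ≤ J) (hA : A ≠ 0)
    (hu : |(A : ℝ)| ≤ 2 ^ u) (huv : u + 2 * d ≤ β) :
    ((range (2 ^ J)).filter fun n : ℕ =>
      di ((A * n + B) / 2 ^ β) < 1 / 2 ^ (2 * d)).card * 2 ^ d ≤ 2 ^ (J + 2) := by
  have hδ : (0 : ℝ) ≤ 1 / 2 ^ (2 * d) := by positivity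
  have h1 := lin_g A B β J hβ (1 / 2 ^ (2 * d)) hA hδ
  have h2 : ((range (2 ^ J)).filter fun n : ℕ =>
      di ((A * n + B) / 2 ^ β) < 1 / 2 ^ (2 * d)).card
      ≤ ((range (2 ^ J)).filter fun n : ℕ =>
      di ((A * n + B) / 2 ^ β) ≤ 1 / 2 ^ (2 * d)).card := by
    apply card_le_card
    intro n hn
    rw [mem_filter] at hn ⊢
    exact ⟨hn.1, hn.2.le⟩
  have h3 : |(A : ℝ)| / 2 ^ β ≤ 1 / 2 ^ (2 * d) := by
    rw [div_le_div_iff₀ (by positivity) (by positivity), one_mul]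
    calc |(A : ℝ)| * 2 ^ (2 * d) ≤ 2 ^ u * 2 ^ (2 * d) := by gcongr
      _ = 2 ^ (u + 2 * d) := by rw [pow_add]
      _ ≤ 2 ^ β := pow_le_pow_right₀ (by norm_num) huv
  have h5 : (1 : ℝ) / 2 ^ (2 * d) ≤ 1 / 2 ^ d := by
    apply one_div_le_one_div_of_le (by positivity)
    exact pow_le_pow_right₀ (by norm_num) (by omega)
  have h4 : 2 * (1 / 2 ^ (2 * d)) + |(A : ℝ)| / 2 ^ β ≤ 4 / 2 ^ d := by
    have h6 : (0 : ℝ) ≤ 1 / 2 ^ d := by positivity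
    have h7 : (4 : ℝ) / 2 ^ d = 4 * (1 / 2 ^ d) := by ring
    rw [h7]
    linarith
  have h7 : (((range (2 ^ J)).filter fun n : ℕ =>
      di ((A * n + B) / 2 ^ β) < 1 / 2 ^ (2 * d)).card : ℝ) ≤ 2 ^ J * (4 / 2 ^ d) := by
    refine (Nat.cast_le.mpr h2).trans (h1.trans ?_)
    gcongr
  have h8 : (((range (2 ^ J)).filter fun n : ℕ =>
      di ((A * n + B) / 2 ^ β) < 1 / 2 ^ (2 * d)).card : ℝ) * 2 ^ d ≤ 2 ^ (J + 2) := by
    calc _ ≤ (2 : ℝ) ^ J * (4 / 2 ^ d) * 2 ^ d := by gcongr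
      _ = 2 ^ (J + 2) := by
        have : (2 : ℝ) ^ d ≠ 0 := by positivity
        field_simp
        rw [pow_add]; norm_num
  exact_mod_cast h8

/-- One pair of frequencies. -/
private theorem gmc3_one (p : Co) (ha : 1 ≤ p.a) (x y : ℤ) (hxy : x ≠ 0 ∨ y ≠ 0)
    (β J s t w v d : ℕ) (hβ : β ≤ J) (hx : |x| < 2 ^ s) (hy : |y| < 2 ^ t)
    (hw : 24 * p.a ≤ 2 ^ w) (hv : β + 1 ≤ 2 ^ v)
    (h1 : w + s + v + 2 * d ≤ β) (h2 : w + t + 2 * d ≤ β) :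
    ((range (2 ^ J)).filter fun μ : ℕ =>
      di ((2 * x * p.P2 μ + 3 * y * p.P3 μ) / 2 ^ β) < 1 / 2 ^ (2 * d)).card * 2 ^ d
      ≤ 2 ^ (J + 2) := by
  have ha0 : (p.a : ℤ) ≠ 0 := by exact_mod_cast (by omega : p.a ≠ 0)
  have hw' : (24 : ℝ) * p.a ≤ 2 ^ w := by exact_mod_cast hw
  have hv' : (β : ℝ) + 1 ≤ 2 ^ v := by exact_mod_cast hv
  have hx' : |(x : ℝ)| ≤ 2 ^ s := by exact_mod_cast hx.le
  have hy' : |(y : ℝ)| ≤ 2 ^ t := by exact_mod_cast hy.le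
  have ha' : (0 : ℝ) ≤ p.a := Nat.cast_nonneg _
  by_cases hx0 : x = 0
  · have hy0 : y ≠ 0 := by
      rcases hxy with h | h
      · exact absurd hx0 h
      · exact h
    have h := gmc3_lin (12 * p.a * y) (3 * y * p.b) β J (w + t) d hβ
      (mul_ne_zero (mul_ne_zero (by norm_num) ha0) hy0) (by
        push_cast
        rw [abs_mul, abs_mul, abs_of_nonneg ha', abs_of_nonneg (by norm_num : (0 : ℝ) ≤ 12)]
        calc (12 : ℝ) * p.a * |(y : ℝ)| ≤ (24 * p.a) * |(y : ℝ)| := by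
              gcongr; norm_num
          _ ≤ 2 ^ w * 2 ^ t := by gcongr
          _ = 2 ^ (w + t) := by rw [pow_add]) h2
    refine le_trans (le_of_eq ?_) h
    congr 2
    apply filter_congr
    intro n _
    subst hx0
    unfold Co.P2 Co.P3
    push_cast
    constructor <;> intro h <;> convert h using 3 <;> ring
  · have h := gmc3_sq (12 * p.a * x) (6 * p.b * x + 12 * p.a * y) (2 * p.c * x + 3 * p.b * y)
      β J (w + s) v d hβ
      (mul_ne_zero (mul_ne_zero (by norm_num) ha0) hx0) (by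
        push_cast
        rw [abs_mul, abs_mul, abs_of_nonneg ha', abs_of_nonneg (by norm_num : (0 : ℝ) ≤ 12)]
        calc 2 * ((12 : ℝ) * p.a * |(x : ℝ)|) = (24 * p.a) * |(x : ℝ)| := by ring
          _ ≤ 2 ^ w * 2 ^ s := by gcongr
          _ = 2 ^ (w + s) := by rw [pow_add]) hv' h1
    refine le_trans (le_of_eq ?_) h
    congr 2
    apply filter_congr
    intro n _
    unfold Co.P2 Co.P3
    push_cast
    constructor <;> intro h <;> convert h using 3 <;> ring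

/-- The number of frequencies. -/
private theorem gmc3_box (s : ℕ) : (Ioo (-(2 : ℤ) ^ s) (2 ^ s)).card ≤ 2 ^ (s + 1) := by
  rw [Int.card_Ioo]
  have h1 : (1 : ℤ) ≤ 2 ^ s := one_le_pow₀ (by norm_num)
  have h2 : (2 : ℤ) ^ s - -2 ^ s - 1 ≤ ((2 ^ (s + 1) : ℕ) : ℤ) := by
    push_cast
    rw [pow_succ]
    linarith
  exact Int.toNat_le.mpr h2

/-- The union bound, with exponents. -/
private theorem gmc3_core (p : Co) (ha : 1 ≤ p.a) (β J s t w v d r : ℕ) (hβ : β ≤ J)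
    (hw : 24 * p.a ≤ 2 ^ w) (hv : β + 1 ≤ 2 ^ v)
    (h1 : w + s + v + 2 * d ≤ β) (h2 : w + t + 2 * d ≤ β) (hr : J + s + t + 4 ≤ r + d) :
    ∃ bad : Finset ℕ, bad.card ≤ 2 ^ r ∧ ∀ μ < 2 ^ J, μ ∉ bad → ∀ x y : ℤ, (x ≠ 0 ∨ y ≠ 0) →
      |x| < 2 ^ s → |y| < 2 ^ t →
      1 / 2 ^ (2 * d) ≤ di ((2 * x * p.P2 μ + 3 * y * p.P3 μ) / 2 ^ β) := by
  classical
  set I : Finset (ℤ × ℤ) := ((Ioo (-(2 : ℤ) ^ s) (2 ^ s)) ×ˢ (Ioo (-(2 : ℤ) ^ t) (2 ^ t))).filter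
    fun q => q.1 ≠ 0 ∨ q.2 ≠ 0 with hI
  set F : ℤ × ℤ → Finset ℕ := fun q => (range (2 ^ J)).filter fun μ : ℕ =>
      di ((2 * q.1 * p.P2 μ + 3 * q.2 * p.P3 μ) / 2 ^ β) < 1 / 2 ^ (2 * d) with hF
  refine ⟨I.biUnion F, ?_, ?_⟩
  · have hI1 : I.card ≤ 2 ^ (s + 1) * 2 ^ (t + 1) := by
      refine (card_filter_le _ _).trans ?_
      rw [card_product]
      exact Nat.mul_le_mul (gmc3_box s) (gmc3_box t)
    have h3 : (I.biUnion F).card * 2 ^ d ≤ 2 ^ (r + d) := by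
      calc (I.biUnion F).card * 2 ^ d ≤ (∑ q ∈ I, (F q).card) * 2 ^ d :=
            Nat.mul_le_mul_right _ card_biUnion_le
        _ = ∑ q ∈ I, (F q).card * 2 ^ d := by rw [sum_mul]
        _ ≤ ∑ q ∈ I, 2 ^ (J + 2) := by
            apply sum_le_sum
            intro q hq
            rw [hI, mem_filter, mem_product, mem_Ioo, mem_Ioo] at hq
            exact gmc3_one p ha q.1 q.2 hq.2 β J s t w v d hβ (abs_lt.mpr hq.1.1)
              (abs_lt.mpr hq.1.2) hw hv h1 h2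
        _ = I.card * 2 ^ (J + 2) := by rw [sum_const, smul_eq_mul]
        _ ≤ 2 ^ (s + 1) * 2 ^ (t + 1) * 2 ^ (J + 2) := Nat.mul_le_mul_right _ hI1
        _ = 2 ^ (s + 1 + (t + 1) + (J + 2)) := by rw [← pow_add, ← pow_add]
        _ ≤ 2 ^ (r + d) := Nat.pow_le_pow_right (by norm_num) (by omega)
    rw [pow_add] at h3
    exact Nat.le_of_mul_le_mul_right h3 (by positivity)
  · intro μ hμ hb x y hxy hx hy
    by_contra hcon
    apply hb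
    rw [mem_biUnion]
    refine ⟨(x, y), ?_, ?_⟩
    · rw [hI, mem_filter, mem_product, mem_Ioo, mem_Ioo]
      exact ⟨⟨abs_lt.mp hx, abs_lt.mp hy⟩, hxy⟩
    · rw [hF, mem_filter, mem_range]
      exact ⟨hμ, not_le.mp hcon⟩

theorem gmc3 (p : Co) (ha : 1 ≤ p.a) (c : ℕ) : ∀ᶠ e : ℕ in atTop, ∃ bad : Finset ℕ,
    bad.card ≤ 2 ^ (1554999 * e) ∧ ∀ μ < 2 ^ (1599999 * e), μ ∉ bad → GM3 p c e μ := by
  have hw : 24 * p.a ≤ 2 ^ (24 * p.a) := Nat.lt_two_pow_self.le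
  filter_upwards [eventually_ge_atTop (24 * p.a + 2 * c + 20)] with e he
  have hv : 401912 * e + 1 ≤ 2 ^ (e + 19) := by
    have h1 : e < 2 ^ e := Nat.lt_two_pow_self
    rw [pow_add]
    have h2 : (2 : ℕ) ^ 19 = 524288 := by norm_num
    rw [h2]
    omega
  obtain ⟨bad, hb, hbad⟩ := gmc3_core p ha (401912 * e) (1599999 * e) (1913 * e + c)
    (2863 * e + c) (24 * p.a) (e + 19) (50000 * e) (1554999 * e) (by omega) hw hv (by omega)
    (by omega) (by omega)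
  refine ⟨bad, hb, fun μ hμ hn x y hxy hx hy => ?_⟩
  have h := hbad μ hμ hn x y hxy hx hy
  rwa [show 2 * (50000 * e) = 100000 * e by ring] at h

end Pool.Agent.Lib.MP_8fac0f_nt.Q4
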