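import Pool.Agent.Lib.MP_8fac0f_nt.Q4.Defs
import Pool.Agent.Lib.MP_8fac0f_nt.Q4.CW

/-!
# MW1: the Weyl sums of the class bound with a cubic term

Proof. `J = 1599999 e`, `V = 2 ^ (400000 e)`, `nu = mu + 2 ^ J m`. By `Co.P_add`, `Co.P1_add`, `Co.P2_add`
(with `h = 2 ^ J m`) the phase `phM .. nu` is `alpha m ^ 3 + beta m ^ 2 + delta m + const +` an integer with
`alpha = x5 P3 mu / 2 ^ (1200003 e + rho)`: indeed `3 J = 4799997 e >= 4001910 e`, `2 J >= 2001911 e`,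
`4 J = 6399996 e >= 6000000 e + rho` (large `e`), `6000000 e + rho - 3 J = 1200003 e + rho`; the cubic
and quartic terms of `x1 P / 2 ^ (4001910 e)`, `x2 P1 / ..`, `x3 P1 / ..`, the quadratic terms of `x3 ..`, `x4 ..`
may be kept or dropped, they are integers. `cubic_weyl` with `gamma = 2 ^ (-200000 e)`, `T = 2 ^ (750000 e)`
(`GM1` with `z = |x5|`, `C3.di_neg` if `x5 < 0`):
`|.| ^ 2 <= V + 2 sqrt (V (V ^ 2 + 2 V T + V ^ 2 / gamma))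
<= 2 ^ (400000 e) + 2 sqrt (2 ^ (400000 e) (2 ^ (800000 e) + 2 ^ (1150000 e + 1) + 2 ^ (1000000 e))) <= 2 ^ (776000 e)`.
(For `v1 <= v2`; if `v2 < v1` the sum is empty.)
-/

set_option autoImplicit false

namespace Pool.Agent.Lib.MP_8fac0f_nt.Q4

open Finset Filter Topology
open Pool.Agent.Lib.MP_8fac0f_nt.C3 (di ex)

private theorem mw1_q (a b c : ℕ) (h : a + c = b) : (2 : ℝ) ^ a / 2 ^ b = 1 / 2 ^ c := by
  rw [← h, pow_add, one_div, ← div_div, div_self (by positivity), one_div]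

private theorem mw1_q' (a b c : ℕ) (h : b + c = a) : (2 : ℝ) ^ a / 2 ^ b = 2 ^ c := by
  rw [← h, pow_add, mul_comm, mul_div_assoc, div_self (by positivity), mul_one]

private theorem mw1_phase (p : Co) (ρ e μ : ℕ) (he : ρ ≤ 399996 * e) (x1 x2 x3 x4 x5 : ℤ) :
    ∃ β δ κ : ℝ, ∀ m : ℕ, ∃ N : ℤ, phM p ρ e x1 x2 x3 x4 x5 (μ + 2 ^ (1599999 * e) * m) =
      κ + ((x5 * p.P3 μ / 2 ^ (1200003 * e + ρ) * m ^ 3 + β * m ^ 2 + δ * m) + N) := by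
  set J : ℝ := (2 : ℝ) ^ (1599999 * e) with hJ
  set N1 : ℝ := (2 : ℝ) ^ (4001910 * e) with hN1
  set N2 : ℝ := (2 : ℝ) ^ (2001911 * e) with hN2
  set N3 : ℝ := (2 : ℝ) ^ (6000000 * e + ρ) with hN3
  have hJ3 : J ^ 3 = 2 ^ (4799997 * e) := by
    rw [hJ, ← pow_mul]; congr 1; ring
  have hJ2 : J ^ 2 = 2 ^ (3199998 * e) := by
    rw [hJ, ← pow_mul]; congr 1; ring
  have hJ4 : J ^ 4 = 2 ^ (6399996 * e) := by
    rw [hJ, ← pow_mul]; congr 1; ring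
  have e1 : J ^ 3 / N1 = 2 ^ (798087 * e) := by
    rw [hJ3]; exact mw1_q' _ _ _ (by ring)
  have e2 : J ^ 2 / N2 = 2 ^ (1198087 * e) := by
    rw [hJ2]; exact mw1_q' _ _ _ (by ring)
  have e3 : J ^ 4 / N3 = 2 ^ (399996 * e - ρ) := by
    rw [hJ4]; exact mw1_q' _ _ _ (by omega)
  have e4 : J ^ 3 / N3 = 1 / 2 ^ (1200003 * e + ρ) := by
    rw [hJ3]; exact mw1_q _ _ _ (by ring)
  refine ⟨x1 * p.P2 μ * (J ^ 2 / N1) + x2 * (3 * p.P3 μ) * (J ^ 2 / N1) + x5 * p.P2 μ * (J ^ 2 / N3),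
    x1 * p.P1 μ * (J / N1) + x2 * (2 * p.P2 μ) * (J / N1) + x3 * (2 * p.P2 μ) * (J / N2)
      + x4 * (3 * p.P3 μ) * (J / N2) + x5 * p.P1 μ * (J / N3),
    x1 * (p.P μ / N1) + x2 * (p.P1 μ / N1) + x3 * (p.P1 μ / N2) + x4 * (p.P2 μ / N2) + x5 * (p.P μ / N3),
    fun m => ⟨x1 * (2 ^ (798087 * e) * (p.P3 μ * m ^ 3 + p.a * 2 ^ (1599999 * e) * m ^ 4))
      + x2 * (2 ^ (798087 * e) * (4 * p.a * m ^ 3))
      + x3 * (2 ^ (1198087 * e) * (3 * p.P3 μ * m ^ 2 + 4 * p.a * 2 ^ (1599999 * e) * m ^ 3))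
      + x4 * (2 ^ (1198087 * e) * (6 * p.a * m ^ 2)) + x5 * (2 ^ (399996 * e - ρ) * (p.a * m ^ 4)), ?_⟩⟩
  have hP : ((p.P (μ + 2 ^ (1599999 * e) * m) : ℕ) : ℝ) = p.P μ + (J * m) * p.P1 μ
      + (J * m) ^ 2 * p.P2 μ + (J * m) ^ 3 * p.P3 μ + p.a * (J * m) ^ 4 := by
    rw [Co.P_add]
    push_cast
    ring
  have hP1 : ((p.P1 (μ + 2 ^ (1599999 * e) * m) : ℕ) : ℝ) = p.P1 μ
      + 2 * (J * m) * p.P2 μ + 3 * (J * m) ^ 2 * p.P3 μ + 4 * p.a * (J * m) ^ 3 := by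
    rw [Co.P1_add]
    push_cast
    ring
  have hP2 : ((p.P2 (μ + 2 ^ (1599999 * e) * m) : ℕ) : ℝ) = p.P2 μ
      + 3 * (J * m) * p.P3 μ + 6 * p.a * (J * m) ^ 2 := by
    rw [Co.P2_add]
    push_cast
    ring
  unfold phM
  rw [hP, hP1, hP2]
  push_cast
  rw [← hN1, ← hN2, ← hN3, ← hJ, ← e1, ← e2, ← e3, div_eq_mul_one_div (_ * _) ((2 : ℝ) ^ (1200003 * e + ρ)), ← e4]
  ring

theorem mw1 (p : Co) (lam ρ : ℕ) : ∀ᶠ e : ℕ in atTop, ∀ μ : ℕ, GM1 p lam ρ e μ →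
    ∀ x1 x2 x3 x4 x5 : ℤ, x5 ≠ 0 → |x5| < 2 ^ (lam + ρ) → ∀ v1 v2 : ℕ, v2 ≤ 2 ^ (400000 * e) →
      ‖∑ m ∈ Ico v1 v2, ex (phM p ρ e x1 x2 x3 x4 x5 (μ + 2 ^ (1599999 * e) * m))‖
        ≤ 2 ^ (388000 * e) := by
  filter_upwards [eventually_ge_atTop (ρ + 1)] with e he μ hG x1 x2 x3 x4 x5 hx h5 v1 v2 hv
  obtain ⟨β, δ, κ, hph⟩ := mw1_phase p ρ e μ (by omega) x1 x2 x3 x4 x5
  set α : ℝ := x5 * p.P3 μ / 2 ^ (1200003 * e + ρ) with hα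
  have hs : ∑ m ∈ Ico v1 v2, ex (phM p ρ e x1 x2 x3 x4 x5 (μ + 2 ^ (1599999 * e) * m)) =
      ex κ * ∑ m ∈ Ico v1 v2, ex (α * m ^ 3 + β * m ^ 2 + δ * m) := by
    rw [Finset.mul_sum]
    refine Finset.sum_congr rfl fun m _ => ?_
    obtain ⟨N, hN⟩ := hph m
    rw [hN, C3.ex_add, C3.ex_add_int]
  rw [hs, norm_mul, C3.norm_ex, one_mul]
  have hz := hG x5.natAbs (Int.natAbs_pos.2 hx) (by
    have h1 : ((x5.natAbs : ℕ) : ℤ) < ((2 ^ (lam + ρ) : ℕ) : ℤ) := by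
      rw [Int.natCast_natAbs]
      push_cast
      exact h5
    exact_mod_cast h1)
  have hT : ((∑ h ∈ Ico (1 : ℕ) (2 ^ (400000 * e)), ((Ico (1 : ℕ) (2 ^ (400000 * e))).filter fun t : ℕ =>
      di (6 * t * h * α) < 1 / 2 ^ (200000 * e)).card : ℕ) : ℝ) ≤ 2 ^ (750000 * e) := by
    have h1 : ∀ t h : ℕ, di (6 * t * h * α) =
        di (6 * t * h * (x5.natAbs : ℕ) * p.P3 μ / 2 ^ (1200003 * e + ρ)) := by
      intro t h
      have h2 : ((x5.natAbs : ℕ) : ℝ) = |(x5 : ℝ)| := by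
        rw [Nat.cast_natAbs, Int.cast_abs]
      rw [h2, hα]
      rcases le_or_gt 0 (x5 : ℝ) with h3 | h3
      · rw [abs_of_nonneg h3]
        congr 1
        ring
      · rw [abs_of_neg h3, ← C3.di_neg]
        congr 1
        ring
    simp only [h1]
    exact_mod_cast hz
  have hw := cubic_weyl α β δ (1 / 2 ^ (200000 * e)) (by positivity) (2 ^ (400000 * e)) v1 v2 (by omega)
    (2 ^ (750000 * e)) hT
  push_cast at hw
  set a : ℝ := (2 : ℝ) ^ (400000 * e) with ha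
  have ha1 : 1 ≤ a := one_le_pow₀ (by norm_num)
  have g1 : (2 : ℝ) ^ (775000 * e) * 2 ^ (775000 * e) = a * (a * 2 ^ (750000 * e)) := by
    rw [ha, ← pow_add, ← pow_add, ← pow_add]
    congr 1
    ring
  have g2 : a ≤ 2 ^ (750000 * e) := pow_le_pow_right₀ (by norm_num) (by omega)
  have g3 : a ^ 2 / (1 / 2 ^ (200000 * e)) ≤ a * 2 ^ (750000 * e) := by
    rw [div_div_eq_mul_div, div_one, sq, mul_assoc]
    refine mul_le_mul_of_nonneg_left ?_ (by positivity)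
    rw [ha, ← pow_add]
    exact pow_le_pow_right₀ (by norm_num) (by omega)
  have g4 : a * (a ^ 2 + 2 * a * 2 ^ (750000 * e) + a ^ 2 / (1 / 2 ^ (200000 * e)))
      ≤ (2 * 2 ^ (775000 * e)) ^ 2 := by
    have g5 : a ^ 2 ≤ a * 2 ^ (750000 * e) := by
      rw [sq]
      exact mul_le_mul_of_nonneg_left g2 (by positivity)
    calc a * (a ^ 2 + 2 * a * 2 ^ (750000 * e) + a ^ 2 / (1 / 2 ^ (200000 * e)))
        ≤ a * (a * 2 ^ (750000 * e) + 2 * a * 2 ^ (750000 * e) + a * 2 ^ (750000 * e)) := by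
          refine mul_le_mul_of_nonneg_left ?_ (by positivity)
          linarith
      _ = 4 * (a * (a * 2 ^ (750000 * e))) := by ring
      _ = (2 * 2 ^ (775000 * e)) ^ 2 := by
          rw [← g1]; ring
  have g6 : √(a * (a ^ 2 + 2 * a * 2 ^ (750000 * e) + a ^ 2 / (1 / 2 ^ (200000 * e))))
      ≤ 2 * 2 ^ (775000 * e) := by
    rw [← Real.sqrt_sq (show (0 : ℝ) ≤ 2 * 2 ^ (775000 * e) by positivity)]
    exact Real.sqrt_le_sqrt g4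
  have g7 : a ≤ 2 ^ (775000 * e) := pow_le_pow_right₀ (by norm_num) (by omega)
  have g8 : (8 : ℝ) * 2 ^ (775000 * e) ≤ 2 ^ (776000 * e) := by
    have : (8 : ℝ) = 2 ^ 3 := by norm_num
    rw [this, ← pow_add]
    exact pow_le_pow_right₀ (by norm_num) (by omega)
  have g9 : ((2 : ℝ) ^ (388000 * e)) ^ 2 = 2 ^ (776000 * e) := by
    rw [← pow_mul]
    congr 1
    ring
  have g0 : (0 : ℝ) < 2 ^ (775000 * e) := by positivity
  refine (sq_le_sq₀ (norm_nonneg _) (by positivity)).1 ?_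
  rw [g9]
  linarith

end Pool.Agent.Lib.MP_8fac0f_nt.Q4
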