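import Pool.Agent.Lib.MP_8fac0f_nt.Q4.Defs
import Pool.Agent.Lib.MP_8fac0f_nt.C3.QW

/-!
# MW2: the Weyl sums of the class bound, quadratic case

Proof. `J = 1599999 e`, `V = 2 ^ (400000 e)`, `nu = mu + 2 ^ J m`, `x5 = 0`. By `Co.P_add`, `Co.P1_add`,
`Co.P2_add` the phase is `alpha m ^ 2 + beta m + const +` an integer with
`alpha = (x1 P2 mu + 3 x2 P3 mu) / 2 ^ (801912 e)` (`4001910 e - 2 J = 801912 e`; `3 J >= 4001910 e`,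
`2 J >= 2001911 e`: all terms of higher degree are integers). `C3.quad_weyl` with `gamma = 2 ^ (-200000 e)` and
`GM2`: `|.| ^ 2 <= V + 2 V 2 ^ (350000 e) + V 2 ^ (200000 e) <= 2 ^ (750002 e) <= 2 ^ (776000 e)` for large `e`.
-/

set_option autoImplicit false

namespace Pool.Agent.Lib.MP_8fac0f_nt.Q4

open Finset Filter Topology
open Pool.Agent.Lib.MP_8fac0f_nt.C3 (di ex)

private theorem MW2_rel (a b c : ℕ) (h : a = b + c) : (2 : ℝ) ^ a * (1 / 2 ^ b) = 2 ^ c := by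
  rw [h, pow_add]
  field_simp

private theorem MW2_rel' (a b c : ℕ) (h : b = a + c) : (2 : ℝ) ^ a * (1 / 2 ^ b) = 1 / 2 ^ c := by
  rw [h, pow_add]
  field_simp

theorem mw2 (p : Co) (c ρ : ℕ) : ∀ᶠ e : ℕ in atTop, ∀ μ : ℕ, GM2 p c e μ →
    ∀ x1 x2 x3 x4 : ℤ, (x1 ≠ 0 ∨ x2 ≠ 0) → |x1| < 2 ^ (1912 * e + c) →
      |x2| < 2 ^ (2862 * e + c) → ∀ v1 v2 : ℕ, v2 ≤ 2 ^ (400000 * e) →
      ‖∑ m ∈ Ico v1 v2, ex (phM p ρ e x1 x2 x3 x4 0 (μ + 2 ^ (1599999 * e) * m))‖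
        ≤ 2 ^ (388000 * e) := by
  filter_upwards [eventually_ge_atTop 1] with e he μ hGM x1 x2 x3 x4 h0 h1 h2 v1 v2 hv
  have hcard := hGM x1 x2 h0 h1 h2
  obtain ⟨J, hJ⟩ : ∃ J : ℝ, J = 2 ^ (1599999 * e) := ⟨_, rfl⟩
  obtain ⟨iA, hiA⟩ : ∃ iA : ℝ, iA = 1 / 2 ^ (4001910 * e) := ⟨_, rfl⟩
  obtain ⟨iB, hiB⟩ : ∃ iB : ℝ, iB = 1 / 2 ^ (2001911 * e) := ⟨_, rfl⟩
  obtain ⟨iu, hiu⟩ : ∃ iu : ℝ, iu = 1 / 2 ^ (801912 * e) := ⟨_, rfl⟩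
  obtain ⟨w3, hw3⟩ : ∃ w3 : ℕ, w3 = 2 ^ (798087 * e) := ⟨_, rfl⟩
  obtain ⟨w4, hw4⟩ : ∃ w4 : ℕ, w4 = 2 ^ (2398086 * e) := ⟨_, rfl⟩
  obtain ⟨w2, hw2⟩ : ∃ w2 : ℕ, w2 = 2 ^ (1198087 * e) := ⟨_, rfl⟩
  obtain ⟨w5, hw5⟩ : ∃ w5 : ℕ, w5 = 2 ^ (2798086 * e) := ⟨_, rfl⟩
  have r1 : J ^ 2 * iA = iu := by
    rw [hJ, hiA, hiu, ← pow_mul]
    exact MW2_rel' _ _ _ (by ring)
  have r2 : J ^ 3 * iA = w3 := by
    rw [hJ, hiA, hw3, ← pow_mul, Nat.cast_pow, Nat.cast_ofNat]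
    exact MW2_rel _ _ _ (by ring)
  have r3 : J ^ 4 * iA = w4 := by
    rw [hJ, hiA, hw4, ← pow_mul, Nat.cast_pow, Nat.cast_ofNat]
    exact MW2_rel _ _ _ (by ring)
  have r4 : J ^ 2 * iB = w2 := by
    rw [hJ, hiB, hw2, ← pow_mul, Nat.cast_pow, Nat.cast_ofNat]
    exact MW2_rel _ _ _ (by ring)
  have r5 : J ^ 3 * iB = w5 := by
    rw [hJ, hiB, hw5, ← pow_mul, Nat.cast_pow, Nat.cast_ofNat]
    exact MW2_rel _ _ _ (by ring)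
  set α : ℝ := (x1 * p.P2 μ + 3 * x2 * p.P3 μ) / 2 ^ (801912 * e) with hα
  have hα' : α = (x1 * p.P2 μ + 3 * x2 * p.P3 μ) * iu := by rw [hα, hiu, mul_one_div]
  obtain ⟨β, hβ⟩ : ∃ β : ℝ, β = J * (x1 * p.P1 μ * iA + 2 * x2 * p.P2 μ * iA + 2 * x3 * p.P2 μ * iB
    + 3 * x4 * p.P3 μ * iB) := ⟨_, rfl⟩
  obtain ⟨κ, hκ⟩ : ∃ κ : ℝ, κ = x1 * p.P μ * iA + x2 * p.P1 μ * iA + x3 * p.P1 μ * iB
    + x4 * p.P2 μ * iB := ⟨_, rfl⟩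
  have key : ∀ m : ℕ, ex (phM p ρ e x1 x2 x3 x4 0 (μ + 2 ^ (1599999 * e) * m))
      = ex κ * ex (α * m ^ 2 + β * m) := by
    intro m
    have e1 : phM p ρ e x1 x2 x3 x4 0 (μ + 2 ^ (1599999 * e) * m)
        = (κ + (α * m ^ 2 + β * m)) + ((x1 * ((m : ℤ) ^ 3 * w3 * p.P3 μ + p.a * (m : ℤ) ^ 4 * w4)
          + x2 * (4 * p.a * (m : ℤ) ^ 3 * w3)
          + x3 * (3 * (m : ℤ) ^ 2 * w2 * p.P3 μ + 4 * p.a * (m : ℤ) ^ 3 * w5)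
          + x4 * (6 * p.a * (m : ℤ) ^ 2 * w2) : ℤ) : ℝ) := by
      have hA : ∀ y : ℝ, y / 2 ^ (4001910 * e) = y * iA := fun y => by rw [hiA, mul_one_div]
      have hB : ∀ y : ℝ, y / 2 ^ (2001911 * e) = y * iB := fun y => by rw [hiB, mul_one_div]
      unfold phM
      rw [Co.P_add, Co.P1_add, Co.P2_add, hα', hβ, hκ, hA, hA, hB, hB]
      push_cast
      rw [← hJ]
      linear_combination (x1 * (p.P2 μ : ℝ) * m ^ 2 + 3 * x2 * p.P3 μ * m ^ 2) * r1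
        + (x1 * (p.P3 μ : ℝ) * m ^ 3 + 4 * p.a * x2 * m ^ 3) * r2 + x1 * (p.a : ℝ) * m ^ 4 * r3
        + (3 * x3 * (p.P3 μ : ℝ) * m ^ 2 + 6 * p.a * x4 * m ^ 2) * r4 + 4 * (p.a : ℝ) * x3 * m ^ 3 * r5
    rw [e1, C3.ex_add_int, C3.ex_add]
  rw [Finset.sum_congr rfl fun m _ => key m, ← Finset.mul_sum, norm_mul, C3.norm_ex, one_mul]
  have hq := C3.quad_weyl α β (1 / 2 ^ (200000 * e)) (by positivity) (2 ^ (400000 * e)) v1 v2 (by omega)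
  have hfil : ((Ico 1 (2 ^ (400000 * e))).filter fun t : ℕ => di (2 * t * α) < 1 / 2 ^ (200000 * e)).card
      ≤ 2 ^ (350000 * e) := by
    refine le_trans (le_of_eq ?_) hcard
    congr 1
    apply Finset.filter_congr
    intro t _
    rw [hα, ← mul_div_assoc]
  have hfil' : (((Ico 1 (2 ^ (400000 * e))).filter fun t : ℕ =>
      di (2 * t * α) < 1 / 2 ^ (200000 * e)).card : ℝ) ≤ 2 ^ (350000 * e) := by
    exact_mod_cast hfil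
  have hV : (((2 : ℕ) ^ (400000 * e) : ℕ) : ℝ) = 2 ^ (400000 * e) := by
    rw [Nat.cast_pow, Nat.cast_ofNat]
  rw [hV] at hq
  have hm : ∀ {i j : ℕ}, i ≤ j → (2 : ℝ) ^ i ≤ 2 ^ j := fun h => pow_le_pow_right₀ (by norm_num) h
  have t1 : (2 : ℝ) ^ (400000 * e) ≤ 2 ^ (750000 * e) := hm (by omega)
  have t2 : 2 * (2 : ℝ) ^ (400000 * e) * (((Ico 1 (2 ^ (400000 * e))).filter fun t : ℕ =>
      di (2 * t * α) < 1 / 2 ^ (200000 * e)).card : ℝ) ≤ 2 * 2 ^ (750000 * e) := by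
    calc 2 * (2 : ℝ) ^ (400000 * e) * (((Ico 1 (2 ^ (400000 * e))).filter fun t : ℕ =>
        di (2 * t * α) < 1 / 2 ^ (200000 * e)).card : ℝ)
        ≤ 2 * (2 : ℝ) ^ (400000 * e) * 2 ^ (350000 * e) :=
          mul_le_mul_of_nonneg_left hfil' (by positivity)
      _ = 2 * 2 ^ (750000 * e) := by
          rw [mul_assoc, ← pow_add]
          congr 2
          ring
  have t3 : (2 : ℝ) ^ (400000 * e) / (1 / 2 ^ (200000 * e)) ≤ 2 ^ (750000 * e) := by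
    rw [div_div_eq_mul_div, div_one, ← pow_add]
    exact hm (by omega)
  have t4 : 4 * (2 : ℝ) ^ (750000 * e) ≤ (2 ^ (388000 * e)) ^ 2 := by
    rw [← pow_mul]
    calc 4 * (2 : ℝ) ^ (750000 * e) = 2 ^ (2 + 750000 * e) := by
          rw [pow_add]
          norm_num
      _ ≤ 2 ^ (388000 * e * 2) := hm (by omega)
  have t5 : ‖∑ v ∈ Ico v1 v2, ex (α * v ^ 2 + β * v)‖ ^ 2 ≤ (2 ^ (388000 * e)) ^ 2 := by
    linarith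
  exact (pow_le_pow_iff_left₀ (norm_nonneg _) (by positivity) two_ne_zero).1 t5

end Pool.Agent.Lib.MP_8fac0f_nt.Q4
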