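import Pool.Agent.Lib.MP_8fac0f_nt.Q4.Defs
import Pool.Agent.Lib.MP_8fac0f_nt.C3.QW

/-!
# MW3: the Weyl sums of the class bound, linear case

Proof. `J = 1599999 e`, `nu = mu + 2 ^ J m`, `x1 = x2 = x5 = 0`. By `Co.P1_add`, `Co.P2_add` the phase is
`beta m + const +` an integer with `beta = (2 x3 P2 mu + 3 x4 P3 mu) / 2 ^ (401912 e)`
(`2001911 e - J = 401912 e`, `2 J >= 2001911 e`). `C3.lin_weyl` with `gamma = 2 ^ (-100000 e)` and `GM3`: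
`|.| <= 2 ^ (100000 e) / 2`.
-/

set_option autoImplicit false

namespace Pool.Agent.Lib.MP_8fac0f_nt.Q4

open Finset Filter Topology
open Pool.Agent.Lib.MP_8fac0f_nt.C3 (di ex)

private theorem mw3_pow (e : ℕ) : ((2 : ℝ) ^ (1599999 * e)) / 2 ^ (2001911 * e) = 1 / 2 ^ (401912 * e) ∧
    ((2 : ℝ) ^ (1599999 * e)) ^ 2 / 2 ^ (2001911 * e) = 2 ^ (1198087 * e) := by
  have h1 : (2 : ℝ) ^ (2001911 * e) = 2 ^ (401912 * e) * 2 ^ (1599999 * e) := by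
    rw [← pow_add]
    congr 1
    ring
  have h2 : ((2 : ℝ) ^ (1599999 * e)) ^ 2 = 2 ^ (1198087 * e) * 2 ^ (2001911 * e) := by
    rw [← pow_mul, ← pow_add]
    congr 1
    ring
  constructor
  · rw [h1, div_mul_cancel_right₀ (by positivity), one_div]
  · rw [h2, mul_div_assoc, div_self (by positivity), mul_one]

private theorem mw3_phase (p : Co) (ρ e μ : ℕ) (x3 x4 : ℤ) (m : ℕ) :
    phM p ρ e 0 0 x3 x4 0 (μ + 2 ^ (1599999 * e) * m) =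
      (x3 * (p.P1 μ / 2 ^ (2001911 * e)) + x4 * (p.P2 μ / 2 ^ (2001911 * e)))
      + ((2 * x3 * p.P2 μ + 3 * x4 * p.P3 μ) / 2 ^ (401912 * e) * m
      + ((2 ^ (1198087 * e) * (x3 * (3 * m ^ 2 * p.P3 μ + 4 * p.a * 2 ^ (1599999 * e) * m ^ 3)
        + x4 * (6 * p.a * m ^ 2)) : ℤ) : ℝ)) := by
  obtain ⟨e1, e2⟩ := mw3_pow e
  have hP1 : ((p.P1 (μ + 2 ^ (1599999 * e) * m) : ℕ) : ℝ) = p.P1 μ
      + 2 * ((2 : ℝ) ^ (1599999 * e) * m) * p.P2 μ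
      + 3 * ((2 : ℝ) ^ (1599999 * e) * m) ^ 2 * p.P3 μ
      + 4 * p.a * ((2 : ℝ) ^ (1599999 * e) * m) ^ 3 := by
    rw [Co.P1_add]
    push_cast
    ring
  have hP2 : ((p.P2 (μ + 2 ^ (1599999 * e) * m) : ℕ) : ℝ) = p.P2 μ
      + 3 * ((2 : ℝ) ^ (1599999 * e) * m) * p.P3 μ
      + 6 * p.a * ((2 : ℝ) ^ (1599999 * e) * m) ^ 2 := by
    rw [Co.P2_add]
    push_cast
    ring
  unfold phM
  rw [hP1, hP2]
  push_cast
  set J : ℝ := (2 : ℝ) ^ (1599999 * e) with hJ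
  set N : ℝ := (2 : ℝ) ^ (2001911 * e) with hN
  set T : ℝ := (2 : ℝ) ^ (1198087 * e) with hT
  set M : ℝ := (2 : ℝ) ^ (401912 * e) with hM
  have a1 : ((p.P1 μ : ℝ) + 2 * (J * m) * p.P2 μ + 3 * (J * m) ^ 2 * p.P3 μ + 4 * p.a * (J * m) ^ 3) / N
      = p.P1 μ / N + 2 * m * p.P2 μ * (J / N) + 3 * m ^ 2 * p.P3 μ * (J ^ 2 / N)
        + 4 * p.a * m ^ 3 * J * (J ^ 2 / N) := by
    ring
  have a2 : ((p.P2 μ : ℝ) + 3 * (J * m) * p.P3 μ + 6 * p.a * (J * m) ^ 2) / N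
      = p.P2 μ / N + 3 * m * p.P3 μ * (J / N) + 6 * p.a * m ^ 2 * (J ^ 2 / N) := by
    ring
  rw [a1, a2, e1, e2]
  ring

theorem mw3 (p : Co) (c ρ : ℕ) : ∀ᶠ e : ℕ in atTop, ∀ μ : ℕ, GM3 p c e μ →
    ∀ x3 x4 : ℤ, (x3 ≠ 0 ∨ x4 ≠ 0) → |x3| < 2 ^ (1913 * e + c) →
      |x4| < 2 ^ (2863 * e + c) → ∀ v1 v2 : ℕ,
      ‖∑ m ∈ Ico v1 v2, ex (phM p ρ e 0 0 x3 x4 0 (μ + 2 ^ (1599999 * e) * m))‖
        ≤ 2 ^ (388000 * e) := by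
  refine Eventually.of_forall ?_
  intro e μ hG x3 x4 hx h3 h4 v1 v2
  have hd := hG x3 x4 hx h3 h4
  have hl := C3.lin_weyl ((2 * x3 * p.P2 μ + 3 * x4 * p.P3 μ) / 2 ^ (401912 * e))
    (1 / 2 ^ (100000 * e)) (by positivity) hd v1 v2
  have hs : ∑ m ∈ Ico v1 v2, ex (phM p ρ e 0 0 x3 x4 0 (μ + 2 ^ (1599999 * e) * m)) =
      ex (x3 * (p.P1 μ / 2 ^ (2001911 * e)) + x4 * (p.P2 μ / 2 ^ (2001911 * e))) *
        ∑ m ∈ Ico v1 v2, ex ((2 * x3 * p.P2 μ + 3 * x4 * p.P3 μ) / 2 ^ (401912 * e) * m) := by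
    rw [Finset.mul_sum]
    apply Finset.sum_congr rfl
    intro m _
    rw [mw3_phase, C3.ex_add, C3.ex_add_int]
  rw [hs, norm_mul, C3.norm_ex, one_mul]
  refine hl.trans ?_
  have h5 : (1 : ℝ) / (2 * (1 / 2 ^ (100000 * e))) = 2 ^ (100000 * e) / 2 := by
    field_simp
  rw [h5]
  have h6 : (2 : ℝ) ^ (100000 * e) ≤ 2 ^ (388000 * e) :=
    pow_le_pow_right₀ (by norm_num) (by omega)
  have h7 : (0 : ℝ) < 2 ^ (100000 * e) := by positivity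
  linarith

end Pool.Agent.Lib.MP_8fac0f_nt.Q4
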