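import Pool.Agent.Lib.MP_8fac0f_nt.Q4.Defs
import Pool.Agent.Lib.MP_8fac0f_nt.C3.Kron

/-!
# MAJ: upper bound for the number of hits of a box of digit windows

Proof. `X i = 2 ^ (b i)`, `F i (x) = kronF (X i) x / X i` (`C3.kronF_nonneg`, `C3.kronF_eq`:
`kronF X x = |sum_(a<X) ex (a x)| ^ 2 = sum over a, a' < X of ex ((a - a') x)`).
(1) If `di x <= 1 / (2 X)` then `X ^ 2 / 4 <= kronF X x` (`X >= 1`): if `x` is an integer the sum is
`X`; otherwise `|sum| = |sin (pi X x)| / |sin (pi x)| >= 2 di(X x) / (pi di x)` and `di (X x) = X di x`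
because `X di x <= 1/2`; so `|sum| >= 2 X / pi >= X / 2`.
(Alternative without sines: with `y = x - round x`, `|y| <= 1/(2X)`, rotate by the middle: the real part of
`ex (a y) * ex (- (X-1) y / 2)` is `cos (2 pi (a - (X-1)/2) y) >= cos (pi / 2 * ...)`, the sum of the cosines
over `a` is at least `X / 2`.)
(2) If `A m i / 2 ^ s i % 2 ^ b i = t i` then with `theta = A m i / 2 ^ (s i + b i)` (real) and
`c = (t i + 1/2) / 2 ^ b i`: `di (theta - c) <= 1 / (2 * 2 ^ b i)`.
(3) So the left side (count) times `prod (X i ^ 2 / 4)` is at most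
`sum_m prod_i kronF (X i) (theta_i m - c_i) = sum over (a, a') in prod (range (X i))^2 of ex (- (a-a').c)
* sum_m ex ((a-a').theta m)`. Pairs with `a = a'`: `prod X i` of them, each contributes `|I|`; pairs with
`a <> a'` (at most `prod (X i) ^ 2`): by `h` with `xi = a - a'` each contributes at most
`|I| / prod X i`. Total at most `2 * prod X i * |I|`. Divide by `prod (X i ^ 2 / 4)`:
`count <= 2 * 4 ^ card * |I| / prod X i`.
-/

set_option autoImplicit false

namespace Pool.Agent.Lib.MP_8fac0f_nt.Q4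

open Finset Filter Topology
open Pool.Agent.Lib.MP_8fac0f_nt.C3 (di ex)

private theorem maj_di_abs (y : ℝ) (h : |y| ≤ 1 / 2) : di y = |y| := by
  refine le_antisymm (C3.di_le_abs y) ?_
  obtain ⟨k, hk⟩ := C3.di_exists y
  rw [hk]
  by_cases h0 : k = 0
  · subst h0
    simp
  · have h1 : (1 : ℝ) ≤ |(k : ℝ)| := by
      rw [← Int.cast_abs]
      exact_mod_cast Int.one_le_abs h0
    have h2 : |(k : ℝ)| ≤ |y| + |y - k| := by
      have := abs_sub (y) (y - k)
      have h3 : y - (y - k) = (k : ℝ) := by ring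
      rw [h3] at this
      exact this
    linarith

private theorem maj_sub_one_le (x : ℝ) : ‖ex x - 1‖ ≤ 2 * Real.pi * |x| := by
  have h2 : ex x = Complex.exp (Complex.I * ((2 * Real.pi * x : ℝ) : ℂ)) := by
    unfold ex
    congr 1
    push_cast
    ring
  have h3 := Real.norm_exp_I_mul_ofReal_sub_one_le (x := 2 * Real.pi * x)
  rw [← h2, Real.norm_eq_abs, abs_mul, abs_mul, abs_two, abs_of_pos Real.pi_pos] at h3
  exact h3

private theorem maj_low (X : ℕ) (x : ℝ) (h : 2 * X * di x ≤ 1) :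
    (X : ℝ) ^ 2 ≤ 4 * C3.kronF X x := by
  have h1 : ex x = ex (x - round x) := by
    have := C3.ex_add_int (x - round x) (round x)
    rw [sub_add_cancel] at this
    exact this
  have hdi : di x = |x - round x| := rfl
  rw [hdi] at h
  have hX0 : (0 : ℝ) ≤ X := Nat.cast_nonneg X
  have key : (X : ℝ) / 2 ≤ ‖∑ i ∈ range X, ex (i * x)‖ := by
    have h2 : ∑ i ∈ range X, ex (i * x) = ∑ i ∈ range X, ex (x - round x) ^ i :=
      Finset.sum_congr rfl fun i _ => by rw [C3.kron_ex_nat_mul, h1]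
    rw [h2]
    generalize x - round x = y at h
    by_cases hy : y = 0
    · subst hy
      rw [C3.ex_zero]
      simp only [one_pow, sum_const, card_range, nsmul_eq_mul, mul_one]
      rw [Complex.norm_natCast]
      linarith
    · rcases Nat.eq_zero_or_pos X with hX | hX
      · subst hX
        simp
      have hX1 : (1 : ℝ) ≤ X := by exact_mod_cast hX
      have hya : 0 < |y| := abs_pos.2 hy
      have hy2 : |y| ≤ 1 / 2 := by nlinarith
      have h4 := C3.kron_ex_sub_one y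
      rw [maj_di_abs y hy2] at h4
      have hne : ex y ≠ 1 := by
        intro h0
        rw [h0, sub_self, norm_zero] at h4
        linarith
      have h5 := C3.kron_ex_sub_one (X * y)
      have h6 : |(X : ℝ) * y| = X * |y| := by rw [abs_mul, abs_of_nonneg hX0]
      rw [maj_di_abs (X * y) (by rw [h6]; linarith), h6, C3.kron_ex_nat_mul] at h5
      have h7 := maj_sub_one_le y
      rw [geom_sum_eq hne, norm_div, le_div_iff₀ (by linarith)]
      have h8 := Real.pi_le_four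
      have h9 : (X : ℝ) / 2 * ‖ex y - 1‖ ≤ X / 2 * (2 * Real.pi * |y|) :=
        mul_le_mul_of_nonneg_left h7 (by linarith)
      have h10 : (X : ℝ) / 2 * (2 * Real.pi * |y|) ≤ X / 2 * (2 * 4 * |y|) := by
        have : Real.pi * (X * |y|) ≤ 4 * (X * |y|) :=
          mul_le_mul_of_nonneg_right h8 (by positivity)
        nlinarith
      linarith
  unfold C3.kronF
  nlinarith

private theorem maj_dig (s b N t : ℕ) (h : N / 2 ^ s % 2 ^ b = t) :
    2 * ((2 ^ b : ℕ) : ℝ) * di ((N : ℝ) / 2 ^ (s + b) - ((t : ℝ) + 1 / 2) / 2 ^ b) ≤ 1 := by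
  obtain ⟨q, r, hr, hN⟩ : ∃ q r : ℕ, r < 2 ^ s ∧ N = 2 ^ s * (2 ^ b * q + t) + r := by
    refine ⟨N / 2 ^ s / 2 ^ b, N % 2 ^ s, Nat.mod_lt _ (by positivity), ?_⟩
    have h1 := Nat.div_add_mod (N / 2 ^ s) (2 ^ b)
    rw [h] at h1
    rw [h1]
    exact (Nat.div_add_mod N (2 ^ s)).symm
  have hs : (0 : ℝ) < 2 ^ s := by positivity
  have hb : (0 : ℝ) < 2 ^ b := by positivity
  have h2 : (N : ℝ) / 2 ^ (s + b) - ((t : ℝ) + 1 / 2) / 2 ^ b - ((q : ℤ) : ℝ)
      = ((r : ℝ) / 2 ^ s - 1 / 2) / 2 ^ b := by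
    rw [hN, pow_add]
    push_cast
    field_simp
    ring
  have h3 := C3.di_le ((N : ℝ) / 2 ^ (s + b) - ((t : ℝ) + 1 / 2) / 2 ^ b) (q : ℤ)
  rw [h2, abs_div, abs_of_pos hb] at h3
  have hr0 : (0 : ℝ) ≤ (r : ℝ) / 2 ^ s := by positivity
  have hr1 : (r : ℝ) / 2 ^ s ≤ 1 := by
    rw [div_le_one hs]
    exact_mod_cast hr.le
  have h4 : |(r : ℝ) / 2 ^ s - 1 / 2| ≤ 1 / 2 := by
    rw [abs_le]
    constructor <;> linarith
  push_cast
  have h5 : di ((N : ℝ) / 2 ^ (s + b) - ((t : ℝ) + 1 / 2) / 2 ^ b) ≤ (1 / 2) / 2 ^ b :=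
    h3.trans (by gcongr)
  calc 2 * (2 : ℝ) ^ b * di ((N : ℝ) / 2 ^ (s + b) - ((t : ℝ) + 1 / 2) / 2 ^ b)
      ≤ 2 * (2 : ℝ) ^ b * ((1 / 2) / 2 ^ b) := mul_le_mul_of_nonneg_left h5 (by positivity)
    _ = 1 := by field_simp

private theorem maj_ex_sum {ι : Type} (S : Finset ι) (f : ι → ℝ) :
    ∏ i ∈ S, ex (f i) = ex (∑ i ∈ S, f i) := by
  classical
  induction S using Finset.induction_on with
  | empty => simp [C3.ex_zero]
  | insert a S ha ih => rw [prod_insert ha, sum_insert ha, C3.ex_add, ih]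

private theorem maj_card_diag {ι : Type} [Fintype ι] [DecidableEq ι] (X : ι → ℕ) :
    ((Fintype.piFinset fun i => range (X i) ×ˢ range (X i)).filter
      fun p : ι → ℕ × ℕ => ∀ i, (p i).1 = (p i).2).card = ∏ i, X i := by
  have h1 : ((Fintype.piFinset fun i => range (X i) ×ˢ range (X i)).filter
      fun p : ι → ℕ × ℕ => ∀ i, (p i).1 = (p i).2)
      = Fintype.piFinset fun i => (range (X i) ×ˢ range (X i)).filter
        fun p : ℕ × ℕ => p.1 = p.2 := by
    ext p
    simp only [mem_filter, Fintype.mem_piFinset]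
    constructor
    · rintro ⟨h1, h2⟩ i
      exact ⟨h1 i, h2 i⟩
    · intro h
      exact ⟨fun i => (h i).1, fun i => (h i).2⟩
  rw [h1, Fintype.card_piFinset]
  exact Finset.prod_congr rfl fun i _ => C3.kron_card_diag (X i)

/-- The upper bound for the sum of the products of kernels. -/
private theorem maj_sum {ι : Type} [Fintype ι] [DecidableEq ι] (X : ι → ℕ) (hX : ∀ i, 1 ≤ X i)
    (θ : ℕ → ι → ℝ) (c : ι → ℝ) (I : Finset ℕ)
    (h : ∀ ξ : ι → ℤ, ξ ≠ 0 → (∀ i, |ξ i| < X i) →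
      ‖∑ m ∈ I, ex (∑ i, (ξ i : ℝ) * θ m i)‖ * ∏ i, (X i : ℝ) ≤ I.card) :
    ∑ m ∈ I, ∏ i, C3.kronF (X i) (θ m i - c i) ≤ 2 * (∏ i, (X i : ℝ)) * I.card := by
  set Pr : Finset (ι → ℕ × ℕ) := Fintype.piFinset fun i => range (X i) ×ˢ range (X i) with hPr
  have hP0 : (0 : ℝ) < ∏ i, (X i : ℝ) := by
    refine Finset.prod_pos fun i _ => ?_
    have := hX i
    positivity
  have h1 : ((∑ m ∈ I, ∏ i, C3.kronF (X i) (θ m i - c i) : ℝ) : ℂ)
      = ∑ p ∈ Pr, ∑ m ∈ I, ex (∑ i, (((p i).1 : ℝ) - (p i).2) * (θ m i - c i)) := by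
    rw [Complex.ofReal_sum, Finset.sum_comm]
    refine Finset.sum_congr rfl fun m _ => ?_
    rw [Complex.ofReal_prod]
    have h2 : ∏ i, ((C3.kronF (X i) (θ m i - c i) : ℝ) : ℂ)
        = ∏ i, ∑ p ∈ range (X i) ×ˢ range (X i), ex (((p.1 : ℝ) - p.2) * (θ m i - c i)) :=
      Finset.prod_congr rfl fun i _ => C3.kronF_eq _ _
    rw [h2, Finset.prod_univ_sum]
    refine Finset.sum_congr rfl fun p _ => ?_
    exact maj_ex_sum Finset.univ fun i => (((p i).1 : ℝ) - (p i).2) * (θ m i - c i)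
  have h2 : ∀ p ∈ Pr, ‖∑ m ∈ I, ex (∑ i, (((p i).1 : ℝ) - (p i).2) * (θ m i - c i))‖
      ≤ (if ∀ i, (p i).1 = (p i).2 then (I.card : ℝ) else 0) + I.card / ∏ i, (X i : ℝ) := by
    intro p hp
    rw [hPr, Fintype.mem_piFinset] at hp
    split_ifs with hd
    · have h3 : (0 : ℝ) ≤ I.card / ∏ i, (X i : ℝ) := by positivity
      refine (norm_sum_le _ _).trans ?_
      simp only [C3.norm_ex]
      rw [sum_const, nsmul_eq_mul, mul_one]
      linarith
    · rw [zero_add]
      have hne : (fun i => ((p i).1 : ℤ) - (p i).2) ≠ 0 := by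
        intro h0
        refine hd fun i => ?_
        have := congrFun h0 i
        simp only [Pi.zero_apply] at this
        omega
      have h3 := h (fun i => ((p i).1 : ℤ) - (p i).2) hne (fun i => by
        have := hp i
        rw [mem_product, mem_range, mem_range] at this
        rw [abs_lt]
        omega)
      rw [le_div_iff₀ hP0]
      refine le_trans (le_of_eq ?_) h3
      congr 1
      have h4 : ∑ m ∈ I, ex (∑ i, (((p i).1 : ℝ) - (p i).2) * (θ m i - c i))
          = (∑ m ∈ I, ex (∑ i, ((((p i).1 : ℤ) - (p i).2 : ℤ) : ℝ) * θ m i))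
            * ex (-∑ i, (((p i).1 : ℝ) - (p i).2) * c i) := by
        rw [Finset.sum_mul]
        refine Finset.sum_congr rfl fun m _ => ?_
        rw [← C3.ex_add]
        congr 1
        rw [← Finset.sum_neg_distrib, ← Finset.sum_add_distrib]
        refine Finset.sum_congr rfl fun i _ => ?_
        push_cast
        ring
      rw [h4, norm_mul, C3.norm_ex, mul_one]
  have h3 : ∑ m ∈ I, ∏ i, C3.kronF (X i) (θ m i - c i)
      ≤ ‖((∑ m ∈ I, ∏ i, C3.kronF (X i) (θ m i - c i) : ℝ) : ℂ)‖ := by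
    rw [Complex.norm_real]
    exact le_abs_self _
  refine h3.trans ?_
  rw [h1]
  refine (norm_sum_le _ _).trans ((Finset.sum_le_sum h2).trans ?_)
  rw [Finset.sum_add_distrib, ← Finset.sum_filter, Finset.sum_const, Finset.sum_const, hPr,
    maj_card_diag, Fintype.card_piFinset]
  simp only [nsmul_eq_mul, card_product, card_range]
  push_cast
  rw [Finset.prod_mul_distrib]
  have h4 : (∏ i, (X i : ℝ)) * (∏ i, (X i : ℝ)) * (I.card / ∏ i, (X i : ℝ))
      = (∏ i, (X i : ℝ)) * I.card := by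
    field_simp
  rw [h4]
  linarith

theorem maj {ι : Type} [Fintype ι] [DecidableEq ι] (b s : ι → ℕ) (A : ℕ → ι → ℕ) (I : Finset ℕ)
    (h : ∀ ξ : ι → ℤ, ξ ≠ 0 → (∀ i, |ξ i| < 2 ^ b i) →
      ‖∑ m ∈ I, ex (∑ i, (ξ i : ℝ) * (A m i / 2 ^ (s i + b i)))‖ * ∏ i, (2 : ℝ) ^ b i ≤ I.card)
    (t : ι → ℕ) :
    ((I.filter fun m => ∀ i, A m i / 2 ^ s i % 2 ^ b i = t i).card : ℝ) * ∏ i, (2 : ℝ) ^ b i
      ≤ 2 * 4 ^ Fintype.card ι * I.card := by
  have hP0 : (0 : ℝ) < ∏ i, (2 : ℝ) ^ b i := by positivity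
  have h1 := maj_sum (fun i => 2 ^ b i) (fun i => Nat.one_le_two_pow)
    (fun m i => (A m i : ℝ) / 2 ^ (s i + b i)) (fun i => ((t i : ℝ) + 1 / 2) / 2 ^ b i) I
    (fun ξ hξ hb => by
      have h2 := h ξ hξ (fun i => by
        have := hb i
        push_cast at this
        exact this)
      push_cast
      exact h2)
  have h2 : ∀ m ∈ I, ∀ i, 0 ≤ C3.kronF (2 ^ b i)
      ((A m i : ℝ) / 2 ^ (s i + b i) - ((t i : ℝ) + 1 / 2) / 2 ^ b i) :=
    fun m _ i => C3.kronF_nonneg _ _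
  have h3 : ∑ m ∈ I.filter (fun m => ∀ i, A m i / 2 ^ s i % 2 ^ b i = t i),
      ∏ i, (((2 : ℝ) ^ b i) ^ 2 / 4)
      ≤ ∑ m ∈ I, ∏ i, C3.kronF (2 ^ b i)
        ((A m i : ℝ) / 2 ^ (s i + b i) - ((t i : ℝ) + 1 / 2) / 2 ^ b i) := by
    refine le_trans (Finset.sum_le_sum fun m hm => ?_)
      (Finset.sum_le_sum_of_subset_of_nonneg (Finset.filter_subset _ _) fun m hm _ =>
        Finset.prod_nonneg fun i _ => h2 m hm i)
    refine Finset.prod_le_prod (fun i _ => by positivity) fun i _ => ?_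
    have h4 := maj_low (2 ^ b i) _ (maj_dig (s i) (b i) (A m i) (t i) ((mem_filter.1 hm).2 i))
    push_cast at h4
    linarith
  rw [Finset.sum_const, nsmul_eq_mul, Finset.prod_div_distrib, Finset.prod_const,
    Finset.card_univ] at h3
  have h4 := h3.trans h1
  push_cast at h4
  rw [Finset.prod_pow] at h4
  have h40 : (0 : ℝ) < 4 ^ Fintype.card ι := by positivity
  generalize (∏ i, (2 : ℝ) ^ b i) = P at h4 hP0 ⊢
  generalize (4 : ℝ) ^ Fintype.card ι = F at h4 h40 ⊢
  generalize ((I.filter fun m => ∀ i, A m i / 2 ^ s i % 2 ^ b i = t i).card : ℝ) = C at h4 ⊢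
  have h5 : C * (P ^ 2 / F) * (F / P) ≤ 2 * P * I.card * (F / P) :=
    mul_le_mul_of_nonneg_right h4 (by positivity)
  have h6 : C * (P ^ 2 / F) * (F / P) = C * P := by
    field_simp
  have h7 : 2 * P * I.card * (F / P) = 2 * F * I.card := by
    field_simp
  linarith

end Pool.Agent.Lib.MP_8fac0f_nt.Q4
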