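import Pool.Agent.Lib.MP_8fac0f_nt.Q4.Defs
import Pool.Agent.Lib.MP_8fac0f_nt.Q4.Maj
import Pool.Agent.Lib.MP_8fac0f_nt.Q4.GMC1
import Pool.Agent.Lib.MP_8fac0f_nt.Q4.GMC2
import Pool.Agent.Lib.MP_8fac0f_nt.Q4.GMC3
import Pool.Agent.Lib.MP_8fac0f_nt.Q4.MW1
import Pool.Agent.Lib.MP_8fac0f_nt.Q4.MW2
import Pool.Agent.Lib.MP_8fac0f_nt.Q4.MW3

/-!
# CLB: the class bound

Proof. `J = 1599999 e`, `kappa = (k1, .., k6)`. Write `nu = mu + 2 ^ J m`, `mu < 2 ^ J`, `m < 2 ^ (400000 e)`.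
`nu % 2 ^ (1912 e) = mu % 2 ^ (1912 e)` and `nu / 2 ^ (1998089 e) = m / 2 ^ (398090 e)`, so `mu = k1` modulo
`2 ^ (1912 e)` and `m` lies in the interval `I = [k2 2 ^ (398090 e), (k2 + 1) 2 ^ (398090 e))` (if
`k2 < 2 ^ (1910 e)`, otherwise there is nothing to count). `bad` = union of the three exceptional sets
(`gmc1`, `gmc2`, `gmc3`): at most `3 * 2 ^ (1554999 e)` numbers `mu`.
For `mu` not bad: `maj` with `iota = Fin 5`, `b = (1912 e + c, 2862 e + c, 1913 e + c, 2863 e + c, lam + rho)`,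
`s = (3999998 e - c, 3999048 e - c, 1999998 e - c, 1999048 e - c, 6000000 e - lam)`,
`A m = (P nu, P1 nu, P1 nu, P2 nu, P nu)`, so `s + b = (4001910 e, 4001910 e, 2001911 e, 2001911 e,
6000000 e + rho)` and the sum over `i` is `phM`; its hypothesis: `mw1`, `mw2`, `mw3` give `<= 2 ^ (388000 e)` and
`388000 e + 9550 e + 4 c + lam + rho <= 398090 e`. So the number of `m` in `I` with the five windows prescribed
is at most `2 * 4 ^ 5 * 2 ^ (398090 e) / 2 ^ (9550 e + 4 c + lam + rho)`. The number of `mu < 2 ^ J` with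
`mu = k1` modulo `2 ^ (1912 e)` is at most `2 ^ (J - 1912 e)`. Bad `mu` contribute at most
`3 * 2 ^ (1554999 e) * 2 ^ (398090 e)`, which is smaller than
`2 ^ (J - 1912 e) 2 ^ (398090 e) / 2 ^ (9550 e + 4 c + lam + rho)`
(`1554999 < 1599999 - 1912 - 9550`, large `e`). Total `<= (2 * 4 ^ 5 + 1) * 2 ^ (J - 1912 e + 398090 e)
/ 2 ^ (9550 e + 4 c + lam + rho)`, and `J + 398090 e - 1912 e - 9550 e = 1999999 e - 13372 e`.
-/

set_option autoImplicit false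

namespace Pool.Agent.Lib.MP_8fac0f_nt.Q4

open Finset Filter Topology
open Pool.Agent.Lib.MP_8fac0f_nt.C3 (di ex)

/-- the values at the point `μ + 2 ^ J m` -/
private def clbA (p : Co) (e μ m : ℕ) : Fin 5 → ℕ :=
  ![p.P (μ + 2 ^ (1599999 * e) * m), p.P1 (μ + 2 ^ (1599999 * e) * m), p.P1 (μ + 2 ^ (1599999 * e) * m),
    p.P2 (μ + 2 ^ (1599999 * e) * m), p.P (μ + 2 ^ (1599999 * e) * m)]

private def clbb (c lam ρ e : ℕ) : Fin 5 → ℕ :=
  ![1912 * e + c, 2862 * e + c, 1913 * e + c, 2863 * e + c, lam + ρ]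

private def clbs (c lam e : ℕ) : Fin 5 → ℕ :=
  ![3999998 * e - c, 3999048 * e - c, 1999998 * e - c, 1999048 * e - c, 6000000 * e - lam]

private def clbt (κ : ℕ × ℕ × ℕ × ℕ × ℕ × ℕ) (t : ℕ) : Fin 5 → ℕ :=
  ![κ.2.2.1, κ.2.2.2.1, κ.2.2.2.2.1, κ.2.2.2.2.2, t]

private theorem clb_phase (p : Co) {c lam ρ e : ℕ} (hc : c ≤ e) (hl : lam ≤ e) (μ m : ℕ) (ξ : Fin 5 → ℤ) :
    ∑ i, (ξ i : ℝ) * (clbA p e μ m i / 2 ^ (clbs c lam e i + clbb c lam ρ e i)) =
      phM p ρ e (ξ 0) (ξ 1) (ξ 2) (ξ 3) (ξ 4) (μ + 2 ^ (1599999 * e) * m) := by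
  have h0 : clbs c lam e 0 + clbb c lam ρ e 0 = 4001910 * e := by
    show 3999998 * e - c + (1912 * e + c) = 4001910 * e
    omega
  have h1 : clbs c lam e 1 + clbb c lam ρ e 1 = 4001910 * e := by
    show 3999048 * e - c + (2862 * e + c) = 4001910 * e
    omega
  have h2 : clbs c lam e 2 + clbb c lam ρ e 2 = 2001911 * e := by
    show 1999998 * e - c + (1913 * e + c) = 2001911 * e
    omega
  have h3 : clbs c lam e 3 + clbb c lam ρ e 3 = 2001911 * e := by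
    show 1999048 * e - c + (2863 * e + c) = 2001911 * e
    omega
  have h4 : clbs c lam e 4 + clbb c lam ρ e 4 = 6000000 * e + ρ := by
    show 6000000 * e - lam + (lam + ρ) = 6000000 * e + ρ
    omega
  rw [Fin.sum_univ_five, h0, h1, h2, h3, h4]
  rfl

private theorem clb_prod (c lam ρ e : ℕ) :
    ∏ i, (2 : ℝ) ^ clbb c lam ρ e i = 2 ^ (9550 * e + 4 * c + (lam + ρ)) := by
  rw [Fin.prod_univ_five, ← pow_add, ← pow_add, ← pow_add, ← pow_add]
  congr 1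
  show 1912 * e + c + (2862 * e + c) + (1913 * e + c) + (2863 * e + c) + (lam + ρ) = 9550 * e + 4 * c + (lam + ρ)
  omega

private theorem clb_dec {I : Finset ℕ} {q : ℕ → Prop} {X Y : ℕ} (d1 d2 : DecidablePred q)
    (h : (@Finset.filter ℕ q d1 I).card * X ≤ Y) : (@Finset.filter ℕ q d2 I).card * X ≤ Y := by
  have e : d2 = d1 := Subsingleton.elim _ _
  rw [e]
  exact h

/-- a good `μ` -/
private theorem clb_good (p : Co) {c lam ρ e : ℕ} (he : 4 * c + (lam + ρ) ≤ e) {μ : ℕ}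
    (k1 : ∀ x1 x2 x3 x4 x5 : ℤ, x5 ≠ 0 → |x5| < 2 ^ (lam + ρ) → ∀ v1 v2 : ℕ, v2 ≤ 2 ^ (400000 * e) →
      ‖∑ m ∈ Ico v1 v2, ex (phM p ρ e x1 x2 x3 x4 x5 (μ + 2 ^ (1599999 * e) * m))‖ ≤ 2 ^ (388000 * e))
    (k2 : ∀ x1 x2 x3 x4 : ℤ, (x1 ≠ 0 ∨ x2 ≠ 0) → |x1| < 2 ^ (1912 * e + c) →
      |x2| < 2 ^ (2862 * e + c) → ∀ v1 v2 : ℕ, v2 ≤ 2 ^ (400000 * e) →
      ‖∑ m ∈ Ico v1 v2, ex (phM p ρ e x1 x2 x3 x4 0 (μ + 2 ^ (1599999 * e) * m))‖ ≤ 2 ^ (388000 * e))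
    (k3 : ∀ x3 x4 : ℤ, (x3 ≠ 0 ∨ x4 ≠ 0) → |x3| < 2 ^ (1913 * e + c) → |x4| < 2 ^ (2863 * e + c) → ∀ v1 v2 : ℕ,
      ‖∑ m ∈ Ico v1 v2, ex (phM p ρ e 0 0 x3 x4 0 (μ + 2 ^ (1599999 * e) * m))‖ ≤ 2 ^ (388000 * e))
    (v1 v2 : ℕ) (hv : v2 ≤ 2 ^ (400000 * e)) (hcard : (Ico v1 v2).card = 2 ^ (398090 * e)) (t : Fin 5 → ℕ) :
    ((Ico v1 v2).filter fun m => ∀ i, clbA p e μ m i / 2 ^ clbs c lam e i % 2 ^ clbb c lam ρ e i = t i).card *
      2 ^ (9550 * e + 4 * c + (lam + ρ)) ≤ 2 * 4 ^ 5 * 2 ^ (398090 * e) := by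
  have h := maj (clbb c lam ρ e) (clbs c lam e) (clbA p e μ) (Ico v1 v2) ?_ t
  · rw [clb_prod, hcard, Fintype.card_fin] at h
    exact clb_dec _ _ (by exact_mod_cast h)
  · intro ξ hξ hb
    have hsum : ∑ m ∈ Ico v1 v2, ex (∑ i, (ξ i : ℝ) * (clbA p e μ m i / 2 ^ (clbs c lam e i + clbb c lam ρ e i))) =
        ∑ m ∈ Ico v1 v2, ex (phM p ρ e (ξ 0) (ξ 1) (ξ 2) (ξ 3) (ξ 4) (μ + 2 ^ (1599999 * e) * m)) :=
      sum_congr rfl fun m _ => by rw [clb_phase p (by omega) (by omega)]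
    rw [hsum, clb_prod, hcard]
    have hk : ‖∑ m ∈ Ico v1 v2, ex (phM p ρ e (ξ 0) (ξ 1) (ξ 2) (ξ 3) (ξ 4) (μ + 2 ^ (1599999 * e) * m))‖ ≤
        2 ^ (388000 * e) := by
      by_cases z4 : ξ 4 = 0
      · rw [z4]
        by_cases z01 : ξ 0 ≠ 0 ∨ ξ 1 ≠ 0
        · exact k2 _ _ _ _ z01 (hb 0) (hb 1) v1 v2 hv
        · rw [not_or, not_not, not_not] at z01
          rw [z01.1, z01.2]
          refine k3 _ _ ?_ (hb 2) (hb 3) v1 v2
          by_contra z23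
          rw [not_or, not_not, not_not] at z23
          apply hξ
          funext i
          fin_cases i
          · exact z01.1
          · exact z01.2
          · exact z23.1
          · exact z23.2
          · exact z4
      · exact k1 _ _ _ _ _ z4 (hb 4) v1 v2 hv
    calc _ ≤ (2 : ℝ) ^ (388000 * e) * 2 ^ (9550 * e + 4 * c + (lam + ρ)) :=
          mul_le_mul_of_nonneg_right hk (by positivity)
      _ = 2 ^ (388000 * e + (9550 * e + 4 * c + (lam + ρ))) := (pow_add _ _ _).symm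
      _ ≤ 2 ^ (398090 * e) := pow_le_pow_right₀ (by norm_num) (by omega)
      _ = ((2 ^ (398090 * e) : ℕ) : ℝ) := by push_cast; rfl

private theorem clb_R (J a r : ℕ) (h : a ≤ J) :
    ((range (2 ^ J)).filter fun μ => μ % 2 ^ a = r).card ≤ 2 ^ (J - a) := by
  have h1 : ((range (2 ^ J)).filter fun μ => μ % 2 ^ a = r).card ≤ (range (2 ^ (J - a))).card := by
    refine card_le_card_of_injOn (fun μ => μ / 2 ^ a) ?_ ?_
    · intro μ hμ
      have h2 := (mem_filter.1 (mem_coe.1 hμ)).1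
      rw [mem_range] at h2
      rw [mem_coe, mem_range, Nat.div_lt_iff_lt_mul (by positivity), ← pow_add, Nat.sub_add_cancel h]
      exact h2
    · intro μ hμ ν hν hμν
      have h2 := (mem_filter.1 (mem_coe.1 hμ)).2
      have h3 := (mem_filter.1 (mem_coe.1 hν)).2
      have e1 := Nat.mod_add_div μ (2 ^ a)
      have e2 := Nat.mod_add_div ν (2 ^ a)
      have h4 : μ / 2 ^ a = ν / 2 ^ a := hμν
      rw [← e1, ← e2, h2, h3, h4]
  rwa [card_range] at h1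

theorem clb (p : Co) (ha : 1 ≤ p.a) (c lam ρ : ℕ) : ∀ᶠ e : ℕ in atTop,
    ∀ (κ : ℕ × ℕ × ℕ × ℕ × ℕ × ℕ) (t : ℕ),
      ((range (2 ^ (1999999 * e))).filter fun ν => cl p c e ν = κ ∧
        p.P ν / 2 ^ (6000000 * e - lam) % 2 ^ (lam + ρ) = t).card
        * 2 ^ (13372 * e + 4 * c + (lam + ρ)) ≤ 4 ^ 6 * 2 ^ (1999999 * e) := by
  filter_upwards [gmc1 p ha lam ρ, gmc2 p ha c, gmc3 p ha c, mw1 p lam ρ, mw2 p c ρ, mw3 p c ρ,
    eventually_ge_atTop (4 * c + (lam + ρ) + 2)] with e g1 g2 g3 w1 w2 w3 he κ t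
  obtain ⟨bad1, b1, g1⟩ := g1
  obtain ⟨bad2, b2, g2⟩ := g2
  obtain ⟨bad3, b3, g3⟩ := g3
  set F := (range (2 ^ (1999999 * e))).filter fun ν => cl p c e ν = κ ∧
        p.P ν / 2 ^ (6000000 * e - lam) % 2 ^ (lam + ρ) = t with hF
  by_cases hk : κ.2.1 < 2 ^ (1910 * e)
  swap
  · have hF0 : F = ∅ := by
      rw [hF, filter_eq_empty_iff]
      rintro ν hν ⟨h1, -⟩
      rw [mem_range] at hν
      have h2 : ν / 2 ^ (1998089 * e) = κ.2.1 := congrArg (fun k => k.2.1) h1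
      apply hk
      rw [← h2, Nat.div_lt_iff_lt_mul (by positivity), ← pow_add, show 1910 * e + 1998089 * e = 1999999 * e by omega]
      exact hν
    rw [hF0, card_empty, zero_mul]
    exact Nat.zero_le _
  set R := (range (2 ^ (1599999 * e))).filter fun μ => μ % 2 ^ (1912 * e) = κ.1 with hR
  set v1 := κ.2.1 * 2 ^ (398090 * e) with hv1
  set v2 := (κ.2.1 + 1) * 2 ^ (398090 * e) with hv2
  have hv : v2 ≤ 2 ^ (400000 * e) := by
    have h1 : (κ.2.1 + 1) * 2 ^ (398090 * e) ≤ 2 ^ (1910 * e) * 2 ^ (398090 * e) := Nat.mul_le_mul_right _ hk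
    rw [← pow_add, show 1910 * e + 398090 * e = 400000 * e by omega] at h1
    exact h1
  have hcard : (Ico v1 v2).card = 2 ^ (398090 * e) := by
    rw [Nat.card_Ico, hv1, hv2, add_mul, one_mul, Nat.add_sub_cancel_left]
  set G : ℕ → Finset ℕ := fun μ => (Ico v1 v2).filter fun m =>
    ∀ i, clbA p e μ m i / 2 ^ clbs c lam e i % 2 ^ clbb c lam ρ e i = clbt κ t i with hG
  -- the fibres
  have hmaps : ∀ ν ∈ F, ν % 2 ^ (1599999 * e) ∈ R := by
    intro ν hν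
    have h1 := (mem_filter.1 hν).2.1
    have h2 : ν % 2 ^ (1912 * e) = κ.1 := congrArg (fun k => k.1) h1
    rw [hR, mem_filter, mem_range]
    refine ⟨Nat.mod_lt _ (by positivity), ?_⟩
    rw [Nat.mod_mod_of_dvd _ (pow_dvd_pow 2 (by omega : 1912 * e ≤ 1599999 * e))]
    exact h2
  have hfib : ∀ μ ∈ R, (F.filter fun ν => ν % 2 ^ (1599999 * e) = μ).card ≤ (G μ).card := by
    intro μ _
    refine card_le_card_of_injOn (fun ν => ν / 2 ^ (1599999 * e)) ?_ ?_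
    · intro ν hν
      obtain ⟨h0, h1⟩ := mem_filter.1 (mem_coe.1 hν)
      obtain ⟨-, h2, h3⟩ := mem_filter.1 h0
      have q1 : ν / 2 ^ (1998089 * e) = κ.2.1 := congrArg (fun k => k.2.1) h2
      have q2 : p.P ν / 2 ^ (3999998 * e - c) % 2 ^ (1912 * e + c) = κ.2.2.1 := congrArg (fun k => k.2.2.1) h2
      have q3 : p.P1 ν / 2 ^ (3999048 * e - c) % 2 ^ (2862 * e + c) = κ.2.2.2.1 := congrArg (fun k => k.2.2.2.1) h2
      have q4 : p.P1 ν / 2 ^ (1999998 * e - c) % 2 ^ (1913 * e + c) = κ.2.2.2.2.1 := congrArg (fun k => k.2.2.2.2.1) h2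
      have q5 : p.P2 ν / 2 ^ (1999048 * e - c) % 2 ^ (2863 * e + c) = κ.2.2.2.2.2 := congrArg (fun k => k.2.2.2.2.2) h2
      have hν2 : μ + 2 ^ (1599999 * e) * (ν / 2 ^ (1599999 * e)) = ν := by
        rw [← h1]
        exact Nat.mod_add_div _ _
      have q6 : ν / 2 ^ (1599999 * e) / 2 ^ (398090 * e) = κ.2.1 := by
        rw [Nat.div_div_eq_div_mul, ← pow_add, show 1599999 * e + 398090 * e = 1998089 * e by omega]
        exact q1
      rw [mem_coe, hG, mem_filter, mem_Ico]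
      refine ⟨⟨?_, ?_⟩, ?_⟩
      · rw [hv1, ← q6]
        exact Nat.div_mul_le_self _ _
      · rw [hv2, ← q6]
        have h9 := Nat.lt_mul_div_succ (ν / 2 ^ (1599999 * e)) (show 0 < 2 ^ (398090 * e) by positivity)
        rw [Nat.mul_comm (2 ^ (398090 * e))] at h9
        exact h9
      · intro i
        have hA : clbA p e μ (ν / 2 ^ (1599999 * e)) = ![p.P ν, p.P1 ν, p.P1 ν, p.P2 ν, p.P ν] := by
          unfold clbA
          rw [hν2]
        rw [hA]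
        fin_cases i
        · exact q2
        · exact q3
        · exact q4
        · exact q5
        · exact h3
    · intro ν hν ν' hν' hh
      have h1 := (mem_filter.1 (mem_coe.1 hν)).2
      have h2 := (mem_filter.1 (mem_coe.1 hν')).2
      have h3 : ν / 2 ^ (1599999 * e) = ν' / 2 ^ (1599999 * e) := hh
      rw [← Nat.mod_add_div ν (2 ^ (1599999 * e)), ← Nat.mod_add_div ν' (2 ^ (1599999 * e)), h1, h2, h3]
  have hsum : F.card ≤ ∑ μ ∈ R, (G μ).card := by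
    rw [card_eq_sum_card_fiberwise hmaps]
    exact sum_le_sum hfib
  -- good and bad
  set bad := bad1 ∪ (bad2 ∪ bad3) with hbad
  have hbadc : bad.card ≤ 3 * 2 ^ (1554999 * e) := by
    have h1 := card_union_le bad1 (bad2 ∪ bad3)
    have h2 := card_union_le bad2 bad3
    rw [← hbad] at h1
    omega
  have hRc : R.card ≤ 2 ^ (1598087 * e) := by
    have h1 := clb_R (1599999 * e) (1912 * e) κ.1 (by omega)
    rw [show 1599999 * e - 1912 * e = 1598087 * e by omega] at h1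
    exact h1
  have hgood : ∀ μ ∈ R.filter (fun μ => μ ∉ bad), (G μ).card * 2 ^ (9550 * e + 4 * c + (lam + ρ)) ≤
      2 * 4 ^ 5 * 2 ^ (398090 * e) := by
    intro μ hμ
    obtain ⟨h1, h2⟩ := mem_filter.1 hμ
    have h3 := (mem_filter.1 h1).1
    rw [mem_range] at h3
    rw [hbad, mem_union, mem_union, not_or, not_or] at h2
    exact clb_good p (by omega) (w1 μ (g1 μ h3 h2.1)) (w2 μ (g2 μ h3 h2.2.1)) (w3 μ (g3 μ h3 h2.2.2)) v1 v2 hv hcard
      (clbt κ t)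
  have hbadG : ∀ μ ∈ R.filter (fun μ => ¬ μ ∉ bad), (G μ).card ≤ 2 ^ (398090 * e) := by
    intro μ _
    rw [← hcard]
    exact card_filter_le _ _
  have hbadR : (R.filter (fun μ => ¬ μ ∉ bad)).card ≤ 3 * 2 ^ (1554999 * e) := by
    refine (card_le_card ?_).trans hbadc
    intro μ hμ
    exact not_not.1 (mem_filter.1 hμ).2
  have hsplit := sum_filter_add_sum_filter_not R (fun μ => μ ∉ bad) (fun μ => (G μ).card)
  have s1 : (∑ μ ∈ R.filter (fun μ => μ ∉ bad), (G μ).card) * 2 ^ (9550 * e + 4 * c + (lam + ρ)) ≤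
      2 ^ (1598087 * e) * (2 * 4 ^ 5 * 2 ^ (398090 * e)) := by
    rw [sum_mul]
    refine (sum_le_card_nsmul _ _ _ hgood).trans ?_
    rw [smul_eq_mul]
    exact Nat.mul_le_mul_right _ ((card_filter_le _ _).trans hRc)
  have s2 : (∑ μ ∈ R.filter (fun μ => ¬ μ ∉ bad), (G μ).card) ≤ 3 * 2 ^ (1554999 * e) * 2 ^ (398090 * e) := by
    refine (sum_le_card_nsmul _ _ _ hbadG).trans ?_
    rw [smul_eq_mul]
    exact Nat.mul_le_mul_right _ hbadR
  -- conclusion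
  obtain ⟨B, hB⟩ : ∃ B, B = 9550 * e + 4 * c + (lam + ρ) := ⟨_, rfl⟩
  rw [← hB] at s1
  have hE : 13372 * e + 4 * c + (lam + ρ) = B + 3822 * e := by omega
  have t1 : 2 ^ (1598087 * e) * (2 * 4 ^ 5 * 2 ^ (398090 * e)) = 2048 * 2 ^ (1996177 * e) := by
    rw [show 1996177 * e = 1598087 * e + 398090 * e by omega, pow_add]
    ring
  have t2 : 3 * 2 ^ (1554999 * e) * 2 ^ (398090 * e) * 2 ^ B ≤ 2 ^ (1996177 * e) := by
    calc 3 * 2 ^ (1554999 * e) * 2 ^ (398090 * e) * 2 ^ B ≤ 2 ^ 2 * 2 ^ (1554999 * e) * 2 ^ (398090 * e) * 2 ^ B := by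
          gcongr
          norm_num
      _ = 2 ^ (2 + 1554999 * e + 398090 * e + B) := by rw [← pow_add, ← pow_add, ← pow_add]
      _ ≤ 2 ^ (1996177 * e) := Nat.pow_le_pow_right (by norm_num) (by omega)
  have t3 : F.card * 2 ^ B ≤ 2049 * 2 ^ (1996177 * e) := by
    calc F.card * 2 ^ B ≤ (∑ μ ∈ R, (G μ).card) * 2 ^ B := Nat.mul_le_mul_right _ hsum
      _ = (∑ μ ∈ R.filter (fun μ => μ ∉ bad), (G μ).card) * 2 ^ B +
          (∑ μ ∈ R.filter (fun μ => ¬ μ ∉ bad), (G μ).card) * 2 ^ B := by rw [← hsplit, add_mul]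
      _ ≤ 2048 * 2 ^ (1996177 * e) + 2 ^ (1996177 * e) := by
          refine Nat.add_le_add ?_ ?_
          · rw [← t1]
            exact s1
          · exact (Nat.mul_le_mul_right _ s2).trans t2
      _ = 2049 * 2 ^ (1996177 * e) := by ring
  rw [hE, pow_add, ← mul_assoc]
  calc F.card * 2 ^ B * 2 ^ (3822 * e) ≤ 2049 * 2 ^ (1996177 * e) * 2 ^ (3822 * e) := Nat.mul_le_mul_right _ t3
    _ = 2049 * 2 ^ (1999999 * e) := by
        rw [mul_assoc, ← pow_add, show 1996177 * e + 3822 * e = 1999999 * e by omega]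
    _ ≤ 4 ^ 6 * 2 ^ (1999999 * e) := Nat.mul_le_mul_right _ (by norm_num)


theorem clb0 (p : Co) (ha : 1 ≤ p.a) (c : ℕ) : ∀ᶠ e : ℕ in atTop,
    ∀ κ : ℕ × ℕ × ℕ × ℕ × ℕ × ℕ,
      ((range (2 ^ (1999999 * e))).filter fun ν => cl p c e ν = κ).card
        * 2 ^ (13372 * e + 4 * c) ≤ 4 ^ 6 * 2 ^ (1999999 * e) := by
  filter_upwards [clb p ha c 0 0] with e he κ
  have h := he κ 0
  simpa [Nat.mod_one] using h

end Pool.Agent.Lib.MP_8fac0f_nt.Q4
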