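import Pool.Agent.Lib.MP_8fac0f_nt.Q4.Defs
import Pool.Agent.Lib.MP_8fac0f_nt.C3.Kron

/-!
# KR2: Kronecker's theorem with relations
-/

set_option autoImplicit false

namespace Pool.Agent.Lib.MP_8fac0f_nt.Q4

open Finset
open Pool.Agent.Lib.MP_8fac0f_nt.C3 (di ex)

section

variable {ι : Type} [Fintype ι] [DecidableEq ι]

private theorem kr_ex_sum (s : Finset ι) (f : ι → ℝ) : ex (∑ i ∈ s, f i) = ∏ i ∈ s, ex (f i) := by
  induction s using Finset.induction_on with
  | empty => simp [C3.ex_zero]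
  | insert a s ha ih => rw [Finset.sum_insert ha, Finset.prod_insert ha, C3.ex_add, ih]

/-- the difference vector of a family of pairs -/
private def dv (p : ι → ℕ × ℕ) (i : ι) : ℤ := ((p i).1 : ℤ) - (p i).2

private def rel (τ y : ι → ℝ) (z : ι → ℤ) : Prop :=
  (∃ n : ℤ, ∑ i, (z i : ℝ) * τ i = n) ∧ ∃ n : ℤ, ∑ i, (z i : ℝ) * y i = n

open Classical in
/-- the sum over `q` of a product of trigonometric polynomials -/
private theorem kr_main (X Q : ℕ) (η : ℝ) (τ y : ι → ℝ) (hη : 0 < η)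
    (h : ∀ z : ι → ℤ, (∀ i, |z i| ≤ X) → η ≤ di (∑ i, (z i : ℝ) * τ i) ∨ rel τ y z)
    (t : ι → Finset (ℕ × ℕ)) (ht : ∀ i, t i ⊆ range X ×ˢ range X) :
    ‖∑ q ∈ range Q, ∏ i, ∑ j ∈ t i, ex (((j.1 : ℝ) - j.2) * (((q : ℝ) + 1) * τ i - y i))
      - (Q : ℂ) * (((Fintype.piFinset t).filter fun p => rel τ y (dv p)).card : ℂ)‖
      ≤ ((Fintype.piFinset t).card : ℝ) * (1 / (2 * η)) := by
  have h1 : ∀ q : ℕ, ∏ i, ∑ j ∈ t i, ex (((j.1 : ℝ) - j.2) * (((q : ℝ) + 1) * τ i - y i))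
      = ∑ p ∈ Fintype.piFinset t, ex ((q : ℝ) * (∑ i, (dv p i : ℝ) * τ i)
        + (∑ i, (dv p i : ℝ) * τ i - ∑ i, (dv p i : ℝ) * y i)) := by
    intro q
    rw [Finset.prod_univ_sum]
    refine Finset.sum_congr rfl fun p _ => ?_
    rw [← kr_ex_sum]
    congr 1
    rw [← Finset.sum_sub_distrib, Finset.mul_sum, ← Finset.sum_add_distrib]
    refine Finset.sum_congr rfl fun i _ => ?_
    unfold dv
    push_cast
    ring
  have h2 : ∑ q ∈ range Q, ∏ i, ∑ j ∈ t i, ex (((j.1 : ℝ) - j.2) * (((q : ℝ) + 1) * τ i - y i))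
      = ∑ p ∈ Fintype.piFinset t, ∑ q ∈ range Q, ex ((q : ℝ) * (∑ i, (dv p i : ℝ) * τ i)
        + (∑ i, (dv p i : ℝ) * τ i - ∑ i, (dv p i : ℝ) * y i)) := by
    rw [Finset.sum_comm]
    exact Finset.sum_congr rfl fun q _ => h1 q
  have h3 : (Q : ℂ) * (((Fintype.piFinset t).filter fun p => rel τ y (dv p)).card : ℂ)
      = ∑ p ∈ Fintype.piFinset t, if rel τ y (dv p) then (Q : ℂ) else 0 := by
    rw [← Finset.sum_filter, Finset.sum_const, nsmul_eq_mul, mul_comm]
  rw [h2, h3, ← Finset.sum_sub_distrib]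
  refine (norm_sum_le _ _).trans ?_
  rw [← nsmul_eq_mul, ← Finset.sum_const]
  refine Finset.sum_le_sum fun p hp => ?_
  have hpos : (0 : ℝ) < 1 / (2 * η) := by positivity
  split_ifs with hr
  · obtain ⟨⟨n, hn⟩, n', hn'⟩ := hr
    rw [hn, hn']
    have h4 : ∀ q : ℕ, ex ((q : ℝ) * (n : ℝ) + ((n : ℝ) - (n' : ℝ))) = 1 := by
      intro q
      have h5 := C3.ex_add_int 0 ((q : ℤ) * n + (n - n'))
      rw [zero_add, C3.ex_zero] at h5
      rw [← h5]
      congr 1
      push_cast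
      ring
    rw [Finset.sum_congr rfl fun q _ => h4 q]
    simp only [Finset.sum_const, card_range, nsmul_eq_mul, mul_one, sub_self, norm_zero]
    exact hpos.le
  · rw [sub_zero]
    have hz : ∀ i, |dv p i| ≤ X := by
      intro i
      have h5 := ht i (Fintype.mem_piFinset.1 hp i)
      rw [mem_product, mem_range, mem_range] at h5
      unfold dv
      rw [abs_le]
      omega
    rcases h (dv p) hz with h6 | h6
    · exact C3.kron_geom _ _ η hη h6 Q
    · exact absurd h6 hr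

/-- Kronecker's theorem with relations -/
theorem kr2 (X Q : ℕ) (δ η : ℝ) (τ y : ι → ℝ) (hδ : 0 < δ) (hη : 0 < η)
    (hX : (Fintype.card ι : ℝ) ≤ X * δ ^ 2) (hQ : 2 * (X : ℝ) ^ Fintype.card ι ≤ η * Q)
    (h : ∀ z : ι → ℤ, (∀ i, |z i| ≤ X) → η ≤ di (∑ i, (z i : ℝ) * τ i) ∨
      ((∃ n : ℤ, ∑ i, (z i : ℝ) * τ i = n) ∧ ∃ n : ℤ, ∑ i, (z i : ℝ) * y i = n)) :
    ∃ q : ℕ, 1 ≤ q ∧ q ≤ Q ∧ ∀ i, di (q * τ i - y i) ≤ δ := by
  classical
  rcases isEmpty_or_nonempty ι with hemp | hne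
  · refine ⟨1, le_rfl, ?_, fun i => (hemp.false i).elim⟩
    by_contra h0
    have h1 : Q = 0 := by omega
    rw [h1] at hQ
    simp at hQ
    linarith
  by_contra hcon
  push Not at hcon
  have hδ2 : (0 : ℝ) < δ ^ 2 := by positivity
  have hs1 : (1 : ℝ) ≤ Fintype.card ι := by exact_mod_cast Fintype.card_pos
  have hX0 : (0 : ℝ) < X := by
    by_contra h0
    have : (X : ℝ) * δ ^ 2 ≤ 0 := mul_nonpos_of_nonpos_of_nonneg (not_lt.1 h0) hδ2.le
    linarith
  have hX1 : (1 : ℝ) ≤ X := by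
    have : 0 < X := by exact_mod_cast hX0
    exact_mod_cast this
  set s := Fintype.card ι with hs
  set T : ι → Finset (ℕ × ℕ) := fun _ => range X ×ˢ range X with hT
  set R : ℝ := (((Fintype.piFinset T).filter fun p => rel τ y (dv p)).card : ℝ) with hR
  -- the full product
  have hcardT : ((Fintype.piFinset T).card : ℝ) = (X : ℝ) ^ (2 * s) := by
    rw [Fintype.card_piFinset]
    simp only [hT, card_product, card_range, Finset.prod_const, Finset.card_univ]
    push_cast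
    rw [← hs, pow_mul]
    congr 1
    ring
  have hfull : ∀ q : ℕ, ((∏ i, C3.kronF X (((q : ℝ) + 1) * τ i - y i) : ℝ) : ℂ)
      = ∏ i, ∑ j ∈ T i, ex (((j.1 : ℝ) - j.2) * (((q : ℝ) + 1) * τ i - y i)) := by
    intro q
    rw [Complex.ofReal_prod]
    exact Finset.prod_congr rfl fun i _ => C3.kronF_eq _ _
  have hA : (Q : ℝ) * R - (X : ℝ) ^ (2 * s) * (1 / (2 * η))
      ≤ ∑ q ∈ range Q, ∏ i, C3.kronF X (((q : ℝ) + 1) * τ i - y i) := by
    have h1 := kr_main X Q η τ y hη h T fun i => subset_rfl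
    rw [hcardT, ← Finset.sum_congr rfl fun q _ => hfull q] at h1
    have h2 : (∑ q ∈ range Q, ((∏ i, C3.kronF X (((q : ℝ) + 1) * τ i - y i) : ℝ) : ℂ)
        - (Q : ℂ) * (((Fintype.piFinset T).filter fun p => rel τ y (dv p)).card : ℂ))
        = ((∑ q ∈ range Q, ∏ i, C3.kronF X (((q : ℝ) + 1) * τ i - y i) - Q * R : ℝ) : ℂ) := by
      rw [hR]
      push_cast
      rfl
    rw [h2, Complex.norm_real, Real.norm_eq_abs, abs_le] at h1
    linarith [h1.1]
  -- the products without one factor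
  have hcardD : ((range X ×ˢ range X).filter fun j : ℕ × ℕ => j.1 = j.2).card = X := C3.kron_card_diag X
  have hB : ∀ i0 : ι, (X : ℝ) * ∑ q ∈ range Q, ∏ i ∈ univ.erase i0, C3.kronF X (((q : ℝ) + 1) * τ i - y i)
      ≤ (Q : ℝ) * R + (X : ℝ) ^ (2 * s) * (1 / (2 * η)) := by
    intro i0
    set t : ι → Finset (ℕ × ℕ) := Function.update T i0 ((range X ×ˢ range X).filter fun j : ℕ × ℕ => j.1 = j.2)
      with ht
    have hsub : ∀ i, t i ⊆ T i := by
      intro i
      by_cases hi : i = i0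
      · subst hi
        rw [ht, Function.update_self]
        exact Finset.filter_subset _ _
      · rw [ht, Function.update_of_ne hi]
    have h1 := kr_main X Q η τ y hη h t hsub
    have h3 : ∀ q : ℕ, (((X : ℝ) * ∏ i ∈ univ.erase i0, C3.kronF X (((q : ℝ) + 1) * τ i - y i) : ℝ) : ℂ)
        = ∏ i, ∑ j ∈ t i, ex (((j.1 : ℝ) - j.2) * (((q : ℝ) + 1) * τ i - y i)) := by
      intro q
      rw [← Finset.mul_prod_erase univ _ (Finset.mem_univ i0)]
      push_cast
      congr 1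
      · rw [ht, Function.update_self]
        have h4 : ∀ j ∈ (range X ×ˢ range X).filter fun j : ℕ × ℕ => j.1 = j.2,
            ex (((j.1 : ℝ) - j.2) * (((q : ℝ) + 1) * τ i0 - y i0)) = 1 := by
          intro j hj
          rw [(mem_filter.1 hj).2, sub_self, zero_mul, C3.ex_zero]
        rw [Finset.sum_congr rfl h4, Finset.sum_const, hcardD, nsmul_eq_mul, mul_one]
      · refine Finset.prod_congr rfl fun i hi => ?_
        rw [ht, Function.update_of_ne (Finset.ne_of_mem_erase hi)]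
        exact C3.kronF_eq _ _
    rw [← Finset.sum_congr rfl fun q _ => h3 q] at h1
    have hle1 : ((Fintype.piFinset t).card : ℝ) ≤ (X : ℝ) ^ (2 * s) := by
      rw [← hcardT]
      exact_mod_cast Finset.card_le_card (Fintype.piFinset_subset _ _ hsub)
    have hle2 : (((Fintype.piFinset t).filter fun p => rel τ y (dv p)).card : ℝ) ≤ R := by
      rw [hR]
      exact_mod_cast Finset.card_le_card (Finset.filter_subset_filter _ (Fintype.piFinset_subset _ _ hsub))
    have h2 : (∑ q ∈ range Q, (((X : ℝ) * ∏ i ∈ univ.erase i0, C3.kronF X (((q : ℝ) + 1) * τ i - y i) : ℝ) : ℂ)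
        - (Q : ℂ) * (((Fintype.piFinset t).filter fun p => rel τ y (dv p)).card : ℂ))
        = ((∑ q ∈ range Q, ((X : ℝ) * ∏ i ∈ univ.erase i0, C3.kronF X (((q : ℝ) + 1) * τ i - y i))
          - Q * (((Fintype.piFinset t).filter fun p => rel τ y (dv p)).card : ℝ) : ℝ) : ℂ) := by
      push_cast
      rfl
    rw [h2, Complex.norm_real, Real.norm_eq_abs, abs_le] at h1
    have hpos : (0 : ℝ) < 1 / (2 * η) := by positivity
    have h5 := h1.2
    have h6 : ((Fintype.piFinset t).card : ℝ) * (1 / (2 * η)) ≤ (X : ℝ) ^ (2 * s) * (1 / (2 * η)) :=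
      mul_le_mul_of_nonneg_right hle1 hpos.le
    have h7 : (Q : ℝ) * (((Fintype.piFinset t).filter fun p => rel τ y (dv p)).card : ℝ) ≤ Q * R :=
      mul_le_mul_of_nonneg_left hle2 (Nat.cast_nonneg _)
    rw [Finset.mul_sum]
    linarith
  -- the number of relations
  have hRX : (X : ℝ) ^ s ≤ R := by
    have h1 : (Fintype.piFinset fun _ : ι => range X).card = X ^ s := by
      rw [Fintype.card_piFinset]
      simp [hs]
    have h2 : (Fintype.piFinset fun _ : ι => range X).card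
        ≤ ((Fintype.piFinset T).filter fun p => rel τ y (dv p)).card := by
      refine Finset.card_le_card_of_injOn (fun a i => (a i, a i)) (fun a ha => ?_) (fun a _ b _ hab => ?_)
      · have ha' := Fintype.mem_piFinset.1 ha
        simp only [Finset.coe_filter, Set.mem_setOf_eq]
        refine ⟨Fintype.mem_piFinset.2 fun i => ?_, ?_⟩
        · simp only [hT, mem_product]
          exact ⟨ha' i, ha' i⟩
        · have h3 : ∀ i, dv (fun i => (a i, a i)) i = 0 := fun i => sub_self _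
          refine ⟨⟨0, ?_⟩, 0, ?_⟩ <;> simp [h3]
      · funext i
        exact (Prod.ext_iff.1 (congrFun hab i)).1
    rw [h1] at h2
    rw [hR]
    exact_mod_cast h2
  -- every `q` violates one of the conditions
  have hC : ∑ q ∈ range Q, ∏ i, C3.kronF X (((q : ℝ) + 1) * τ i - y i)
      ≤ 1 / (4 * δ ^ 2) * ∑ i0 : ι, ∑ q ∈ range Q, ∏ i ∈ univ.erase i0, C3.kronF X (((q : ℝ) + 1) * τ i - y i) := by
    rw [Finset.sum_comm, Finset.mul_sum]
    refine Finset.sum_le_sum fun q hq => ?_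
    obtain ⟨i0, hi0⟩ := hcon (q + 1) (by omega) (mem_range.1 hq)
    push_cast at hi0
    have h1 := C3.kronF_le X _ δ hδ hi0.le
    have hnn : ∀ i1 : ι, 0 ≤ ∏ i ∈ univ.erase i1, C3.kronF X (((q : ℝ) + 1) * τ i - y i) := fun i1 =>
      Finset.prod_nonneg fun i _ => C3.kronF_nonneg _ _
    rw [← Finset.mul_prod_erase univ _ (Finset.mem_univ i0)]
    have h2 : ∏ i ∈ univ.erase i0, C3.kronF X (((q : ℝ) + 1) * τ i - y i)
        ≤ ∑ i1 : ι, ∏ i ∈ univ.erase i1, C3.kronF X (((q : ℝ) + 1) * τ i - y i) :=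
      Finset.single_le_sum (f := fun i1 : ι => ∏ i ∈ univ.erase i1, C3.kronF X (((q : ℝ) + 1) * τ i - y i))
        (fun i1 _ => hnn i1) (Finset.mem_univ i0)
    have hpos : (0 : ℝ) ≤ 1 / (4 * δ ^ 2) := by positivity
    exact mul_le_mul h1 h2 (hnn i0) hpos
  -- conclusion
  have hR0 : 0 < R := lt_of_lt_of_le (by positivity) hRX
  have hQ0 : (0 : ℝ) < Q := by
    by_contra h0
    have h1 : (0 : ℝ) < 2 * (X : ℝ) ^ s := by positivity
    have h2 : η * Q ≤ 0 := mul_nonpos_of_nonneg_of_nonpos hη.le (not_lt.1 h0)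
    linarith
  have hE : (X : ℝ) ^ (2 * s) * (1 / (2 * η)) ≤ Q * R / 4 := by
    have h1 : (X : ℝ) ^ (2 * s) * (1 / (2 * η)) = (X : ℝ) ^ s * (2 * (X : ℝ) ^ s / η) / 4 := by
      rw [two_mul, pow_add]
      field_simp
      ring
    have h2 : 2 * (X : ℝ) ^ s / η ≤ Q := by
      rw [div_le_iff₀ hη]
      linarith
    rw [h1]
    have h3 : (X : ℝ) ^ s * (2 * (X : ℝ) ^ s / η) ≤ R * Q :=
      mul_le_mul hRX h2 (by positivity) hR0.le
    linarith
  have hD : ∑ i0 : ι, ∑ q ∈ range Q, ∏ i ∈ univ.erase i0, C3.kronF X (((q : ℝ) + 1) * τ i - y i)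
      ≤ s * ((5 / 4) * (Q * R) / X) := by
    rw [hs, ← Finset.card_univ, ← nsmul_eq_mul]
    refine Finset.sum_le_card_nsmul _ _ _ fun i0 _ => ?_
    rw [le_div_iff₀ hX0]
    have := hB i0
    linarith
  have hF : 1 / (4 * δ ^ 2) * (s * ((5 / 4) * (Q * R) / X)) ≤ (5 / 16) * (Q * R) := by
    have h1 : 1 / (4 * δ ^ 2) * (s * ((5 / 4) * (Q * R) / X)) = (5 / 16) * (Q * R) * (s / (X * δ ^ 2)) := by
      field_simp
      ring
    rw [h1]
    have h2 : (s : ℝ) / (X * δ ^ 2) ≤ 1 := by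
      rw [div_le_one (by positivity)]
      exact hX
    have h3 : (0 : ℝ) ≤ (5 / 16) * (Q * R) := by positivity
    calc (5 / 16) * (Q * R) * (s / (X * δ ^ 2)) ≤ (5 / 16) * (Q * R) * 1 := mul_le_mul_of_nonneg_left h2 h3
      _ = _ := mul_one _
  have hG : 1 / (4 * δ ^ 2) * ∑ i0 : ι, ∑ q ∈ range Q, ∏ i ∈ univ.erase i0, C3.kronF X (((q : ℝ) + 1) * τ i - y i)
      ≤ 1 / (4 * δ ^ 2) * (s * ((5 / 4) * (Q * R) / X)) := mul_le_mul_of_nonneg_left hD (by positivity)
  have hQR : 0 < Q * R := mul_pos hQ0 hR0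
  linarith

end

end Pool.Agent.Lib.MP_8fac0f_nt.Q4
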