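import Pool.Agent.Lib.MP_8fac0f_nt.Q4.SL3

/-!
# Row SUBW: the sublevel sets of the integer combinations of `P1`, `2 P2`, `3 P3`

PROOF IN WORDS.  `N = 2 ^ (1999999 e)` (as a natural number; its cast is the real power).
As a function of `ν`, `w1 P1(ν) / N³ + w2 2 P2(ν) / N² + w3 3 P3(ν) / N` (`N³ = 2^(5999997 e)`,
`N² = 2^(3999998 e)`) is a polynomial with real coefficients (expand `Co.P1`, `Co.P2`, `Co.P3`).
* `w1 ≠ 0`: cubic coefficient `A = 4 a w1 / N³`; `|A| N³ = 4 a |w1| ≥ 1`;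
  `|A| N² = 4 a |w1| / N ≤ 4 a 2^(1998100 e - 1999999 e) = 4 a 2^(-1899 e) ≤ 2^(-880 e)` for large
  `e`.  `sl3` with `th = 1 / 2^(55 e)` (`th¹⁶ = 1 / 2^(880 e)`): card `≤ 4 th N = 4 * 2^(1999944 e)`.
* `w1 = 0`, `w2 ≠ 0`: quadratic coefficient `A = 12 a w2 / N²`; `|A| N² = 12 a |w2| ≥ 1`,
  `|A| N = 12 a |w2| / N ≤ 2^(-880 e)`; `sl2` with `th = 1 / 2^(220 e)`: card `≤ 6 * 2^(-220 e) N
  ≤ 4 * 2^(1999944 e)`.
* `w1 = w2 = 0`, `w3 ≠ 0`: slope `A = 12 a w3 / N`, `|A| N = 12 a |w3| ≥ 1`,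
  `|A| ≤ 12 a 2^(-1899 e) ≤ 2^(-880 e)`; `sl1` with `η = 1 / 2^(880 e)`: card `≤ 9 * 2^(-880 e) N`.
The set with `<` is contained in the set with `≤`.  The statement for naturals follows by
`exact_mod_cast`.
-/

set_option autoImplicit false

namespace Pool.Agent.Lib.MP_8fac0f_nt.Q4

open Finset
open Pool.Agent.Lib.MP_8fac0f_nt.C3 (di ex)

/-- the common part, with abstract sizes -/
private theorem subw_core (p : Co) (ha : 1 ≤ p.a) (N : ℕ) (w1 w2 w3 : ℤ)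
    (hw : w1 ≠ 0 ∨ w2 ≠ 0 ∨ w3 ≠ 0) (M th wb : ℝ) (hM : (N : ℝ) = M) (hM0 : 0 < M)
    (h1 : |(w1 : ℝ)| ≤ wb) (h2 : |(w2 : ℝ)| ≤ wb) (h3 : |(w3 : ℝ)| ≤ wb) (h0 : 0 < th)
    (hth : th ≤ 1 / 2) (hb : 12 * p.a * wb / M ≤ th ^ 16) :
    (((range N).filter fun ν : ℕ =>
      di ((w1 : ℝ) * ((p.P1 ν : ℝ) / M ^ 3) + (w2 : ℝ) * (2 * (p.P2 ν : ℝ) / M ^ 2)
        + (w3 : ℝ) * (3 * (p.P3 ν : ℝ) / M)) < th ^ 16).card : ℝ) ≤ 4 * th * M := by
  have ha' : (1 : ℝ) ≤ p.a := by exact_mod_cast ha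
  have hth1 : th ≤ 1 := by linarith
  have habs : ∀ w : ℤ, w ≠ 0 → (1 : ℝ) ≤ |(w : ℝ)| := by
    intro w hw
    have : (1 : ℤ) ≤ |w| := Int.one_le_abs hw
    exact_mod_cast this
  have hMn : M ≠ 0 := hM0.ne'
  by_cases hw1 : w1 = 0
  · by_cases hw2 : w2 = 0
    · have hw3 : w3 ≠ 0 := by
        rcases hw with h | h | h
        · exact absurd hw1 h
        · exact absurd hw2 h
        · exact h
      have e1 := habs w3 hw3
      have hA : |12 * (p.a : ℝ) * w3 / M| = 12 * p.a * |(w3 : ℝ)| / M := by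
        rw [abs_div, abs_mul, abs_mul, abs_of_pos hM0, Nat.abs_cast]
        norm_num
      have e2 := sl1 (12 * (p.a : ℝ) * w3 / M) (3 * p.b * w3 / M) (th ^ 16) N (by positivity)
        (by
          rw [hA, hM, div_mul_cancel₀ _ hMn]
          nlinarith)
        (by
          rw [hA]
          refine le_trans ?_ hb
          gcongr)
      refine le_trans (Nat.cast_le.2 (card_le_card ?_)) (e2.trans ?_)
      · intro ν hν
        rw [mem_filter] at hν ⊢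
        refine ⟨hν.1, le_of_lt (lt_of_eq_of_lt ?_ hν.2)⟩
        congr 1
        rw [hw1, hw2]
        unfold Co.P3
        push_cast
        field_simp
        ring
      · rw [hM]
        have : 9 * th ^ 16 ≤ 4 * th := by
          have e3 : th ^ 15 ≤ (1 / 2) ^ 15 := pow_le_pow_left₀ h0.le hth 15
          have e4 : th ^ 16 = th ^ 15 * th := by ring
          rw [e4]
          norm_num at e3
          nlinarith
        exact mul_le_mul_of_nonneg_right this hM0.le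
    · have e1 := habs w2 hw2
      have hA : |12 * (p.a : ℝ) * w2 / M ^ 2| = 12 * p.a * |(w2 : ℝ)| / M ^ 2 := by
        rw [abs_div, abs_mul, abs_mul, abs_of_pos (pow_pos hM0 2), Nat.abs_cast]
        norm_num
      have e2 := sl2 (12 * (p.a : ℝ) * w2 / M ^ 2) (6 * p.b * w2 / M ^ 2 + 12 * p.a * w3 / M)
        (2 * p.c * w2 / M ^ 2 + 3 * p.b * w3 / M) (th ^ 4) N (by positivity)
        (pow_le_one₀ h0.le hth1)
        (by
          rw [hA, hM, div_mul_cancel₀ _ (pow_ne_zero 2 hMn)]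
          nlinarith)
        (by
          rw [hA, hM]
          calc 12 * (p.a : ℝ) * |(w2 : ℝ)| / M ^ 2 * M = 12 * p.a * |(w2 : ℝ)| / M := by
                field_simp
            _ ≤ 12 * p.a * wb / M := by gcongr
            _ ≤ th ^ 16 := hb
            _ = (th ^ 4) ^ 4 := by ring)
      refine le_trans (Nat.cast_le.2 (card_le_card ?_)) (e2.trans ?_)
      · intro ν hν
        rw [mem_filter] at hν ⊢
        refine ⟨hν.1, le_of_lt (lt_of_eq_of_lt ?_ (hν.2.trans_eq (by ring)))⟩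
        congr 1
        rw [hw1]
        unfold Co.P2 Co.P3
        push_cast
        field_simp
        ring
      · rw [hM]
        have : 6 * th ^ 4 ≤ 4 * th := by
          have e3 : th ^ 3 ≤ (1 / 2) ^ 3 := pow_le_pow_left₀ h0.le hth 3
          have e4 : th ^ 4 = th ^ 3 * th := by ring
          rw [e4]
          norm_num at e3
          nlinarith
        exact mul_le_mul_of_nonneg_right this hM0.le
  · have e1 := habs w1 hw1
    have hA : |4 * (p.a : ℝ) * w1 / M ^ 3| = 4 * p.a * |(w1 : ℝ)| / M ^ 3 := by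
      rw [abs_div, abs_mul, abs_mul, abs_of_pos (pow_pos hM0 3), Nat.abs_cast]
      norm_num
    have e2 := sl3 (4 * (p.a : ℝ) * w1 / M ^ 3) (3 * p.b * w1 / M ^ 3 + 12 * p.a * w2 / M ^ 2)
      (2 * p.c * w1 / M ^ 3 + 6 * p.b * w2 / M ^ 2 + 12 * p.a * w3 / M)
      (p.d * w1 / M ^ 3 + 2 * p.c * w2 / M ^ 2 + 3 * p.b * w3 / M) th N h0 hth1
      (by
        rw [hA, hM, div_mul_cancel₀ _ (pow_ne_zero 3 hMn)]
        nlinarith)
      (by
        rw [hA, hM]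
        calc 4 * (p.a : ℝ) * |(w1 : ℝ)| / M ^ 3 * M ^ 2 = 4 * p.a * |(w1 : ℝ)| / M := by
              field_simp
          _ ≤ 12 * p.a * wb / M := by gcongr; norm_num
          _ ≤ th ^ 16 := hb)
    rw [hM] at e2
    refine le_trans (Nat.cast_le.2 (card_le_card ?_)) e2
    intro ν hν
    rw [mem_filter] at hν ⊢
    refine ⟨hν.1, le_of_lt (lt_of_eq_of_lt ?_ hν.2)⟩
    congr 1
    unfold Co.P1 Co.P2 Co.P3
    push_cast
    field_simp
    ring

theorem subw (p : Co) (ha : 1 ≤ p.a) : ∀ᶠ e : ℕ in Filter.atTop, ∀ w1 w2 w3 : ℤ,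
    (w1 ≠ 0 ∨ w2 ≠ 0 ∨ w3 ≠ 0) → |w1| ≤ 2 ^ (1998100 * e) → |w2| ≤ 2 ^ (1998100 * e) →
    |w3| ≤ 2 ^ (1998100 * e) →
    ((range (2 ^ (1999999 * e))).filter fun ν : ℕ =>
      di ((w1 : ℝ) * ((p.P1 ν : ℝ) / 2 ^ (5999997 * e))
        + (w2 : ℝ) * (2 * (p.P2 ν : ℝ) / 2 ^ (3999998 * e))
        + (w3 : ℝ) * (3 * (p.P3 ν : ℝ) / 2 ^ (1999999 * e))) < 1 / 2 ^ (880 * e)).card
      ≤ 4 * 2 ^ (1999944 * e) := by
  filter_upwards [Filter.eventually_ge_atTop (12 * p.a)] with e he w1 w2 w3 hw h1 h2 h3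
  have he1 : 1 ≤ e := by omega
  have c1 : |(w1 : ℝ)| ≤ (2 : ℝ) ^ (1998100 * e) := by exact_mod_cast h1
  have c2 : |(w2 : ℝ)| ≤ (2 : ℝ) ^ (1998100 * e) := by exact_mod_cast h2
  have c3 : |(w3 : ℝ)| ≤ (2 : ℝ) ^ (1998100 * e) := by exact_mod_cast h3
  have hth0 : (0 : ℝ) < 1 / 2 ^ (55 * e) := by positivity
  have hth : (1 : ℝ) / 2 ^ (55 * e) ≤ 1 / 2 := by
    refine one_div_le_one_div_of_le (by norm_num) ?_
    calc (2 : ℝ) = 2 ^ 1 := by norm_num
      _ ≤ 2 ^ (55 * e) := pow_le_pow_right₀ (by norm_num) (by omega)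
  have e16 : ((1 : ℝ) / 2 ^ (55 * e)) ^ 16 = 1 / 2 ^ (880 * e) := by
    rw [div_pow, one_pow, ← pow_mul]
    congr 2
    ring
  have hb : 12 * (p.a : ℝ) * 2 ^ (1998100 * e) / 2 ^ (1999999 * e) ≤ (1 / 2 ^ (55 * e)) ^ 16 := by
    rw [e16, div_le_div_iff₀ (by positivity) (by positivity), one_mul]
    have d1 : (12 * (p.a : ℝ)) ≤ 2 ^ (1019 * e) := by
      have d2 : 12 * p.a ≤ 2 ^ (1019 * e) :=
        he.trans (e.lt_two_pow_self.le.trans (Nat.pow_le_pow_right (by norm_num) (by omega)))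
      exact_mod_cast d2
    calc 12 * (p.a : ℝ) * 2 ^ (1998100 * e) * 2 ^ (880 * e) ≤
        2 ^ (1019 * e) * 2 ^ (1998100 * e) * 2 ^ (880 * e) := by gcongr
      _ = 2 ^ (1999999 * e) := by
          rw [← pow_add, ← pow_add]
          congr 1
          ring
  have hM : ((2 ^ (1999999 * e) : ℕ) : ℝ) = (2 : ℝ) ^ (1999999 * e) := by
    rw [Nat.cast_pow, Nat.cast_ofNat]
  have key := subw_core p ha (2 ^ (1999999 * e)) w1 w2 w3 hw (2 ^ (1999999 * e))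
    (1 / 2 ^ (55 * e)) (2 ^ (1998100 * e)) hM (by positivity) c1 c2 c3 hth0 hth hb
  have f3 : ((2 : ℝ) ^ (1999999 * e)) ^ 3 = 2 ^ (5999997 * e) := by
    rw [← pow_mul]
    congr 1
    ring
  have f2 : ((2 : ℝ) ^ (1999999 * e)) ^ 2 = 2 ^ (3999998 * e) := by
    rw [← pow_mul]
    congr 1
    ring
  rw [e16, f3, f2] at key
  have hfin : 4 * ((1 : ℝ) / 2 ^ (55 * e)) * 2 ^ (1999999 * e) = 4 * 2 ^ (1999944 * e) := by
    have g1 : (2 : ℝ) ^ (1999999 * e) = 2 ^ (1999944 * e) * 2 ^ (55 * e) := by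
      rw [← pow_add]
      congr 1
      ring
    rw [g1]
    field_simp
  rw [hfin] at key
  exact_mod_cast key

end Pool.Agent.Lib.MP_8fac0f_nt.Q4
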