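import Pool.Agent.Lib.MP_8fac0f_nt.Q4.Defs3
import Pool.Agent.Lib.MP_8fac0f_nt.Q4.KR2
import Pool.Agent.Lib.MP_8fac0f_nt.Q4.SUBW

/-!
# Row CQ4: almost every starting point has good multipliers

PROOF IN WORDS.  `N = 2 ^ (1999999 e)`, `M = 2 ^ (9 e)`.  For `i < 1998090` let `D_i = 2^(W + i e)`.
For `z ∈ ℤ⁶` with `|z_m| ≤ M` put `w1 = z4 + D_i z1`, `w2 = z5 + D_i z2`, `w3 = z6 + D_i z3`;
`|w| ≤ 2^(9e) (1 + 2^(W + 1998089 e)) ≤ 2^(1998100 e)` for large `e`.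
`bad` = the union over `i < 1998090` and over `z` (in `Fintype.piFinset fun _ => Icc (-M) M`, with
`(w1,w2,w3) ≠ 0`) of the sets of `subw` (filters of `range N`).  Its cardinality is
`≤ 1998090 * (2 * 2^(9e) + 1)⁶ * 4 * 2^(1999944 e) ≤ 1998090 * 2^12 * 4 * 2^(1999998 e)
≤ ε 2^(1999999 e)` for large `e` (`9 * 6 = 54`).
For `ν < N`, `ν ∉ bad`, `i`, `Y`: apply `kr2` with `ι = Fin 6`, `X = 2^(9e)`, `Q = 2^(940 e)`,
`δ = 1 / 2^(4e)`, `η = 1 / 2^(880 e)` (`6 ≤ 2^(9e) / 2^(8e) = 2^e` for `e ≥ 3`;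
`2 * 2^(54 e) ≤ 2^(60 e)`), `τ = ![P1 D/2^(3j), 2 P2 D/2^(2j), 3 P3 D/2^j, P1/2^(3j), 2 P2/2^(2j),
3 P3/2^j]`, `y = ![0, 0, 0, Y / 2^W, 0, 0]`.  Then `∑ z τ = w1 P1/2^(3j) + w2 2P2/2^(2j) +
w3 3P3/2^j`.  If `w ≠ 0` then `ν ∉ bad` gives `η ≤ di (∑ z τ)`.  If `w = 0` then `∑ z τ = 0` and
`z4 = - D z1`, so `∑ z y = z4 Y / 2^W = - z1 2^(i e) Y`, an integer.  The conclusion of `kr2` is
`QC` after rewriting `q * (P1 * D / 2^(3j)) = q * P1 * D / 2^(3j)`.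
-/

set_option autoImplicit false

namespace Pool.Agent.Lib.MP_8fac0f_nt.Q4

open Finset
open Pool.Agent.Lib.MP_8fac0f_nt.C3 (di ex)

/-- `kr2` for six numbers -/
private theorem cq4_kr (X Q : ℕ) (δ η t1 t2 t3 t4 t5 t6 y : ℝ) (hδ : 0 < δ) (hη : 0 < η)
    (hX : (6 : ℝ) ≤ X * δ ^ 2) (hQ : 2 * (X : ℝ) ^ 6 ≤ η * Q)
    (h : ∀ z1 z2 z3 z4 z5 z6 : ℤ, |z1| ≤ X → |z2| ≤ X → |z3| ≤ X → |z4| ≤ X → |z5| ≤ X →
      |z6| ≤ X → η ≤ di (z1 * t1 + z2 * t2 + z3 * t3 + z4 * t4 + z5 * t5 + z6 * t6) ∨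
      ((∃ n : ℤ, z1 * t1 + z2 * t2 + z3 * t3 + z4 * t4 + z5 * t5 + z6 * t6 = (n : ℝ)) ∧
        ∃ n : ℤ, z4 * y = (n : ℝ))) :
    ∃ q : ℕ, 1 ≤ q ∧ q ≤ Q ∧ di (q * t1) ≤ δ ∧ di (q * t2) ≤ δ ∧ di (q * t3) ≤ δ ∧
      di (q * t4 - y) ≤ δ ∧ di (q * t5) ≤ δ ∧ di (q * t6) ≤ δ := by
  obtain ⟨q, hq1, hqQ, hq⟩ := kr2 (ι := Fin 6) X Q δ η ![t1, t2, t3, t4, t5, t6]
    ![0, 0, 0, y, 0, 0] hδ hη (by simpa using hX) (by simpa using hQ) (fun z hz => by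
      have h1 : ∑ i, (z i : ℝ) * (![t1, t2, t3, t4, t5, t6] : Fin 6 → ℝ) i =
          z 0 * t1 + z 1 * t2 + z 2 * t3 + z 3 * t4 + z 4 * t5 + z 5 * t6 := by
        rw [Fin.sum_univ_six]
        rfl
      have h2 : ∑ i, (z i : ℝ) * (![0, 0, 0, y, 0, 0] : Fin 6 → ℝ) i = z 3 * y := by
        rw [Fin.sum_univ_six]
        have : ((z 0 : ℝ) * 0 + z 1 * 0 + z 2 * 0 + z 3 * y + z 4 * 0 + z 5 * 0) = z 3 * y := by
          ring
        exact this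
      rw [h1, h2]
      exact h _ _ _ _ _ _ (hz 0) (hz 1) (hz 2) (hz 3) (hz 4) (hz 5))
  refine ⟨q, hq1, hqQ, ?_, ?_, ?_, ?_, ?_, ?_⟩
  · have := hq 0
    simpa using this
  · have := hq 1
    simpa using this
  · have := hq 2
    simpa using this
  · have := hq 3
    simpa using this
  · have := hq 4
    simpa using this
  · have := hq 5
    simpa using this

/-- the set of `subw` -/
private noncomputable def cq4S (p : Co) (e : ℕ) (w1 w2 w3 : ℤ) : Finset ℕ :=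
  (range (2 ^ (1999999 * e))).filter fun ν : ℕ =>
      di ((w1 : ℝ) * ((p.P1 ν : ℝ) / 2 ^ (5999997 * e))
        + (w2 : ℝ) * (2 * (p.P2 ν : ℝ) / 2 ^ (3999998 * e))
        + (w3 : ℝ) * (3 * (p.P3 ν : ℝ) / 2 ^ (1999999 * e))) < 1 / 2 ^ (880 * e)

open Classical in
/-- the bad points -/
private noncomputable def cq4B (p : Co) (W e L : ℕ) : Finset ℕ :=
  (range L).biUnion fun i => (Fintype.piFinset fun _ : Fin 6 =>
    Icc (-(2 : ℤ) ^ (9 * e)) (2 ^ (9 * e))).biUnion fun z =>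
      if (z 3 + 2 ^ (W + i * e) * z 0 ≠ 0 ∨ z 4 + 2 ^ (W + i * e) * z 1 ≠ 0 ∨
        z 5 + 2 ^ (W + i * e) * z 2 ≠ 0) then
        cq4S p e (z 3 + 2 ^ (W + i * e) * z 0) (z 4 + 2 ^ (W + i * e) * z 1)
          (z 5 + 2 ^ (W + i * e) * z 2) else ∅

private theorem cq4_w (W e i : ℕ) (hi : i ≤ 1998089) (hW : W + 1 ≤ 2 * e) (x y : ℤ)
    (hx : |x| ≤ 2 ^ (9 * e)) (hy : |y| ≤ 2 ^ (9 * e)) :
    |x + 2 ^ (W + i * e) * y| ≤ 2 ^ (1998100 * e) := by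
  have h1 : (2 : ℤ) ^ (W + i * e) ≤ 2 ^ (W + 1998089 * e) :=
    pow_le_pow_right₀ (by norm_num) (by gcongr)
  have h2 : (1 : ℤ) ≤ 2 ^ (W + i * e) := one_le_pow₀ (by norm_num)
  calc |x + 2 ^ (W + i * e) * y| ≤ |x| + |2 ^ (W + i * e) * y| := abs_add_le _ _
    _ = |x| + 2 ^ (W + i * e) * |y| := by rw [abs_mul, abs_of_pos (by positivity : (0 : ℤ) < 2 ^ (W + i * e))]
    _ ≤ 2 ^ (W + 1998089 * e) * 2 ^ (9 * e) + 2 ^ (W + 1998089 * e) * 2 ^ (9 * e) := by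
        refine add_le_add ?_ ?_
        · calc |x| ≤ 1 * 2 ^ (9 * e) := by rw [one_mul]; exact hx
            _ ≤ 2 ^ (W + 1998089 * e) * 2 ^ (9 * e) :=
              mul_le_mul_of_nonneg_right (h2.trans h1) (by positivity)
        · exact mul_le_mul h1 hy (abs_nonneg _) (by positivity)
    _ = 2 ^ (W + 1998089 * e + 9 * e + 1) := by rw [pow_succ, pow_add _ (W + 1998089 * e)]; ring
    _ ≤ 2 ^ (1998100 * e) := pow_le_pow_right₀ (by norm_num) (by omega)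

theorem cq4 (p : Co) (ha : 1 ≤ p.a) (W : ℕ) (ε : ℝ) (hε : 0 < ε) : ∀ᶠ e : ℕ in Filter.atTop,
    ∃ bad : Finset ℕ, (bad.card : ℝ) ≤ ε * 2 ^ (1999999 * e) ∧
      ∀ ν < 2 ^ (1999999 * e), ν ∉ bad → ∀ i < 1998090, ∀ Y : ℕ,
        ∃ q : ℕ, 1 ≤ q ∧ q ≤ 2 ^ (940 * e) ∧ QC p e W i Y ν q := by
  classical
  have hev := (tendsto_pow_atTop_atTop_of_one_lt (by norm_num : (1 : ℝ) < 2)).eventually_ge_atTop
    (2 ^ 35 / ε)
  filter_upwards [subw p ha, hev, Filter.eventually_ge_atTop (W + 3)] with e hsub hε2 he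
  have hNc : ((2 ^ (9 * e) : ℕ) : ℤ) = (2 : ℤ) ^ (9 * e) := by
    rw [Nat.cast_pow, Nat.cast_ofNat]
  have hcard : ∀ i < 1998090, ∀ z ∈ (Fintype.piFinset fun _ : Fin 6 =>
      Icc (-(2 : ℤ) ^ (9 * e)) (2 ^ (9 * e))),
      (if (z 3 + 2 ^ (W + i * e) * z 0 ≠ 0 ∨ z 4 + 2 ^ (W + i * e) * z 1 ≠ 0 ∨
        z 5 + 2 ^ (W + i * e) * z 2 ≠ 0) then
        cq4S p e (z 3 + 2 ^ (W + i * e) * z 0) (z 4 + 2 ^ (W + i * e) * z 1)
          (z 5 + 2 ^ (W + i * e) * z 2) else ∅).card ≤ 4 * 2 ^ (1999944 * e) := by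
    intro i hi z hz
    rw [Fintype.mem_piFinset] at hz
    have hzb : ∀ m, |z m| ≤ (2 : ℤ) ^ (9 * e) := fun m => by
      have := mem_Icc.1 (hz m)
      exact abs_le.2 this
    split_ifs with hw
    · exact hsub _ _ _ hw (cq4_w W e i (by omega) (by omega) _ _ (hzb 3) (hzb 0))
        (cq4_w W e i (by omega) (by omega) _ _ (hzb 4) (hzb 1))
        (cq4_w W e i (by omega) (by omega) _ _ (hzb 5) (hzb 2))
    · rw [card_empty]
      positivity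
  have hpi : (Fintype.piFinset fun _ : Fin 6 => Icc (-(2 : ℤ) ^ (9 * e)) (2 ^ (9 * e))).card ≤
      (2 ^ (9 * e + 2)) ^ 6 := by
    rw [Fintype.card_piFinset, Finset.prod_const, card_univ, Fintype.card_fin, Int.card_Icc]
    refine Nat.pow_le_pow_left ?_ 6
    have h1 : (1 : ℤ) ≤ 2 ^ (9 * e) := one_le_pow₀ (by norm_num)
    have h2 : ((2 ^ (9 * e + 2) : ℕ) : ℤ) = 4 * 2 ^ (9 * e) := by
      rw [Nat.cast_pow, Nat.cast_ofNat, pow_add]
      ring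
    have h3 : (2 : ℤ) ^ (9 * e) + 1 - -2 ^ (9 * e) ≤ ((2 ^ (9 * e + 2) : ℕ) : ℤ) := by
      rw [h2]
      linarith
    exact Int.toNat_le.2 h3
  refine ⟨cq4B p W e 1998090, ?_, ?_⟩
  · have hB : (cq4B p W e 1998090).card ≤
        1998090 * ((2 ^ (9 * e + 2)) ^ 6 * (4 * 2 ^ (1999944 * e))) := by
      unfold cq4B
      refine card_biUnion_le.trans ?_
      refine (sum_le_sum (g := fun _ => (2 ^ (9 * e + 2)) ^ 6 * (4 * 2 ^ (1999944 * e)))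
        fun i hi => ?_).trans ?_
      · refine card_biUnion_le.trans ?_
        refine (sum_le_sum fun z hz => hcard i (mem_range.1 hi) z hz).trans ?_
        rw [sum_const, smul_eq_mul]
        exact Nat.mul_le_mul_right _ hpi
      · rw [sum_const, card_range, smul_eq_mul]
    have hB2 : ((cq4B p W e 1998090).card : ℝ) ≤ 2 ^ 35 * 2 ^ (1999998 * e) := by
      have h1 : 1998090 * ((2 ^ (9 * e + 2)) ^ 6 * (4 * 2 ^ (1999944 * e))) ≤
          2 ^ 35 * 2 ^ (1999998 * e) := by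
        have h2 : (2 ^ (9 * e + 2)) ^ 6 * (4 * 2 ^ (1999944 * e)) = 2 ^ 14 * 2 ^ (1999998 * e) := by
          rw [← pow_mul, show (4 : ℕ) = 2 ^ 2 by norm_num, ← pow_add, ← pow_add, ← pow_add]
          congr 1
          ring
        rw [h2, ← mul_assoc]
        exact Nat.mul_le_mul_right _ (by norm_num)
      exact_mod_cast hB.trans h1
    refine hB2.trans ?_
    have h3 : (2 : ℝ) ^ 35 ≤ ε * 2 ^ e := by
      rw [div_le_iff₀ hε] at hε2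
      linarith
    calc (2 : ℝ) ^ 35 * 2 ^ (1999998 * e) ≤ (ε * 2 ^ e) * 2 ^ (1999998 * e) :=
          mul_le_mul_of_nonneg_right h3 (by positivity)
      _ = ε * 2 ^ (1999999 * e) := by
          rw [mul_assoc, ← pow_add]
          congr 2
          ring
  · intro ν hν hbad i hi Y
    have hXc : ((2 ^ (9 * e) : ℕ) : ℝ) = (2 : ℝ) ^ (9 * e) := by rw [Nat.cast_pow, Nat.cast_ofNat]
    have hQc : ((2 ^ (940 * e) : ℕ) : ℝ) = (2 : ℝ) ^ (940 * e) := by rw [Nat.cast_pow, Nat.cast_ofNat]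
    have hX : (6 : ℝ) ≤ ((2 ^ (9 * e) : ℕ) : ℝ) * (1 / 2 ^ (4 * e)) ^ 2 := by
      rw [hXc, div_pow, one_pow, ← pow_mul, mul_one_div, le_div_iff₀ (by positivity)]
      have h1 : (8 : ℝ) ≤ 2 ^ e := by
        calc (8 : ℝ) = 2 ^ 3 := by norm_num
          _ ≤ 2 ^ e := pow_le_pow_right₀ (by norm_num) (by omega)
      calc (6 : ℝ) * 2 ^ (4 * e * 2) ≤ 2 ^ e * 2 ^ (4 * e * 2) :=
            mul_le_mul_of_nonneg_right (by linarith) (by positivity)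
        _ = 2 ^ (9 * e) := by
            rw [← pow_add]
            congr 1
            ring
    have hQ : 2 * ((2 ^ (9 * e) : ℕ) : ℝ) ^ 6 ≤ 1 / 2 ^ (880 * e) * ((2 ^ (940 * e) : ℕ) : ℝ) := by
      rw [hXc, hQc, ← pow_mul, one_div_mul_eq_div, le_div_iff₀ (by positivity)]
      calc (2 : ℝ) * 2 ^ (9 * e * 6) * 2 ^ (880 * e) = 2 ^ (1 + 9 * e * 6 + 880 * e) := by
            rw [pow_add, pow_add, pow_one]
        _ ≤ 2 ^ (940 * e) := pow_le_pow_right₀ (by norm_num) (by omega)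
    obtain ⟨q, hq1, hqQ, g1, g2, g3, g4, g5, g6⟩ := cq4_kr (2 ^ (9 * e)) (2 ^ (940 * e))
      (1 / 2 ^ (4 * e)) (1 / 2 ^ (880 * e))
      ((p.P1 ν : ℝ) * 2 ^ (W + i * e) / 2 ^ (5999997 * e))
      ((2 * (p.P2 ν : ℝ)) * 2 ^ (W + i * e) / 2 ^ (3999998 * e))
      ((3 * (p.P3 ν : ℝ)) * 2 ^ (W + i * e) / 2 ^ (1999999 * e))
      ((p.P1 ν : ℝ) / 2 ^ (5999997 * e)) ((2 * (p.P2 ν : ℝ)) / 2 ^ (3999998 * e))
      ((3 * (p.P3 ν : ℝ)) / 2 ^ (1999999 * e)) ((Y : ℝ) / 2 ^ W) (by positivity) (by positivity)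
      hX hQ (fun z1 z2 z3 z4 z5 z6 h1 h2 h3 h4 h5 h6 => by
        rw [hNc] at h1 h2 h3 h4 h5 h6
        have e1 : (z1 : ℝ) * ((p.P1 ν : ℝ) * 2 ^ (W + i * e) / 2 ^ (5999997 * e)) +
            z2 * ((2 * (p.P2 ν : ℝ)) * 2 ^ (W + i * e) / 2 ^ (3999998 * e)) +
            z3 * ((3 * (p.P3 ν : ℝ)) * 2 ^ (W + i * e) / 2 ^ (1999999 * e)) +
            z4 * ((p.P1 ν : ℝ) / 2 ^ (5999997 * e)) + z5 * ((2 * (p.P2 ν : ℝ)) / 2 ^ (3999998 * e)) +
            z6 * ((3 * (p.P3 ν : ℝ)) / 2 ^ (1999999 * e)) =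
            ((z4 + 2 ^ (W + i * e) * z1 : ℤ) : ℝ) * ((p.P1 ν : ℝ) / 2 ^ (5999997 * e))
              + ((z5 + 2 ^ (W + i * e) * z2 : ℤ) : ℝ) * (2 * (p.P2 ν : ℝ) / 2 ^ (3999998 * e))
              + ((z6 + 2 ^ (W + i * e) * z3 : ℤ) : ℝ) * (3 * (p.P3 ν : ℝ) / 2 ^ (1999999 * e)) := by
          push_cast
          ring
        rw [e1]
        by_cases hw : (z4 + 2 ^ (W + i * e) * z1 ≠ 0 ∨ z5 + 2 ^ (W + i * e) * z2 ≠ 0 ∨
            z6 + 2 ^ (W + i * e) * z3 ≠ 0)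
        · left
          by_contra hlt
          apply hbad
          unfold cq4B
          rw [mem_biUnion]
          refine ⟨i, mem_range.2 hi, ?_⟩
          rw [mem_biUnion]
          refine ⟨![z1, z2, z3, z4, z5, z6], ?_, ?_⟩
          · rw [Fintype.mem_piFinset]
            intro m
            rw [mem_Icc]
            fin_cases m
            · exact abs_le.1 h1
            · exact abs_le.1 h2
            · exact abs_le.1 h3
            · exact abs_le.1 h4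
            · exact abs_le.1 h5
            · exact abs_le.1 h6
          · have c0 : (![z1, z2, z3, z4, z5, z6] : Fin 6 → ℤ) 0 = z1 := rfl
            have c1 : (![z1, z2, z3, z4, z5, z6] : Fin 6 → ℤ) 1 = z2 := rfl
            have c2 : (![z1, z2, z3, z4, z5, z6] : Fin 6 → ℤ) 2 = z3 := rfl
            have c3 : (![z1, z2, z3, z4, z5, z6] : Fin 6 → ℤ) 3 = z4 := rfl
            have c4 : (![z1, z2, z3, z4, z5, z6] : Fin 6 → ℤ) 4 = z5 := rfl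
            have c5 : (![z1, z2, z3, z4, z5, z6] : Fin 6 → ℤ) 5 = z6 := rfl
            rw [c0, c1, c2, c3, c4, c5, if_pos hw]
            unfold cq4S
            rw [mem_filter]
            exact ⟨mem_range.2 hν, not_le.1 hlt⟩
        · right
          push Not at hw
          obtain ⟨w1, w2, w3⟩ := hw
          rw [w1, w2, w3]
          refine ⟨⟨0, by simp⟩, ⟨-(z1 * 2 ^ (i * e) * Y), ?_⟩⟩
          have w4 : (z4 : ℝ) = -(2 ^ (W + i * e) * z1) := by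
            have : z4 = -(2 ^ (W + i * e) * z1) := by linarith
            rw [this]
            push_cast
            ring
          rw [w4, pow_add]
          push_cast
          field_simp)
    refine ⟨q, hq1, hqQ, ?_, ?_, ?_, ?_, ?_, ?_⟩
    · rw [mul_assoc, mul_div_assoc]
      exact g1
    · rw [mul_assoc, mul_div_assoc]
      exact g2
    · rw [mul_assoc, mul_div_assoc]
      exact g3
    · rw [mul_div_assoc]
      exact g4
    · rw [mul_div_assoc]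
      exact g5
    · rw [mul_div_assoc]
      exact g6

end Pool.Agent.Lib.MP_8fac0f_nt.Q4
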