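import Pool.Agent.Lib.MP_8fac0f_nt.Q4.Defs

/-!
# CSC: Cauchy-Schwarz over classes

Proof. `sum_(i in J) sum_(nu < A) F i nu = sum_(i in J) sum_(kappa in s) sum_(nu < A, cl nu = kappa) F i nu`
(`Finset.sum_fiberwise_of_maps_to`). Cauchy-Schwarz over `J x s`:
the square is at most `|J| |s| sum_(i, kappa) (sum_(nu < A, cl nu = kappa) F i nu) ^ 2`, the inner square is the sum
over the pairs `(nu, nu')` with `cl nu = cl nu' = kappa` of `F i nu * F i nu'`; exchange the sums over `i` and over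
the pairs and take absolute values.
-/

set_option autoImplicit false

namespace Pool.Agent.Lib.MP_8fac0f_nt.Q4

open Finset Filter Topology
open Pool.Agent.Lib.MP_8fac0f_nt.C3 (di ex)

theorem csc {T I : Type} [DecidableEq T] (cls : ℕ → T) (s : Finset T) (A : ℕ)
    (hcl : ∀ ν < A, cls ν ∈ s) (J : Finset I) (F : I → ℕ → ℝ) :
    (∑ i ∈ J, ∑ ν ∈ range A, F i ν) ^ 2 ≤ J.card * s.card *
      ∑ q ∈ (range A ×ˢ range A).filter (fun q => cls q.1 = cls q.2),
        |∑ i ∈ J, F i q.1 * F i q.2| := by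
  classical
  set G : I → T → ℝ := fun i κ => ∑ ν ∈ (range A).filter (fun ν => cls ν = κ), F i ν with hG
  have h1 : ∑ i ∈ J, ∑ ν ∈ range A, F i ν = ∑ x ∈ J ×ˢ s, G x.1 x.2 := by
    rw [sum_product]
    refine sum_congr rfl fun i _ => ?_
    exact (sum_fiberwise_of_maps_to (fun ν hν => hcl ν (mem_range.1 hν)) (F i)).symm
  rw [h1]
  refine (sq_sum_le_card_mul_sum_sq (s := J ×ˢ s) (f := fun x => G x.1 x.2)).trans ?_
  rw [card_product, Nat.cast_mul]
  refine mul_le_mul_of_nonneg_left ?_ (by positivity)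
  have h3 : ∑ x ∈ J ×ˢ s, G x.1 x.2 ^ 2 = ∑ i ∈ J,
      ∑ q ∈ (range A ×ˢ range A).filter (fun q => cls q.1 = cls q.2), F i q.1 * F i q.2 := by
    rw [sum_product]
    refine sum_congr rfl fun i _ => ?_
    have h4 : ∀ q ∈ (range A ×ˢ range A).filter (fun q => cls q.1 = cls q.2), cls q.1 ∈ s := by
      intro q hq
      rw [mem_filter, mem_product, mem_range] at hq
      exact hcl q.1 hq.1.1
    rw [← sum_fiberwise_of_maps_to h4 (fun q => F i q.1 * F i q.2)]
    refine sum_congr rfl fun κ _ => ?_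
    show (∑ ν ∈ (range A).filter (fun ν => cls ν = κ), F i ν) ^ 2 = _
    rw [sq, sum_mul_sum, ← sum_product']
    refine sum_congr ?_ fun _ _ => rfl
    ext q
    simp only [mem_product, mem_filter, mem_range]
    constructor
    · rintro ⟨⟨h5, h6⟩, h7, h8⟩
      exact ⟨⟨⟨h5, h7⟩, h6.trans h8.symm⟩, h6⟩
    · rintro ⟨⟨⟨h5, h6⟩, h7⟩, h8⟩
      exact ⟨⟨h5, h8⟩, h6, h7.symm.trans h8⟩
  rw [h3, sum_comm]
  exact sum_le_sum fun q _ => le_abs_self _

end Pool.Agent.Lib.MP_8fac0f_nt.Q4
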