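import Pool.Agent.Lib.MP_8fac0f_nt.Q4.Defs

/-!
# ClInfo: what two points of one class have in common

Proof. Equal windows: if `m / 2 ^ s % 2 ^ b = m' / 2 ^ s % 2 ^ b` then `m' - m = x + z 2 ^ (s + b)` with
`|x| < 2 ^ s` (`m = (m % 2 ^ s) + 2 ^ s (m / 2 ^ s)`, and `m / 2 ^ s = w + 2 ^ b z`). Apply this to
`P` (`s = 3999998 e - c`, `b = 1912 e + c`, `s + b = 4001910 e`, needs `c <= 3999998 e`), `P1`
(`3999048 e - c`, `2862 e + c`, sum `4001910 e`), `P1` (`1999998 e - c`, `1913 e + c`, sum `2001911 e`), `P2`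
(`1999048 e - c`, `2863 e + c`, sum `2001911 e`). `nu = nu'` modulo `2 ^ (1912 e)` gives the divisibilities
of the differences of `P2`, `P3` (polynomials with natural coefficients). `nu / 2 ^ (1998089 e)` equal gives
`|nu' - nu| < 2 ^ (1998089 e)`; with `nu, nu' < 2 ^ (1999999 e)` (say `nu <= nu'`, `h = nu' - nu`, `Co.P1_add` ..):
`P1 nu' - P1 nu = 2 h P2 nu + 3 h ^ 2 P3 nu + 4 a h ^ 3 <= const * 2 ^ (1998089 e + 3999998 e)`,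
`P2 nu' - P2 nu <= const * 2 ^ (1998089 e + 1999999 e)`, `P3 nu' - P3 nu = 4 a h`; the constants are at most `2 ^ e`
for large `e`.
-/

set_option autoImplicit false

namespace Pool.Agent.Lib.MP_8fac0f_nt.Q4

open Finset Filter Topology
open Pool.Agent.Lib.MP_8fac0f_nt.C3 (di ex)

private theorem ci_win (m m' s b : ℕ) (h : m / 2 ^ s % 2 ^ b = m' / 2 ^ s % 2 ^ b) :
    ∃ x z : ℤ, (m' : ℤ) - m = x + z * 2 ^ (s + b) ∧ |x| ≤ 2 ^ s := by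
  have e1 := Nat.mod_add_div m (2 ^ s)
  have e2 := Nat.mod_add_div (m / 2 ^ s) (2 ^ b)
  have e3 := Nat.mod_add_div m' (2 ^ s)
  have e4 := Nat.mod_add_div (m' / 2 ^ s) (2 ^ b)
  have b1 : m % 2 ^ s < 2 ^ s := Nat.mod_lt _ (by positivity)
  have b2 : m' % 2 ^ s < 2 ^ s := Nat.mod_lt _ (by positivity)
  rw [← h] at e4
  obtain ⟨r, hr⟩ : ∃ r, r = m % 2 ^ s := ⟨_, rfl⟩
  obtain ⟨r', hr'⟩ : ∃ r', r' = m' % 2 ^ s := ⟨_, rfl⟩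
  obtain ⟨w, hw⟩ : ∃ w, w = m / 2 ^ s % 2 ^ b := ⟨_, rfl⟩
  obtain ⟨u, hu⟩ : ∃ u, u = m / 2 ^ s / 2 ^ b := ⟨_, rfl⟩
  obtain ⟨u', hu'⟩ : ∃ u', u' = m' / 2 ^ s / 2 ^ b := ⟨_, rfl⟩
  rw [← hw, ← hu] at e2
  rw [← hw, ← hu'] at e4
  rw [← hr, ← e2] at e1
  rw [← hr', ← e4] at e3
  rw [← hr] at b1
  rw [← hr'] at b2
  have b1' : (r : ℤ) < 2 ^ s := by exact_mod_cast b1
  have b2' : (r' : ℤ) < 2 ^ s := by exact_mod_cast b2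
  have e1' : (r : ℤ) + 2 ^ s * (w + 2 ^ b * u) = m := by exact_mod_cast e1
  have e3' : (r' : ℤ) + 2 ^ s * (w + 2 ^ b * u') = m' := by exact_mod_cast e3
  refine ⟨(r' : ℤ) - r, (u' : ℤ) - u, ?_, ?_⟩
  · rw [← e1', ← e3', pow_add]
    ring
  · rw [abs_le]
    have p1 : (0 : ℤ) ≤ r := Int.natCast_nonneg _
    have p2 : (0 : ℤ) ≤ r' := Int.natCast_nonneg _
    constructor <;> linarith

private theorem ci_abs {x y k : ℕ} (h : x ≤ y) (hk : y ≤ x + 2 ^ k) : |(y : ℤ) - x| ≤ 2 ^ k := by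
  have h1 : (x : ℤ) ≤ y := by exact_mod_cast h
  have h2 : (y : ℤ) ≤ x + 2 ^ k := by exact_mod_cast hk
  rw [abs_of_nonneg (by linarith)]
  linarith

private theorem ci_dvd {x y k : ℕ} (h : x ≡ y [MOD 2 ^ k]) : ∃ z : ℤ, (y : ℤ) - x = z * 2 ^ k := by
  obtain ⟨z, hz⟩ := Nat.modEq_iff_dvd.1 h
  refine ⟨z, ?_⟩
  rw [hz, mul_comm]
  push_cast
  ring

private theorem ci_size (p : Co) {e ν ν' : ℕ} (hS : 28 * p.S ≤ 2 ^ e) (hν : ν < 2 ^ (1999999 * e)) (hle : ν ≤ ν')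
    (h2 : ν / 2 ^ (1998089 * e) = ν' / 2 ^ (1998089 * e)) :
    p.P1 ν' ≤ p.P1 ν + 2 ^ (5998088 * e) ∧ p.P2 ν' ≤ p.P2 ν + 2 ^ (3998089 * e) ∧ p.P3 ν' ≤ p.P3 ν + 2 ^ (1998090 * e) := by
  obtain ⟨h, rfl⟩ := Nat.exists_eq_add_of_le hle
  have hh : h ≤ 2 ^ (1998089 * e) := by
    have e1 := Nat.lt_mul_div_succ (ν + h) (show 0 < 2 ^ (1998089 * e) by positivity)
    have e2 := Nat.mul_div_le ν (2 ^ (1998089 * e))
    rw [← h2, Nat.mul_succ] at e1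
    obtain ⟨A, hA⟩ : ∃ A, A = 2 ^ (1998089 * e) * (ν / 2 ^ (1998089 * e)) := ⟨_, rfl⟩
    rw [← hA] at e1 e2
    omega
  have hae : p.a ≤ p.S := by unfold Co.S; omega
  have q2 := p.P2_le ν (1999999 * e) hν.le
  have q3 := p.P3_le ν (1999999 * e) hν.le
  obtain ⟨j, hj⟩ : ∃ j, j = 1998089 * e := ⟨_, rfl⟩
  obtain ⟨n, hn⟩ : ∃ n, n = 1999999 * e := ⟨_, rfl⟩
  have hjn : j ≤ n := by omega
  rw [← hj] at hh
  rw [← hn] at q2 q3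
  have k1 : 5998088 * e = e + (j + 2 * n) := by omega
  have k2 : 3998089 * e = e + (j + n) := by omega
  have k3 : 1998090 * e = e + j := by omega
  rw [k1, k2, k3]
  clear k1 k2 k3 hj hn h2 hν hle
  have h2' : h ^ 2 ≤ 2 ^ (2 * j) := by
    rw [mul_comm, pow_mul]; exact Nat.pow_le_pow_left hh 2
  have h3' : h ^ 3 ≤ 2 ^ (3 * j) := by
    rw [mul_comm, pow_mul]; exact Nat.pow_le_pow_left hh 3
  have m1 : 2 ^ (2 * j) * 2 ^ n ≤ 2 ^ (j + 2 * n) := by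
    rw [← pow_add]; exact Nat.pow_le_pow_right (by norm_num) (by omega)
  have m2 : 2 ^ (3 * j) ≤ 2 ^ (j + 2 * n) := Nat.pow_le_pow_right (by norm_num) (by omega)
  have m3 : 2 ^ (2 * j) ≤ 2 ^ (j + n) := Nat.pow_le_pow_right (by norm_num) (by omega)
  refine ⟨?_, ?_, ?_⟩
  · rw [p.P1_add]
    have t1 : 2 * h * p.P2 ν ≤ 12 * p.S * 2 ^ (j + 2 * n) := by
      calc 2 * h * p.P2 ν ≤ 2 * 2 ^ j * (6 * p.S * 2 ^ (2 * n)) := by gcongr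
        _ = 12 * p.S * 2 ^ (j + 2 * n) := by rw [pow_add]; ring
    have t2 : 3 * h ^ 2 * p.P3 ν ≤ 12 * p.S * 2 ^ (j + 2 * n) := by
      calc 3 * h ^ 2 * p.P3 ν ≤ 3 * 2 ^ (2 * j) * (4 * p.S * 2 ^ n) := by gcongr
        _ = 12 * p.S * (2 ^ (2 * j) * 2 ^ n) := by ring
        _ ≤ 12 * p.S * 2 ^ (j + 2 * n) := Nat.mul_le_mul_left _ m1
    have t3 : 4 * p.a * h ^ 3 ≤ 4 * p.S * 2 ^ (j + 2 * n) := by
      calc 4 * p.a * h ^ 3 ≤ 4 * p.S * 2 ^ (3 * j) := by gcongr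
        _ ≤ 4 * p.S * 2 ^ (j + 2 * n) := Nat.mul_le_mul_left _ m2
    have t4 : 28 * p.S * 2 ^ (j + 2 * n) ≤ 2 ^ (e + (j + 2 * n)) := by
      rw [pow_add 2 e]; exact Nat.mul_le_mul_right _ hS
    have t5 : 28 * p.S * 2 ^ (j + 2 * n) = 12 * p.S * 2 ^ (j + 2 * n) + 12 * p.S * 2 ^ (j + 2 * n) +
        4 * p.S * 2 ^ (j + 2 * n) := by ring
    linarith
  · rw [p.P2_add]
    have t1 : 3 * h * p.P3 ν ≤ 12 * p.S * 2 ^ (j + n) := by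
      calc 3 * h * p.P3 ν ≤ 3 * 2 ^ j * (4 * p.S * 2 ^ n) := by gcongr
        _ = 12 * p.S * 2 ^ (j + n) := by rw [pow_add]; ring
    have t2 : 6 * p.a * h ^ 2 ≤ 6 * p.S * 2 ^ (j + n) := by
      calc 6 * p.a * h ^ 2 ≤ 6 * p.S * 2 ^ (2 * j) := by gcongr
        _ ≤ 6 * p.S * 2 ^ (j + n) := Nat.mul_le_mul_left _ m3
    have t4 : 28 * p.S * 2 ^ (j + n) ≤ 2 ^ (e + (j + n)) := by
      rw [pow_add 2 e]; exact Nat.mul_le_mul_right _ hS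
    have t5 : 28 * p.S * 2 ^ (j + n) = 12 * p.S * 2 ^ (j + n) + 6 * p.S * 2 ^ (j + n) +
        10 * p.S * 2 ^ (j + n) := by ring
    have t6 : 0 ≤ 10 * p.S * 2 ^ (j + n) := Nat.zero_le _
    linarith
  · rw [p.P3_add]
    have t1 : 4 * p.a * h ≤ 4 * p.S * 2 ^ j := by gcongr
    have t4 : 28 * p.S * 2 ^ j ≤ 2 ^ (e + j) := by
      rw [pow_add 2 e]; exact Nat.mul_le_mul_right _ hS
    have t5 : 28 * p.S * 2 ^ j = 4 * p.S * 2 ^ j + 24 * p.S * 2 ^ j := by ring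
    have t6 : 0 ≤ 24 * p.S * 2 ^ j := Nat.zero_le _
    linarith

theorem cl_info (p : Co) (c : ℕ) : ∀ᶠ e : ℕ in atTop, ∀ ν ν' : ℕ, ν < 2 ^ (1999999 * e) →
    ν' < 2 ^ (1999999 * e) → cl p c e ν = cl p c e ν' →
    (∃ x z : ℤ, (p.P ν' : ℤ) - p.P ν = x + z * 2 ^ (4001910 * e) ∧ |x| ≤ 2 ^ (3999998 * e - c)) ∧
    (∃ x z : ℤ, (p.P1 ν' : ℤ) - p.P1 ν = x + z * 2 ^ (4001910 * e) ∧ |x| ≤ 2 ^ (3999048 * e - c)) ∧
    (∃ x z : ℤ, (p.P1 ν' : ℤ) - p.P1 ν = x + z * 2 ^ (2001911 * e) ∧ |x| ≤ 2 ^ (1999998 * e - c)) ∧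
    (∃ x z : ℤ, (p.P2 ν' : ℤ) - p.P2 ν = x + z * 2 ^ (2001911 * e) ∧ |x| ≤ 2 ^ (1999048 * e - c)) ∧
    (∃ z : ℤ, (p.P2 ν' : ℤ) - p.P2 ν = z * 2 ^ (1912 * e)) ∧
    (∃ z : ℤ, (p.P3 ν' : ℤ) - p.P3 ν = z * 2 ^ (1912 * e)) ∧
    |(p.P1 ν' : ℤ) - p.P1 ν| ≤ 2 ^ (5998088 * e) ∧ |(p.P2 ν' : ℤ) - p.P2 ν| ≤ 2 ^ (3998089 * e) ∧
    |(p.P3 ν' : ℤ) - p.P3 ν| ≤ 2 ^ (1998090 * e) := by
  rw [Filter.eventually_atTop]
  refine ⟨max c (28 * p.S), ?_⟩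
  intro e he ν ν' hν hν' h
  have hc : c ≤ e := (le_max_left _ _).trans he
  have hS : 28 * p.S ≤ 2 ^ e := ((le_max_right _ _).trans he).trans Nat.lt_two_pow_self.le
  have h1 : ν % 2 ^ (1912 * e) = ν' % 2 ^ (1912 * e) := congrArg (fun k => k.1) h
  have h2 : ν / 2 ^ (1998089 * e) = ν' / 2 ^ (1998089 * e) := congrArg (fun k => k.2.1) h
  have h3 : p.P ν / 2 ^ (3999998 * e - c) % 2 ^ (1912 * e + c) = p.P ν' / 2 ^ (3999998 * e - c) % 2 ^ (1912 * e + c) :=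
    congrArg (fun k => k.2.2.1) h
  have h4 : p.P1 ν / 2 ^ (3999048 * e - c) % 2 ^ (2862 * e + c) = p.P1 ν' / 2 ^ (3999048 * e - c) % 2 ^ (2862 * e + c) :=
    congrArg (fun k => k.2.2.2.1) h
  have h5 : p.P1 ν / 2 ^ (1999998 * e - c) % 2 ^ (1913 * e + c) = p.P1 ν' / 2 ^ (1999998 * e - c) % 2 ^ (1913 * e + c) :=
    congrArg (fun k => k.2.2.2.2.1) h
  have h6 : p.P2 ν / 2 ^ (1999048 * e - c) % 2 ^ (2863 * e + c) = p.P2 ν' / 2 ^ (1999048 * e - c) % 2 ^ (2863 * e + c) :=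
    congrArg (fun k => k.2.2.2.2.2) h
  have w3 := ci_win _ _ _ _ h3
  have w4 := ci_win _ _ _ _ h4
  have w5 := ci_win _ _ _ _ h5
  have w6 := ci_win _ _ _ _ h6
  rw [show 3999998 * e - c + (1912 * e + c) = 4001910 * e by omega] at w3
  rw [show 3999048 * e - c + (2862 * e + c) = 4001910 * e by omega] at w4
  rw [show 1999998 * e - c + (1913 * e + c) = 2001911 * e by omega] at w5
  rw [show 1999048 * e - c + (2863 * e + c) = 2001911 * e by omega] at w6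
  have hb : |(p.P1 ν' : ℤ) - p.P1 ν| ≤ 2 ^ (5998088 * e) ∧ |(p.P2 ν' : ℤ) - p.P2 ν| ≤ 2 ^ (3998089 * e) ∧
      |(p.P3 ν' : ℤ) - p.P3 ν| ≤ 2 ^ (1998090 * e) := by
    rcases le_total ν ν' with hle | hle
    · obtain ⟨b1, b2, b3⟩ := ci_size p hS hν hle h2
      exact ⟨ci_abs (p.P1_mono hle) b1, ci_abs (p.P2_mono hle) b2, ci_abs (p.P3_mono hle) b3⟩
    · obtain ⟨b1, b2, b3⟩ := ci_size p hS hν' hle h2.symm
      refine ⟨?_, ?_, ?_⟩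
      · rw [abs_sub_comm]
        exact ci_abs (p.P1_mono hle) b1
      · rw [abs_sub_comm]
        exact ci_abs (p.P2_mono hle) b2
      · rw [abs_sub_comm]
        exact ci_abs (p.P3_mono hle) b3
  have hm : ν ≡ ν' [MOD 2 ^ (1912 * e)] := h1
  have m2 : p.P2 ν ≡ p.P2 ν' [MOD 2 ^ (1912 * e)] := by
    unfold Co.P2
    exact (((hm.pow 2).mul_left _).add (hm.mul_left _)).add_right _
  have m3 : p.P3 ν ≡ p.P3 ν' [MOD 2 ^ (1912 * e)] := by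
    unfold Co.P3
    exact (hm.mul_left _).add_right _
  exact ⟨w3, w4, w5, w6, ci_dvd m2, ci_dvd m3, hb⟩


/-- The difference of the values at `ν' + t` and `ν + t`. -/
theorem P_diff (p : Co) (ν ν' t : ℕ) :
    (p.P (ν' + t) : ℤ) - p.P (ν + t) = ((p.P ν' : ℤ) - p.P ν) + t * ((p.P1 ν' : ℤ) - p.P1 ν)
      + t ^ 2 * ((p.P2 ν' : ℤ) - p.P2 ν) + t ^ 3 * ((p.P3 ν' : ℤ) - p.P3 ν) := by
  rw [p.P_add, p.P_add]; push_cast; ring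

end Pool.Agent.Lib.MP_8fac0f_nt.Q4
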