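import Pool.Agent.Lib.MP_8fac0f_nt.C3.Defs

/-!
# Thue-Morse along quartic polynomials: definitions and basic facts
-/

set_option autoImplicit false

namespace Pool.Agent.Lib.MP_8fac0f_nt.Q4

open Finset
open Pool.Agent.Lib.MP_8fac0f_nt.C3 (di ex)

/-- The coefficients of a quartic polynomial. -/
structure Co where
  a : ℕ
  b : ℕ
  c : ℕ
  d : ℕ
  g : ℕ

namespace Co

variable (p : Co)

/-- The quartic polynomial. -/
def P (n : ℕ) : ℕ := p.a * n ^ 4 + p.b * n ^ 3 + p.c * n ^ 2 + p.d * n + p.g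

/-- The derivative. -/
def P1 (n : ℕ) : ℕ := 4 * p.a * n ^ 3 + 3 * p.b * n ^ 2 + 2 * p.c * n + p.d

/-- Half of the second derivative. -/
def P2 (n : ℕ) : ℕ := 6 * p.a * n ^ 2 + 3 * p.b * n + p.c

/-- One sixth of the third derivative. -/
def P3 (n : ℕ) : ℕ := 4 * p.a * n + p.b

theorem P_add (n h : ℕ) :
    p.P (n + h) = p.P n + h * p.P1 n + h ^ 2 * p.P2 n + h ^ 3 * p.P3 n + p.a * h ^ 4 := by
  unfold P P1 P2 P3; ring

theorem P1_add (n h : ℕ) :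
    p.P1 (n + h) = p.P1 n + 2 * h * p.P2 n + 3 * h ^ 2 * p.P3 n + 4 * p.a * h ^ 3 := by
  unfold P1 P2 P3; ring

theorem P2_add (n h : ℕ) : p.P2 (n + h) = p.P2 n + 3 * h * p.P3 n + 6 * p.a * h ^ 2 := by
  unfold P2 P3; ring

theorem P3_add (n h : ℕ) : p.P3 (n + h) = p.P3 n + 4 * p.a * h := by
  unfold P3; ring

theorem P_mono : Monotone p.P := by
  intro m n h; unfold P; gcongr

theorem P1_mono : Monotone p.P1 := by
  intro m n h; unfold P1; gcongr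

theorem P2_mono : Monotone p.P2 := by
  intro m n h; unfold P2; gcongr

theorem P3_mono : Monotone p.P3 := by
  intro m n h; unfold P3; gcongr

/-- The sum of the coefficients, a convenient constant. -/
def S : ℕ := p.a + p.b + p.c + p.d + p.g

theorem P_le (n m : ℕ) (h : n ≤ 2 ^ m) : p.P n ≤ p.S * 2 ^ (4 * m) := by
  have h1 : 1 ≤ 2 ^ m := Nat.one_le_two_pow
  have h4 : n ^ 4 ≤ 2 ^ (4 * m) := by
    rw [mul_comm, pow_mul]; exact Nat.pow_le_pow_left h 4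
  have h3 : n ^ 3 ≤ 2 ^ (4 * m) := by
    refine (Nat.pow_le_pow_left h 3).trans ?_
    rw [← pow_mul]; exact Nat.pow_le_pow_right (by norm_num) (by omega)
  have h2 : n ^ 2 ≤ 2 ^ (4 * m) := by
    refine (Nat.pow_le_pow_left h 2).trans ?_
    rw [← pow_mul]; exact Nat.pow_le_pow_right (by norm_num) (by omega)
  have h11 : n ≤ 2 ^ (4 * m) := by
    refine h.trans ?_
    exact Nat.pow_le_pow_right (by norm_num) (by omega)
  have h0 : 1 ≤ 2 ^ (4 * m) := Nat.one_le_two_pow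
  unfold P S
  calc p.a * n ^ 4 + p.b * n ^ 3 + p.c * n ^ 2 + p.d * n + p.g
      ≤ p.a * 2 ^ (4 * m) + p.b * 2 ^ (4 * m) + p.c * 2 ^ (4 * m) + p.d * 2 ^ (4 * m)
        + p.g * 2 ^ (4 * m) := by
        gcongr
        exact Nat.le_mul_of_pos_right _ (by positivity)
    _ = _ := by ring

theorem P1_le (n m : ℕ) (h : n ≤ 2 ^ m) : p.P1 n ≤ 4 * p.S * 2 ^ (3 * m) := by
  have h3 : n ^ 3 ≤ 2 ^ (3 * m) := by
    rw [mul_comm, pow_mul]; exact Nat.pow_le_pow_left h 3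
  have h2 : n ^ 2 ≤ 2 ^ (3 * m) := by
    refine (Nat.pow_le_pow_left h 2).trans ?_
    rw [← pow_mul]; exact Nat.pow_le_pow_right (by norm_num) (by omega)
  have h11 : n ≤ 2 ^ (3 * m) := by
    refine h.trans ?_
    exact Nat.pow_le_pow_right (by norm_num) (by omega)
  have h0 : 1 ≤ 2 ^ (3 * m) := Nat.one_le_two_pow
  unfold P1 S
  calc 4 * p.a * n ^ 3 + 3 * p.b * n ^ 2 + 2 * p.c * n + p.d
      ≤ 4 * p.a * 2 ^ (3 * m) + 3 * p.b * 2 ^ (3 * m) + 2 * p.c * 2 ^ (3 * m)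
        + p.d * 2 ^ (3 * m) := by
        gcongr
        exact Nat.le_mul_of_pos_right _ (by positivity)
    _ = (4 * p.a + 3 * p.b + 2 * p.c + p.d) * 2 ^ (3 * m) := by ring
    _ ≤ 4 * (p.a + p.b + p.c + p.d + p.g) * 2 ^ (3 * m) := by
        apply Nat.mul_le_mul_right; omega

theorem P2_le (n m : ℕ) (h : n ≤ 2 ^ m) : p.P2 n ≤ 6 * p.S * 2 ^ (2 * m) := by
  have h2 : n ^ 2 ≤ 2 ^ (2 * m) := by
    rw [mul_comm, pow_mul]; exact Nat.pow_le_pow_left h 2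
  have h11 : n ≤ 2 ^ (2 * m) := by
    refine h.trans ?_
    exact Nat.pow_le_pow_right (by norm_num) (by omega)
  have h0 : 1 ≤ 2 ^ (2 * m) := Nat.one_le_two_pow
  unfold P2 S
  calc 6 * p.a * n ^ 2 + 3 * p.b * n + p.c
      ≤ 6 * p.a * 2 ^ (2 * m) + 3 * p.b * 2 ^ (2 * m) + p.c * 2 ^ (2 * m) := by
        gcongr
        exact Nat.le_mul_of_pos_right _ (by positivity)
    _ = (6 * p.a + 3 * p.b + p.c) * 2 ^ (2 * m) := by ring
    _ ≤ 6 * (p.a + p.b + p.c + p.d + p.g) * 2 ^ (2 * m) := by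
        apply Nat.mul_le_mul_right; omega

theorem P3_le (n m : ℕ) (h : n ≤ 2 ^ m) : p.P3 n ≤ 4 * p.S * 2 ^ m := by
  unfold P3 S
  calc 4 * p.a * n + p.b
      ≤ 4 * p.a * 2 ^ m + p.b * 2 ^ m := by
        gcongr
        exact Nat.le_mul_of_pos_right _ (by positivity)
    _ = (4 * p.a + p.b) * 2 ^ m := by ring
    _ ≤ 4 * (p.a + p.b + p.c + p.d + p.g) * 2 ^ m := by
        apply Nat.mul_le_mul_right; omega

end Co

/-! ### Classes of starting points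

Unit `e`, `k = 2000000 e`, `j = k - e = 1999999 e`, `K = 3 k + ρ`, `W = lam + ρ`. -/

/-- The class of the starting point `ν < 2 ^ (1999999 e)`: residue, position and four windows of
digits of `P`, `P1`, `P1`, `P2`. -/
def cl (p : Co) (c e ν : ℕ) : ℕ × ℕ × ℕ × ℕ × ℕ × ℕ :=
  (ν % 2 ^ (1912 * e), ν / 2 ^ (1998089 * e),
    p.P ν / 2 ^ (3999998 * e - c) % 2 ^ (1912 * e + c),
    p.P1 ν / 2 ^ (3999048 * e - c) % 2 ^ (2862 * e + c),
    p.P1 ν / 2 ^ (1999998 * e - c) % 2 ^ (1913 * e + c),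
    p.P2 ν / 2 ^ (1999048 * e - c) % 2 ^ (2863 * e + c))

/-- The set of all possible classes. -/
def clS (c e : ℕ) : Finset (ℕ × ℕ × ℕ × ℕ × ℕ × ℕ) :=
  range (2 ^ (1912 * e)) ×ˢ range (2 ^ (1910 * e)) ×ˢ range (2 ^ (1912 * e + c)) ×ˢ
    range (2 ^ (2862 * e + c)) ×ˢ range (2 ^ (1913 * e + c)) ×ˢ range (2 ^ (2863 * e + c))

theorem cl_mem (p : Co) (c e ν : ℕ) (hν : ν < 2 ^ (1999999 * e)) : cl p c e ν ∈ clS c e := by
  unfold cl clS
  simp only [mem_product, mem_range]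
  refine ⟨Nat.mod_lt _ (by positivity), ?_, Nat.mod_lt _ (by positivity),
    Nat.mod_lt _ (by positivity), Nat.mod_lt _ (by positivity), Nat.mod_lt _ (by positivity)⟩
  rw [Nat.div_lt_iff_lt_mul (by positivity), ← pow_add]
  rwa [show 1910 * e + 1998089 * e = 1999999 * e by ring]

theorem card_clS (c e : ℕ) : (clS c e).card = 2 ^ (13372 * e + 4 * c) := by
  unfold clS
  simp only [card_product, card_range, ← pow_add]
  congr 1
  ring

/-- The difference of the values of `P` modulo `2 ^ K`. -/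
def Dl (p : Co) (K ν ν' : ℕ) : ℕ := (((p.P ν' : ℤ) - p.P ν) % 2 ^ K).toNat

/-- The window `[3 k - lam, 3 k + ρ)` of the difference: the environment number of a pair. -/
def Th (p : Co) (e lam ρ ν ν' : ℕ) : ℕ :=
  Dl p (6000000 * e + ρ) ν ν' / 2 ^ (6000000 * e - lam)

/-- The cubic Weyl sums with the coefficient `P3 μ` are small. -/
def GM1 (p : Co) (lam ρ e μ : ℕ) : Prop :=
  ∀ z : ℕ, 1 ≤ z → z < 2 ^ (lam + ρ) →
    ∑ h ∈ Ico (1 : ℕ) (2 ^ (400000 * e)), ((Ico 1 (2 ^ (400000 * e))).filter fun t : ℕ =>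
      di (6 * t * h * z * p.P3 μ / 2 ^ (1200003 * e + ρ)) < 1 / 2 ^ (200000 * e)).card
      ≤ 2 ^ (750000 * e)

/-- The quadratic Weyl sums are small. -/
def GM2 (p : Co) (c e μ : ℕ) : Prop :=
  ∀ x y : ℤ, (x ≠ 0 ∨ y ≠ 0) → |x| < 2 ^ (1912 * e + c) → |y| < 2 ^ (2862 * e + c) →
    ((Ico 1 (2 ^ (400000 * e))).filter fun t : ℕ =>
      di (2 * t * (x * p.P2 μ + 3 * y * p.P3 μ) / 2 ^ (801912 * e)) < 1 / 2 ^ (200000 * e)).card
      ≤ 2 ^ (350000 * e)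

/-- The linear Weyl sums are small. -/
def GM3 (p : Co) (c e μ : ℕ) : Prop :=
  ∀ x y : ℤ, (x ≠ 0 ∨ y ≠ 0) → |x| < 2 ^ (1913 * e + c) → |y| < 2 ^ (2863 * e + c) →
    1 / 2 ^ (100000 * e) ≤ di ((2 * x * p.P2 μ + 3 * y * p.P3 μ) / 2 ^ (401912 * e))

/-- The phase of the Weyl sums of the class bound. -/
noncomputable def phM (p : Co) (ρ e : ℕ) (x1 x2 x3 x4 x5 : ℤ) (ν : ℕ) : ℝ :=
  x1 * (p.P ν / 2 ^ (4001910 * e)) + x2 * (p.P1 ν / 2 ^ (4001910 * e))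
    + x3 * (p.P1 ν / 2 ^ (2001911 * e)) + x4 * (p.P2 ν / 2 ^ (2001911 * e))
    + x5 * (p.P ν / 2 ^ (6000000 * e + ρ))

end Pool.Agent.Lib.MP_8fac0f_nt.Q4
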