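import Pool.Agent.Lib.MP_8fac0f_nt.Q4.Defs

/-!
# Quartics, chapter 3: definitions for the A-phase

Unit `e`, `j = 1999999 e`, `3 j = 5999997 e`, `2 j = 3999998 e`, `W = lam + ρ`,
`K = 6000000 e + ρ`.
-/

set_option autoImplicit false

namespace Pool.Agent.Lib.MP_8fac0f_nt.Q4

open Finset
open Pool.Agent.Lib.MP_8fac0f_nt.C3 (di ex)

/-- `q` is a good multiplier at the point `ν` for slice number `i` and target `Y`: with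
`D = 2 ^ (W + i e)` the six numbers `q P1(ν) D / 2^(3j)`, `q 2 P2(ν) D / 2^(2j)`,
`q 3 P3(ν) D / 2^j`, `q P1(ν) / 2^(3j) - Y / 2^W`, `q 2 P2(ν) / 2^(2j)`, `q 3 P3(ν) / 2^j` are
within `2^(-4e)` of an integer. -/
def QC (p : Co) (e W i Y ν q : ℕ) : Prop :=
  di ((q : ℝ) * (p.P1 ν : ℝ) * 2 ^ (W + i * e) / 2 ^ (5999997 * e)) ≤ 1 / 2 ^ (4 * e) ∧
  di ((q : ℝ) * (2 * (p.P2 ν : ℝ)) * 2 ^ (W + i * e) / 2 ^ (3999998 * e)) ≤ 1 / 2 ^ (4 * e) ∧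
  di ((q : ℝ) * (3 * (p.P3 ν : ℝ)) * 2 ^ (W + i * e) / 2 ^ (1999999 * e)) ≤ 1 / 2 ^ (4 * e) ∧
  di ((q : ℝ) * (p.P1 ν : ℝ) / 2 ^ (5999997 * e) - (Y : ℝ) / 2 ^ W) ≤ 1 / 2 ^ (4 * e) ∧
  di ((q : ℝ) * (2 * (p.P2 ν : ℝ)) / 2 ^ (3999998 * e)) ≤ 1 / 2 ^ (4 * e) ∧
  di ((q : ℝ) * (3 * (p.P3 ν : ℝ)) / 2 ^ (1999999 * e)) ≤ 1 / 2 ^ (4 * e)

/-- The shift `x` at the point `ν` adds `A * 2 ^ (6000000 e - lam)` modulo `2 ^ (6000000 e + ρ)`,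
up to `C * 2 ^ (6000000 e - e)`. -/
def XP (p : Co) (e lam ρ κ x A C ν : ℕ) : Prop :=
  ∀ s v : ℕ, s + x < 2 ^ (951 * e) → v ≤ κ * 2 ^ e → ∃ D z : ℤ,
    (p.P (ν + s + x + 2 ^ (1999999 * e) * v) : ℤ)
      = p.P (ν + s + 2 ^ (1999999 * e) * v) + (A : ℤ) * 2 ^ (6000000 * e - lam) + D
        + z * 2 ^ (6000000 * e + ρ) ∧
    |D| ≤ (C : ℤ) * 2 ^ (6000000 * e - e)

/-- The conclusion of TOP for the pair `(ν, ν')`: for `s < 2 ^ (951 e)`, `v ≤ κ 2 ^ e`,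
`P(ν' + s + 2^j v) = P(ν + s + 2^j v) + (P ν' - P ν)` modulo `2 ^ (6000000 e + ρ)`,
up to `2 ^ (6000000 e - e)`. -/
def TP (p : Co) (e ρ κ ν ν' : ℕ) : Prop :=
  ∀ s v : ℕ, s < 2 ^ (951 * e) → v ≤ κ * 2 ^ e → ∃ D z : ℤ,
    (p.P (ν' + s + 2 ^ (1999999 * e) * v) : ℤ)
      = p.P (ν + s + 2 ^ (1999999 * e) * v) + ((p.P ν' : ℤ) - p.P ν) + D
        + z * 2 ^ (6000000 * e + ρ) ∧
    |D| ≤ 2 ^ (6000000 * e - e)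

end Pool.Agent.Lib.MP_8fac0f_nt.Q4
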