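import Pool.Agent.Lib.MP_8fac0f_nt.Q4.Defs3
import Pool.Agent.Lib.MP_8fac0f_nt.N.Defs

/-!
# Quartics, chapters 4 and 5: definitions
-/

set_option autoImplicit false

namespace Pool.Agent.Lib.MP_8fac0f_nt.Q4

open Finset
open Pool.Agent.Lib.MP_8fac0f_nt.N (sg)
open Pool.Agent.Lib.MP_8fac0f_nt.C3 (di ex)

/-- The top digits of `P ν' - P ν`. -/
def That (p : Co) (lam ρ e ν ν' : ℕ) : ℕ :=
  (((p.P ν' : ℤ) - p.P ν) % 2 ^ (6000000 * e + ρ)).toNat / 2 ^ (6000000 * e - lam)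

theorem Th_eq (p : Co) (lam ρ e ν ν' : ℕ) : Th p e lam ρ ν ν' = That p lam ρ e ν ν' := rfl

/-- Multipliers of the targets of the A-shifts. -/
def bet (R i : ℕ) : ℕ := (2 * R) ^ (i + 1)

/-- The shifts are linearly and quadratically independent, for small coefficients. -/
def Gen {M : ℕ} (Ξ : ℕ) (h : Fin M → ℕ) : Prop :=
  (∀ ξ : Fin M → ℤ, ξ ≠ 0 → (∀ i, |ξ i| ≤ Ξ) → ∑ i, ξ i * (h i : ℤ) ≠ 0) ∧
  (∀ ξ : Fin M → Fin M → ℤ, (∃ i l, i ≤ l ∧ ξ i l ≠ 0) → (∀ i l, |ξ i l| ≤ Ξ) →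
    ∑ i, ∑ l ∈ univ.filter (fun l => i ≤ l), ξ i l * ((h i : ℤ) * h l) ≠ 0)

/-- Typical base point of the B-phase. -/
def Good4 (p : Co) (ρ κ Ξ e n : ℕ) : Prop :=
  (∀ z V : ℕ, 1 ≤ z → z ≤ Ξ → V ≤ κ * 2 ^ e →
    ∑ h ∈ Ico (1 : ℕ) V, ((Ico 1 V).filter fun t : ℕ =>
      di (6 * t * h * z * (p.P3 n / 2 ^ (3 * e + ρ) : ℝ)) < 1 / 2 ^ (e / 2)).card
      ≤ 2 ^ (2 * e - e / 8)) ∧
  (∀ m V : ℕ, 1 ≤ m → m ≤ Ξ * 2 ^ (e / 16) → V ≤ κ * 2 ^ e →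
    ((Ico 1 V).filter fun t : ℕ =>
      di (6 * t * m * (p.P3 n / 2 ^ (3 * e + ρ) : ℝ)) < 1 / 2 ^ (e / 2)).card ≤ 2 ^ (e - e / 8)) ∧
  (∀ m : ℕ, 1 ≤ m → m ≤ Ξ * 2 ^ (e / 8) →
    1 / 2 ^ (e / 2) ≤ di (3 * m * (p.P3 n / 2 ^ (3 * e + ρ) : ℝ)))

/-- Indices of the parameters of the window. -/
abbrev Dq (M : ℕ) : Type := Fin M ⊕ {x : Fin M × Fin M // x.1 ≤ x.2}

/-- Coefficients of the parameters of the window at the vertex `w`. -/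
def Cq {M : ℕ} (w : Finset (Fin M)) : Dq M → ℕ
  | Sum.inl i => if i ∈ w then 1 else 0
  | Sum.inr x => if x.1.1 ∈ w ∧ x.1.2 ∈ w then (if x.1.1 = x.1.2 then 1 else 2) else 0

/-- The point `σ` of the pair. -/
abbrev pick (ν ν' : ℕ) (σ : Bool) : ℕ := bif σ then ν' else ν

/-- The product to be averaged. -/
noncomputable def FF (p : Co) (U : Finset ℕ) (ρ e n : ℕ) : ℝ :=
  ∏ u ∈ U, sg (p.P (n + u) % 2 ^ (6000000 * e + ρ))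

/-- Lower end of the slice `i`. -/
def slo (lam e i : ℕ) : ℕ := 6000000 * e - lam - (i + 1) * e

/-- The slice `i` at the point `ν`. -/
noncomputable def Phi (p : Co) (U : Finset ℕ) (lam e i ν y v : ℕ) : ℝ :=
  ∏ u ∈ U, sg (p.P (ν + y + u + 2 ^ (1999999 * e) * v) / 2 ^ slo lam e i % 2 ^ e)

/-- The low digits and the window, at both points. -/
noncomputable def Psi (p : Co) (U : Finset ℕ) (lam ρ e ν ν' y v : ℕ) : ℝ :=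
  ∏ σ : Bool, ∏ u ∈ U,
    (sg (p.P (pick ν ν' σ + y + u + 2 ^ (1999999 * e) * v) % 2 ^ (3999998 * e)) *
      sg (p.P (pick ν ν' σ + y + u + 2 ^ (1999999 * e) * v) / 2 ^ (6000000 * e - lam)
        % 2 ^ (lam + ρ)))

/-- The expansion (PTS) of the points `pt wA s u` around `n0`, for all `v ≤ κ 2 ^ e` and all shifts
`m ≤ 2 ^ (e / 16)`; `A i = r i * β i`, `Δ < 2 ^ K`, `T = Δ / 2 ^ (3 k - lam)`. -/
def PtExp (p : Co) (U : Finset ℕ) (MA κ lam ρ e n0 Δ : ℕ) (A : Fin MA → ℕ)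
    (pt : Finset (Fin MA) → ℕ → ℕ → ℕ) : Prop :=
  ∀ (wA : Finset (Fin MA)) (s u v m : ℕ), s < 2 → u ∈ U → v ≤ κ * 2 ^ e → m ≤ 2 ^ (e / 16) →
    ∃ D z : ℤ, (p.P (pt wA s u + 2 ^ (1999999 * e) * (v + m)) : ℤ) =
      p.P (n0 + 2 ^ (1999999 * e) * v)
        + m * (2 ^ (1999999 * e) * p.P1 (n0 + 2 ^ (1999999 * e) * v))
        + m ^ 2 * (2 ^ (3999998 * e) * p.P2 (n0 + 2 ^ (1999999 * e) * v))
        + m ^ 3 * (2 ^ (5999997 * e) * p.P3 n0)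
        + u * p.P1 (n0 + 2 ^ (1999999 * e) * v)
        + (∑ i ∈ wA, (A i : ℤ)) * (Δ / 2 ^ (6000000 * e - lam) : ℕ) * 2 ^ (6000000 * e - lam)
        + s * Δ + D + z * 2 ^ (6000000 * e + ρ) ∧
      |D| ≤ 2 ^ (6000000 * e - e / 4)

/-- The shift `x` acts at `ν` on the digits from `3 k - lam` on as the addition of `N` (for all
`s < 2 ^ (950 e + 1)` and `v ≤ 2 ^ (e + s0)`). Delivered by `XPA` at `ν` for the directions `(0, i)`,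
and by `XPA` at `ν'` and `TOP` twice for the directions `(1, i)`. -/
def Act (p : Co) (lam ρ s0 e ν x N : ℕ) : Prop :=
  ∀ s v : ℕ, s < 2 ^ (950 * e + 1) → v ≤ 2 ^ (e + s0) →
    ∃ D z : ℤ, (p.P (ν + s + x + 2 ^ (1999999 * e) * v) : ℤ)
        = p.P (ν + s + 2 ^ (1999999 * e) * v) + N * 2 ^ (6000000 * e - lam) + D
          + z * 2 ^ (6000000 * e + ρ) ∧
      |D| ≤ 2 ^ (5999999 * e + 2)

end Pool.Agent.Lib.MP_8fac0f_nt.Q4
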