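import Pool.Agent.Lib.MP_8fac0f_nt.Q4.SL2

/-!
# Row SL3: sublevel sets of cubic functions modulo one

PROOF IN WORDS.  Let `η = th ^ 16`, `S` the set, `S_h = {n ∈ S : n + h ∈ S}`,
`S_{h,k} = {n ∈ S_h : n + k ∈ S_h}` (so `n, n+h, n+k, n+h+k ∈ S`).  By `pair_count` (file SL2),
`|S|² ≤ 2 ∑_h |S_h|`, so `|S|⁴ ≤ 4 N ∑_h |S_h|² ≤ 8 N ∑_{h,k<N} |S_{h,k}|` (Cauchy-Schwarz:
`sq_sum_le_card_mul_sum_sq`).
From `hA1`, `hA2`: `1 ≤ N (|A| N²) ≤ η N`, so `N ≥ 1`.
For `n ∈ S_{h,k}` the second difference of `A n³ + B n² + C n + E`, which is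
`6 A h k n + c_{h,k}`, is within `4 η` of an integer, so for `h, k ≥ 1`, by `sl1_gen`,
`|S_{h,k}| ≤ (6 |A| h k N + 2) (8 η / (6 |A| h k) + 1)
 = 8 η N + 6 |A| h k N + 16 η / (6 |A| h k) + 2`.
If `h, k ≥ th⁴ N`: `6 |A| h k N ≤ 6 |A| N³ ≤ 6 η N`, `16 η / (6 |A| h k) ≤ (8/3) η N³ / (th⁸ N²)
= (8/3) th⁸ N`, `2 ≤ 2 η N`; so `|S_{h,k}| ≤ 16 th¹⁶ N + (8/3) th⁸ N ≤ 19 th⁸ N ≤ 19 th⁴ N`.
The other pairs `(h,k)` are at most `2 N (th⁴ N + 1) ≤ 4 th⁴ N²`, each with `|S_{h,k}| ≤ N`.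
Total `|S|⁴ ≤ 8 N (4 th⁴ N² · N + N² · 19 th⁴ N) = 184 th⁴ N⁴ ≤ (4 th N)⁴ = 256 th⁴ N⁴`.
-/

set_option autoImplicit false

namespace Pool.Agent.Lib.MP_8fac0f_nt.Q4

open Finset
open Pool.Agent.Lib.MP_8fac0f_nt.C3 (di ex)

theorem sl3 (A B C E th : ℝ) (N : ℕ) (h0 : 0 < th) (h1 : th ≤ 1) (hA1 : 1 ≤ |A| * N ^ 3)
    (hA2 : |A| * N ^ 2 ≤ th ^ 16) :
    (((range N).filter fun n : ℕ => di (A * n ^ 3 + B * n ^ 2 + C * n + E) ≤ th ^ 16).card : ℝ)
      ≤ 4 * th * N := by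
  classical
  set f : ℕ → ℝ := fun n => A * n ^ 3 + B * n ^ 2 + C * n + E with hf
  set η := th ^ 16 with hη
  set S := (range N).filter fun n : ℕ => di (f n) ≤ η with hS
  have hN0 : (0 : ℝ) ≤ N := Nat.cast_nonneg N
  have hη0 : 0 < η := by positivity
  have hA0 : 0 < |A| := by
    by_contra h
    have h3 : |A| = 0 := le_antisymm (not_lt.1 h) (abs_nonneg _)
    rw [h3, zero_mul] at hA1
    linarith
  have hNη : 1 ≤ η * N := by
    calc (1 : ℝ) ≤ |A| * N ^ 3 := hA1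
      _ = (|A| * N ^ 2) * N := by ring
      _ ≤ η * N := mul_le_mul_of_nonneg_right hA2 hN0
  have hth4 : η ≤ th ^ 4 := pow_le_pow_of_le_one h0.le h1 (by norm_num)
  have hth8 : η ≤ th ^ 8 := pow_le_pow_of_le_one h0.le h1 (by norm_num)
  have hth84 : th ^ 8 ≤ th ^ 4 := pow_le_pow_of_le_one h0.le h1 (by norm_num)
  have hN4 : 1 ≤ th ^ 4 * N := hNη.trans (mul_le_mul_of_nonneg_right hth4 hN0)
  set T : ℕ → Finset ℕ := fun h => S.filter fun n : ℕ => n + h ∈ S with hT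
  set W : ℕ → ℕ → Finset ℕ := fun h k => (T h).filter fun n : ℕ => n + k ∈ T h with hW
  have hSN : ∀ n ∈ S, n < N := fun n hn => mem_range.1 (mem_filter.1 hn).1
  have hTN : ∀ h, ∀ n ∈ T h, n < N := fun h n hn => hSN n (mem_filter.1 hn).1
  have p1 : (S.card : ℝ) ^ 2 ≤ 2 * ∑ h ∈ range N, ((T h).card : ℝ) := by
    exact_mod_cast pair_count S N hSN
  have p2 : ∀ h, ((T h).card : ℝ) ^ 2 ≤ 2 * ∑ k ∈ range N, ((W h k).card : ℝ) := by
    intro h
    exact_mod_cast pair_count (T h) N (hTN h)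
  have p3 : (S.card : ℝ) ^ 4 ≤ 8 * N * ∑ h ∈ range N, ∑ k ∈ range N, ((W h k).card : ℝ) := by
    have q1 : (∑ h ∈ range N, ((T h).card : ℝ)) ^ 2 ≤ N * ∑ h ∈ range N, ((T h).card : ℝ) ^ 2 := by
      have := sq_sum_le_card_mul_sum_sq (s := range N) (f := fun h => ((T h).card : ℝ))
      rwa [card_range] at this
    have q2 : ∑ h ∈ range N, ((T h).card : ℝ) ^ 2 ≤
        2 * ∑ h ∈ range N, ∑ k ∈ range N, ((W h k).card : ℝ) := by
      rw [mul_sum]
      exact sum_le_sum fun h _ => p2 h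
    calc (S.card : ℝ) ^ 4 = ((S.card : ℝ) ^ 2) ^ 2 := by ring
      _ ≤ (2 * ∑ h ∈ range N, ((T h).card : ℝ)) ^ 2 := pow_le_pow_left₀ (by positivity) p1 2
      _ = 4 * (∑ h ∈ range N, ((T h).card : ℝ)) ^ 2 := by ring
      _ ≤ 4 * (N * (2 * ∑ h ∈ range N, ∑ k ∈ range N, ((W h k).card : ℝ))) := by
          refine mul_le_mul_of_nonneg_left (q1.trans ?_) (by norm_num)
          exact mul_le_mul_of_nonneg_left q2 hN0
      _ = _ := by ring
  -- the trivial bound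
  have hWN : ∀ h k, ((W h k).card : ℝ) ≤ N := by
    intro h k
    have h3 : W h k ⊆ range N := fun n hn => mem_range.2 (hTN h n (mem_filter.1 hn).1)
    have h4 := card_le_card h3
    rw [card_range] at h4
    exact_mod_cast h4
  -- the good pairs
  have hgood : ∀ h ∈ range N, ∀ k ∈ range N, th ^ 4 * N ≤ h → th ^ 4 * N ≤ k →
      ((W h k).card : ℝ) ≤ 19 * (th ^ 4 * N) := by
    intro h hh k hk hh4 hk4
    have hhN : (h : ℝ) ≤ N := by exact_mod_cast (mem_range.1 hh).le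
    have hkN : (k : ℝ) ≤ N := by exact_mod_cast (mem_range.1 hk).le
    have hh1 : (0 : ℝ) < h := by linarith
    have hk1 : (0 : ℝ) < k := by linarith
    set u : ℝ := 6 * A * h * k with hu
    have hu0 : u ≠ 0 := by
      have : A ≠ 0 := abs_pos.1 hA0
      positivity
    have habs : |u| = 6 * |A| * h * k := by
      rw [hu, abs_mul, abs_mul, abs_mul, abs_of_pos hh1, abs_of_pos hk1]
      norm_num
    have hsub : W h k ⊆ (range N).filter fun n : ℕ =>
        di (u * n + (3 * A * h * k * (h + k) + 2 * B * h * k)) ≤ 4 * η := by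
      intro n hn
      have hn1 := (mem_filter.1 hn).1
      have hn2 := (mem_filter.1 hn).2
      have a1 : di (f n) ≤ η := (mem_filter.1 (mem_filter.1 hn1).1).2
      have a2 : di (f (n + h)) ≤ η := (mem_filter.1 (mem_filter.1 hn1).2).2
      have a3 : di (f (n + k)) ≤ η := (mem_filter.1 (mem_filter.1 hn2).1).2
      have a4 : di (f (n + k + h)) ≤ η := (mem_filter.1 (mem_filter.1 hn2).2).2
      rw [mem_filter]
      refine ⟨mem_range.2 (hTN h n hn1), ?_⟩
      have e1 : u * n + (3 * A * h * k * (h + k) + 2 * B * h * k) =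
          (f (n + k + h) - f (n + h)) - (f (n + k) - f n) := by
        rw [hf, hu]
        push_cast
        ring
      rw [e1]
      have b1 := C3.di_sub (f (n + k + h) - f (n + h)) (f (n + k) - f n)
      have b2 := C3.di_sub (f (n + k + h)) (f (n + h))
      have b3 := C3.di_sub (f (n + k)) (f n)
      linarith
    have h3 : ((W h k).card : ℝ) ≤ (|u| * N + 2) * (2 * (4 * η) / |u| + 1) := by
      refine le_trans (Nat.cast_le.2 (card_le_card hsub)) ?_
      exact sl1_gen u _ (4 * η) N hu0 (by positivity)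
    have hupos : 0 < |u| := abs_pos.2 hu0
    have h4 : |u| * N ≤ 6 * (η * N) := by
      rw [habs]
      calc 6 * |A| * h * k * N ≤ 6 * |A| * N * N * N := by gcongr
        _ = 6 * ((|A| * N ^ 2) * N) := by ring
        _ ≤ 6 * (η * N) := by gcongr
    have h5 : 16 * η / |u| ≤ 8 / 3 * (th ^ 8 * N) := by
      rw [div_le_iff₀ hupos, habs]
      have h6 : 6 * |A| * (th ^ 4 * N) * (th ^ 4 * N) ≤ 6 * |A| * h * k := by gcongr
      calc 16 * η ≤ 16 * η * (|A| * N ^ 3) := le_mul_of_one_le_right (by positivity) hA1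
        _ = 8 / 3 * (th ^ 8 * N) * (6 * |A| * (th ^ 4 * N) * (th ^ 4 * N)) := by
            rw [hη]
            ring
        _ ≤ 8 / 3 * (th ^ 8 * N) * (6 * |A| * h * k) :=
            mul_le_mul_of_nonneg_left h6 (by positivity)
    have h7 : (|u| * N + 2) * (2 * (4 * η) / |u| + 1) = 8 * (η * N) + |u| * N + 16 * η / |u| + 2 := by
      field_simp
      ring
    rw [h7] at h3
    have h8 : η * N ≤ th ^ 4 * N := mul_le_mul_of_nonneg_right hth4 hN0
    have h9 : th ^ 8 * N ≤ th ^ 4 * N := mul_le_mul_of_nonneg_right hth84 hN0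
    linarith
  -- few bad indices
  set Bd := (range N).filter fun h : ℕ => (h : ℝ) < th ^ 4 * N with hBd
  have hbad : (Bd.card : ℝ) ≤ 2 * (th ^ 4 * N) := by
    have h3 : Bd ⊆ range ⌈th ^ 4 * (N : ℝ)⌉₊ := by
      intro h hh
      rw [mem_range]
      exact Nat.lt_ceil.2 (mem_filter.1 hh).2
    have h4 := card_le_card h3
    rw [card_range] at h4
    have h5 := Nat.ceil_lt_add_one (a := th ^ 4 * (N : ℝ)) (by positivity)
    have h6 : (Bd.card : ℝ) ≤ (⌈th ^ 4 * (N : ℝ)⌉₊ : ℝ) := by exact_mod_cast h4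
    linarith
  have hsum : ∑ h ∈ range N, ∑ k ∈ range N, ((W h k).card : ℝ) ≤ 23 * (th ^ 4 * N ^ 3) := by
    have h3 : ∀ h ∈ range N, ∀ k ∈ range N, ((W h k).card : ℝ) ≤
        (if (h : ℝ) < th ^ 4 * N then (N : ℝ) else 0) + (if (k : ℝ) < th ^ 4 * N then (N : ℝ) else 0) +
          19 * (th ^ 4 * N) := by
      intro h hh k hk
      have h9 : 0 ≤ 19 * (th ^ 4 * (N : ℝ)) := by positivity
      by_cases c1 : (h : ℝ) < th ^ 4 * N
      · rw [if_pos c1]
        have := hWN h k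
        have h10 : 0 ≤ (if (k : ℝ) < th ^ 4 * N then (N : ℝ) else 0) := by split_ifs <;> positivity
        linarith
      · by_cases c2 : (k : ℝ) < th ^ 4 * N
        · rw [if_neg c1, if_pos c2]
          have := hWN h k
          linarith
        · rw [if_neg c1, if_neg c2]
          have := hgood h hh k hk (not_lt.1 c1) (not_lt.1 c2)
          linarith
    refine (sum_le_sum fun h hh => sum_le_sum fun k hk => h3 h hh k hk).trans ?_
    have h4 : ∑ k ∈ range N, (if (k : ℝ) < th ^ 4 * N then (N : ℝ) else 0) = Bd.card * N := by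
      rw [← sum_filter, sum_const, nsmul_eq_mul]
    simp only [sum_add_distrib, sum_const, card_range, nsmul_eq_mul, h4]
    rw [← mul_sum, h4]
    have h5 : (Bd.card : ℝ) * N ^ 2 ≤ 2 * (th ^ 4 * N) * N ^ 2 :=
      mul_le_mul_of_nonneg_right hbad (by positivity)
    nlinarith
  have hfin : (S.card : ℝ) ^ 4 ≤ (4 * th * N) ^ 4 := by
    refine p3.trans ?_
    calc 8 * (N : ℝ) * ∑ h ∈ range N, ∑ k ∈ range N, ((W h k).card : ℝ) ≤
        8 * N * (23 * (th ^ 4 * N ^ 3)) := mul_le_mul_of_nonneg_left hsum (by positivity)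
      _ = 184 * (th ^ 4 * N ^ 4) := by ring
      _ ≤ 256 * (th ^ 4 * N ^ 4) := by
          have : 0 ≤ th ^ 4 * (N : ℝ) ^ 4 := by positivity
          linarith
      _ = (4 * th * N) ^ 4 := by ring
  exact le_of_pow_le_pow_left₀ (by norm_num) (by positivity) hfin

end Pool.Agent.Lib.MP_8fac0f_nt.Q4
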