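import Pool.Agent.Lib.MP_8fac0f_nt.Q4.Defs
import Pool.Agent.Lib.MP_8fac0f_nt.C3.Lin
import Pool.Agent.Lib.MP_8fac0f_nt.C3.Eqm
import Pool.Agent.Lib.MP_8fac0f_nt.Q4.SL3

/-!
# EQH: the values of a quartic polynomial are rarely close to a multiple of `2 ^ s`, `s` high

Proof (text EQH).  `H` a constant `> 16 / ε`, `th` a constant with `4 * th * H ≤ ε / 8`,
`γ = th ^ 16`, `τ = min (ε / 64) γ`, `M0 = 2 ^ e`.
* Average over `h < M0`: `C3.eqm_shift` and `sum_comm`, as in `C3.eqm_fin` (there the shift is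
  `2 ^ j * m`, here it is `h`, loss `M0 ≤ ε / 16 * N`).
* For `n < N`, `h < 2 ^ e`: `P (n + h) = P n + h * P1 n + D`, `D = h ^ 2 P2 n + h ^ 3 P3 n + a h ^ 4
  ≤ C κ ^ 2 2 ^ (4000002 e)` (`P_add`, `P2_le`, `P3_le` with `n ≤ 2 ^ (2000000 e + κ)`), and
  `D / 2 ^ s ≤ τ` for large `e` as `s ≥ 4001910 e - lam`. So `di (P (n + h) / 2 ^ s) ≤ τ` implies
  `di (P n / 2 ^ s + h * (P1 n / 2 ^ s)) ≤ 2 τ`.
* `C3.lin_count` with `α = P1 n / 2 ^ s`, `β = P n / 2 ^ s`: at most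
  `M0 (4 τ + 1 / H) + H (8 τ / γ + 3)` such `h`, unless `di (m * P1 n / 2 ^ s) < γ` for some
  `1 ≤ m ≤ H`.
* For fixed `m` the number of `n < N` with `di (m * P1 n / 2 ^ s) ≤ th ^ 16` is `≤ 4 * th * N` by SL3:
  `A = 4 a m / 2 ^ s`, `|A| N ^ 3 ≥ 4 a m 2 ^ (6000000 e) / 2 ^ (6000000 e - lam) ≥ 1`,
  `|A| N ^ 2 ≤ 4 a H κ ^ 2 2 ^ lam 2 ^ (4000000 e) / 2 ^ (4001910 e) ≤ th ^ 16` for large `e`.
-/

set_option autoImplicit false

namespace Pool.Agent.Lib.MP_8fac0f_nt.Q4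

open Finset Filter Topology
open Pool.Agent.Lib.MP_8fac0f_nt.C3 (di ex)

open Classical in
/-- the finite inequality: average over the shifts `h < M0` -/
private theorem eqh_fin (p : Co) (H s N M0 : ℕ) (hH : 1 ≤ H) (γ τ : ℝ) (hγ : 0 < γ) (hτ : 0 ≤ τ)
    (hM : 0 < M0)
    (hD : ∀ n < N, ∀ h < M0, ((h ^ 2 * p.P2 n + h ^ 3 * p.P3 n + p.a * h ^ 4 : ℕ) : ℝ) / 2 ^ s ≤ τ) :
    (((range N).filter fun n : ℕ => di (p.P n / 2 ^ s) ≤ τ).card : ℝ) ≤
      N * (4 * τ + 1 / H) + N * (H * (8 * τ / γ + 3)) / M0 +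
      (((range N).filter fun n : ℕ => ∃ m : ℕ, (1 ≤ m ∧ m ≤ H) ∧
        di (m * (p.P1 n / 2 ^ s : ℝ)) < γ).card : ℝ) + M0 := by
  have hMr : (0 : ℝ) < M0 := by exact_mod_cast hM
  have hHr : (0 : ℝ) < H := by exact_mod_cast hH
  set E : ℕ → Prop := fun n => di (p.P n / 2 ^ s) ≤ τ with hE
  set B : ℕ → Prop := fun n => ∃ m : ℕ, (1 ≤ m ∧ m ≤ H) ∧
      di (m * (p.P1 n / 2 ^ s : ℝ)) < γ with hB
  have h1 : ∀ m ∈ range M0, (((range N).filter E).card : ℝ) ≤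
      (((range N).filter fun n => E (n + m)).card : ℝ) + M0 := by
    intro m hm
    have h2 := C3.eqm_shift E N m
    have h3 : m ≤ M0 := (mem_range.1 hm).le
    have h4 : ((range N).filter E).card ≤
      ((range N).filter fun n => E (n + m)).card + M0 := by omega
    exact_mod_cast h4
  have h2 : (M0 : ℝ) * (((range N).filter E).card : ℝ) ≤
      ∑ m ∈ range M0, (((range N).filter fun n => E (n + m)).card : ℝ) + M0 * M0 := by
    have := sum_le_sum h1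
    rw [sum_const, card_range, nsmul_eq_mul, sum_add_distrib, sum_const, card_range,
      nsmul_eq_mul] at this
    exact this
  have h3 : ∑ m ∈ range M0, (((range N).filter fun n => E (n + m)).card : ℝ) =
      ∑ n ∈ range N, (((range M0).filter fun m => E (n + m)).card : ℝ) := by
    have h4 : ∑ m ∈ range M0, ((range N).filter fun n => E (n + m)).card =
        ∑ n ∈ range N, ((range M0).filter fun m => E (n + m)).card := by
      simp only [card_filter]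
      exact sum_comm
    exact_mod_cast h4
  have h4 : ∀ n ∈ range N, (((range M0).filter fun m => E (n + m)).card : ℝ) ≤
      (M0 * (4 * τ + 1 / H) + H * (8 * τ / γ + 3)) + M0 * (if B n then 1 else 0) := by
    intro n hnN
    by_cases hn : B n
    · rw [if_pos hn, mul_one]
      have h5 : (((range M0).filter fun m => E (n + m)).card : ℝ) ≤ M0 := by
        have := card_filter_le (range M0) fun m => E (n + m)
        rw [card_range] at this
        exact_mod_cast this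
      have h6 : 0 ≤ M0 * (4 * τ + 1 / H) + H * (8 * τ / γ + 3) := by positivity
      linarith
    · rw [if_neg hn, mul_zero, add_zero]
      have h5 := C3.lin_count (p.P1 n / 2 ^ s : ℝ) (p.P n / 2 ^ s) γ (2 * τ) H M0 hH hγ
        (by linarith) (by
          intro m hm1 hm2
          by_contra hcon
          exact hn ⟨m, ⟨hm1, hm2⟩, not_le.1 hcon⟩)
      have h6 : (((range M0).filter fun m => E (n + m)).card : ℝ) ≤
          (((range M0).filter fun m : ℕ => di ((p.P n / 2 ^ s : ℝ) + m * (p.P1 n / 2 ^ s)) ≤ 2 * τ).card : ℝ) := by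
        have : ((range M0).filter fun m => E (n + m)) ⊆
            (range M0).filter fun m : ℕ => di ((p.P n / 2 ^ s : ℝ) + m * (p.P1 n / 2 ^ s)) ≤ 2 * τ := by
          intro m hm
          rw [mem_filter] at hm ⊢
          refine ⟨hm.1, ?_⟩
          have h7 : di (p.P (n + m) / 2 ^ s) ≤ τ := hm.2
          have h8 := hD n (mem_range.1 hnN) m (mem_range.1 hm.1)
          set D : ℝ := ((m ^ 2 * p.P2 n + m ^ 3 * p.P3 n + p.a * m ^ 4 : ℕ) : ℝ) / 2 ^ s with hDdef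
          have hD0 : 0 ≤ D := by positivity
          have h9 : (p.P n / 2 ^ s : ℝ) + m * (p.P1 n / 2 ^ s) = (p.P (n + m) / 2 ^ s : ℝ) + -D := by
            rw [hDdef, p.P_add]
            push_cast
            ring
          rw [h9]
          have h10 := C3.di_add (p.P (n + m) / 2 ^ s : ℝ) (-D)
          rw [C3.di_neg] at h10
          have h11 := C3.di_le_abs D
          rw [abs_of_nonneg hD0] at h11
          linarith
        exact_mod_cast card_le_card this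
      refine h6.trans (h5.trans (le_of_eq ?_))
      ring
  have h6 : ∑ n ∈ range N, (((range M0).filter fun m => E (n + m)).card : ℝ) ≤
      N * (M0 * (4 * τ + 1 / H) + H * (8 * τ / γ + 3)) + M0 * (((range N).filter B).card : ℝ) := by
    refine (sum_le_sum h4).trans_eq ?_
    rw [sum_add_distrib, sum_const, card_range, nsmul_eq_mul, ← mul_sum, sum_boole]
  have h8 : (M0 : ℝ) * (((range N).filter E).card : ℝ) ≤
      M0 * (N * (4 * τ + 1 / H) + N * (H * (8 * τ / γ + 3)) / M0 +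
      (((range N).filter B).card : ℝ) + M0) := by
    have h10 : (M0 : ℝ) * (N * (H * (8 * τ / γ + 3)) / M0) = N * (H * (8 * τ / γ + 3)) := by
      field_simp
    rw [mul_add, mul_add, mul_add, h10]
    linarith
  exact le_of_mul_le_mul_left h8 hMr

open Classical in
/-- few `n` have a slope `m * P1 n / 2 ^ s` close to an integer -/
private theorem eqh_bad (p : Co) (H s N : ℕ) (th : ℝ) (h0 : 0 < th) (h1 : th ≤ 1) (ha : 1 ≤ p.a)
    (hs : 2 ^ s ≤ N ^ 3) (hN : 4 * p.a * H * (N : ℝ) ^ 2 / 2 ^ s ≤ th ^ 16) :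
    (((range N).filter fun n : ℕ => ∃ m : ℕ, (1 ≤ m ∧ m ≤ H) ∧
      di (m * (p.P1 n / 2 ^ s : ℝ)) < th ^ 16).card : ℝ) ≤ H * (4 * th * N) := by
  have h2 : ((range N).filter fun n : ℕ => ∃ m : ℕ, (1 ≤ m ∧ m ≤ H) ∧
      di (m * (p.P1 n / 2 ^ s : ℝ)) < th ^ 16).card ≤ ∑ m ∈ Icc 1 H,
      ((range N).filter fun n : ℕ => di (m * (p.P1 n / 2 ^ s : ℝ)) ≤ th ^ 16).card := by
    refine (card_le_card ?_).trans card_biUnion_le
    intro n hn
    rw [mem_filter] at hn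
    obtain ⟨hn1, m, hm, h3⟩ := hn
    rw [mem_biUnion]
    exact ⟨m, mem_Icc.2 hm, mem_filter.2 ⟨hn1, h3.le⟩⟩
  have h3 : ∀ m ∈ Icc 1 H, (((range N).filter fun n : ℕ =>
      di (m * (p.P1 n / 2 ^ s : ℝ)) ≤ th ^ 16).card : ℝ) ≤ 4 * th * N := by
    intro m hm
    rw [mem_Icc] at hm
    have hp : (0 : ℝ) < 2 ^ s := by positivity
    have hm1 : (1 : ℝ) ≤ m := by exact_mod_cast hm.1
    have hmH : (m : ℝ) ≤ H := by exact_mod_cast hm.2
    have ha1 : (1 : ℝ) ≤ p.a := by exact_mod_cast ha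
    have hA : |(4 * p.a * m / 2 ^ s : ℝ)| = 4 * p.a * m / 2 ^ s := abs_of_nonneg (by positivity)
    have h4 := sl3 (4 * p.a * m / 2 ^ s) (3 * p.b * m / 2 ^ s) (2 * p.c * m / 2 ^ s) (p.d * m / 2 ^ s)
      th N h0 h1 (by
        rw [hA, div_mul_eq_mul_div, le_div_iff₀ hp, one_mul]
        have h5 : (2 : ℝ) ^ s ≤ (N : ℝ) ^ 3 := by exact_mod_cast hs
        have h6 : (1 : ℝ) ≤ 4 * p.a * m := by nlinarith
        have h7 : (0 : ℝ) ≤ (N : ℝ) ^ 3 := by positivity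
        nlinarith) (by
        rw [hA]
        refine le_trans ?_ hN
        rw [div_mul_eq_mul_div]
        gcongr)
    have h5 : ((range N).filter fun n : ℕ => di (m * (p.P1 n / 2 ^ s : ℝ)) ≤ th ^ 16)
        = (range N).filter fun n : ℕ => di ((4 * p.a * m / 2 ^ s : ℝ) * n ^ 3
          + (3 * p.b * m / 2 ^ s) * n ^ 2 + (2 * p.c * m / 2 ^ s) * n + p.d * m / 2 ^ s) ≤ th ^ 16 := by
      refine filter_congr fun n _ => ?_
      rw [show (m * (p.P1 n / 2 ^ s) : ℝ) = (4 * p.a * m / 2 ^ s : ℝ) * n ^ 3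
          + (3 * p.b * m / 2 ^ s) * n ^ 2 + (2 * p.c * m / 2 ^ s) * n + p.d * m / 2 ^ s by
        unfold Co.P1
        push_cast
        ring]
    rw [h5]
    exact h4
  have h4 : (((range N).filter fun n : ℕ => ∃ m : ℕ, (1 ≤ m ∧ m ≤ H) ∧
      di (m * (p.P1 n / 2 ^ s : ℝ)) < th ^ 16).card : ℝ) ≤ ∑ m ∈ Icc 1 H,
      (((range N).filter fun n : ℕ => di (m * (p.P1 n / 2 ^ s : ℝ)) ≤ th ^ 16).card : ℝ) := by
    exact_mod_cast h2
  refine h4.trans ((sum_le_sum h3).trans_eq ?_)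
  rw [sum_const, Nat.card_Icc, nsmul_eq_mul, Nat.add_sub_cancel]

/-- the error term of the Taylor formula -/
private theorem eqh_err (p : Co) (lam κ e s N n h : ℕ) (hs : 4001910 * e ≤ s + lam)
    (hN : N ≤ κ * 2 ^ (2000000 * e)) (hn : n < N) (hh : h < 2 ^ e) :
    ((h ^ 2 * p.P2 n + h ^ 3 * p.P3 n + p.a * h ^ 4 : ℕ) : ℝ) / 2 ^ s
      ≤ (11 * p.S * 2 ^ (2 * κ + lam) : ℕ) / 2 ^ e := by
  have hκ : κ ≤ 2 ^ κ := Nat.lt_two_pow_self.le
  have hn2 : n ≤ 2 ^ (2000000 * e + κ) := by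
    calc n ≤ κ * 2 ^ (2000000 * e) := hn.le.trans hN
      _ ≤ 2 ^ κ * 2 ^ (2000000 * e) := Nat.mul_le_mul_right _ hκ
      _ = 2 ^ (2000000 * e + κ) := by rw [← pow_add, add_comm]
  have h2 := p.P2_le n _ hn2
  have h3 := p.P3_le n _ hn2
  have hh2 : h ^ 2 ≤ 2 ^ (2 * e) := by
    calc h ^ 2 ≤ (2 ^ e) ^ 2 := Nat.pow_le_pow_left hh.le 2
      _ = 2 ^ (2 * e) := by rw [← pow_mul, mul_comm]
  have hh3 : h ^ 3 ≤ 2 ^ (3 * e) := by
    calc h ^ 3 ≤ (2 ^ e) ^ 3 := Nat.pow_le_pow_left hh.le 3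
      _ = 2 ^ (3 * e) := by rw [← pow_mul, mul_comm]
  have hh4 : h ^ 4 ≤ 2 ^ (4 * e) := by
    calc h ^ 4 ≤ (2 ^ e) ^ 4 := Nat.pow_le_pow_left hh.le 4
      _ = 2 ^ (4 * e) := by rw [← pow_mul, mul_comm]
  have haS : p.a ≤ p.S := by unfold Co.S; omega
  have t1 : h ^ 2 * p.P2 n ≤ 6 * p.S * 2 ^ (4000002 * e + 2 * κ) := by
    calc h ^ 2 * p.P2 n ≤ 2 ^ (2 * e) * (6 * p.S * 2 ^ (2 * (2000000 * e + κ))) := Nat.mul_le_mul hh2 h2
      _ = 6 * p.S * (2 ^ (2 * e) * 2 ^ (2 * (2000000 * e + κ))) := by ac_rfl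
      _ = 6 * p.S * 2 ^ (4000002 * e + 2 * κ) := by
        rw [← pow_add]
        congr 2
        ring
  have t2 : h ^ 3 * p.P3 n ≤ 4 * p.S * 2 ^ (4000002 * e + 2 * κ) := by
    calc h ^ 3 * p.P3 n ≤ 2 ^ (3 * e) * (4 * p.S * 2 ^ (2000000 * e + κ)) := Nat.mul_le_mul hh3 h3
      _ = 4 * p.S * (2 ^ (3 * e) * 2 ^ (2000000 * e + κ)) := by ac_rfl
      _ ≤ 4 * p.S * 2 ^ (4000002 * e + 2 * κ) := by
        rw [← pow_add]
        exact Nat.mul_le_mul_left _ (Nat.pow_le_pow_right (by norm_num) (by omega))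
  have t3 : p.a * h ^ 4 ≤ p.S * 2 ^ (4000002 * e + 2 * κ) :=
    Nat.mul_le_mul haS (hh4.trans (Nat.pow_le_pow_right (by norm_num) (by omega)))
  have t4 : h ^ 2 * p.P2 n + h ^ 3 * p.P3 n + p.a * h ^ 4 ≤ 11 * p.S * 2 ^ (4000002 * e + 2 * κ) := by
    calc h ^ 2 * p.P2 n + h ^ 3 * p.P3 n + p.a * h ^ 4
        ≤ 6 * p.S * 2 ^ (4000002 * e + 2 * κ) + 4 * p.S * 2 ^ (4000002 * e + 2 * κ)
          + p.S * 2 ^ (4000002 * e + 2 * κ) := add_le_add (add_le_add t1 t2) t3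
      _ = 11 * p.S * 2 ^ (4000002 * e + 2 * κ) := by ring
  have t5 : 11 * p.S * 2 ^ (4000002 * e + 2 * κ) * 2 ^ e ≤ 11 * p.S * 2 ^ (2 * κ + lam) * 2 ^ s := by
    calc 11 * p.S * 2 ^ (4000002 * e + 2 * κ) * 2 ^ e = 11 * p.S * 2 ^ (4000002 * e + 2 * κ + e) := by
          rw [mul_assoc (11 * p.S), ← pow_add]
      _ ≤ 11 * p.S * 2 ^ (2 * κ + lam + s) :=
          Nat.mul_le_mul_left _ (Nat.pow_le_pow_right (by norm_num) (by omega))
      _ = 11 * p.S * 2 ^ (2 * κ + lam) * 2 ^ s := by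
          rw [mul_assoc (11 * p.S), ← pow_add]
  rw [div_le_div_iff₀ (by positivity) (by positivity)]
  have t6 := (Nat.mul_le_mul_right (2 ^ e) t4).trans t5
  exact_mod_cast t6

theorem eqh (p : Co) (ha : 1 ≤ p.a) (lam κ : ℕ) (ε : ℝ) (hε : 0 < ε) : ∃ τ : ℝ, 0 < τ ∧
    ∀ᶠ e : ℕ in atTop, ∀ s N : ℕ, 4001910 * e ≤ s + lam → s + lam ≤ 6000000 * e →
      2 ^ (2000000 * e) ≤ N → N ≤ κ * 2 ^ (2000000 * e) →
      (((range N).filter fun n : ℕ => di (p.P n / 2 ^ s) ≤ τ).card : ℝ) ≤ ε * N := by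
  classical
  obtain ⟨H, hH⟩ := exists_nat_gt (16 / ε)
  have hHr : (0 : ℝ) < H := lt_trans (by positivity) hH
  have hH1 : 1 ≤ H := by exact_mod_cast hHr
  have hHε : 1 / (H : ℝ) ≤ ε / 16 := by
    rw [div_le_div_iff₀ hHr (by norm_num)]
    rw [div_lt_iff₀ hε] at hH
    linarith
  set th : ℝ := min 1 (ε / (32 * H)) with hthdef
  have hth0 : 0 < th := lt_min one_pos (by positivity)
  have hth1 : th ≤ 1 := min_le_left _ _
  have hthH : H * (4 * th) ≤ ε / 8 := by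
    have h1 : th ≤ ε / (32 * H) := min_le_right _ _
    rw [le_div_iff₀ (by positivity)] at h1
    linarith
  have hγ : 0 < th ^ 16 := by positivity
  set τ : ℝ := min (ε / 64) (th ^ 16) with hτdef
  have hτ : 0 < τ := lt_min (by positivity) hγ
  have hτ1 : τ ≤ ε / 64 := min_le_left _ _
  have hτ2 : τ ≤ th ^ 16 := min_le_right _ _
  have hl3 : Tendsto (fun x : ℕ => (2 : ℝ) ^ x) atTop atTop :=
    tendsto_pow_atTop_atTop_of_one_lt (by norm_num)
  refine ⟨τ, hτ, ?_⟩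
  filter_upwards [hl3.eventually_ge_atTop (((11 * p.S * 2 ^ (2 * κ + lam) : ℕ) : ℝ) / τ),
    hl3.eventually_ge_atTop (4 * p.a * H * (κ : ℝ) ^ 2 * 2 ^ lam / th ^ 16),
    hl3.eventually_ge_atTop ((88 * H + 8) / ε)] with e he1 he2 he3 s N hs1 hs2 hN1 hN2
  have hpe : (0 : ℝ) < 2 ^ e := by positivity
  have hM0 : 0 < 2 ^ e := Nat.pos_of_ne_zero (by positivity)
  have hNr : (0 : ℝ) < N := by
    have : 0 < N := lt_of_lt_of_le (Nat.pos_of_ne_zero (by positivity)) hN1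
    exact_mod_cast this
  rw [div_le_iff₀ hτ] at he1
  rw [div_le_iff₀ hγ] at he2
  rw [div_le_iff₀ hε] at he3
  have hD : ∀ n < N, ∀ h < 2 ^ e,
      ((h ^ 2 * p.P2 n + h ^ 3 * p.P3 n + p.a * h ^ 4 : ℕ) : ℝ) / 2 ^ s ≤ τ := by
    intro n hn h hh
    refine (eqh_err p lam κ e s N n h hs1 hN2 hn hh).trans ?_
    rw [div_le_iff₀ hpe]
    linarith
  have hmain := eqh_fin p H s N (2 ^ e) hH1 (th ^ 16) τ hγ hτ.le hM0 hD
  have hs3 : 2 ^ s ≤ N ^ 3 := by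
    calc 2 ^ s ≤ 2 ^ (6000000 * e) := Nat.pow_le_pow_right (by norm_num) (by omega)
      _ = (2 ^ (2000000 * e)) ^ 3 := by
        rw [← pow_mul]
        congr 1
        ring
      _ ≤ N ^ 3 := Nat.pow_le_pow_left hN1 3
  have hN3 : 4 * p.a * H * (N : ℝ) ^ 2 / 2 ^ s ≤ th ^ 16 := by
    rw [div_le_iff₀ (by positivity)]
    have h1 : (N : ℝ) ≤ κ * 2 ^ (2000000 * e) := by exact_mod_cast hN2
    have h2 : (N : ℝ) ^ 2 ≤ (κ : ℝ) ^ 2 * 2 ^ (4000000 * e) := by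
      calc (N : ℝ) ^ 2 ≤ (κ * 2 ^ (2000000 * e)) ^ 2 := pow_le_pow_left₀ hNr.le h1 2
        _ = (κ : ℝ) ^ 2 * 2 ^ (4000000 * e) := by
          rw [mul_pow, ← pow_mul]
          congr 2
          ring
    have h3 : (2 : ℝ) ^ (4000000 * e) * 2 ^ e ≤ 2 ^ lam * 2 ^ s := by
      rw [← pow_add, ← pow_add]
      exact pow_le_pow_right₀ (by norm_num) (by omega)
    have h4 : (0 : ℝ) ≤ 4 * p.a * H := by positivity
    have h5 : 4 * p.a * H * (N : ℝ) ^ 2 * 2 ^ e ≤ th ^ 16 * 2 ^ s * 2 ^ e := by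
      calc 4 * p.a * H * (N : ℝ) ^ 2 * 2 ^ e
          ≤ 4 * p.a * H * ((κ : ℝ) ^ 2 * 2 ^ (4000000 * e)) * 2 ^ e := by gcongr
        _ = 4 * p.a * H * (κ : ℝ) ^ 2 * (2 ^ (4000000 * e) * 2 ^ e) := by ring
        _ ≤ 4 * p.a * H * (κ : ℝ) ^ 2 * (2 ^ lam * 2 ^ s) := by gcongr
        _ = (4 * p.a * H * (κ : ℝ) ^ 2 * 2 ^ lam) * 2 ^ s := by ring
        _ ≤ (2 ^ e * th ^ 16) * 2 ^ s := by gcongr
        _ = th ^ 16 * 2 ^ s * 2 ^ e := by ring
    exact le_of_mul_le_mul_right h5 hpe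
  have hbad := eqh_bad p H s N th hth0 hth1 ha hs3 hN3
  -- first term
  have t1 : (N : ℝ) * (4 * τ + 1 / H) ≤ N * (ε / 8) := by
    apply mul_le_mul_of_nonneg_left _ hNr.le
    linarith
  -- second term
  have t2 : (N : ℝ) * (H * (8 * τ / th ^ 16 + 3)) / ((2 ^ e : ℕ) : ℝ) ≤ N * (ε / 8) := by
    rw [mul_div_assoc]
    apply mul_le_mul_of_nonneg_left _ hNr.le
    push_cast
    rw [div_le_iff₀ hpe]
    have h1 : 8 * τ / th ^ 16 ≤ 8 := by
      rw [div_le_iff₀ hγ]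
      linarith
    have h2 : (H : ℝ) * (8 * τ / th ^ 16 + 3) ≤ H * 11 :=
      mul_le_mul_of_nonneg_left (by linarith) hHr.le
    linarith
  have t3 : (H : ℝ) * (4 * th * N) ≤ N * (ε / 8) := by
    calc (H : ℝ) * (4 * th * N) = (H * (4 * th)) * N := by ring
      _ ≤ ε / 8 * N := mul_le_mul_of_nonneg_right hthH hNr.le
      _ = _ := mul_comm _ _
  have t4 : ((2 ^ e : ℕ) : ℝ) ≤ N * (ε / 8) := by
    push_cast
    have h1 : (2 : ℝ) ^ e * 2 ^ e ≤ N := by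
      have h2 : (2 : ℝ) ^ (2000000 * e) ≤ N := by exact_mod_cast hN1
      refine le_trans ?_ h2
      rw [← pow_add]
      exact pow_le_pow_right₀ (by norm_num) (by omega)
    have h3 : 8 ≤ (2 : ℝ) ^ e * ε := by
      have : (0 : ℝ) ≤ 88 * H := by positivity
      linarith
    have h4 : (2 : ℝ) ^ e * 8 ≤ 2 ^ e * (2 ^ e * ε) := mul_le_mul_of_nonneg_left h3 hpe.le
    have h5 : (2 : ℝ) ^ e * (2 ^ e * ε) ≤ N * ε := by
      rw [← mul_assoc]
      exact mul_le_mul_of_nonneg_right h1 hε.le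
    linarith
  refine hmain.trans ?_
  have hsum : (N : ℝ) * (4 * τ + 1 / H) + N * (H * (8 * τ / th ^ 16 + 3)) / ((2 ^ e : ℕ) : ℝ)
      + (((range N).filter fun n : ℕ => ∃ m : ℕ, (1 ≤ m ∧ m ≤ H) ∧
        di (m * (p.P1 n / 2 ^ s : ℝ)) < th ^ 16).card : ℝ) + ((2 ^ e : ℕ) : ℝ) ≤ N * (ε / 2) := by
    have := hbad.trans t3
    linarith
  refine hsum.trans ?_
  have : (0 : ℝ) ≤ N * ε := by positivity
  linarith

end Pool.Agent.Lib.MP_8fac0f_nt.Q4
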