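import Pool.Agent.Lib.MP_8fac0f_nt.Q4.Defs
import Pool.Agent.Lib.MP_8fac0f_nt.C3.Exp

/-!
# EXP4: expansion of `P (n0 + u + 2 ^ j (v + m))` around `N = n0 + 2 ^ j v`

Proof. `j = 1999999 e`, `K = 6000000 e + ρ`. `Co.P_add N h` with `h = 2 ^ j m + u`:
`P N + h P1 N + h ^ 2 P2 N + h ^ 3 P3 N + a h ^ 4`. The terms: `h P1 N = m 2 ^ j P1 N + u P1 N`;
`h ^ 2 P2 N = m ^ 2 2 ^ (2 j) P2 N + (2 * 2 ^ j m u + u ^ 2) P2 N`;
`h ^ 3 P3 N = m ^ 3 2 ^ (3 j) P3 N + (3 * 2 ^ (2 j) m ^ 2 u + 3 * 2 ^ j m u ^ 2 + u ^ 3) P3 N` and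
`P3 N = P3 n0 + 4 a 2 ^ j v` (`Co.P3_add`), so `m ^ 3 2 ^ (3 j) P3 N = m ^ 3 2 ^ (3 j) P3 n0 + 4 a m ^ 3 v 2 ^ (4 j)`;
`a h ^ 4 = a m ^ 4 2 ^ (4 j) + a (4 * 2 ^ (3 j) m ^ 3 u + 6 * 2 ^ (2 j) m ^ 2 u ^ 2 + 4 * 2 ^ j m u ^ 3 + u ^ 4)`.
`2 ^ (4 j) = 2 ^ (7999996 e)` is a multiple of `2 ^ K` for `e >= ρ`. `z` = the two multiples; `D` = the sum of the
remaining (nonnegative) terms. `N <= 2 ^ (2000000 e + s0 + 1)` (`n0 < 2 ^ (j + 1)`, `2 ^ j v <= 2 ^ (j + e + s0)`), so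
`P2 N <= 6 S 2 ^ (4000000 e + 2 s0 + 2)`, `P3 N <= 4 S 2 ^ (2000000 e + s0 + 1)` (`Co.P2_le`, `Co.P3_le`); the largest
term is `2 * 2 ^ j m u P2 N <= const * 2 ^ (1999999 e + e / 16 + 1 + 4000000 e)`; all others are at most
`const * 2 ^ (5999998 e + e / 2)`. So `D <= const * 2 ^ (5999999 e + e / 16) <= 2 ^ (6000000 e - e / 2)` for large `e`.
-/

set_option autoImplicit false

namespace Pool.Agent.Lib.MP_8fac0f_nt.Q4

open Finset Filter Topology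
open Pool.Agent.Lib.MP_8fac0f_nt.C3 (di ex EBd)

theorem exp4 (p : Co) (Um s0 ρ : ℕ) : ∀ᶠ e : ℕ in atTop, ∀ n0 < 2 ^ (1999999 * e + 1),
    ∀ u m v : ℕ, u ≤ Um → m ≤ 2 ^ (e / 16 + 1) → v ≤ 2 ^ (e + s0) →
    ∃ D z : ℤ, (p.P (n0 + u + 2 ^ (1999999 * e) * (v + m)) : ℤ) =
      p.P (n0 + 2 ^ (1999999 * e) * v)
        + m * (2 ^ (1999999 * e) * p.P1 (n0 + 2 ^ (1999999 * e) * v))
        + m ^ 2 * (2 ^ (3999998 * e) * p.P2 (n0 + 2 ^ (1999999 * e) * v))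
        + m ^ 3 * (2 ^ (5999997 * e) * p.P3 n0)
        + u * p.P1 (n0 + 2 ^ (1999999 * e) * v) + D + z * 2 ^ (6000000 * e + ρ) ∧
      |D| ≤ 2 ^ (6000000 * e - e / 2) := by
  obtain ⟨s, hs⟩ : ∃ s : ℕ, s = Um + 6 * p.S := ⟨_, rfl⟩
  filter_upwards [eventually_ge_atTop (16 * (4 * s + 4 * s0 + ρ + 20))] with e he
  intro n0 hn0 u m v hu hm hv
  have hs2 : s ≤ 2 ^ s := Nat.lt_two_pow_self.le
  have hu2 : u ≤ 2 ^ s := by omega
  have hS2 : 6 * p.S ≤ 2 ^ s := by omega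
  have ha2 : p.a ≤ 2 ^ s := by
    have : p.a ≤ p.S := by unfold Co.S; omega
    omega
  obtain ⟨N, hN⟩ : ∃ N : ℕ, N = n0 + 2 ^ (1999999 * e) * v := ⟨_, rfl⟩
  have hNle : N ≤ 2 ^ (2000000 * e + s0 + 1) := by
    have h1 : 2 ^ (1999999 * e) * v ≤ 2 ^ (1999999 * e) * 2 ^ (e + s0) :=
      Nat.mul_le_mul_left _ hv
    rw [← pow_add, show 1999999 * e + (e + s0) = 2000000 * e + s0 by ring] at h1
    have h2 : 2 ^ (1999999 * e + 1) ≤ 2 ^ (2000000 * e + s0) :=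
      Nat.pow_le_pow_right (by norm_num) (by omega)
    rw [pow_succ 2 (2000000 * e + s0)]
    omega
  have hP2 : EBd (p.P2 N : ℤ) (s + 2 * (2000000 * e + s0 + 1)) := by
    apply EBd.nat
    refine (p.P2_le N _ hNle).trans ?_
    rw [pow_add 2 s]
    exact Nat.mul_le_mul_right _ hS2
  have hP3 : EBd (p.P3 N : ℤ) (s + (2000000 * e + s0 + 1)) := by
    apply EBd.nat
    refine (p.P3_le N _ hNle).trans ?_
    rw [pow_add 2 s]
    exact Nat.mul_le_mul_right _ (by omega)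
  have e0 : n0 + u + 2 ^ (1999999 * e) * (v + m) = N + (2 ^ (1999999 * e) * m + u) := by
    rw [hN]; ring
  have e3 := p.P3_add n0 (2 ^ (1999999 * e) * v)
  rw [← hN] at e3
  rw [e0, p.P_add, ← hN]
  have hJ2 : ((2 : ℤ) ^ (1999999 * e)) ^ 2 = 2 ^ (3999998 * e) := by
    rw [← pow_mul]; congr 1; ring
  have hJ3 : ((2 : ℤ) ^ (1999999 * e)) ^ 3 = 2 ^ (5999997 * e) := by
    rw [← pow_mul]; congr 1; ring
  have hJ4 : ((2 : ℤ) ^ (1999999 * e)) ^ 4 = 2 ^ (1999996 * e - ρ) * 2 ^ (6000000 * e + ρ) := by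
    rw [← pow_mul, ← pow_add]; congr 1; omega
  have hJB : EBd ((2 : ℤ) ^ (1999999 * e)) (1999999 * e) := EBd.two_pow _
  have e3' := congrArg (fun t : ℕ => (t : ℤ)) e3
  push_cast at e3' ⊢
  generalize (p.P N : ℤ) = Q0
  generalize (p.P1 N : ℤ) = Q1
  generalize hq2 : (p.P2 N : ℤ) = Q2 at hP2 ⊢
  generalize hq3 : (p.P3 N : ℤ) = Q3 at hP3 e3' ⊢
  generalize (p.P3 n0 : ℤ) = R3 at e3' ⊢
  generalize (2 : ℤ) ^ (1999999 * e) = J at hJ2 hJ3 hJ4 hJB e3' ⊢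
  have huB : EBd (u : ℤ) s := EBd.nat hu2
  have haB : EBd (p.a : ℤ) s := EBd.nat ha2
  have hmB : EBd (m : ℤ) (e / 16 + 1) := EBd.nat hm
  refine ⟨(2 * J * m * u + u ^ 2) * Q2 + (3 * J ^ 2 * m ^ 2 * u + 3 * J * m * u ^ 2 + u ^ 3) * Q3
      + p.a * (4 * J ^ 3 * m ^ 3 * u + 6 * J ^ 2 * m ^ 2 * u ^ 2 + 4 * J * m * u ^ 3 + u ^ 4),
    (4 * p.a * m ^ 3 * v + p.a * m ^ 4) * 2 ^ (1999996 * e - ρ), ?_, ?_⟩
  · linear_combination (m : ℤ) ^ 2 * Q2 * hJ2 + (m : ℤ) ^ 3 * R3 * hJ3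
      + (m : ℤ) ^ 3 * J ^ 3 * e3' + (4 * p.a * m ^ 3 * v + p.a * m ^ 4) * hJ4
  · have h2 : EBd (2 : ℤ) 1 := by unfold EBd; norm_num
    have h3 : EBd (3 : ℤ) 2 := by unfold EBd; norm_num
    have h4 : EBd (4 : ℤ) 2 := by unfold EBd; norm_num
    have h6 : EBd (6 : ℤ) 3 := by unfold EBd; norm_num
    have t1 : EBd ((2 * J * m * u + u ^ 2) * Q2) (6000000 * e - e / 2 - 2) := by
      have a1 : EBd (2 * J * m * u) (1999999 * e + e / 16 + s + 2) :=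
        (((h2.mul hJB).mul hmB).mul huB).mono (by omega)
      have a2 : EBd ((u : ℤ) ^ 2) (1999999 * e + e / 16 + s + 2) := (huB.pow 2).mono (by omega)
      exact ((a1.add a2).mul hP2).mono (by omega)
    have t2 : EBd ((3 * J ^ 2 * m ^ 2 * u + 3 * J * m * u ^ 2 + u ^ 3) * Q3)
        (6000000 * e - e / 2 - 2) := by
      have a1 : EBd (3 * J ^ 2 * m ^ 2 * u) (3999998 * e + 2 * (e / 16) + s + 4) :=
        (((h3.mul (hJB.pow 2)).mul (hmB.pow 2)).mul huB).mono (by omega)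
      have a2 : EBd (3 * J * m * u ^ 2) (3999998 * e + 2 * (e / 16) + s + 4) :=
        (((h3.mul hJB).mul hmB).mul (huB.pow 2)).mono (by omega)
      have a3 : EBd ((u : ℤ) ^ 3) (3999998 * e + 2 * (e / 16) + s + 4 + 1) :=
        (huB.pow 3).mono (by omega)
      exact (((a1.add a2).add a3).mul hP3).mono (by omega)
    have t3 : EBd (p.a * (4 * J ^ 3 * m ^ 3 * u + 6 * J ^ 2 * m ^ 2 * u ^ 2 + 4 * J * m * u ^ 3
        + u ^ 4)) (6000000 * e - e / 2 - 1) := by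
      have a1 : EBd (4 * J ^ 3 * m ^ 3 * u) (5999997 * e + 3 * (e / 16) + s + 5) :=
        (((h4.mul (hJB.pow 3)).mul (hmB.pow 3)).mul huB).mono (by omega)
      have a2 : EBd (6 * J ^ 2 * m ^ 2 * u ^ 2) (5999997 * e + 3 * (e / 16) + s + 5) :=
        (((h6.mul (hJB.pow 2)).mul (hmB.pow 2)).mul (huB.pow 2)).mono (by omega)
      have a3 : EBd (4 * J * m * u ^ 3) (5999997 * e + 3 * (e / 16) + s + 5 + 1) :=
        (((h4.mul hJB).mul hmB).mul (huB.pow 3)).mono (by omega)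
      have a4 : EBd ((u : ℤ) ^ 4) (5999997 * e + 3 * (e / 16) + s + 5 + 1 + 1) :=
        (huB.pow 4).mono (by omega)
      exact (haB.mul (((a1.add a2).add a3).add a4)).mono (by omega)
    have t4 := ((t1.add t2).mono (by omega : 6000000 * e - e / 2 - 2 + 1
      ≤ 6000000 * e - e / 2 - 1)).add t3
    exact (t4.mono (by omega : 6000000 * e - e / 2 - 1 + 1 ≤ 6000000 * e - e / 2))

end Pool.Agent.Lib.MP_8fac0f_nt.Q4
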