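import Pool.Agent.Lib.MP_8fac0f_nt.Q4.QUA
import Pool.Agent.Lib.MP_8fac0f_nt.N.TR

/-!
# FIN: from the truncated correlations to the correlations, degree 4
-/

set_option autoImplicit false

namespace Pool.Agent.Lib.MP_8fac0f_nt.Q4

open Finset Filter Topology
open Pool.Agent.Lib.MP_8fac0f_nt.N (sg CorrZero trunc abs_sg)

/-- The polynomial. -/
noncomputable def Fin_poly (p : Co) : Polynomial ℕ :=
  Polynomial.C p.a * Polynomial.X ^ 4 + Polynomial.C p.b * Polynomial.X ^ 3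
    + Polynomial.C p.c * Polynomial.X ^ 2 + Polynomial.C p.d * Polynomial.X + Polynomial.C p.g

theorem Fin_poly_eval (p : Co) (n : ℕ) : (Fin_poly p).eval n = p.P n := by
  unfold Fin_poly Co.P
  simp

theorem Fin_P_le (p : Co) (m N : ℕ) (hN : 1 ≤ N) (hm : m ≤ N) :
    p.P (N + m) ≤ p.S * (16 * N ^ 4) := by
  have h0 : N + m ≤ 2 * N := by omega
  have hh4 : (N + m) ^ 4 ≤ 16 * N ^ 4 := (Nat.pow_le_pow_left h0 4).trans_eq (by ring)
  have h3 : (N + m) ^ 3 ≤ (N + m) ^ 4 := Nat.pow_le_pow_right (by omega) (by norm_num)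
  have h2 : (N + m) ^ 2 ≤ (N + m) ^ 4 := Nat.pow_le_pow_right (by omega) (by norm_num)
  have h1 : (N + m) ^ 1 ≤ (N + m) ^ 4 := Nat.pow_le_pow_right (by omega) (by norm_num)
  have h4 : (N + m) ^ 0 ≤ (N + m) ^ 4 := Nat.pow_le_pow_right (by omega) (by norm_num)
  rw [pow_one] at h1
  rw [pow_zero] at h4
  unfold Co.P Co.S
  nlinarith [Nat.mul_le_mul_left p.a hh4, Nat.mul_le_mul_left p.b (h3.trans hh4),
    Nat.mul_le_mul_left p.c (h2.trans hh4), Nat.mul_le_mul_left p.d (h1.trans hh4),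
    Nat.mul_le_mul_left p.g (h4.trans hh4)]

theorem quartic_corr (p : Co) (ha : 1 ≤ p.a) (J : Finset ℕ) (hJ : J.Nonempty)
    (hE : Even J.card) : CorrZero (fun n => sg (p.P n)) J := by
  unfold CorrZero
  rw [Metric.tendsto_atTop]
  intro ε hε
  obtain ⟨m, hm⟩ : ∃ m : ℕ, ∀ j ∈ J, j ≤ m := ⟨J.sup id, fun j hj => Finset.le_sup (f := id) hj⟩
  obtain ⟨E, l0, hE1, hl0, H⟩ := qua p ha J hJ (ε / 4) (by positivity)
  obtain ⟨G, hG⟩ : ∃ G, G = 2000000 * E := ⟨_, rfl⟩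
  obtain ⟨X, hX⟩ : ∃ X : ℕ, X = m * (p.S * 16) * 2 ^ (G + G + G) := ⟨_, rfl⟩
  obtain ⟨r1, hr1⟩ := exists_nat_gt ((X : ℝ) * 8 / ε)
  obtain ⟨r0, hr0⟩ : ∃ r0, r0 = r1 + 1 := ⟨_, rfl⟩
  have hr0ε : (X : ℝ) / 2 ^ (r0 * l0) ≤ ε / 8 := by
    have h0 : (2 : ℝ) ^ r1 ≤ 2 ^ (r0 * l0) :=
      pow_le_pow_right₀ (by norm_num) (by nlinarith)
    have h1 : (X : ℝ) * 8 / ε < 2 ^ (r0 * l0) :=
      (hr1.trans (by exact_mod_cast Nat.lt_two_pow_self)).trans_le h0
    rw [div_lt_iff₀ hε] at h1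
    rw [div_le_iff₀ (by positivity)]
    linarith
  obtain ⟨N0, hN0⟩ := eventually_atTop.1 (H r0)
  refine ⟨N0 + m + 2, fun N hN => ?_⟩
  have hN' : N0 + m + 2 ≤ N := hN
  have hNpos : 0 < N := by omega
  have hNR : (0 : ℝ) < N := by exact_mod_cast hNpos
  have hcub := hN0 N (by omega)
  rw [← hG] at hcub
  obtain ⟨q, hq⟩ : ∃ q, q = Nat.log 2 N / G := ⟨_, rfl⟩
  rw [← hq] at hcub
  obtain ⟨K, hK⟩ : ∃ K, K = 6000000 * (E * q) + r0 * l0 := ⟨_, rfl⟩
  rw [← hK] at hcub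
  -- the size of `N`
  have hEpos : 0 < G := by omega
  have hN2 : N < 2 ^ (G * q + G) := by
    have h1 : N < 2 ^ (Nat.log 2 N + 1) := Nat.lt_pow_succ_log_self (by norm_num) N
    have h2 : Nat.log 2 N < G * q + G := by
      rw [hq]; exact Nat.lt_mul_div_succ _ hEpos
    exact h1.trans_le (Nat.pow_le_pow_right (by norm_num) h2)
  -- truncation
  have htr := trunc (Fin_poly p) J hE m hm K N
  simp only [Fin_poly_eval] at htr
  set bad := (range N).filter (fun n => ∏ j ∈ J, sg (p.P (n + j)) ≠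
      ∏ j ∈ J, sg (p.P (n + j) % 2 ^ K)) with hbad
  have hbadc : (bad.card : ℝ) ≤ ε / 8 * N := by
    refine htr.trans ?_
    have hP : ((p.P (N + m) : ℕ) : ℝ) ≤ p.S * (16 * N ^ 4) := by
      exact_mod_cast Fin_P_le p m N hNpos (by omega)
    have hK2 : (2 : ℝ) ^ K * 2 ^ (G + G + G) = 2 ^ (G * q + G) * 2 ^ (G * q + G) *
        2 ^ (G * q + G) * 2 ^ (r0 * l0) := by
      rw [← pow_add, ← pow_add, ← pow_add, ← pow_add]
      congr 1
      rw [hK, hG]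
      ring
    have hNN : (N : ℝ) * N * N ≤ 2 ^ (G * q + G) * 2 ^ (G * q + G) * 2 ^ (G * q + G) := by
      have : (N : ℝ) ≤ 2 ^ (G * q + G) := by exact_mod_cast hN2.le
      gcongr
    have hXr : (X : ℝ) = m * (p.S * 16) * 2 ^ (G + G + G) := by
      rw [hX]; push_cast; ring
    rw [div_le_iff₀ (by positivity)]
    have hXe : (X : ℝ) ≤ ε / 8 * 2 ^ (r0 * l0) := by
      rwa [div_le_iff₀ (by positivity)] at hr0ε
    have h400 : (0 : ℝ) < 2 ^ (G + G + G) := by positivity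
    have key : (m : ℝ) * (p.P (N + m) : ℕ) * 2 ^ (G + G + G) ≤
        ε / 8 * N * 2 ^ K * 2 ^ (G + G + G) := by
      calc (m : ℝ) * (p.P (N + m) : ℕ) * 2 ^ (G + G + G)
          ≤ m * (p.S * (16 * N ^ 4)) * 2 ^ (G + G + G) := by gcongr
        _ = X * N * (N * N * N) := by rw [hXr]; ring
        _ ≤ (ε / 8 * 2 ^ (r0 * l0)) * N *
            (2 ^ (G * q + G) * 2 ^ (G * q + G) * 2 ^ (G * q + G)) := by gcongr
        _ = ε / 8 * N * (2 ^ (G * q + G) * 2 ^ (G * q + G) *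
            2 ^ (G * q + G) * 2 ^ (r0 * l0)) := by ring
        _ = ε / 8 * N * 2 ^ K * 2 ^ (G + G + G) := by rw [← hK2]; ring
    exact le_of_mul_le_mul_right key h400
  have hdiff : |∑ n ∈ range N, ∏ j ∈ J, sg (p.P (n + j)) -
      ∑ n ∈ range N, ∏ j ∈ J, sg (p.P (n + j) % 2 ^ K)| ≤ 2 * bad.card := by
    rw [← sum_sub_distrib]
    refine (abs_sum_le_sum_abs _ _).trans ?_
    have h1 : ∀ n ∈ range N, |∏ j ∈ J, sg (p.P (n + j)) -
        ∏ j ∈ J, sg (p.P (n + j) % 2 ^ K)| ≤ if n ∈ bad then 2 else 0 := by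
      intro n hn
      split_ifs with h
      · refine (abs_sub _ _).trans ?_
        rw [abs_prod, abs_prod]
        simp [abs_sg]
        norm_num
      · have h2 : ∏ j ∈ J, sg (p.P (n + j)) =
            ∏ j ∈ J, sg (p.P (n + j) % 2 ^ K) := by
          by_contra hne
          exact h (mem_filter.2 ⟨hn, hne⟩)
        rw [h2]; simp
    refine (sum_le_sum h1).trans ?_
    rw [← sum_filter, sum_const, nsmul_eq_mul, mul_comm]
    have : (range N).filter (fun n => n ∈ bad) = bad := by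
      ext n
      simp only [mem_filter]
      exact ⟨fun h => h.2, fun h => ⟨(mem_filter.1 h).1, h⟩⟩
    rw [this]
  rw [Real.dist_eq, sub_zero, abs_div, abs_of_pos hNR, div_lt_iff₀ hNR]
  have h3 := abs_sub_abs_le_abs_sub (∑ n ∈ range N, ∏ j ∈ J, sg (p.P (n + j)))
    (∑ n ∈ range N, ∏ j ∈ J, sg (p.P (n + j) % 2 ^ K))
  have h4 : |∑ n ∈ range N, ∏ j ∈ J, sg (p.P (n + j) % 2 ^ K)| ≤ ε / 4 * N := hcub
  have h5 : 0 < ε * N := by positivity
  linarith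

end Pool.Agent.Lib.MP_8fac0f_nt.Q4
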