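import Pool.Agent.Lib.MP_8fac0f_nt.Q4.Defs4
import Pool.Agent.Lib.MP_8fac0f_nt.Q4.LinG

/-!
# GDC: almost all base points of the B-phase are typical

`al = P3 (ν + y) / 2 ^ (3 e + ρ)`, `P3 (ν + y) = 4 a y + (4 a ν + b)`; `lin_g` with `J = 950 e`, `β = 3 e + ρ ≤ J`.
All three conditions are monotone in `V`, so it is enough to take `V = κ 2 ^ e`. (G1): for fixed `z ≤ Ξ` and
`1 ≤ h, t < V`: the number of `y < 2 ^ J` with `di (6 t h z al) < 2 ^ (- (e/2))` is at most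
`2 ^ J (2 / 2 ^ (e/2) + 24 a t h z / 2 ^ (3 e + ρ)) ≤ 2 ^ J C / 2 ^ (e/2)`; sum over `h`, `t`:
`≤ 2 ^ J C κ ^ 2 2 ^ (2 e - e/2)`; Markov with `2 ^ (2 e - e/8)`: at most `2 ^ J C κ ^ 2 2 ^ (e/8 - e/2)`
(times `Ξ`), which is `≤ (ε/3) 2 ^ J` for large `e`. (G2): for fixed `m ≤ Ξ 2 ^ (e/16)`: sum over `t < V`:
`2 ^ J C κ 2 ^ (e - e/2)`; Markov with `2 ^ (e - e/8)`: `2 ^ J C κ 2 ^ (e/8 - e/2)`; number of `m`: `Ξ 2 ^ (e/16)`:
total exponent `e/8 + e/16 - e/2`. (G3): for fixed `m ≤ Ξ 2 ^ (e/8)`: slope `12 a m`: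
`2 ^ J (2 / 2 ^ (e/2) + 12 a m / 2 ^ (3 e + ρ))`, times `Ξ 2 ^ (e/8)`. `bad` = the set of the `y < 2 ^ J` without
`Good4` (classical); the bounds do not depend on `ν`. Model: `C3.good_most`.
-/

set_option autoImplicit false

namespace Pool.Agent.Lib.MP_8fac0f_nt.Q4

open Finset Filter Topology
open Pool.Agent.Lib.MP_8fac0f_nt.N (sg)
open Pool.Agent.Lib.MP_8fac0f_nt.C3 (di ex)

private theorem gdc_lin (p : Co) (ha : 1 ≤ p.a) (ν c β J : ℕ) (hβ : β ≤ J) (hc : 1 ≤ c) (δ : ℝ)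
    (hδ : 0 ≤ δ) :
    (((range (2 ^ J)).filter fun y : ℕ => di ((c : ℝ) * ((p.P3 (ν + y) : ℝ) / 2 ^ β)) < δ).card : ℝ)
      ≤ 2 ^ J * (2 * δ + 4 * p.a * c / 2 ^ β) := by
  have hA : ((4 * p.a * c : ℕ) : ℤ) ≠ 0 := by
    have : 4 * p.a * c ≠ 0 := by positivity
    exact_mod_cast this
  have h1 := lin_g ((4 * p.a * c : ℕ) : ℤ) ((c * (4 * p.a * ν + p.b) : ℕ) : ℤ) β J hβ δ hA hδ
  have h2 : |(((4 * p.a * c : ℕ) : ℤ) : ℝ)| = 4 * p.a * c := by
    rw [Int.cast_natCast, Nat.abs_cast]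
    push_cast
    ring
  rw [h2] at h1
  refine le_trans (Nat.cast_le.2 (card_le_card ?_)) h1
  intro y hy
  rw [mem_filter] at hy ⊢
  refine ⟨hy.1, le_of_lt (lt_of_eq_of_lt ?_ hy.2)⟩
  congr 1
  unfold Co.P3
  push_cast
  ring

private theorem gdc_exch (Y T : Finset ℕ) (D : ℕ → ℕ → Prop) [∀ y t, Decidable (D y t)] :
    ∑ y ∈ Y, (T.filter fun t => D y t).card = ∑ t ∈ T, (Y.filter fun y => D y t).card := by
  simp only [card_filter]
  exact sum_comm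

private theorem gdc_markov (Y : Finset ℕ) (f : ℕ → ℕ) (T : ℕ) :
    ((Y.filter fun y => ¬ f y ≤ T).card : ℝ) * T ≤ ((∑ y ∈ Y, f y : ℕ) : ℝ) := by
  have h1 : (Y.filter fun y => ¬ f y ≤ T).card * T ≤ ∑ y ∈ Y, f y := by
    calc (Y.filter fun y => ¬ f y ≤ T).card * T = ∑ y ∈ Y.filter (fun y => ¬ f y ≤ T), T := by
          rw [sum_const, smul_eq_mul]
      _ ≤ ∑ y ∈ Y.filter (fun y => ¬ f y ≤ T), f y :=
          sum_le_sum fun y hy => (not_le.1 (mem_filter.1 hy).2).le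
      _ ≤ ∑ y ∈ Y, f y := sum_le_sum_of_subset (filter_subset _ _)
  exact_mod_cast h1

theorem gdc (p : Co) (ha : 1 ≤ p.a) (ρ κ Ξ : ℕ) (ε : ℝ) (hε : 0 < ε) : ∀ᶠ e : ℕ in atTop,
    ∀ ν : ℕ, ∃ bad : Finset ℕ, (bad.card : ℝ) ≤ ε * 2 ^ (950 * e) ∧
      ∀ y < 2 ^ (950 * e), y ∉ bad → Good4 p ρ κ Ξ e (ν + y) := by
  classical
  set K1 : ℝ := κ ^ 2 * (2 + 24 * p.a * κ ^ 2 * Ξ) with hK1
  set K2 : ℝ := κ * (2 + 24 * p.a * κ * Ξ) with hK2
  set K3 : ℝ := 2 + 12 * p.a * Ξ with hK3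
  obtain ⟨n0, hn0⟩ := pow_unbounded_of_one_lt ((Ξ * (K1 + K2 + K3)) / ε) (by norm_num : (1 : ℝ) < 2)
  filter_upwards [eventually_ge_atTop (4 * n0 + 8 + ρ)] with e he ν
  have hΞ0 : (0 : ℝ) ≤ Ξ := Nat.cast_nonneg _
  have hκ0 : (0 : ℝ) ≤ κ := Nat.cast_nonneg _
  have ha0 : (0 : ℝ) ≤ p.a := Nat.cast_nonneg _
  have hK10 : 0 ≤ K1 := by positivity
  have hK20 : 0 ≤ K2 := by positivity
  have hK30 : 0 ≤ K3 := by positivity
  set J := 950 * e with hJ
  set β := 3 * e + ρ with hβ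
  have hβJ : β ≤ J := by omega
  set δ : ℝ := 1 / 2 ^ (e / 2) with hδ
  have hδ0 : 0 < δ := by positivity
  set V0 := κ * 2 ^ e with hV0
  have hV0r : ((V0 : ℕ) : ℝ) = κ * 2 ^ e := by rw [hV0]; push_cast; ring
  -- sizes
  have hδe : (1 : ℝ) / 2 ^ e ≤ δ := by
    refine one_div_le_one_div_of_le (by positivity) ?_
    exact pow_le_pow_right₀ (by norm_num) (by omega)
  have hβe : (2 : ℝ) ^ (3 * e) ≤ 2 ^ β := pow_le_pow_right₀ (by norm_num) (by omega)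
  -- the three kinds of bad sets
  set F1 : ℕ → ℕ → ℕ := fun z y => ∑ h ∈ Ico (1 : ℕ) V0, ((Ico 1 V0).filter fun t : ℕ =>
      di (6 * t * h * z * (p.P3 (ν + y) / 2 ^ β : ℝ)) < δ).card with hF1
  set F2 : ℕ → ℕ → ℕ := fun m y => ((Ico 1 V0).filter fun t : ℕ =>
      di (6 * t * m * (p.P3 (ν + y) / 2 ^ β : ℝ)) < δ).card with hF2
  set B1 : ℕ → Finset ℕ := fun z => (range (2 ^ J)).filter fun y => ¬ F1 z y ≤ 2 ^ (2 * e - e / 8)
    with hB1
  set B2 : ℕ → Finset ℕ := fun m => (range (2 ^ J)).filter fun y => ¬ F2 m y ≤ 2 ^ (e - e / 8)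
    with hB2
  set B3 : ℕ → Finset ℕ := fun m => (range (2 ^ J)).filter fun y : ℕ =>
    di (3 * m * (p.P3 (ν + y) / 2 ^ β : ℝ)) < δ with hB3
  have hJ0 : (0 : ℝ) < 2 ^ J := by positivity
  -- counts
  have c1 : ∀ z ∈ Icc 1 Ξ, ((B1 z).card : ℝ) ≤ K1 * (2 ^ (e / 8) * δ) * 2 ^ J := by
    intro z hz
    rw [mem_Icc] at hz
    have m1 := gdc_markov (range (2 ^ J)) (F1 z) (2 ^ (2 * e - e / 8))
    have m2 : ((∑ y ∈ range (2 ^ J), F1 z y : ℕ) : ℝ) ≤
        (κ * 2 ^ e) * ((κ * 2 ^ e) * (2 ^ J * ((2 + 24 * p.a * κ ^ 2 * Ξ) * δ))) := by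
      have m3 : (∑ y ∈ range (2 ^ J), F1 z y) = ∑ h ∈ Ico (1 : ℕ) V0, ∑ t ∈ Ico (1 : ℕ) V0,
          ((range (2 ^ J)).filter fun y : ℕ =>
            di (6 * t * h * z * (p.P3 (ν + y) / 2 ^ β : ℝ)) < δ).card := by
        rw [hF1]
        simp only
        rw [sum_comm]
        exact sum_congr rfl fun h _ => gdc_exch _ _ _
      rw [m3]
      push_cast
      have m4 : ∀ h ∈ Ico (1 : ℕ) V0, ∀ t ∈ Ico (1 : ℕ) V0,
          ((((range (2 ^ J)).filter fun y : ℕ =>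
            di (6 * t * h * z * (p.P3 (ν + y) / 2 ^ β : ℝ)) < δ).card : ℕ) : ℝ) ≤
          2 ^ J * ((2 + 24 * p.a * κ ^ 2 * Ξ) * δ) := by
        intro h hh t ht
        rw [mem_Ico] at hh ht
        have m5 := gdc_lin p ha ν (6 * t * h * z) β J hβJ (by
          have : 0 < 6 * t * h * z := by
            have := hz.1
            have := hh.1
            have := ht.1
            positivity
          omega) δ hδ0.le
        push_cast at m5
        refine m5.trans ?_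
        refine mul_le_mul_of_nonneg_left ?_ hJ0.le
        have hh' : (h : ℝ) ≤ κ * 2 ^ e := by
          rw [← hV0r]
          exact_mod_cast hh.2.le
        have ht' : (t : ℝ) ≤ κ * 2 ^ e := by
          rw [← hV0r]
          exact_mod_cast ht.2.le
        have hz' : (z : ℝ) ≤ Ξ := by exact_mod_cast hz.2
        have m6 : 4 * (p.a : ℝ) * (6 * t * h * z) / 2 ^ β ≤ 24 * p.a * κ ^ 2 * Ξ * δ := by
          calc 4 * (p.a : ℝ) * (6 * t * h * z) / 2 ^ β ≤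
              4 * p.a * (6 * (κ * 2 ^ e) * (κ * 2 ^ e) * Ξ) / 2 ^ (3 * e) := by gcongr
            _ = 24 * p.a * κ ^ 2 * Ξ * (1 / 2 ^ e) := by
                rw [show (2 : ℝ) ^ (3 * e) = 2 ^ e * 2 ^ e * 2 ^ e by
                  rw [← pow_add, ← pow_add]
                  congr 1
                  ring]
                field_simp
                ring
            _ ≤ 24 * p.a * κ ^ 2 * Ξ * δ := mul_le_mul_of_nonneg_left hδe (by positivity)
        linarith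
      refine (sum_le_sum fun h hh => sum_le_sum fun t ht => m4 h hh t ht).trans ?_
      rw [sum_const, sum_const, Nat.card_Ico, nsmul_eq_mul, nsmul_eq_mul]
      have m7 : ((V0 - 1 : ℕ) : ℝ) ≤ κ * 2 ^ e := by
        rw [← hV0r]
        exact_mod_cast Nat.sub_le V0 1
      have m8 : 0 ≤ (2 : ℝ) ^ J * ((2 + 24 * p.a * κ ^ 2 * Ξ) * δ) := by positivity
      exact mul_le_mul m7 (mul_le_mul_of_nonneg_right m7 m8) (by positivity) (by positivity)
    have m9 := m1.trans m2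
    rw [Nat.cast_pow, Nat.cast_ofNat] at m9
    have m10 : (2 : ℝ) ^ (2 * e - e / 8) * 2 ^ (e / 8) = 2 ^ e * 2 ^ e := by
      rw [← pow_add, ← pow_add]
      congr 1
      omega
    have m11 : (0 : ℝ) < 2 ^ (2 * e - e / 8) := by positivity
    refine le_of_mul_le_mul_right (m9.trans (le_of_eq ?_)) m11
    rw [hK1]
    linear_combination (-(κ : ℝ) ^ 2 * (2 + 24 * p.a * κ ^ 2 * Ξ) * δ * 2 ^ J) * m10
  have c2 : ∀ m ∈ Icc 1 (Ξ * 2 ^ (e / 16)), ((B2 m).card : ℝ) ≤ K2 * (2 ^ (e / 8) * δ) * 2 ^ J := by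
    intro m hm
    rw [mem_Icc] at hm
    have m1 := gdc_markov (range (2 ^ J)) (F2 m) (2 ^ (e - e / 8))
    have m2 : ((∑ y ∈ range (2 ^ J), F2 m y : ℕ) : ℝ) ≤
        (κ * 2 ^ e) * (2 ^ J * ((2 + 24 * p.a * κ * Ξ) * δ)) := by
      have m3 : (∑ y ∈ range (2 ^ J), F2 m y) = ∑ t ∈ Ico (1 : ℕ) V0,
          ((range (2 ^ J)).filter fun y : ℕ =>
            di (6 * t * m * (p.P3 (ν + y) / 2 ^ β : ℝ)) < δ).card := by
        rw [hF2]
        exact gdc_exch _ _ _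
      rw [m3]
      push_cast
      have m4 : ∀ t ∈ Ico (1 : ℕ) V0,
          ((((range (2 ^ J)).filter fun y : ℕ =>
            di (6 * t * m * (p.P3 (ν + y) / 2 ^ β : ℝ)) < δ).card : ℕ) : ℝ) ≤
          2 ^ J * ((2 + 24 * p.a * κ * Ξ) * δ) := by
        intro t ht
        rw [mem_Ico] at ht
        have m5 := gdc_lin p ha ν (6 * t * m) β J hβJ (by
          have : 0 < 6 * t * m := by
            have := hm.1
            have := ht.1
            positivity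
          omega) δ hδ0.le
        push_cast at m5
        refine m5.trans ?_
        refine mul_le_mul_of_nonneg_left ?_ hJ0.le
        have ht' : (t : ℝ) ≤ κ * 2 ^ e := by
          rw [← hV0r]
          exact_mod_cast ht.2.le
        have hm' : (m : ℝ) ≤ Ξ * 2 ^ e := by
          have h1 : (m : ℝ) ≤ Ξ * 2 ^ (e / 16) := by exact_mod_cast hm.2
          refine h1.trans (mul_le_mul_of_nonneg_left ?_ hΞ0)
          exact pow_le_pow_right₀ (by norm_num) (by omega)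
        have m6 : 4 * (p.a : ℝ) * (6 * t * m) / 2 ^ β ≤ 24 * p.a * κ * Ξ * δ := by
          calc 4 * (p.a : ℝ) * (6 * t * m) / 2 ^ β ≤
              4 * p.a * (6 * (κ * 2 ^ e) * (Ξ * 2 ^ e)) / 2 ^ (3 * e) := by gcongr
            _ = 24 * p.a * κ * Ξ * (1 / 2 ^ e) := by
                rw [show (2 : ℝ) ^ (3 * e) = 2 ^ e * 2 ^ e * 2 ^ e by
                  rw [← pow_add, ← pow_add]
                  congr 1
                  ring]
                field_simp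
                ring
            _ ≤ 24 * p.a * κ * Ξ * δ := mul_le_mul_of_nonneg_left hδe (by positivity)
        linarith
      refine (sum_le_sum fun t ht => m4 t ht).trans ?_
      rw [sum_const, Nat.card_Ico, nsmul_eq_mul]
      have m7 : ((V0 - 1 : ℕ) : ℝ) ≤ κ * 2 ^ e := by
        rw [← hV0r]
        exact_mod_cast Nat.sub_le V0 1
      exact mul_le_mul_of_nonneg_right m7 (by positivity)
    have m9 := m1.trans m2
    rw [Nat.cast_pow, Nat.cast_ofNat] at m9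
    have m10 : (2 : ℝ) ^ (e - e / 8) * 2 ^ (e / 8) = 2 ^ e := by
      rw [← pow_add]
      congr 1
      omega
    have m11 : (0 : ℝ) < 2 ^ (e - e / 8) := by positivity
    refine le_of_mul_le_mul_right (m9.trans (le_of_eq ?_)) m11
    rw [hK2]
    linear_combination (-(κ : ℝ) * (2 + 24 * p.a * κ * Ξ) * δ * 2 ^ J) * m10
  have c3 : ∀ m ∈ Icc 1 (Ξ * 2 ^ (e / 8)), ((B3 m).card : ℝ) ≤ K3 * δ * 2 ^ J := by
    intro m hm
    rw [mem_Icc] at hm
    have m5 := gdc_lin p ha ν (3 * m) β J hβJ (by omega) δ hδ0.le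
    push_cast at m5
    refine m5.trans ?_
    have hm' : (m : ℝ) ≤ Ξ * 2 ^ e := by
      have h1 : (m : ℝ) ≤ Ξ * 2 ^ (e / 8) := by exact_mod_cast hm.2
      refine h1.trans (mul_le_mul_of_nonneg_left ?_ hΞ0)
      exact pow_le_pow_right₀ (by norm_num) (by omega)
    have h1 : (1 : ℝ) ≤ 2 ^ e := one_le_pow₀ (by norm_num)
    have m6 : 4 * (p.a : ℝ) * (3 * m) / 2 ^ β ≤ 12 * p.a * Ξ * δ := by
      calc 4 * (p.a : ℝ) * (3 * m) / 2 ^ β ≤ 4 * p.a * (3 * (Ξ * 2 ^ e)) / 2 ^ (3 * e) := by gcongr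
        _ ≤ 4 * p.a * (3 * (Ξ * 2 ^ e)) / (2 ^ e * 2 ^ e) := by
            gcongr
            rw [← pow_add]
            exact pow_le_pow_right₀ (by norm_num) (by omega)
        _ = 12 * p.a * Ξ * (1 / 2 ^ e) := by
            field_simp
            ring
        _ ≤ 12 * p.a * Ξ * δ := mul_le_mul_of_nonneg_left hδe (by positivity)
    have m7 : (2 : ℝ) ^ J * (2 * δ + 4 * p.a * (3 * m) / 2 ^ β) ≤ 2 ^ J * (2 * δ + 12 * p.a * Ξ * δ) :=
      mul_le_mul_of_nonneg_left (by linarith) hJ0.le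
    refine m7.trans (le_of_eq ?_)
    rw [hK3]
    ring
  refine ⟨(Icc 1 Ξ).biUnion B1 ∪ ((Icc 1 (Ξ * 2 ^ (e / 16))).biUnion B2 ∪
    (Icc 1 (Ξ * 2 ^ (e / 8))).biUnion B3), ?_, ?_⟩
  · have d1 : (((Icc 1 Ξ).biUnion B1).card : ℝ) ≤ Ξ * (K1 * (2 ^ (e / 8) * δ) * 2 ^ J) := by
      refine le_trans (Nat.cast_le.2 card_biUnion_le) ?_
      push_cast
      refine (sum_le_sum c1).trans ?_
      rw [sum_const, Nat.card_Icc, nsmul_eq_mul, Nat.add_sub_cancel]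
    have d2 : (((Icc 1 (Ξ * 2 ^ (e / 16))).biUnion B2).card : ℝ) ≤
        (Ξ * 2 ^ (e / 16)) * (K2 * (2 ^ (e / 8) * δ) * 2 ^ J) := by
      refine le_trans (Nat.cast_le.2 card_biUnion_le) ?_
      push_cast
      refine (sum_le_sum c2).trans ?_
      rw [sum_const, Nat.card_Icc, nsmul_eq_mul, Nat.add_sub_cancel]
      push_cast
      exact le_rfl
    have d3 : (((Icc 1 (Ξ * 2 ^ (e / 8))).biUnion B3).card : ℝ) ≤
        (Ξ * 2 ^ (e / 8)) * (K3 * δ * 2 ^ J) := by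
      refine le_trans (Nat.cast_le.2 card_biUnion_le) ?_
      push_cast
      refine (sum_le_sum c3).trans ?_
      rw [sum_const, Nat.card_Icc, nsmul_eq_mul, Nat.add_sub_cancel]
      push_cast
      exact le_rfl
    have d4 : (((Icc 1 Ξ).biUnion B1 ∪ ((Icc 1 (Ξ * 2 ^ (e / 16))).biUnion B2 ∪
        (Icc 1 (Ξ * 2 ^ (e / 8))).biUnion B3)).card : ℝ) ≤
        (((Icc 1 Ξ).biUnion B1).card : ℝ) + ((((Icc 1 (Ξ * 2 ^ (e / 16))).biUnion B2).card : ℝ) +
        (((Icc 1 (Ξ * 2 ^ (e / 8))).biUnion B3).card : ℝ)) := by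
      exact_mod_cast (card_union_le _ _).trans (Nat.add_le_add_left (card_union_le _ _) _)
    have u0 : (1 : ℝ) ≤ 2 ^ (e / 16) := one_le_pow₀ (by norm_num)
    set u : ℝ := 2 ^ (e / 16) * 2 ^ (e / 8) * δ with hu
    have hu0 : 0 < u := by positivity
    have d5 : 2 ^ (e / 8) * δ ≤ u := by
      rw [hu, mul_assoc]
      exact le_mul_of_one_le_left (by positivity) u0
    have d6 : Ξ * (K1 + K2 + K3) * u ≤ ε := by
      have g1 : u ≤ 1 / 2 ^ (e / 4) := by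
        rw [hu, hδ, mul_one_div, div_le_div_iff₀ (by positivity) (by positivity), one_mul, ← pow_add,
          ← pow_add]
        exact pow_le_pow_right₀ (by norm_num) (by omega)
      have g2 : (1 : ℝ) / 2 ^ (e / 4) ≤ 1 / 2 ^ n0 := by
        refine one_div_le_one_div_of_le (by positivity) ?_
        exact pow_le_pow_right₀ (by norm_num) (by omega)
      rw [div_lt_iff₀ hε] at hn0
      calc Ξ * (K1 + K2 + K3) * u ≤ Ξ * (K1 + K2 + K3) * (1 / 2 ^ n0) :=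
            mul_le_mul_of_nonneg_left (g1.trans g2) (by positivity)
        _ ≤ (2 ^ n0 * ε) * (1 / 2 ^ n0) := mul_le_mul_of_nonneg_right hn0.le (by positivity)
        _ = ε := by field_simp
    have e1 : Ξ * (K1 * (2 ^ (e / 8) * δ) * 2 ^ J) ≤ Ξ * K1 * u * 2 ^ J := by
      have : Ξ * (K1 * (2 ^ (e / 8) * δ) * 2 ^ J) = (Ξ * K1) * (2 ^ (e / 8) * δ) * 2 ^ J := by ring
      rw [this]
      exact mul_le_mul_of_nonneg_right (mul_le_mul_of_nonneg_left d5 (by positivity)) hJ0.le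
    have e2 : (Ξ * 2 ^ (e / 16)) * (K2 * (2 ^ (e / 8) * δ) * 2 ^ J) = Ξ * K2 * u * 2 ^ J := by
      rw [hu]
      ring
    have e3 : (Ξ * 2 ^ (e / 8)) * (K3 * δ * 2 ^ J) ≤ Ξ * K3 * u * 2 ^ J := by
      have : (Ξ * 2 ^ (e / 8)) * (K3 * δ * 2 ^ J) = (Ξ * K3) * (2 ^ (e / 8) * δ) * 2 ^ J := by ring
      rw [this]
      exact mul_le_mul_of_nonneg_right (mul_le_mul_of_nonneg_left d5 (by positivity)) hJ0.le
    have e4 : Ξ * K1 * u * 2 ^ J + (Ξ * K2 * u * 2 ^ J + Ξ * K3 * u * 2 ^ J) =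
        (Ξ * (K1 + K2 + K3) * u) * 2 ^ J := by ring
    have e5 : (Ξ * (K1 + K2 + K3) * u) * 2 ^ J ≤ ε * 2 ^ J := mul_le_mul_of_nonneg_right d6 hJ0.le
    linarith
  · intro y hy hbad
    rw [mem_union, mem_union, mem_biUnion, mem_biUnion, mem_biUnion] at hbad
    push Not at hbad
    obtain ⟨b1, b2, b3⟩ := hbad
    have hyr : y ∈ range (2 ^ J) := mem_range.2 hy
    refine ⟨fun z V hz hzΞ hV => ?_, fun m V hm hmΞ hV => ?_, fun m hm hmΞ => ?_⟩
    · have h1 := b1 z (mem_Icc.2 ⟨hz, hzΞ⟩)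
      have h2 : F1 z y ≤ 2 ^ (2 * e - e / 8) := by
        by_contra h
        exact h1 (mem_filter.2 ⟨hyr, h⟩)
      refine le_trans ?_ h2
      have hsub : Ico 1 V ⊆ Ico 1 V0 := Ico_subset_Ico_right hV
      refine (sum_le_sum_of_subset hsub).trans ?_
      exact sum_le_sum fun h _ => card_le_card (filter_subset_filter _ hsub)
    · have h1 := b2 m (mem_Icc.2 ⟨hm, hmΞ⟩)
      have h2 : F2 m y ≤ 2 ^ (e - e / 8) := by
        by_contra h
        exact h1 (mem_filter.2 ⟨hyr, h⟩)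
      refine le_trans ?_ h2
      exact card_le_card (filter_subset_filter _ (Ico_subset_Ico_right hV))
    · have h1 := b3 m (mem_Icc.2 ⟨hm, hmΞ⟩)
      by_contra h
      exact h1 (mem_filter.2 ⟨hyr, not_le.1 h⟩)

end Pool.Agent.Lib.MP_8fac0f_nt.Q4
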