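import Pool.Agent.Lib.MP_8fac0f_nt.Q4.Defs
import Pool.Agent.Lib.MP_8fac0f_nt.Q4.ClInfo

/-!
# MID: the middle digits agree for the two points of a class

`s < 2 ^ (950 e + 1)` here (not `951 e`). Proof. `P_diff` with `t = s + 2 ^ j v`, `j = 1999999 e`, and `cl_info`
(`d`, `d1`, `d2`, `d3` = the differences of `P`, `P1`, `P2`, `P3`). Modulo `2 ^ (4001910 e)`:
`d = x`, `|x| <= 2 ^ (3999998 e - c)`;
`s d1` (first window): `2 ^ (950 e + 1 + 3999048 e - c)`; `2 ^ j v d1` (second window, `j + 2001911 e = 4001910 e`):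
`2 ^ (1999999 e + e + s0 + 1999998 e - c)`; `s ^ 2 d2`: size `2 ^ (1902 e + 3998089 e)`;
`2 s 2 ^ j v d2` (third window): `2 ^ (1 + 950 e + 1 + 1999999 e + e + s0 + 1999048 e - c)`; `2 ^ (2 j) v ^ 2 d2 = 0`
(`2 j + 1912 e = 4001910 e`); `s ^ 3 d3`: size `2 ^ (2853 e + 1998090 e)`; `3 s ^ 2 2 ^ j v d3`: size
`2 ^ (2 + 1902 e + 2000000 e + s0 + 1998090 e) = 2 ^ (3999992 e + ..)`; `3 s 2 ^ (2 j) v ^ 2 d3 = 0`, `2 ^ (3 j) v ^ 3 d3 = 0`.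
The sum of the nine remainders is at most `2 ^ (3999998 e - c0)` if `c >= c0 + s0 + 10` and `e` is large.
-/

set_option autoImplicit false

namespace Pool.Agent.Lib.MP_8fac0f_nt.Q4

open Finset Filter Topology
open Pool.Agent.Lib.MP_8fac0f_nt.C3 (di ex)

private theorem mid_alg (A M Q R s v x0 z0 x1 z1 y1 u1 x2 z2 w2 w3 d0 d1 d2 d3 P' P : ℤ)
    (hM1 : A * Q = M) (hM2 : A ^ 2 * R = M)
    (hP : P' - P = d0 + (s + A * v) * d1 + (s + A * v) ^ 2 * d2 + (s + A * v) ^ 3 * d3)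
    (h0 : d0 = x0 + z0 * M) (h1 : d1 = x1 + z1 * M) (h1' : d1 = y1 + u1 * Q)
    (h2 : d2 = x2 + z2 * Q) (h2' : d2 = w2 * R) (h3' : d3 = w3 * R) :
    P' = P + (x0 + s * x1 + A * v * y1 + s ^ 2 * d2 + 2 * s * A * v * x2 + s ^ 3 * d3
        + 3 * s ^ 2 * A * v * d3)
      + (z0 + s * z1 + v * u1 + 2 * s * v * z2 + v ^ 2 * w2 + 3 * s * v ^ 2 * w3
        + v ^ 3 * w3 * A) * M := by
  linear_combination hP + h0 + s * h1 + A * v * h1' + 2 * s * A * v * h2 + A ^ 2 * v ^ 2 * h2'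
    + (3 * s * A ^ 2 * v ^ 2 + A ^ 3 * v ^ 3) * h3' + (v * u1 + 2 * s * v * z2) * hM1
    + (v ^ 2 * w2 + 3 * s * v ^ 2 * w3 + v ^ 3 * w3 * A) * hM2

private theorem mid_mul {x y : ℤ} {a b n : ℕ} (hx : |x| ≤ 2 ^ a) (hy : |y| ≤ 2 ^ b)
    (h : a + b ≤ n) : |x * y| ≤ 2 ^ n := by
  rw [abs_mul]
  calc |x| * |y| ≤ 2 ^ a * 2 ^ b := mul_le_mul hx hy (abs_nonneg _) (by positivity)
    _ = 2 ^ (a + b) := (pow_add _ _ _).symm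
    _ ≤ 2 ^ n := pow_le_pow_right₀ (by norm_num) h

private theorem mid_le {x : ℤ} {a n : ℕ} (hx : |x| ≤ 2 ^ a) (h : a ≤ n) : |x| ≤ 2 ^ n :=
  hx.trans (pow_le_pow_right₀ (by norm_num) h)

private theorem mid_sum {a1 a2 a3 a4 a5 a6 a7 : ℤ} {n : ℕ} (h1 : |a1| ≤ 2 ^ n)
    (h2 : |a2| ≤ 2 ^ n) (h3 : |a3| ≤ 2 ^ n) (h4 : |a4| ≤ 2 ^ n) (h5 : |a5| ≤ 2 ^ n)
    (h6 : |a6| ≤ 2 ^ n) (h7 : |a7| ≤ 2 ^ n) :
    |a1 + a2 + a3 + a4 + a5 + a6 + a7| ≤ 2 ^ (n + 3) := by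
  have hn : (2 : ℤ) ^ (n + 3) = 8 * 2 ^ n := by rw [pow_add]; ring
  have hp : (0 : ℤ) ≤ 2 ^ n := by positivity
  rw [hn]
  rw [abs_le] at *
  generalize (2 : ℤ) ^ n = T at *
  constructor <;> linarith [h1.1, h1.2, h2.1, h2.2, h3.1, h3.2, h4.1, h4.2, h5.1, h5.2, h6.1,
    h6.2, h7.1, h7.2]

theorem mid (p : Co) (s0 c0 c : ℕ) (hc : c0 + s0 + 10 ≤ c) : ∀ᶠ e : ℕ in atTop, ∀ ν ν' : ℕ,
    ν < 2 ^ (1999999 * e) → ν' < 2 ^ (1999999 * e) → cl p c e ν = cl p c e ν' →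
    ∀ s v : ℕ, s < 2 ^ (950 * e + 1) → v ≤ 2 ^ (e + s0) →
    ∃ D z : ℤ, (p.P (ν' + s + 2 ^ (1999999 * e) * v) : ℤ)
        = p.P (ν + s + 2 ^ (1999999 * e) * v) + D + z * 2 ^ (4001910 * e) ∧
      |D| ≤ 2 ^ (3999998 * e - c0) := by
  filter_upwards [cl_info p c, eventually_ge_atTop (c + c0 + s0 + 100)] with e hinf he ν ν' hν hν'
    hcl s v hs hv
  obtain ⟨⟨x0, z0, h0, hx0⟩, ⟨x1, z1, h1, hx1⟩, ⟨y1, u1, h1', hy1⟩, ⟨x2, z2, h2, hx2⟩, ⟨w2, h2'⟩,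
    ⟨w3, h3'⟩, -, hd2, hd3⟩ := hinf ν ν' hν hν' hcl
  have hM1 : (2 : ℤ) ^ (1999999 * e) * 2 ^ (2001911 * e) = 2 ^ (4001910 * e) := by
    rw [← pow_add]; congr 1; omega
  have hM2 : ((2 : ℤ) ^ (1999999 * e)) ^ 2 * 2 ^ (1912 * e) = 2 ^ (4001910 * e) := by
    rw [← pow_mul, ← pow_add]; congr 1; omega
  have hP : (p.P (ν' + s + 2 ^ (1999999 * e) * v) : ℤ) - p.P (ν + s + 2 ^ (1999999 * e) * v)
      = ((p.P ν' : ℤ) - p.P ν) + ((s : ℤ) + 2 ^ (1999999 * e) * v) * ((p.P1 ν' : ℤ) - p.P1 ν)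
        + ((s : ℤ) + 2 ^ (1999999 * e) * v) ^ 2 * ((p.P2 ν' : ℤ) - p.P2 ν)
        + ((s : ℤ) + 2 ^ (1999999 * e) * v) ^ 3 * ((p.P3 ν' : ℤ) - p.P3 ν) := by
    have h := P_diff p ν ν' (s + 2 ^ (1999999 * e) * v)
    rw [← add_assoc, ← add_assoc] at h
    rw [h]
    push_cast
    rfl
  refine ⟨_, _, mid_alg _ _ _ _ s v _ _ _ _ _ _ _ _ _ _ _ _ _ _ _ _ hM1 hM2 hP h0 h1 h1' h2 h2'
    h3', ?_⟩
  have hS : |(s : ℤ)| ≤ 2 ^ (950 * e + 1) := by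
    rw [Nat.abs_cast]; exact_mod_cast hs.le
  have hV : |(v : ℤ)| ≤ 2 ^ (e + s0) := by
    rw [Nat.abs_cast]; exact_mod_cast hv
  have hA : |(2 : ℤ) ^ (1999999 * e)| ≤ 2 ^ (1999999 * e) := by
    rw [abs_of_nonneg (by positivity)]
  have hS2 : |(s : ℤ) ^ 2| ≤ 2 ^ (1900 * e + 2) := by
    rw [pow_two]; exact mid_mul hS hS (by omega)
  have hS3 : |(s : ℤ) ^ 3| ≤ 2 ^ (2850 * e + 3) := by
    rw [pow_succ]; exact mid_mul hS2 hS (by omega)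
  have h2b : |(2 : ℤ)| ≤ 2 ^ 1 := by norm_num
  have h3b : |(3 : ℤ)| ≤ 2 ^ 2 := by norm_num
  have hsum := mid_sum (n := 3999998 * e - c0 - 3)
    (mid_le hx0 (by omega))
    (mid_mul hS hx1 (by omega))
    (mid_mul (mid_mul (n := 2000000 * e + s0) hA hV (by omega)) hy1 (by omega))
    (mid_mul hS2 hd2 (by omega))
    (mid_mul (mid_mul (n := 2000950 * e + s0 + 2) (mid_mul (n := 2000949 * e + 2)
      (mid_mul (n := 950 * e + 2) h2b hS (by omega)) hA (by omega)) hV (by omega)) hx2 (by omega))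
    (mid_mul hS3 hd3 (by omega))
    (mid_mul (mid_mul (n := 2001900 * e + s0 + 4) (mid_mul (n := 2001899 * e + 4)
      (mid_mul (n := 1900 * e + 4) h3b hS2 (by omega)) hA (by omega)) hV (by omega)) hd3 (by omega))
  have he3 : 3999998 * e - c0 - 3 + 3 = 3999998 * e - c0 := by omega
  rw [he3] at hsum
  exact hsum

end Pool.Agent.Lib.MP_8fac0f_nt.Q4
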