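import Pool.Agent.Lib.MP_8fac0f_nt.Q4.Defs
import Pool.Agent.Lib.MP_8fac0f_nt.Q4.ClInfo

/-!
# TOP: the top digits of the two points of a class

Proof. `P_diff` with `t = s + 2 ^ j v`, `j = 1999999 e`, and `cl_info` (`d1`, `d2`, `d3` = the differences of `P1`,
`P2`, `P3`). Modulo `2 ^ (6000000 e + rho)`: `s d1`: size `2 ^ (951 e + 5998088 e)`; `2 ^ j v d1`: first window
(`j + 4001910 e >= 6000000 e + rho`): `2 ^ (1999999 e + e + s0 + 3999048 e)`; `s ^ 2 d2`: size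
`2 ^ (1902 e + 3998089 e)`; `2 s 2 ^ j v d2`: size `2 ^ (1 + 951 e + 2000000 e + s0 + 3998089 e)`;
`2 ^ (2 j) v ^ 2 d2`: third window (`2 j + 2001911 e >= 6000000 e + rho`):
`2 ^ (3999998 e + 2 e + 2 s0 + 1999048 e)`; `s ^ 3 d3`, `3 s ^ 2 2 ^ j v d3`: small sizes;
`3 s 2 ^ (2 j) v ^ 2 d3`: size `2 ^ (2 + 951 e + 3999998 e + 2 e + 2 s0 + 1998090 e)`; `2 ^ (3 j) v ^ 3 d3 = 0`
(`3 j + 1912 e = 6001909 e`). All are at most `2 ^ (5999060 e)`; the sum is at most `2 ^ (5999999 e)`.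
-/

set_option autoImplicit false

namespace Pool.Agent.Lib.MP_8fac0f_nt.Q4

open Finset Filter Topology
open Pool.Agent.Lib.MP_8fac0f_nt.C3 (di ex)

private theorem top_alg (A M G R1 R2 R3 s v x1 z1 x2 z2 w3 d0 d1 d2 d3 P' P : ℤ)
    (hM1 : A ^ 3 * R1 = G * M) (hM2 : A ^ 2 * R2 = G * M) (hM3 : A * R3 = G * M)
    (hP : P' - P = d0 + (s + A * v) * d1 + (s + A * v) ^ 2 * d2 + (s + A * v) ^ 3 * d3)
    (h1 : d1 = x1 + z1 * R3) (h2 : d2 = x2 + z2 * R2) (h3 : d3 = w3 * R1) :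
    P' = P + d0 + (s * d1 + A * v * x1 + s ^ 2 * d2 + 2 * s * A * v * d2 + A ^ 2 * v ^ 2 * x2
        + s ^ 3 * d3 + 3 * s ^ 2 * A * v * d3 + 3 * s * (A ^ 2 * v ^ 2) * d3)
      + ((v * z1 + v ^ 2 * z2 + v ^ 3 * w3) * G) * M := by
  linear_combination hP + A * v * h1 + A ^ 2 * v ^ 2 * h2 + A ^ 3 * v ^ 3 * h3
    + v * z1 * hM3 + v ^ 2 * z2 * hM2 + v ^ 3 * w3 * hM1

private theorem top_mul {x y : ℤ} {a b n : ℕ} (hx : |x| ≤ 2 ^ a) (hy : |y| ≤ 2 ^ b)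
    (h : a + b ≤ n) : |x * y| ≤ 2 ^ n := by
  rw [abs_mul]
  calc |x| * |y| ≤ 2 ^ a * 2 ^ b := mul_le_mul hx hy (abs_nonneg _) (by positivity)
    _ = 2 ^ (a + b) := (pow_add _ _ _).symm
    _ ≤ 2 ^ n := pow_le_pow_right₀ (by norm_num) h

private theorem top_sum {a1 a2 a3 a4 a5 a6 a7 a8 : ℤ} {n : ℕ} (h1 : |a1| ≤ 2 ^ n)
    (h2 : |a2| ≤ 2 ^ n) (h3 : |a3| ≤ 2 ^ n) (h4 : |a4| ≤ 2 ^ n) (h5 : |a5| ≤ 2 ^ n)
    (h6 : |a6| ≤ 2 ^ n) (h7 : |a7| ≤ 2 ^ n) (h8 : |a8| ≤ 2 ^ n) :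
    |a1 + a2 + a3 + a4 + a5 + a6 + a7 + a8| ≤ 2 ^ (n + 3) := by
  have hn : (2 : ℤ) ^ (n + 3) = 8 * 2 ^ n := by rw [pow_add]; ring
  have hp : (0 : ℤ) ≤ 2 ^ n := by positivity
  rw [hn]
  rw [abs_le] at *
  generalize (2 : ℤ) ^ n = T at *
  constructor <;> linarith [h1.1, h1.2, h2.1, h2.2, h3.1, h3.2, h4.1, h4.2, h5.1, h5.2, h6.1,
    h6.2, h7.1, h7.2, h8.1, h8.2]

theorem top (p : Co) (s0 c ρ : ℕ) : ∀ᶠ e : ℕ in atTop, ∀ ν ν' : ℕ,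
    ν < 2 ^ (1999999 * e) → ν' < 2 ^ (1999999 * e) → cl p c e ν = cl p c e ν' →
    ∀ s v : ℕ, s < 2 ^ (951 * e) → v ≤ 2 ^ (e + s0) →
    ∃ D z : ℤ, (p.P (ν' + s + 2 ^ (1999999 * e) * v) : ℤ)
        = p.P (ν + s + 2 ^ (1999999 * e) * v) + ((p.P ν' : ℤ) - p.P ν) + D
          + z * 2 ^ (6000000 * e + ρ) ∧
      |D| ≤ 2 ^ (5999999 * e) := by
  filter_upwards [cl_info p c, eventually_ge_atTop (c + ρ + 2 * s0 + 100)] with e hinf he ν ν' hν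
    hν' hcl s v hs hv
  obtain ⟨-, ⟨x1, z1, h1, hx1⟩, -, ⟨x2, z2, h2, hx2⟩, -, ⟨w3, h3⟩, hd1, hd2, hd3⟩ :=
    hinf ν ν' hν hν' hcl
  have hM1 : ((2 : ℤ) ^ (1999999 * e)) ^ 3 * 2 ^ (1912 * e)
      = 2 ^ (1909 * e - ρ) * 2 ^ (6000000 * e + ρ) := by
    rw [← pow_mul, ← pow_add, ← pow_add]; congr 1; omega
  have hM2 : ((2 : ℤ) ^ (1999999 * e)) ^ 2 * 2 ^ (2001911 * e)
      = 2 ^ (1909 * e - ρ) * 2 ^ (6000000 * e + ρ) := by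
    rw [← pow_mul, ← pow_add, ← pow_add]; congr 1; omega
  have hM3 : (2 : ℤ) ^ (1999999 * e) * 2 ^ (4001910 * e)
      = 2 ^ (1909 * e - ρ) * 2 ^ (6000000 * e + ρ) := by
    rw [← pow_add, ← pow_add]; congr 1; omega
  have hP : (p.P (ν' + s + 2 ^ (1999999 * e) * v) : ℤ) - p.P (ν + s + 2 ^ (1999999 * e) * v)
      = ((p.P ν' : ℤ) - p.P ν) + ((s : ℤ) + 2 ^ (1999999 * e) * v) * ((p.P1 ν' : ℤ) - p.P1 ν)
        + ((s : ℤ) + 2 ^ (1999999 * e) * v) ^ 2 * ((p.P2 ν' : ℤ) - p.P2 ν)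
        + ((s : ℤ) + 2 ^ (1999999 * e) * v) ^ 3 * ((p.P3 ν' : ℤ) - p.P3 ν) := by
    have h := P_diff p ν ν' (s + 2 ^ (1999999 * e) * v)
    rw [← add_assoc, ← add_assoc] at h
    rw [h]
    push_cast
    rfl
  refine ⟨_, _, top_alg _ _ _ _ _ _ s v _ _ _ _ _ _ _ _ _ _ _ hM1 hM2 hM3 hP h1 h2 h3, ?_⟩
  have hS : |(s : ℤ)| ≤ 2 ^ (951 * e) := by
    rw [Nat.abs_cast]; exact_mod_cast hs.le
  have hV : |(v : ℤ)| ≤ 2 ^ (e + s0) := by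
    rw [Nat.abs_cast]; exact_mod_cast hv
  have hA : |(2 : ℤ) ^ (1999999 * e)| ≤ 2 ^ (1999999 * e) := by
    rw [abs_of_nonneg (by positivity)]
  have hA2 : |((2 : ℤ) ^ (1999999 * e)) ^ 2| ≤ 2 ^ (3999998 * e) := by
    rw [pow_two]; exact top_mul hA hA (by omega)
  have hV2 : |(v : ℤ) ^ 2| ≤ 2 ^ (2 * e + 2 * s0) := by
    rw [pow_two]; exact top_mul hV hV (by omega)
  have hS2 : |(s : ℤ) ^ 2| ≤ 2 ^ (1902 * e) := by
    rw [pow_two]; exact top_mul hS hS (by omega)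
  have hS3 : |(s : ℤ) ^ 3| ≤ 2 ^ (2853 * e) := by
    rw [pow_succ]; exact top_mul hS2 hS (by omega)
  have h2b : |(2 : ℤ)| ≤ 2 ^ 1 := by norm_num
  have h3b : |(3 : ℤ)| ≤ 2 ^ 2 := by norm_num
  have hAV2 : |((2 : ℤ) ^ (1999999 * e)) ^ 2 * (v : ℤ) ^ 2| ≤ 2 ^ (4000000 * e + 2 * s0) :=
    top_mul hA2 hV2 (by omega)
  have hsum := top_sum (n := 5999999 * e - 3)
    (top_mul hS hd1 (by omega))
    (top_mul (top_mul (n := 2000000 * e + s0) hA hV (by omega)) hx1 (by omega))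
    (top_mul hS2 hd2 (by omega))
    (top_mul (top_mul (n := 2000951 * e + s0 + 1) (top_mul (n := 2000950 * e + 1)
      (top_mul (n := 951 * e + 1) h2b hS (by omega)) hA (by omega)) hV (by omega)) hd2 (by omega))
    (top_mul hAV2 hx2 (by omega))
    (top_mul hS3 hd3 (by omega))
    (top_mul (top_mul (n := 2001902 * e + s0 + 2) (top_mul (n := 2001901 * e + 2)
      (top_mul (n := 1902 * e + 2) h3b hS2 (by omega)) hA (by omega)) hV (by omega)) hd3 (by omega))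
    (top_mul (top_mul (n := 4000951 * e + 2 * s0 + 2)
      (top_mul (n := 951 * e + 2) h3b hS (by omega)) hAV2 (by omega)) hd3 (by omega))
  have he3 : 5999999 * e - 3 + 3 = 5999999 * e := by omega
  rw [he3] at hsum
  exact hsum

end Pool.Agent.Lib.MP_8fac0f_nt.Q4
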