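import Pool.Agent.Lib.MP_8fac0f_nt.Q4.Defs4
import Pool.Agent.Lib.MP_8fac0f_nt.Q4.EXP4
import Pool.Agent.Lib.MP_8fac0f_nt.Q4.TOP

/-!
# PTS: the expansion of all points of one pair around `n0 = ν + y`

Proof. `j = 1999999 e`, `K = 6000000 e + ρ`, `t = v + m <= kap 2 ^ e + 2 ^ (e / 16) <= 2 ^ (e + s0)`.
(1) Directions: for every finset `wA` and every `s <= 2 ^ (950 e) + Um` (`Um` = a bound of `U`), by induction on `wA`
(`Finset.induction_on`): `P (ν + s + sum_{i in wA} x i + 2 ^ j t) = P (ν + s + 2 ^ j t)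
+ (sum_{i in wA} A i) T 2 ^ (6000000 e - lam) + D + z 2 ^ K`, `|D| <= |wA| 2 ^ (5999999 e + 2)`, `T = Th p e lam ρ ν ν'`:
insert `i`: `Act` at `s' = s + sum_{wA} x`, `s' < 2 ^ (950 e + 1)` because the sum of all `x` is `<= 2 ^ (944 e)`.
(2) `s = 1`: `top` (with this `s0`, `c`, `ρ`) at `s = y + u + sum_{wA} x i < 2 ^ (951 e)`, `v := t`:
`P (ν' + s + 2 ^ j t) = P (ν + s + 2 ^ j t) + (P ν' - P ν) + D1 + z 2 ^ K`, and `P ν' - P ν = Dl + z' 2 ^ K` by the
definition of `Dl` (`Int.emod_add_mul_ediv`, `Int.toNat_of_nonneg`). `s = 0`: nothing.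
(3) `exp4` with `n0 = ν + y < 2 ^ (j + 1)` for `P (ν + y + u + 2 ^ j (v + m))`.
The errors: `2 ^ (5999999 e) + n 2 ^ (5999999 e + 2) + 2 ^ (6000000 e - e / 2) <= 2 ^ (6000000 e - e / 4)` for large `e`.
`Δ / 2 ^ (6000000 e - lam)` in `PtExp` is `Th` by definition.
-/

set_option autoImplicit false

namespace Pool.Agent.Lib.MP_8fac0f_nt.Q4

open Finset Filter Topology
open Pool.Agent.Lib.MP_8fac0f_nt.C3 (di ex)

/-- The directions, one after the other. -/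
theorem pts_dirs (p : Co) (n lam ρ s0 e ν T : ℕ) (x A : Fin n → ℕ)
    (hact : ∀ i, Act p lam ρ s0 e ν (x i) (A i * T)) (s t : ℕ)
    (hs : s + ∑ i, x i < 2 ^ (950 * e + 1)) (ht : t ≤ 2 ^ (e + s0)) (wA : Finset (Fin n)) :
    ∃ D z : ℤ, (p.P (ν + (s + ∑ i ∈ wA, x i) + 2 ^ (1999999 * e) * t) : ℤ)
        = p.P (ν + s + 2 ^ (1999999 * e) * t)
          + (∑ i ∈ wA, (A i : ℤ)) * T * 2 ^ (6000000 * e - lam) + D
          + z * 2 ^ (6000000 * e + ρ) ∧
      |D| ≤ wA.card * 2 ^ (5999999 * e + 2) := by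
  classical
  induction wA using Finset.induction_on with
  | empty => exact ⟨0, 0, by simp, by simp⟩
  | insert i w hi ih =>
    obtain ⟨D, z, h1, h2⟩ := ih
    have hsub : ∑ i ∈ w, x i ≤ ∑ i, x i := sum_le_univ_sum_of_nonneg fun _ => Nat.zero_le _
    obtain ⟨D', z', h3, h4⟩ := hact i (s + ∑ i ∈ w, x i) t (by omega) ht
    refine ⟨D + D', z + z', ?_, ?_⟩
    · rw [sum_insert hi, sum_insert hi]
      have e1 : ν + (s + (x i + ∑ j ∈ w, x j)) + 2 ^ (1999999 * e) * t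
          = ν + (s + ∑ j ∈ w, x j) + x i + 2 ^ (1999999 * e) * t := by ring
      rw [e1, h3, h1]
      push_cast
      ring
    · rw [card_insert_of_notMem hi]
      push_cast
      have h5 := abs_add_le D D'
      have h6 : ((w.card : ℤ) + 1) * 2 ^ (5999999 * e + 2)
          = w.card * 2 ^ (5999999 * e + 2) + 2 ^ (5999999 * e + 2) := by ring
      rw [h6]
      linarith

/-- (PTS) -/
theorem pts (p : Co) (U : Finset ℕ) (n κ s0 c lam ρ : ℕ) (hs0 : κ + 1 ≤ 2 ^ s0) :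
    ∀ᶠ e : ℕ in atTop, ∀ ν ν' : ℕ, ν < 2 ^ (1999999 * e) → ν' < 2 ^ (1999999 * e) →
      cl p c e ν = cl p c e ν' → ∀ y < 2 ^ (950 * e), ∀ x A : Fin n → ℕ,
      ∑ i, x i ≤ 2 ^ (944 * e) →
      (∀ i, Act p lam ρ s0 e ν (x i) (A i * Th p e lam ρ ν ν')) →
      PtExp p U n κ lam ρ e (ν + y) (Dl p (6000000 * e + ρ) ν ν') A
        (fun wA s u => (if s = 0 then ν else ν') + y + u + ∑ i ∈ wA, x i) := by
  filter_upwards [top p s0 c ρ, exp4 p (U.sup id) s0 ρ,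
    eventually_ge_atTop (16 * (n + U.sup id + lam + 20))] with e htop hexp he
  intro ν ν' hν hν' hcl y hy x A hx hact wA s u v m hs hu hv hm
  have huU : u ≤ U.sup id := Finset.le_sup (f := id) hu
  have hnp : n < 2 ^ n := Nat.lt_two_pow_self
  -- sizes
  have hsz : y + u + ∑ i, x i < 2 ^ (950 * e + 1) := by
    have h1 : U.sup id < 2 ^ (U.sup id) := Nat.lt_two_pow_self
    have h2 : 2 ^ (U.sup id) ≤ 2 ^ (944 * e) := Nat.pow_le_pow_right (by norm_num) (by omega)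
    have h3 : 2 ^ (944 * e) * 2 ≤ 2 ^ (950 * e) := by
      rw [← pow_succ]; exact Nat.pow_le_pow_right (by norm_num) (by omega)
    rw [pow_succ 2 (950 * e)]
    omega
  have hsub : ∑ i ∈ wA, x i ≤ ∑ i, x i := sum_le_univ_sum_of_nonneg fun _ => Nat.zero_le _
  have hsz2 : y + u + ∑ i ∈ wA, x i < 2 ^ (951 * e) := by
    have : 2 ^ (950 * e + 1) ≤ 2 ^ (951 * e) := Nat.pow_le_pow_right (by norm_num) (by omega)
    omega
  have ht : v + m ≤ 2 ^ (e + s0) := by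
    have h1 : 2 ^ (e / 16) ≤ 2 ^ e := Nat.pow_le_pow_right (by norm_num) (by omega)
    have h2 : (κ + 1) * 2 ^ e ≤ 2 ^ s0 * 2 ^ e := Nat.mul_le_mul_right _ hs0
    rw [add_comm e s0, pow_add]
    linarith
  have hv2 : v ≤ 2 ^ (e + s0) := by omega
  have hm2 : m ≤ 2 ^ (e / 16 + 1) := hm.trans (Nat.pow_le_pow_right (by norm_num) (by omega))
  have hn0 : ν + y < 2 ^ (1999999 * e + 1) := by
    have : 2 ^ (950 * e) ≤ 2 ^ (1999999 * e) := Nat.pow_le_pow_right (by norm_num) (by omega)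
    rw [pow_succ 2 (1999999 * e)]
    omega
  -- the three expansions
  obtain ⟨D1, z1, h1, b1⟩ := pts_dirs p n lam ρ s0 e ν (Th p e lam ρ ν ν') x A hact (y + u)
    (v + m) hsz ht wA
  obtain ⟨D2, z2, h2, b2⟩ := hexp (ν + y) hn0 u m v huU hm2 hv2
  have hTh : Dl p (6000000 * e + ρ) ν ν' / 2 ^ (6000000 * e - lam) = Th p e lam ρ ν ν' := rfl
  have hDl : ((Dl p (6000000 * e + ρ) ν ν' : ℕ) : ℤ)
      = ((p.P ν' : ℤ) - p.P ν) % 2 ^ (6000000 * e + ρ) := by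
    unfold Dl
    exact Int.toNat_of_nonneg (Int.emod_nonneg _ (by positivity))
  have hdm := Int.emod_add_mul_ediv ((p.P ν' : ℤ) - p.P ν) (2 ^ (6000000 * e + ρ))
  rw [← hDl] at hdm
  have hD3 : ∃ D3 z3 : ℤ, (p.P ((if s = 0 then ν else ν') + y + u + ∑ i ∈ wA, x i
      + 2 ^ (1999999 * e) * (v + m)) : ℤ)
      = p.P (ν + (y + u + ∑ i ∈ wA, x i) + 2 ^ (1999999 * e) * (v + m))
        + s * (Dl p (6000000 * e + ρ) ν ν' : ℕ) + D3 + z3 * 2 ^ (6000000 * e + ρ) ∧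
      |D3| ≤ 2 ^ (5999999 * e) := by
    by_cases hs0 : s = 0
    · refine ⟨0, 0, ?_, by simp⟩
      rw [if_pos hs0, hs0]
      have e1 : ν + y + u + ∑ i ∈ wA, x i + 2 ^ (1999999 * e) * (v + m)
          = ν + (y + u + ∑ i ∈ wA, x i) + 2 ^ (1999999 * e) * (v + m) := by ring
      rw [e1]
      push_cast
      ring
    · have hs1 : s = 1 := by omega
      obtain ⟨D, z, h4, b4⟩ := htop ν ν' hν hν' hcl (y + u + ∑ i ∈ wA, x i) (v + m) hsz2 ht
      refine ⟨D, z + ((p.P ν' : ℤ) - p.P ν) / 2 ^ (6000000 * e + ρ), ?_, b4⟩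
      rw [if_neg hs0, hs1]
      have e1 : ν' + y + u + ∑ i ∈ wA, x i + 2 ^ (1999999 * e) * (v + m)
          = ν' + (y + u + ∑ i ∈ wA, x i) + 2 ^ (1999999 * e) * (v + m) := by ring
      rw [e1, h4]
      linear_combination -hdm
  obtain ⟨D3, z3, h3, b3⟩ := hD3
  refine ⟨D1 + D2 + D3, z1 + z2 + z3, ?_, ?_⟩
  · simp only
    rw [h3, h1, hTh]
    have e2 : ν + (y + u) + 2 ^ (1999999 * e) * (v + m)
        = ν + y + u + 2 ^ (1999999 * e) * (v + m) := by ring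
    rw [e2, h2]
    ring
  · have c1 : (wA.card : ℤ) * 2 ^ (5999999 * e + 2) ≤ 2 ^ (6000000 * e - e / 4 - 2) := by
      have k1 : wA.card ≤ n := by
        have := card_le_univ wA
        rwa [Fintype.card_fin] at this
      have k2 : (wA.card : ℤ) ≤ 2 ^ n := by exact_mod_cast (k1.trans hnp.le)
      calc (wA.card : ℤ) * 2 ^ (5999999 * e + 2) ≤ 2 ^ n * 2 ^ (5999999 * e + 2) :=
            mul_le_mul_of_nonneg_right k2 (by positivity)
        _ = 2 ^ (n + (5999999 * e + 2)) := by rw [← pow_add]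
        _ ≤ 2 ^ (6000000 * e - e / 4 - 2) := pow_le_pow_right₀ (by norm_num) (by omega)
    have c2 : (2 : ℤ) ^ (6000000 * e - e / 2) ≤ 2 ^ (6000000 * e - e / 4 - 2) :=
      pow_le_pow_right₀ (by norm_num) (by omega)
    have c3 : (2 : ℤ) ^ (5999999 * e) ≤ 2 ^ (6000000 * e - e / 4 - 2) :=
      pow_le_pow_right₀ (by norm_num) (by omega)
    have c4 : (2 : ℤ) ^ (6000000 * e - e / 4) = 4 * 2 ^ (6000000 * e - e / 4 - 2) := by
      have : 6000000 * e - e / 4 = (6000000 * e - e / 4 - 2) + 2 := by omega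
      rw [this, pow_add]
      simp only [Nat.add_sub_cancel]
      norm_num
      ring
    have k3 := abs_add_le (D1 + D2) D3
    have k4 := abs_add_le D1 D2
    have k5 : (0 : ℤ) ≤ 2 ^ (6000000 * e - e / 4 - 2) := by positivity
    rw [c4]
    linarith

end Pool.Agent.Lib.MP_8fac0f_nt.Q4
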