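import Pool.Agent.Lib.MP_8fac0f_nt.Q4.Defs3

/-!
# Row XT: Taylor expansion of a shift by `x`, with sizes (used by SLA and XPA)

PROOF IN WORDS.  With `T = 2^j v`, `N = ν + s + T`, by `Co.P_add` and `Co.P1_add` (twice) and
`Co.P2_add`:
`P(N + x) = P N + x P1 N + x² P2 N + x³ P3 N + a x⁴`,
`P1 N = P1(ν + T) + 2 s P2(ν + T) + 3 s² P3(ν + T) + 4 a s³`,
`P1(ν + T) = P1 ν + 2 T P2 ν + 3 T² P3 ν + 4 a T³`.
So `P(N+x) = P N + (x P1 ν + x T 2 P2 ν + x T² 3 P3 ν + 4 a x T³) + R`,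
`R = x (2 s P2(ν+T) + 3 s² P3(ν+T) + 4 a s³) + x² P2 N + x³ P3 N + a x⁴ ≥ 0`.
Sizes (`e` large, constants absorbed): `x ≤ 2^(944 e)`, `s ≤ 2^(951 e)`,
`N, ν + T ≤ 2^(2000001 e)`; `P2 ≤ 6 S 2^(4000002 e)`, `P3 ≤ 4 S 2^(2000001 e)` (`Co.P2_le`,
`Co.P3_le`), so
`R ≤ 12 S 2^(944+951+4000002) + small ≤ 2^(4001899 e)` (`944 + 951 + 4000002 = 4001897`;
`x² P2 ≤ 6 S 2^(4001890 e)`).
-/

set_option autoImplicit false

namespace Pool.Agent.Lib.MP_8fac0f_nt.Q4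

open Finset
open Pool.Agent.Lib.MP_8fac0f_nt.C3 (di ex)

private theorem xt_mul {a b A B : ℕ} (c : ℕ) (ha : a ≤ 2 ^ A) (hb : b ≤ c * 2 ^ B) (C : ℕ)
    (hC : A + B ≤ C) : a * b ≤ c * 2 ^ C := by
  calc a * b ≤ 2 ^ A * (c * 2 ^ B) := Nat.mul_le_mul ha hb
    _ = c * (2 ^ A * 2 ^ B) := by ring
    _ = c * 2 ^ (A + B) := by rw [← pow_add]
    _ ≤ c * 2 ^ C := Nat.mul_le_mul_left _ (Nat.pow_le_pow_right (by norm_num) hC)

private theorem xt_id (p : Co) (ν s x T : ℕ) :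
    p.P (ν + s + x + T) = p.P (ν + s + T) + x * p.P1 ν + x * T * (2 * p.P2 ν)
        + x * T ^ 2 * (3 * p.P3 ν) + 4 * p.a * x * T ^ 3
        + (x * (s * (2 * p.P2 (ν + T)) + s ^ 2 * (3 * p.P3 (ν + T)) + s ^ 3 * (4 * p.a))
          + x ^ 2 * p.P2 (ν + s + T) + x ^ 3 * p.P3 (ν + s + T) + x ^ 4 * p.a) := by
  unfold Co.P Co.P1 Co.P2 Co.P3
  ring

theorem xt (p : Co) (s0 : ℕ) : ∀ᶠ e : ℕ in Filter.atTop, ∀ ν s x v : ℕ,
    ν < 2 ^ (1999999 * e) → s ≤ 2 ^ (951 * e) → x ≤ 2 ^ (944 * e) → v ≤ 2 ^ (e + s0) →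
    ∃ R : ℕ, p.P (ν + s + x + 2 ^ (1999999 * e) * v)
      = p.P (ν + s + 2 ^ (1999999 * e) * v) + x * p.P1 ν
        + x * (2 ^ (1999999 * e) * v) * (2 * p.P2 ν)
        + x * (2 ^ (1999999 * e) * v) ^ 2 * (3 * p.P3 ν)
        + 4 * p.a * x * (2 ^ (1999999 * e) * v) ^ 3 + R ∧ R ≤ 2 ^ (4001899 * e) := by
  have hS : ∀ᶠ e : ℕ in Filter.atTop, 100 * p.S ≤ 2 ^ e :=
    (tendsto_pow_atTop_atTop_of_one_lt (by norm_num : (1 : ℕ) < 2)).eventually_ge_atTop _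
  filter_upwards [hS, Filter.eventually_ge_atTop (s0 + 3)] with e heS hes ν s x v hν hs hx hv
  refine ⟨_, xt_id p ν s x (2 ^ (1999999 * e) * v), ?_⟩
  set T := 2 ^ (1999999 * e) * v with hT
  have hT1 : T ≤ 2 ^ (2000000 * e + s0) := by
    calc T ≤ 2 ^ (1999999 * e) * 2 ^ (e + s0) := Nat.mul_le_mul_left _ hv
      _ = 2 ^ (1999999 * e + (e + s0)) := by rw [← pow_add]
      _ ≤ 2 ^ (2000000 * e + s0) := Nat.pow_le_pow_right (by norm_num) (by omega)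
  have hν1 : ν ≤ 2 ^ (2000000 * e + s0) := hν.le.trans (Nat.pow_le_pow_right (by norm_num) (by omega))
  have hs1 : s ≤ 2 ^ (2000000 * e + s0) := hs.trans (Nat.pow_le_pow_right (by norm_num) (by omega))
  have hsum : 2 ^ (2000000 * e + s0) + 2 ^ (2000000 * e + s0) + 2 ^ (2000000 * e + s0)
      ≤ 2 ^ (2000001 * e) := by
    calc 2 ^ (2000000 * e + s0) + 2 ^ (2000000 * e + s0) + 2 ^ (2000000 * e + s0)
        ≤ 2 ^ (2000000 * e + s0) * 2 ^ 3 := by omega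
      _ = 2 ^ (2000000 * e + s0 + 3) := by rw [← pow_add]
      _ ≤ 2 ^ (2000001 * e) := Nat.pow_le_pow_right (by norm_num) (by omega)
  have hN1 : ν + T ≤ 2 ^ (2000001 * e) := by omega
  have hN2 : ν + s + T ≤ 2 ^ (2000001 * e) := by omega
  have p2a := p.P2_le _ _ hN1
  have p3a := p.P3_le _ _ hN1
  have p2b := p.P2_le _ _ hN2
  have p3b := p.P3_le _ _ hN2
  have haS : p.a ≤ p.S := by unfold Co.S; omega
  have hs2 : s ^ 2 ≤ 2 ^ (1902 * e) := by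
    calc s ^ 2 ≤ (2 ^ (951 * e)) ^ 2 := Nat.pow_le_pow_left hs 2
      _ = 2 ^ (951 * e * 2) := by rw [← pow_mul]
      _ ≤ 2 ^ (1902 * e) := Nat.pow_le_pow_right (by norm_num) (by omega)
  have hs3 : s ^ 3 ≤ 2 ^ (2853 * e) := by
    calc s ^ 3 ≤ (2 ^ (951 * e)) ^ 3 := Nat.pow_le_pow_left hs 3
      _ = 2 ^ (951 * e * 3) := by rw [← pow_mul]
      _ ≤ 2 ^ (2853 * e) := Nat.pow_le_pow_right (by norm_num) (by omega)
  have hx2 : x ^ 2 ≤ 2 ^ (1888 * e) := by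
    calc x ^ 2 ≤ (2 ^ (944 * e)) ^ 2 := Nat.pow_le_pow_left hx 2
      _ = 2 ^ (944 * e * 2) := by rw [← pow_mul]
      _ ≤ 2 ^ (1888 * e) := Nat.pow_le_pow_right (by norm_num) (by omega)
  have hx3 : x ^ 3 ≤ 2 ^ (2832 * e) := by
    calc x ^ 3 ≤ (2 ^ (944 * e)) ^ 3 := Nat.pow_le_pow_left hx 3
      _ = 2 ^ (944 * e * 3) := by rw [← pow_mul]
      _ ≤ 2 ^ (2832 * e) := Nat.pow_le_pow_right (by norm_num) (by omega)
  have hx4 : x ^ 4 ≤ 2 ^ (3776 * e) := by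
    calc x ^ 4 ≤ (2 ^ (944 * e)) ^ 4 := Nat.pow_le_pow_left hx 4
      _ = 2 ^ (944 * e * 4) := by rw [← pow_mul]
      _ ≤ 2 ^ (3776 * e) := Nat.pow_le_pow_right (by norm_num) (by omega)
  have a1 : s * (2 * p.P2 (ν + T)) ≤ (12 * p.S) * 2 ^ (4000953 * e) := by
    refine xt_mul (B := 2 * (2000001 * e)) (12 * p.S) hs ?_ _ (by omega)
    calc 2 * p.P2 (ν + T) ≤ 2 * (6 * p.S * 2 ^ (2 * (2000001 * e))) := Nat.mul_le_mul_left _ p2a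
      _ = 12 * p.S * 2 ^ (2 * (2000001 * e)) := by ring
  have a2 : s ^ 2 * (3 * p.P3 (ν + T)) ≤ (12 * p.S) * 2 ^ (4000953 * e) := by
    refine xt_mul (B := 2000001 * e) (12 * p.S) hs2 ?_ _ (by omega)
    calc 3 * p.P3 (ν + T) ≤ 3 * (4 * p.S * 2 ^ (2000001 * e)) := Nat.mul_le_mul_left _ p3a
      _ = 12 * p.S * 2 ^ (2000001 * e) := by ring
  have a3 : s ^ 3 * (4 * p.a) ≤ (4 * p.S) * 2 ^ (4000953 * e) := by
    refine xt_mul (B := 0) (4 * p.S) hs3 ?_ _ (by omega)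
    rw [pow_zero, mul_one]
    omega
  have a4 : s * (2 * p.P2 (ν + T)) + s ^ 2 * (3 * p.P3 (ν + T)) + s ^ 3 * (4 * p.a)
      ≤ (28 * p.S) * 2 ^ (4000953 * e) := by
    calc s * (2 * p.P2 (ν + T)) + s ^ 2 * (3 * p.P3 (ν + T)) + s ^ 3 * (4 * p.a)
        ≤ (12 * p.S) * 2 ^ (4000953 * e) + (12 * p.S) * 2 ^ (4000953 * e)
          + (4 * p.S) * 2 ^ (4000953 * e) := add_le_add (add_le_add a1 a2) a3
      _ = (28 * p.S) * 2 ^ (4000953 * e) := by ring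
  have b1 : x * (s * (2 * p.P2 (ν + T)) + s ^ 2 * (3 * p.P3 (ν + T)) + s ^ 3 * (4 * p.a))
      ≤ (28 * p.S) * 2 ^ (4001898 * e) := xt_mul _ hx a4 _ (by omega)
  have b2 : x ^ 2 * p.P2 (ν + s + T) ≤ (6 * p.S) * 2 ^ (4001898 * e) :=
    xt_mul _ hx2 p2b _ (by omega)
  have b3 : x ^ 3 * p.P3 (ν + s + T) ≤ (4 * p.S) * 2 ^ (4001898 * e) :=
    xt_mul _ hx3 p3b _ (by omega)
  have b4 : x ^ 4 * p.a ≤ p.S * 2 ^ (4001898 * e) := by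
    refine xt_mul (B := 0) p.S hx4 ?_ _ (by omega)
    rw [pow_zero, mul_one]
    exact haS
  calc x * (s * (2 * p.P2 (ν + T)) + s ^ 2 * (3 * p.P3 (ν + T)) + s ^ 3 * (4 * p.a))
        + x ^ 2 * p.P2 (ν + s + T) + x ^ 3 * p.P3 (ν + s + T) + x ^ 4 * p.a
      ≤ (28 * p.S) * 2 ^ (4001898 * e) + (6 * p.S) * 2 ^ (4001898 * e)
        + (4 * p.S) * 2 ^ (4001898 * e) + p.S * 2 ^ (4001898 * e) :=
        add_le_add (add_le_add (add_le_add b1 b2) b3) b4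
    _ = (39 * p.S) * 2 ^ (4001898 * e) := by ring
    _ ≤ 2 ^ e * 2 ^ (4001898 * e) := Nat.mul_le_mul_right _ (by omega)
    _ = 2 ^ (e + 4001898 * e) := by rw [← pow_add]
    _ ≤ 2 ^ (4001899 * e) := Nat.pow_le_pow_right (by norm_num) (by omega)

end Pool.Agent.Lib.MP_8fac0f_nt.Q4
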