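import Pool.Agent.Lib.MP_8fac0f_nt.C3.Stab
import Pool.Agent.Lib.MP_8fac0f_nt.Q4.XT

/-!
# Row XPA: what a good shift does to the window

PROOF IN WORDS.  `W = lam + ρ`, `K = 6000000 e + ρ`, `x = 2^(3e+ρ) q r ≤ 2^(944 e)` (large
`e`), `T = 2^j v`, `v ≤ V0 = 2^(e+s0)`.  By `xt`:
`P(N + x) = P N + x P1 ν + x T 2 P2 ν + x T² 3 P3 ν + 4 a x T³ + R0`, `R0 ≤ 2^(4001899 e)`.
Because `2^(3e+ρ) / 2^K = 1 / 2^(5999997 e)`:
* `x P1 ν / 2^K = r * (q P1 ν / 2^(5999997 e))`, and `q P1 ν / 2^(5999997 e) - Y / 2^W` is within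
  `1 / 2^(4e)` of an integer, so `x P1 ν = r Y 2^(K - W) + D1 + z1 2^K`, `|D1| ≤ R 2^(K - 4e)`,
  `K - W = 6000000 e - lam` (apply `C3.int_of_di` to the integer `x P1 ν - r Y 2^(K-W)`);
* `x T 2P2 ν / 2^K = r v (q 2P2 ν / 2^(3999998 e))`: `|D2| ≤ R V0 2^(K - 4e)`;
* `x T² 3P3 ν / 2^K = r v² (q 3P3 ν / 2^(1999999 e))`: `|D3| ≤ R V0² 2^(K - 4e)`;
* `4 a x T³` is a multiple of `2^K`.
`|D| ≤ 3 R 2^(2 s0) 2^(K - 2e) + 2^(4001899 e) ≤ 2^(5999999 e)` for large `e`.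
-/

set_option autoImplicit false

namespace Pool.Agent.Lib.MP_8fac0f_nt.Q4

open Finset
open Pool.Agent.Lib.MP_8fac0f_nt.C3 (di ex)

private theorem xpa_part (A : ℤ) (m k : ℕ) (θ δ : ℝ) (h : (A : ℝ) / 2 ^ m = k * θ)
    (hθ : di θ ≤ δ) : ∃ z D : ℤ, A = z * 2 ^ m + D ∧ |(D : ℝ)| ≤ k * δ * 2 ^ m :=
  C3.int_of_di A m (k * δ) (by
    rw [h]
    exact (C3.di_nat_mul k θ).trans (mul_le_mul_of_nonneg_left hθ k.cast_nonneg))

theorem xpa (p : Co) (lam ρ R s0 : ℕ) : ∀ᶠ e : ℕ in Filter.atTop, ∀ i Y ν q r s v : ℕ,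
    ν < 2 ^ (1999999 * e) → q ≤ 2 ^ (940 * e) → r < R → s ≤ 2 ^ (951 * e) →
    v ≤ 2 ^ (e + s0) → QC p e (lam + ρ) i Y ν q → ∃ D z : ℤ,
      (p.P (ν + s + 2 ^ (3 * e + ρ) * (q * r) + 2 ^ (1999999 * e) * v) : ℤ)
        = p.P (ν + s + 2 ^ (1999999 * e) * v) + (r * Y : ℕ) * 2 ^ (6000000 * e - lam) + D
          + z * 2 ^ (6000000 * e + ρ) ∧
      |D| ≤ 2 ^ (5999999 * e) := by
  have hev : ∀ᶠ e : ℕ in Filter.atTop, 3 * R * 2 ^ (2 * s0 + ρ) + 1 ≤ 2 ^ e :=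
    (tendsto_pow_atTop_atTop_of_one_lt (by norm_num : 1 < 2)).eventually_ge_atTop _
  filter_upwards [hev, xt p s0, Filter.eventually_ge_atTop lam] with e he hxt hlam i Y ν q r s v
    hν hq hr hs hv hQC
  obtain ⟨-, -, -, q4, q5, q6⟩ := hQC
  have hR : R * 2 ^ ρ ≤ 2 ^ e := by
    have h1 : R * 2 ^ ρ ≤ 3 * R * 2 ^ (2 * s0 + ρ) := by
      have h2 : 2 ^ ρ ≤ 2 ^ (2 * s0 + ρ) := Nat.pow_le_pow_right (by norm_num) (by omega)
      calc R * 2 ^ ρ ≤ R * 2 ^ (2 * s0 + ρ) := by gcongr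
        _ ≤ 3 * R * 2 ^ (2 * s0 + ρ) := by
            apply Nat.mul_le_mul_right; omega
    omega
  have hx : 2 ^ (3 * e + ρ) * (q * r) ≤ 2 ^ (944 * e) := by
    calc 2 ^ (3 * e + ρ) * (q * r) ≤ 2 ^ (3 * e + ρ) * (2 ^ (940 * e) * R) := by gcongr
      _ = 2 ^ (943 * e) * (R * 2 ^ ρ) := by
          rw [show 943 * e = 3 * e + 940 * e by ring, pow_add, pow_add]; ring
      _ ≤ 2 ^ (943 * e) * 2 ^ e := by gcongr
      _ = 2 ^ (944 * e) := by rw [← pow_add]; congr 1; ring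
  obtain ⟨R0, hR0, hR0b⟩ := hxt ν s _ v hν hs hx hv
  set x := 2 ^ (3 * e + ρ) * (q * r) with hxdef
  set T := 2 ^ (1999999 * e) * v with hTdef
  have pK : (2 : ℝ) ^ (6000000 * e + ρ) = 2 ^ (3 * e + ρ) * 2 ^ (5999997 * e) := by
    rw [← pow_add]; congr 1; ring
  have pK2 : (2 : ℝ) ^ (6000000 * e + ρ)
      = 2 ^ (3 * e + ρ) * 2 ^ (1999999 * e) * 2 ^ (3999998 * e) := by
    rw [← pow_add, ← pow_add]; congr 1; ring
  have pK3 : (2 : ℝ) ^ (6000000 * e + ρ)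
      = 2 ^ (3 * e + ρ) * 2 ^ (1999999 * e) * 2 ^ (1999999 * e) * 2 ^ (1999999 * e) := by
    rw [← pow_add, ← pow_add, ← pow_add]; congr 1; ring
  have pW : (2 : ℝ) ^ (6000000 * e + ρ) = 2 ^ (6000000 * e - lam) * 2 ^ (lam + ρ) := by
    rw [← pow_add]; congr 1; omega
  obtain ⟨z1, D1, hz1, hD1⟩ := xpa_part ((x * p.P1 ν : ℕ) - (r * Y : ℕ) * 2 ^ (6000000 * e - lam))
    (6000000 * e + ρ) r _ _ (by
      have ea : (r * Y : ℝ) * 2 ^ (6000000 * e - lam) / 2 ^ (6000000 * e + ρ)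
          = r * (Y / 2 ^ (lam + ρ)) := by
        rw [pW]; field_simp
      have eb : ((2 : ℝ) ^ (3 * e + ρ) * (q * r)) * p.P1 ν / 2 ^ (6000000 * e + ρ)
          = r * (q * p.P1 ν / 2 ^ (5999997 * e)) := by
        rw [pK]; field_simp
      rw [hxdef]
      push_cast
      rw [sub_div, eb, ea]
      ring) q4
  obtain ⟨z2, D2, hz2, hD2⟩ := xpa_part ((x * T * (2 * p.P2 ν) : ℕ) : ℤ)
    (6000000 * e + ρ) (r * v) _ _ (by
      rw [hxdef, hTdef, pK2]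
      push_cast
      have : (2 : ℝ) ^ (3999998 * e) ≠ 0 := by positivity
      have : (2 : ℝ) ^ (3 * e + ρ) ≠ 0 := by positivity
      have : (2 : ℝ) ^ (1999999 * e) ≠ 0 := by positivity
      field_simp) q5
  obtain ⟨z3, D3, hz3, hD3⟩ := xpa_part ((x * T ^ 2 * (3 * p.P3 ν) : ℕ) : ℤ)
    (6000000 * e + ρ) (r * v ^ 2) _ _ (by
      rw [hxdef, hTdef, pK3]
      push_cast
      have : (2 : ℝ) ^ (3 * e + ρ) ≠ 0 := by positivity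
      have : (2 : ℝ) ^ (1999999 * e) ≠ 0 := by positivity
      field_simp) q6
  have h4 : ((4 * p.a * x * T ^ 3 : ℕ) : ℤ) = (4 * p.a * (q * r) * v ^ 3 : ℕ)
      * 2 ^ (6000000 * e + ρ) := by
    have : (2 : ℕ) ^ (6000000 * e + ρ)
      = 2 ^ (3 * e + ρ) * 2 ^ (1999999 * e) * 2 ^ (1999999 * e) * 2 ^ (1999999 * e) := by
      rw [← pow_add, ← pow_add, ← pow_add]; congr 1; ring
    have h5 : 4 * p.a * x * T ^ 3 = (4 * p.a * (q * r) * v ^ 3) * 2 ^ (6000000 * e + ρ) := by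
      rw [this, hxdef, hTdef]; ring
    rw [h5]; push_cast; ring
  refine ⟨D1 + D2 + D3 + R0, z1 + z2 + z3 + (4 * p.a * (q * r) * v ^ 3 : ℕ), ?_, ?_⟩
  · rw [hR0]
    have e5 : ((p.P (ν + s + T) + x * p.P1 ν + x * T * (2 * p.P2 ν) + x * T ^ 2 * (3 * p.P3 ν)
        + 4 * p.a * x * T ^ 3 + R0 : ℕ) : ℤ)
        = p.P (ν + s + T) + ((x * p.P1 ν : ℕ) - (r * Y : ℕ) * 2 ^ (6000000 * e - lam))
          + (r * Y : ℕ) * 2 ^ (6000000 * e - lam)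
          + (x * T * (2 * p.P2 ν) : ℕ) + (x * T ^ 2 * (3 * p.P3 ν) : ℕ)
          + (4 * p.a * x * T ^ 3 : ℕ) + R0 := by
      push_cast; ring
    rw [e5, hz1, hz2, hz3, h4]
    ring
  · have hVr : (v : ℝ) ≤ 2 ^ (e + s0) := by exact_mod_cast hv
    have hrR : (r : ℝ) ≤ R := by exact_mod_cast hr.le
    have hV1 : (1 : ℝ) ≤ 2 ^ (e + s0) := one_le_pow₀ (by norm_num)
    have hK4 : (1 : ℝ) / 2 ^ (4 * e) * 2 ^ (6000000 * e + ρ) = 2 ^ (5999996 * e + ρ) := by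
      rw [show 6000000 * e + ρ = 4 * e + (5999996 * e + ρ) by ring, pow_add]
      field_simp
    have hV2 : ((2 : ℝ) ^ (e + s0)) ^ 2 * 2 ^ (5999996 * e + ρ)
        = 2 ^ (2 * s0 + ρ) * 2 ^ (5999998 * e) := by
      rw [← pow_mul, ← pow_add, ← pow_add]; congr 1; ring
    have b1 : |(D1 : ℝ)| ≤ R * 2 ^ (2 * s0 + ρ) * 2 ^ (5999998 * e) := by
      calc |(D1 : ℝ)| ≤ r * (1 / 2 ^ (4 * e)) * 2 ^ (6000000 * e + ρ) := hD1
        _ = r * 1 * 2 ^ (5999996 * e + ρ) := by rw [mul_assoc, hK4]; ring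
        _ ≤ R * ((2 : ℝ) ^ (e + s0)) ^ 2 * 2 ^ (5999996 * e + ρ) := by
            gcongr
            exact one_le_pow₀ hV1
        _ = _ := by rw [mul_assoc, hV2]; ring
    have b2 : |(D2 : ℝ)| ≤ R * 2 ^ (2 * s0 + ρ) * 2 ^ (5999998 * e) := by
      calc |(D2 : ℝ)| ≤ ((r * v : ℕ) : ℝ) * (1 / 2 ^ (4 * e)) * 2 ^ (6000000 * e + ρ) := hD2
        _ = r * (v * 1) * 2 ^ (5999996 * e + ρ) := by rw [mul_assoc, hK4]; push_cast; ring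
        _ ≤ R * (2 ^ (e + s0) * 2 ^ (e + s0)) * 2 ^ (5999996 * e + ρ) := by
            gcongr
        _ = R * (((2 : ℝ) ^ (e + s0)) ^ 2 * 2 ^ (5999996 * e + ρ)) := by ring
        _ = _ := by rw [hV2]; ring
    have b3 : |(D3 : ℝ)| ≤ R * 2 ^ (2 * s0 + ρ) * 2 ^ (5999998 * e) := by
      calc |(D3 : ℝ)| ≤ ((r * v ^ 2 : ℕ) : ℝ) * (1 / 2 ^ (4 * e)) * 2 ^ (6000000 * e + ρ) := hD3
        _ = r * v ^ 2 * 2 ^ (5999996 * e + ρ) := by rw [mul_assoc, hK4]; push_cast; ring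
        _ ≤ R * (2 ^ (e + s0)) ^ 2 * 2 ^ (5999996 * e + ρ) := by
            gcongr
        _ = R * (((2 : ℝ) ^ (e + s0)) ^ 2 * 2 ^ (5999996 * e + ρ)) := by ring
        _ = _ := by rw [hV2]; ring
    have b4 : |(R0 : ℝ)| ≤ 2 ^ (5999998 * e) := by
      rw [Nat.abs_cast]
      have : R0 ≤ 2 ^ (5999998 * e) :=
        hR0b.trans (Nat.pow_le_pow_right (by norm_num) (by omega))
      exact_mod_cast this
    have heR : (3 * R * 2 ^ (2 * s0 + ρ) + 1 : ℝ) ≤ 2 ^ e := by exact_mod_cast he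
    have hfin : |((D1 + D2 + D3 + R0 : ℤ) : ℝ)| ≤ 2 ^ (5999999 * e) := by
      push_cast
      calc |(D1 : ℝ) + D2 + D3 + R0| ≤ |(D1 : ℝ)| + |(D2 : ℝ)| + |(D3 : ℝ)| + |(R0 : ℝ)| := by
            refine (abs_add_le _ _).trans ?_
            gcongr
            exact abs_add_three _ _ _
        _ ≤ R * 2 ^ (2 * s0 + ρ) * 2 ^ (5999998 * e) + R * 2 ^ (2 * s0 + ρ) * 2 ^ (5999998 * e)
            + R * 2 ^ (2 * s0 + ρ) * 2 ^ (5999998 * e) + 2 ^ (5999998 * e) := by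
            gcongr
        _ = (3 * R * 2 ^ (2 * s0 + ρ) + 1) * 2 ^ (5999998 * e) := by ring
        _ ≤ 2 ^ e * 2 ^ (5999998 * e) := by gcongr
        _ = 2 ^ (5999999 * e) := by rw [← pow_add]; congr 1; ring
    exact_mod_cast hfin

end Pool.Agent.Lib.MP_8fac0f_nt.Q4
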