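import Pool.Agent.Lib.MP_8fac0f_nt.Q4.Defs4
import Pool.Agent.Lib.MP_8fac0f_nt.Q4.TOP
import Pool.Agent.Lib.MP_8fac0f_nt.Q4.XPA

/-!
# Row XPT: the A-shifts satisfy `Act`

PROOF IN WORDS.  `x = 2^(3e+ρ) q r ≤ 2^(944 e)` for large `e`.
`act0`: `xpa` (`s < 2^(950e+1) ≤ 2^(951e)`, `2^(5999999 e) ≤ 2^(5999999 e + 2)`).
`act1`: the multiplier is good at `ν'` and `ν`, `ν'` are in one class.  `top` at `s + x`
(`s + x < 2^(951 e)`): `P(ν' + s + x + T) = P(ν + s + x + T) + Δ + D1`; `xpa` at `ν'`: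
`P(ν' + s + x + T) = P(ν' + s + T) + r Y 2^(..) + D2`; `top` at `s`:
`P(ν' + s + T) = P(ν + s + T) + Δ + D3`, all modulo `2^K`, `Δ = P ν' - P ν`.  So
`P(ν + s + x + T) = P(ν + s + T) + r Y 2^(..) + (D2 + D3 - D1)`, error
`≤ 3 * 2^(5999999 e) ≤ 2^(5999999 e + 2)`.
-/

set_option autoImplicit false

namespace Pool.Agent.Lib.MP_8fac0f_nt.Q4

open Finset
open Pool.Agent.Lib.MP_8fac0f_nt.C3 (di ex)

private theorem xpt_size (ρ R : ℕ) : ∀ᶠ e : ℕ in Filter.atTop, ∀ q r : ℕ,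
    q ≤ 2 ^ (940 * e) → r < R → 2 ^ (3 * e + ρ) * (q * r) ≤ 2 ^ (944 * e) := by
  have hev : ∀ᶠ e : ℕ in Filter.atTop, R * 2 ^ ρ ≤ 2 ^ e :=
    (tendsto_pow_atTop_atTop_of_one_lt (by norm_num : 1 < 2)).eventually_ge_atTop _
  filter_upwards [hev] with e hR q r hq hr
  calc 2 ^ (3 * e + ρ) * (q * r) ≤ 2 ^ (3 * e + ρ) * (2 ^ (940 * e) * R) := by gcongr
    _ = 2 ^ (943 * e) * (R * 2 ^ ρ) := by
        rw [show 943 * e = 3 * e + 940 * e by ring, pow_add, pow_add]; ring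
    _ ≤ 2 ^ (943 * e) * 2 ^ e := by gcongr
    _ = 2 ^ (944 * e) := by rw [← pow_add]; congr 1; ring

theorem act0 (p : Co) (lam ρ R s0 : ℕ) : ∀ᶠ e : ℕ in Filter.atTop, ∀ i Y ν q r : ℕ,
    ν < 2 ^ (1999999 * e) → q ≤ 2 ^ (940 * e) → r < R → QC p e (lam + ρ) i Y ν q →
    Act p lam ρ s0 e ν (2 ^ (3 * e + ρ) * (q * r)) (r * Y) := by
  filter_upwards [xpa p lam ρ R s0, Filter.eventually_ge_atTop 1] with e hx he i Y ν q r
    hν hq hr hQC s v hs hv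
  have hs' : s ≤ 2 ^ (951 * e) :=
    hs.le.trans (Nat.pow_le_pow_right (by norm_num) (by omega))
  obtain ⟨D, z, h1, h2⟩ := hx i Y ν q r s v hν hq hr hs' hv hQC
  refine ⟨D, z, h1, h2.trans ?_⟩
  exact pow_le_pow_right₀ (by norm_num) (by omega)

theorem act1 (p : Co) (lam ρ R s0 c : ℕ) : ∀ᶠ e : ℕ in Filter.atTop, ∀ i Y ν ν' q r : ℕ,
    ν < 2 ^ (1999999 * e) → ν' < 2 ^ (1999999 * e) → cl p c e ν = cl p c e ν' →
    q ≤ 2 ^ (940 * e) → r < R → QC p e (lam + ρ) i Y ν' q →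
    Act p lam ρ s0 e ν (2 ^ (3 * e + ρ) * (q * r)) (r * Y) := by
  filter_upwards [xpa p lam ρ R s0, top p s0 c ρ, xpt_size ρ R, Filter.eventually_ge_atTop 3]
    with e hx htop hsz he i Y ν ν' q r hν hν' hcl hq hr hQC s v hs hv
  have hx944 := hsz q r hq hr
  set x := 2 ^ (3 * e + ρ) * (q * r) with hxdef
  have h3 : 4 * 2 ^ (951 * e - 2) = 2 ^ (951 * e) := by
    rw [show 951 * e = (951 * e - 2) + 2 by omega, pow_add]
    simp only [Nat.add_sub_cancel]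
    ring
  have h0 : 0 < 2 ^ (951 * e - 2) := by positivity
  have hs1 : s ≤ 2 ^ (951 * e - 2) :=
    hs.le.trans (Nat.pow_le_pow_right (by norm_num) (by omega))
  have hx1 : x ≤ 2 ^ (951 * e - 2) :=
    hx944.trans (Nat.pow_le_pow_right (by norm_num) (by omega))
  have hsx : s + x < 2 ^ (951 * e) := lt_of_lt_of_eq (by linarith) h3
  have hs951 : s < 2 ^ (951 * e) := lt_of_le_of_lt (Nat.le_add_right s x) hsx
  obtain ⟨D1, z1, h1, hD1⟩ := htop ν ν' hν hν' hcl (s + x) v hsx hv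
  obtain ⟨D3, z3, h4, hD3⟩ := htop ν ν' hν hν' hcl s v hs951 hv
  obtain ⟨D2, z2, h5, hD2⟩ := hx i Y ν' q r s v hν' hq hr hs951.le hv hQC
  refine ⟨D2 + D3 - D1, z2 + z3 - z1, ?_, ?_⟩
  · rw [← hxdef] at h5
    rw [show ν + s + x + 2 ^ (1999999 * e) * v = ν + (s + x) + 2 ^ (1999999 * e) * v by ring]
    rw [show ν' + s + x + 2 ^ (1999999 * e) * v = ν' + (s + x) + 2 ^ (1999999 * e) * v by ring]
      at h5
    linear_combination h5 + h4 - h1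
  · have h6 : (2 : ℤ) ^ (5999999 * e + 2) = 4 * 2 ^ (5999999 * e) := by
      rw [pow_add]; ring
    rw [h6]
    have h7 : |D2 + D3 - D1| ≤ |D2| + |D3| + |D1| := by
      refine (abs_sub _ _).trans ?_
      gcongr
      exact abs_add_le _ _
    have h8 : (0 : ℤ) < 2 ^ (5999999 * e) := by positivity
    linarith

end Pool.Agent.Lib.MP_8fac0f_nt.Q4
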