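import Pool.Agent.Lib.MP_8fac0f_nt.Q4.BPH
import Pool.Agent.Lib.MP_8fac0f_nt.Q4.BEV4
import Pool.Agent.Lib.MP_8fac0f_nt.Q4.PTS
import Pool.Agent.Lib.MP_8fac0f_nt.Q4.XPT

/-!
# PB: one typical pair and one typical `y`, for fixed A-shifts

`bph` with `ι = Finset (Fin nA) × Bool × U`, `|ι| = 2 * |U| * 2 ^ nA`, points
`pick ν ν' σ + y + u + x_w`, `x_w = sum_{i in w} 2 ^ (3 e + ρ) q i r i`, `Ψ v = product of sg (P (..) / 2 ^ (6000000 e - lam) % 2 ^ (lam + ρ))`; its last hypothesis is `beval4`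
(with `M = 1999999 * E`, `ε := ε'` of `bph`, `n0 = ν + y`, `Δ = Dl`, `pt w s u = (if s = 0 then ν else ν') + y + u + sum_{i in w} x i`,
`x i = 2 ^ (3 e + ρ) q i r i`) through `pts` and `act0`, `act1` (`sum x ≤ nA R 2 ^ (943 e + ρ) ≤ 2 ^ (944 e)`; `Δ < 2 ^ K`; `Th = Dl / 2 ^ (6000000 e - lam)` by definition). The rest is the rearrangement of finite products
(`Fintype.prod_prod_type`, `Finset.prod_comm`, `Fintype.prod_bool`, `Finset.prod_range_succ`).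
Order of constants: `ε1 = ε'` of `bph`; then `l0, y0, l2` of `beval4`; then `l1, r0`, `Ξ`; then `c, t`; then `l`.
-/

set_option autoImplicit false

namespace Pool.Agent.Lib.MP_8fac0f_nt.Q4

open Finset Filter Topology
open Pool.Agent.Lib.MP_8fac0f_nt.C3 (di ex)
open Pool.Agent.Lib.MP_8fac0f_nt.N (sg)

private theorem pb_bool (f : Bool → ℝ) (g : ℕ → ℝ) (h0 : f false = g 0) (h1 : f true = g 1) :
    ∏ σ : Bool, f σ = ∏ s ∈ range 2, g s := by
  rw [Fintype.prod_bool, Finset.prod_range_succ, Finset.prod_range_one, h0, h1, mul_comm]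

/-- the points -/
private def pbt {nA : ℕ} (U : Finset ℕ) (ν ν' y : ℕ) (x : Fin nA → ℕ)
    (a : Finset (Fin nA) × Bool × ↥U) : ℕ :=
  pick ν ν' a.2.1 + y + a.2.2 + ∑ i ∈ a.1, x i

private theorem pb_prod {nA : ℕ} (U : Finset ℕ) (F : Finset (Fin nA) → Bool → ℕ → ℝ) :
    ∏ a : Finset (Fin nA) × Bool × ↥U, F a.1 a.2.1 a.2.2 = ∏ w, ∏ σ : Bool, ∏ u ∈ U, F w σ u := by
  rw [Fintype.prod_prod_type]
  refine prod_congr rfl fun w _ => ?_
  rw [Fintype.prod_prod_type]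
  refine prod_congr rfl fun σ _ => ?_
  exact prod_coe_sort U fun u => F w σ u

private theorem pb_abs {α : Type} [Fintype α] (f : α → ℕ) : |∏ a, sg (f a)| = 1 := by
  rw [Finset.abs_prod]
  exact Finset.prod_eq_one fun a _ => Pool.Agent.Lib.MP_8fac0f_nt.N.abs_sg _

theorem pair_b (p : Co) (ha : 1 ≤ p.a) (U : Finset ℕ) (hU : U.Nonempty) (nA R E κ : ℕ)
    (hE : E = 16 * (2 * U.card * 2 ^ nA + 4)) (ε : ℝ) (hε : 0 < ε) :
    ∃ (l0 y0 l2 : ℕ) (ε1 : ℝ), 1 ≤ l0 ∧ y0 < 2 ^ l0 ∧ 0 < ε1 ∧ ∀ l1 r0 : ℕ, 1 ≤ l1 →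
      ∃ Ξ : ℕ, ∀ c t : ℕ, ∀ᶠ l : ℕ in atTop, ∀ e : ℕ, e = E * l →
      ∀ ν ν' : ℕ, ν < 2 ^ (1999999 * e) → ν' < 2 ^ (1999999 * e) → cl p c e ν = cl p c e ν' →
      l2 ≤ ((range l1).filter fun i =>
        Th p e (l1 * l0) (r0 * l0) ν ν' / 2 ^ (i * l0) % 2 ^ l0 = y0).card →
      ∀ (sd : Fin nA → Bool) (sl q r : Fin nA → ℕ), (∀ i, sl i < 1998090) →
      (∀ i, q i ≤ 2 ^ (940 * e)) → (∀ i, 1 ≤ r i ∧ r i < R) →
      (∀ i, QC p e (l1 * l0 + r0 * l0) (sl i)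
        (bet R i * Th p e (l1 * l0) (r0 * l0) ν ν') (pick ν ν' (sd i)) (q i)) →
      ∀ y < 2 ^ (950 * e), Good4 p (r0 * l0) κ Ξ e (ν + y) → ∀ V : ℕ,
      2 ^ e ≤ V → V ≤ κ * 2 ^ e →
      (∀ i < 1999999 * E, (((range V).filter fun v : ℕ => ∃ (σ : Bool) (w : Finset (Fin nA)),
        ∃ u ∈ U, di (p.P (pick ν ν' σ + y + u + (∑ i ∈ w, 2 ^ (3 * e + r0 * l0) * q i * r i)
          + 2 ^ (1999999 * e) * v) / 2 ^ (1999999 * e + i * l)) ≤ 1 / 2 ^ t).card : ℝ)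
        ≤ ε1 * V) →
      |∑ v ∈ range V, ∏ w : Finset (Fin nA),
        Psi p U (l1 * l0) (r0 * l0) e ν ν' (y + (∑ i ∈ w, 2 ^ (3 * e + r0 * l0) * q i * r i)) v| ≤ ε * V := by
  classical
  have hcard : Fintype.card (Finset (Fin nA) × Bool × ↥U) = 2 * U.card * 2 ^ nA := by
    rw [Fintype.card_prod, Fintype.card_prod, Fintype.card_bool, Fintype.card_coe,
      Fintype.card_finset, Fintype.card_fin]
    ring
  obtain ⟨ε', hε', hB⟩ := bph (Finset (Fin nA) × Bool × ↥U) p E (1999999 * E) κ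
    (by rw [hcard, hE]) rfl ε hε
  obtain ⟨l0, y0, l2, hl0, hy0, hV⟩ := beval4 p ha U hU (1999999 * E) nA R κ ε' hε'
  refine ⟨l0, y0, l2, ε', hl0, hy0, hε', fun l1 r0 hl1 => ?_⟩
  obtain ⟨Ξ, hV⟩ := hV l1 r0 hl1
  refine ⟨Ξ, fun c t => ?_⟩
  obtain ⟨s0, hs0⟩ : ∃ s0, κ + 1 ≤ 2 ^ s0 := ⟨κ + 1, (Nat.lt_two_pow_self).le⟩
  have hEpos : 0 < E := by rw [hE]; positivity
  have htend : Tendsto (fun l : ℕ => E * l) atTop atTop := tendsto_id.const_mul_atTop' hEpos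
  have hsize : ∀ᶠ e : ℕ in atTop, nA * R * 2 ^ (r0 * l0) ≤ 2 ^ e := by
    refine eventually_atTop.2 ⟨nA * R * 2 ^ (r0 * l0), fun e he => ?_⟩
    exact he.trans (Nat.lt_two_pow_self).le
  filter_upwards [hB Ξ t, htend.eventually hV,
    htend.eventually (pts p U nA κ s0 c (l1 * l0) (r0 * l0) hs0),
    htend.eventually (act0 p (l1 * l0) (r0 * l0) R s0),
    htend.eventually (act1 p (l1 * l0) (r0 * l0) R s0 c), htend.eventually hsize]
    with l hB hV hP ha0 ha1 hsz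
  intro e he ν ν' hν hν' hcl hl2 sd sl q r _ hq hr hQC y hy hG V hV1 hV2 hcut
  rw [← he] at hV hP ha0 ha1 hsz
  obtain ⟨x, hx⟩ : ∃ x : Fin nA → ℕ, x = fun i => 2 ^ (3 * e + r0 * l0) * q i * r i := ⟨_, rfl⟩
  have hxs : ∀ w : Finset (Fin nA), ∑ i ∈ w, 2 ^ (3 * e + r0 * l0) * q i * r i = ∑ i ∈ w, x i := by
    intro w; rw [hx]
  simp only [hxs] at hcut ⊢
  -- sizes of the shifts
  have hxle : ∑ i, x i ≤ 2 ^ (944 * e) := by
    have h1 : ∀ i ∈ (univ : Finset (Fin nA)), x i ≤ 2 ^ (3 * e + r0 * l0) * 2 ^ (940 * e) * R := by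
      intro i _
      rw [hx]
      exact Nat.mul_le_mul (Nat.mul_le_mul_left _ (hq i)) (hr i).2.le
    have h2 := sum_le_card_nsmul _ _ _ h1
    rw [card_univ, Fintype.card_fin, smul_eq_mul] at h2
    refine h2.trans ?_
    calc nA * (2 ^ (3 * e + r0 * l0) * 2 ^ (940 * e) * R)
        = (nA * R * 2 ^ (r0 * l0)) * 2 ^ (943 * e) := by
          rw [show 943 * e = 3 * e + 940 * e by ring, pow_add, pow_add]
          ring
      _ ≤ 2 ^ e * 2 ^ (943 * e) := Nat.mul_le_mul_right _ hsz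
      _ = 2 ^ (944 * e) := by rw [← pow_add]; congr 1; ring
  -- the shifts act
  have hAct : ∀ i, Act p (l1 * l0) (r0 * l0) s0 e ν (x i)
      (r i * bet R i * Th p e (l1 * l0) (r0 * l0) ν ν') := by
    intro i
    have hxi : x i = 2 ^ (3 * e + r0 * l0) * (q i * r i) := by rw [hx]; exact mul_assoc _ _ _
    rw [hxi, mul_assoc (r i)]
    have hQ := hQC i
    cases hs : sd i with
    | false =>
      rw [hs] at hQ
      exact ha0 (sl i) _ ν (q i) (r i) hν (hq i) (hr i).2 hQ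
    | true =>
      rw [hs] at hQ
      exact ha1 (sl i) _ ν ν' (q i) (r i) hν hν' hcl (hq i) (hr i).2 hQ
  have hPE := hP ν ν' hν hν' hcl y hy x (fun i => r i * bet R i) hxle hAct
  -- the base point
  have hn0 : ν + y < 2 ^ (1999999 * e + 1) := by
    have h1 : y < 2 ^ (1999999 * e) :=
      hy.trans_le (Nat.pow_le_pow_right (by norm_num) (by omega))
    rw [pow_succ]
    omega
  -- the window
  obtain ⟨G, hGd⟩ : ∃ G : ℕ → ℝ, G = fun v => ∏ a : Finset (Fin nA) × Bool × ↥U,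
      sg (p.P (pbt U ν ν' y x a + 2 ^ (1999999 * e) * v) / 2 ^ (6000000 * e - l1 * l0)
        % 2 ^ (l1 * l0 + r0 * l0)) := ⟨_, rfl⟩
  have hmain := hB e he V (pbt U ν ν' y x) G hV1 hV2 (by
    intro v
    rw [hGd]
    exact (pb_abs _).le) (by
    intro i hi
    refine le_trans ?_ (hcut i hi)
    have : ((range V).filter fun v : ℕ => ∃ a : Finset (Fin nA) × Bool × ↥U,
        di (p.P (pbt U ν ν' y x a + 2 ^ (1999999 * e) * v) / 2 ^ (1999999 * e + i * l))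
          ≤ 1 / 2 ^ t).card ≤ ((range V).filter fun v : ℕ => ∃ (σ : Bool) (w : Finset (Fin nA)),
        ∃ u ∈ U, di (p.P (pick ν ν' σ + y + u + (∑ i ∈ w, x i)
          + 2 ^ (1999999 * e) * v) / 2 ^ (1999999 * e + i * l)) ≤ 1 / 2 ^ t).card := by
      apply card_le_card
      intro v hv
      rw [mem_filter] at hv ⊢
      obtain ⟨hv1, ⟨w, σ, u⟩, hv2⟩ := hv
      exact ⟨hv1, σ, w, u.1, u.2, hv2⟩
    exact_mod_cast this) (by
    intro h hh hGen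
    have h1 := hV (ν + y) hn0 hG V (Dl p (6000000 * e + r0 * l0) ν ν') h r
      (fun wA s u => (if s = 0 then ν else ν') + y + u + ∑ i ∈ wA, x i) hV1 hV2 hr hl2 hh hGen hPE
    refine le_trans (le_of_eq ?_) h1
    congr 1
    refine sum_congr rfl fun v _ => prod_congr rfl fun wB _ => ?_
    rw [hGd]
    simp only [pbt]
    rw [pb_prod U (fun w σ u => sg (p.P (pick ν ν' σ + y + u + (∑ i ∈ w, x i)
      + 2 ^ (1999999 * e) * (v + ∑ i ∈ wB, h i)) / 2 ^ (6000000 * e - l1 * l0)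
        % 2 ^ (l1 * l0 + r0 * l0)))]
    refine prod_congr rfl fun w _ => ?_
    rw [← add_mul]
    refine pb_bool _ _ ?_ ?_
    · simp [pick]
    · simp [pick])
  refine le_trans (le_of_eq ?_) hmain
  congr 1
  refine sum_congr rfl fun v _ => ?_
  rw [hGd]
  simp only [pbt]
  rw [← prod_mul_distrib, pb_prod U (fun w σ u => sg (p.P (pick ν ν' σ + y + u + (∑ i ∈ w, x i)
      + 2 ^ (1999999 * e) * v) % 2 ^ (3999998 * e)) *
      sg (p.P (pick ν ν' σ + y + u + (∑ i ∈ w, x i)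
      + 2 ^ (1999999 * e) * v) / 2 ^ (6000000 * e - l1 * l0) % 2 ^ (l1 * l0 + r0 * l0)))]
  refine prod_congr rfl fun w _ => ?_
  unfold Psi
  refine prod_congr rfl fun σ _ => prod_congr rfl fun u _ => ?_
  have e1 : pick ν ν' σ + (y + ∑ i ∈ w, x i) + u + 2 ^ (1999999 * e) * v =
      pick ν ν' σ + y + u + (∑ i ∈ w, x i) + 2 ^ (1999999 * e) * v := by ring
  rw [e1]

end Pool.Agent.Lib.MP_8fac0f_nt.Q4
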