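import Pool.Agent.Lib.MP_8fac0f_nt.Q4.SPL
import Pool.Agent.Lib.MP_8fac0f_nt.Q4.MID
import Pool.Agent.Lib.MP_8fac0f_nt.C3.Stab

/-!
# PID: the middle digits cancel

`split4` at `x = P (ν + y + 2 ^ j v + u)` and at `ν'`, product over `u ∈ U`. The factors `sg (x / 2 ^ (3999998 e) % 2 ^ (1912 e - lam))`
at `ν` and `ν'` are equal: `mid` at the argument `y + u < 2 ^ (950 e + 1)` with `c0 = t + 1` (`κ ≤ 2 ^ s0`, `c1 = t + s0 + 11`) and `C3.stab` with
`s = 3999998 e`, `L = 1912 e - lam` (`2 ^ (4001910 e)` is a multiple of `2 ^ (s + L)`), `|D| ≤ 2 ^ (s - t - 1) < di (..) 2 ^ s`; so their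
product is 1 (`sg_sq`). (`FF` is written with `n + u`, reorder.)
-/

set_option autoImplicit false

namespace Pool.Agent.Lib.MP_8fac0f_nt.Q4

open Finset Filter Topology
open Pool.Agent.Lib.MP_8fac0f_nt.C3 (di ex)
open Pool.Agent.Lib.MP_8fac0f_nt.N (sg)

theorem pair_id (p : Co) (MA Umax κ lam ρ t : ℕ) (hMA : MA = 1998090) : ∃ c1 : ℕ, ∀ c : ℕ,
    c1 ≤ c → ∀ᶠ e : ℕ in atTop, ∀ U : Finset ℕ, (∀ u ∈ U, u ≤ Umax) → ∀ ν ν' : ℕ,
    ν < 2 ^ (1999999 * e) → ν' < 2 ^ (1999999 * e) → cl p c e ν = cl p c e ν' → ∀ y v : ℕ,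
    y < 2 ^ (950 * e) → v ≤ κ * 2 ^ e →
    (∀ u ∈ U, 1 / 2 ^ t < di (p.P (ν + y + u + 2 ^ (1999999 * e) * v) / 2 ^ (3999998 * e))) →
    FF p U ρ e (ν + y + 2 ^ (1999999 * e) * v) * FF p U ρ e (ν' + y + 2 ^ (1999999 * e) * v)
      = (∏ i ∈ range MA, (Phi p U lam e i ν y v * Phi p U lam e i ν' y v))
        * Psi p U lam ρ e ν ν' y v := by
  refine ⟨t + κ + 10, fun c hc => ?_⟩
  filter_upwards [mid p κ t c hc, eventually_ge_atTop (lam + Umax + t + 1)] with e he hel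
  intro U hU ν ν' hν hν' hcl y v hy hv hdi
  have hlam : lam ≤ e := by omega
  have hUe : Umax ≤ 2 ^ (950 * e) := by
    have h1 : Umax < 2 ^ Umax := Nat.lt_two_pow_self
    have h2 : 2 ^ Umax ≤ 2 ^ (950 * e) := Nat.pow_le_pow_right (by norm_num) (by omega)
    omega
  have hv' : v ≤ 2 ^ (e + κ) := by
    have h1 : κ < 2 ^ κ := Nat.lt_two_pow_self
    rw [pow_add, mul_comm]
    exact hv.trans (Nat.mul_le_mul_right _ h1.le)
  -- the middle digits agree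
  have hmid : ∀ u ∈ U, p.P (ν' + y + u + 2 ^ (1999999 * e) * v) / 2 ^ (3999998 * e)
        % 2 ^ (1912 * e - lam)
      = p.P (ν + y + u + 2 ^ (1999999 * e) * v) / 2 ^ (3999998 * e) % 2 ^ (1912 * e - lam) := by
    intro u hu
    have hs : y + u < 2 ^ (950 * e + 1) := by
      have := hU u hu
      rw [pow_succ]
      omega
    obtain ⟨D, z, hD, hD'⟩ := he ν ν' hν hν' hcl (y + u) v hs hv'
    have e1 : ν' + (y + u) + 2 ^ (1999999 * e) * v = ν' + y + u + 2 ^ (1999999 * e) * v := by ring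
    have e2 : ν + (y + u) + 2 ^ (1999999 * e) * v = ν + y + u + 2 ^ (1999999 * e) * v := by ring
    rw [e1, e2] at hD
    refine C3.stab _ _ _ _ D (z * 2 ^ lam) ?_ ?_
    · rw [hD, mul_assoc, ← pow_add]
      congr 3
      omega
    · have h1 := hdi u hu
      have h2 : |(D : ℝ)| ≤ 2 ^ (3999998 * e - t) := by exact_mod_cast hD'
      have h3 : (2 : ℝ) ^ (3999998 * e - t) = 1 / 2 ^ t * 2 ^ (3999998 * e) := by
        have : (2 : ℝ) ^ (3999998 * e) = 2 ^ (3999998 * e - t) * 2 ^ t := by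
          rw [← pow_add]; congr 1; omega
        rw [this]; field_simp
      calc |(D : ℝ)| ≤ 1 / 2 ^ t * 2 ^ (3999998 * e) := h2.trans_eq h3
        _ < _ := by
          apply mul_lt_mul_of_pos_right h1
          positivity
  -- the products
  have hsplit : ∀ x : ℕ, sg (x % 2 ^ (6000000 * e + ρ)) = sg (x % 2 ^ (3999998 * e))
      * sg (x / 2 ^ (3999998 * e) % 2 ^ (1912 * e - lam))
      * (∏ i ∈ range MA, sg (x / 2 ^ slo lam e i % 2 ^ e))
      * sg (x / 2 ^ (6000000 * e - lam) % 2 ^ (lam + ρ)) := fun x =>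
    split4 MA lam ρ e x hMA hlam
  have hB : (∏ u ∈ U, sg (p.P (ν + y + u + 2 ^ (1999999 * e) * v) / 2 ^ (3999998 * e)
      % 2 ^ (1912 * e - lam))) * (∏ u ∈ U, sg (p.P (ν' + y + u + 2 ^ (1999999 * e) * v)
        / 2 ^ (3999998 * e) % 2 ^ (1912 * e - lam))) = 1 := by
    rw [← prod_mul_distrib]
    refine prod_eq_one fun u hu => ?_
    rw [hmid u hu]
    exact Pool.Agent.Lib.MP_8fac0f_nt.N.sg_sq _
  have hF : ∀ μ : ℕ, FF p U ρ e (μ + y + 2 ^ (1999999 * e) * v)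
      = (∏ u ∈ U, sg (p.P (μ + y + u + 2 ^ (1999999 * e) * v) % 2 ^ (3999998 * e)))
        * (∏ u ∈ U, sg (p.P (μ + y + u + 2 ^ (1999999 * e) * v) / 2 ^ (3999998 * e)
            % 2 ^ (1912 * e - lam)))
        * (∏ i ∈ range MA, Phi p U lam e i μ y v)
        * (∏ u ∈ U, sg (p.P (μ + y + u + 2 ^ (1999999 * e) * v) / 2 ^ (6000000 * e - lam)
            % 2 ^ (lam + ρ))) := by
    intro μ
    unfold FF Phi
    have hc := Finset.prod_comm (s := range MA) (t := U) (f := fun i u =>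
      sg (p.P (μ + y + u + 2 ^ (1999999 * e) * v) / 2 ^ slo lam e i % 2 ^ e))
    rw [hc, ← prod_mul_distrib, ← prod_mul_distrib, ← prod_mul_distrib]
    refine prod_congr rfl fun u _ => ?_
    rw [show μ + y + 2 ^ (1999999 * e) * v + u = μ + y + u + 2 ^ (1999999 * e) * v by ring]
    exact hsplit _
  have hPsi : Psi p U lam ρ e ν ν' y v
      = ((∏ u ∈ U, sg (p.P (ν' + y + u + 2 ^ (1999999 * e) * v) % 2 ^ (3999998 * e)))
        * (∏ u ∈ U, sg (p.P (ν' + y + u + 2 ^ (1999999 * e) * v) / 2 ^ (6000000 * e - lam)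
            % 2 ^ (lam + ρ))))
        * ((∏ u ∈ U, sg (p.P (ν + y + u + 2 ^ (1999999 * e) * v) % 2 ^ (3999998 * e)))
        * (∏ u ∈ U, sg (p.P (ν + y + u + 2 ^ (1999999 * e) * v) / 2 ^ (6000000 * e - lam)
            % 2 ^ (lam + ρ)))) := by
    unfold Psi
    rw [Fintype.prod_bool, prod_mul_distrib, prod_mul_distrib]
    rfl
  rw [hF ν, hF ν', hPsi, prod_mul_distrib]
  generalize (∏ u ∈ U, sg (p.P (ν + y + u + 2 ^ (1999999 * e) * v) / 2 ^ (3999998 * e)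
      % 2 ^ (1912 * e - lam))) = b1 at hB ⊢
  generalize (∏ u ∈ U, sg (p.P (ν' + y + u + 2 ^ (1999999 * e) * v) / 2 ^ (3999998 * e)
      % 2 ^ (1912 * e - lam))) = b2 at hB ⊢
  generalize (∏ u ∈ U, sg (p.P (ν + y + u + 2 ^ (1999999 * e) * v) % 2 ^ (3999998 * e))) = a1
  generalize (∏ u ∈ U, sg (p.P (ν' + y + u + 2 ^ (1999999 * e) * v) % 2 ^ (3999998 * e))) = a2
  generalize (∏ i ∈ range MA, Phi p U lam e i ν y v) = c1
  generalize (∏ i ∈ range MA, Phi p U lam e i ν' y v) = c2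
  generalize (∏ u ∈ U, sg (p.P (ν + y + u + 2 ^ (1999999 * e) * v) / 2 ^ (6000000 * e - lam)
      % 2 ^ (lam + ρ))) = d1
  generalize (∏ u ∈ U, sg (p.P (ν' + y + u + 2 ^ (1999999 * e) * v) / 2 ^ (6000000 * e - lam)
      % 2 ^ (lam + ρ))) = d2
  calc a1 * b1 * c1 * d1 * (a2 * b2 * c2 * d2) = (b1 * b2) * (a1 * c1 * d1 * (a2 * c2 * d2)) := by
        ring
    _ = c1 * c2 * (a2 * d2 * (a1 * d1)) := by rw [hB]; ring

end Pool.Agent.Lib.MP_8fac0f_nt.Q4
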