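import Pool.Agent.Lib.MP_8fac0f_nt.Q4.Defs4

/-!
# SHY: shifts in `y`

Union over `s ∈ S` of the sets with one `s`, each injects into the right hand set by `(y, v) ↦ (y + s, v)`.
-/

set_option autoImplicit false

namespace Pool.Agent.Lib.MP_8fac0f_nt.Q4

open Finset Filter Topology
open Pool.Agent.Lib.MP_8fac0f_nt.C3 (di ex)
open Pool.Agent.Lib.MP_8fac0f_nt.N (sg)

theorem shy (Y V : ℕ) (S : Finset ℕ) (hS : ∀ s ∈ S, s ≤ Y) (B : ℕ → ℕ → Prop)
    [∀ y v, Decidable (B y v)] :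
    (((range Y) ×ˢ (range V)).filter fun z : ℕ × ℕ => ∃ s ∈ S, B (z.1 + s) z.2).card
      ≤ S.card * (((range (2 * Y)) ×ˢ (range V)).filter fun z : ℕ × ℕ => B z.1 z.2).card := by
  classical
  have hsub : (((range Y) ×ˢ (range V)).filter fun z : ℕ × ℕ => ∃ s ∈ S, B (z.1 + s) z.2)
      ⊆ S.biUnion fun s => ((range Y) ×ˢ (range V)).filter fun z : ℕ × ℕ => B (z.1 + s) z.2 := by
    intro z hz
    rw [mem_filter] at hz
    obtain ⟨h1, s, hs, h2⟩ := hz
    rw [mem_biUnion]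
    exact ⟨s, hs, mem_filter.mpr ⟨h1, h2⟩⟩
  refine (card_le_card hsub).trans (card_biUnion_le.trans ?_)
  rw [← smul_eq_mul]
  refine sum_le_card_nsmul _ _ _ fun s hs => ?_
  refine card_le_card_of_injOn (fun z : ℕ × ℕ => (z.1 + s, z.2)) ?_ ?_
  · intro z hz
    have hz' : z ∈ ((range Y) ×ˢ (range V)).filter fun z : ℕ × ℕ => B (z.1 + s) z.2 := hz
    rw [mem_filter, mem_product, mem_range, mem_range] at hz'
    obtain ⟨⟨h1, h2⟩, h3⟩ := hz'
    have h4 := hS s hs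
    show (z.1 + s, z.2) ∈ ((range (2 * Y)) ×ˢ (range V)).filter fun z : ℕ × ℕ => B z.1 z.2
    rw [mem_filter, mem_product, mem_range, mem_range]
    exact ⟨⟨by show z.1 + s < 2 * Y; omega, h2⟩, h3⟩
  · intro z _ z' _ h
    have h0 : (z.1 + s, z.2) = (z'.1 + s, z'.2) := h
    have h1 : z.1 + s = z'.1 + s := (Prod.mk.inj h0).1
    have h2 : z.2 = z'.2 := (Prod.mk.inj h0).2
    exact Prod.ext (by omega) h2

/-- Markov: the `y` with many bad `v`. -/
theorem shy_markov (Y V : ℕ) (B : ℕ → ℕ → Prop) [∀ y v, Decidable (B y v)] (ε1 C : ℝ)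
    (h1 : 0 < ε1) (hV : 0 < V)
    (h : ((((range Y) ×ˢ (range V)).filter fun z : ℕ × ℕ => B z.1 z.2).card : ℝ) ≤ C * Y * V) :
    (((range Y).filter fun y => ε1 * V < (((range V).filter fun v => B y v).card : ℝ)).card : ℝ)
      ≤ C / ε1 * Y := by
  classical
  set F : ℕ → ℕ := fun y => ((range V).filter fun v => B y v).card with hF
  set Bad : Finset ℕ := (range Y).filter fun y => ε1 * V < (F y : ℝ) with hBad
  have hVr : (0 : ℝ) < V := by exact_mod_cast hV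
  have hsum : (((range Y) ×ˢ (range V)).filter fun z : ℕ × ℕ => B z.1 z.2).card = ∑ y ∈ range Y, F y := by
    rw [card_filter, sum_product]
    refine sum_congr rfl fun y _ => ?_
    rw [hF, ← card_filter]
  rw [hsum] at h
  have h2 : (Bad.card : ℝ) * (ε1 * V) ≤ ∑ y ∈ range Y, (F y : ℝ) := by
    calc (Bad.card : ℝ) * (ε1 * V) = ∑ _y ∈ Bad, ε1 * (V : ℝ) := by rw [sum_const, nsmul_eq_mul]
      _ ≤ ∑ y ∈ Bad, (F y : ℝ) := sum_le_sum fun y hy => (mem_filter.mp hy).2.le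
      _ ≤ ∑ y ∈ range Y, (F y : ℝ) :=
          sum_le_sum_of_subset_of_nonneg (filter_subset _ _) fun y _ _ => Nat.cast_nonneg _
  push_cast at h
  have h3 : (Bad.card : ℝ) * (ε1 * V) ≤ C * Y * V := h2.trans h
  have h4 : (Bad.card : ℝ) * ε1 ≤ C * Y := by
    have h5 : ((Bad.card : ℝ) * ε1) * V ≤ (C * Y) * V := by nlinarith
    exact le_of_mul_le_mul_right h5 hVr
  show (Bad.card : ℝ) ≤ C / ε1 * Y
  rw [div_mul_eq_mul_div, le_div_iff₀ h1]
  exact h4

end Pool.Agent.Lib.MP_8fac0f_nt.Q4
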