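import Pool.Agent.Lib.MP_8fac0f_nt.C3.Stab
import Pool.Agent.Lib.MP_8fac0f_nt.Q4.XT

/-!
# Row SLA: a good shift does not change slice `i`

PROOF IN WORDS.  `W = lam + ρ`, `x = 2^(3e+ρ) q r`, `lo = 6000000 e - lam - (i+1) e`,
`m = lo + e = 6000000 e - lam - i e` (all truncated subtractions are honest for `lam ≤ e`),
`T = 2^j v`, `j = 1999999 e`.  `x ≤ 2^(3e+ρ) 2^(940e) R ≤ 2^(944e)` for large `e`.  `xt`:
`P(N + x) = P N + x P1 ν + x T 2 P2 ν + x T² 3 P3 ν + 4 a x T³ + R0`, `R0 ≤ 2^(4001899 e)`.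
Because `2^(3e+ρ) / 2^m = 2^(W + i e) / 2^(5999997 e)` (`3 e + ρ + 5999997 e = 6000000 e + ρ =
m + W + i e`), and `v ≤ V0 = 2^(e + s0)`:
* `x P1 ν / 2^m = r * (q P1 ν 2^(W+ie) / 2^(5999997 e))`: within `R / 2^(4e)` of an integer;
* `x T 2P2 ν / 2^m = r v * (q 2P2 ν 2^(W+ie) / 2^(3999998 e))`: within `R V0 / 2^(4e)`;
* `x T² 3P3 ν / 2^m = r v² * (q 3P3 ν 2^(W+ie) / 2^(1999999 e))`: within `R V0² / 2^(4e)`;
* `4 a x T³ = 4 a q r v³ 2^(6000000 e + ρ)`: a multiple of `2^m`.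
(`C3.di_nat_mul`; then `C3.int_of_di` with `n = m` for each of the three natural numbers gives
`x P1 ν = z1 2^m + D1`, `|D1| ≤ R 2^m / 2^(4e)`, etc.)
`D = D1 + D2 + D3 + R0`, `|D| ≤ 3 R 2^(2 s0) 2^(m - 2e) + 2^(4001899 e) ≤ 2^(lo - e/2)` for large
`e`, because `m - 2 e = lo - e` and `lo ≥ 4001910 e - lam`.

`sla_dig`: `C3.stab` with `s := lo`, `L := e` (`lo + e = m`): `|D| ≤ 2^(lo - e/2) < 2^lo / 2^t
< di (P N / 2^lo) 2^lo` once `e / 2 ≥ t + 1` (`e` large, `t` fixed).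
-/

set_option autoImplicit false

namespace Pool.Agent.Lib.MP_8fac0f_nt.Q4

open Finset
open Pool.Agent.Lib.MP_8fac0f_nt.C3 (di ex)

/-- a natural number `X = f * θ` with `θ` close to an integer multiple of `2 ^ m` -/
private theorem sla_int (X f : ℕ) (m : ℕ) (θ δ : ℝ) (hX : (X : ℝ) / 2 ^ m = f * θ) (hθ : di θ ≤ δ) :
    ∃ z D : ℤ, (X : ℤ) = z * 2 ^ m + D ∧ |(D : ℝ)| ≤ f * δ * 2 ^ m := by
  refine C3.int_of_di (X : ℤ) m (f * δ) ?_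
  rw [Int.cast_natCast, hX]
  exact (C3.di_nat_mul f θ).trans (mul_le_mul_of_nonneg_left hθ (Nat.cast_nonneg _))

theorem sla (p : Co) (lam ρ R s0 : ℕ) : ∀ᶠ e : ℕ in Filter.atTop, ∀ i Y ν q r s v : ℕ,
    i < 1998090 → ν < 2 ^ (1999999 * e) → q ≤ 2 ^ (940 * e) → r < R → s ≤ 2 ^ (951 * e) →
    v ≤ 2 ^ (e + s0) → QC p e (lam + ρ) i Y ν q → ∃ D z : ℤ,
      (p.P (ν + s + 2 ^ (3 * e + ρ) * (q * r) + 2 ^ (1999999 * e) * v) : ℤ)
        = p.P (ν + s + 2 ^ (1999999 * e) * v) + D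
          + z * 2 ^ (6000000 * e - lam - i * e) ∧
      |D| ≤ 2 ^ (6000000 * e - lam - (i + 1) * e - e / 2) := by
  filter_upwards [xt p s0, Filter.eventually_ge_atTop (2 * (6 * R * 2 ^ (2 * s0)) + 4 * lam + ρ + R + 4)] with
    e hxt he i Y ν q r s v hi hν hq hr hs hv hQC
  obtain ⟨c1, c2, c3, -, -, -⟩ := hQC
  have hie : i * e ≤ 1998089 * e := Nat.mul_le_mul_right _ (by omega)
  have hi1 : (i + 1) * e = i * e + e := by ring
  have hC : 6 * R * 2 ^ (2 * s0) ≤ 2 ^ (e - e / 2) := by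
    refine (Nat.lt_two_pow_self (n := 6 * R * 2 ^ (2 * s0))).le.trans ?_
    exact Nat.pow_le_pow_right (by norm_num) (by omega)
  have hRR : r ≤ 2 ^ R := hr.le.trans Nat.lt_two_pow_self.le
  have hx : 2 ^ (3 * e + ρ) * (q * r) ≤ 2 ^ (944 * e) := by
    calc 2 ^ (3 * e + ρ) * (q * r) ≤ 2 ^ (3 * e + ρ) * (2 ^ (940 * e) * 2 ^ R) :=
          Nat.mul_le_mul_left _ (Nat.mul_le_mul hq hRR)
      _ = 2 ^ (3 * e + ρ + (940 * e + R)) := by rw [← pow_add, ← pow_add]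
      _ ≤ 2 ^ (944 * e) := Nat.pow_le_pow_right (by norm_num) (by omega)
  obtain ⟨R0, hR1, hR2⟩ := hxt ν s (2 ^ (3 * e + ρ) * (q * r)) v hν hs hx hv
  generalize hie' : i * e = ie at *
  set m := 6000000 * e - lam - ie with hm
  have hpm : (0 : ℝ) < 2 ^ m := by positivity
  -- the powers of two
  have e1 : (2 : ℝ) ^ (3 * e + ρ) * 2 ^ (5999997 * e) = 2 ^ (lam + ρ + ie) * 2 ^ m := by
    rw [← pow_add, ← pow_add]
    congr 1
    omega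
  have e2 : (2 : ℝ) ^ (3 * e + ρ) * 2 ^ (1999999 * e) * 2 ^ (3999998 * e) = 2 ^ (lam + ρ + ie) * 2 ^ m := by
    rw [← pow_add, ← pow_add, ← pow_add]
    congr 1
    omega
  have e3 : (2 : ℝ) ^ (3 * e + ρ) * (2 ^ (1999999 * e)) ^ 2 * 2 ^ (1999999 * e)
      = 2 ^ (lam + ρ + ie) * 2 ^ m := by
    rw [← pow_mul, ← pow_add, ← pow_add, ← pow_add]
    congr 1
    omega
  have e4 : (2 : ℤ) ^ (3 * e + ρ) * (2 ^ (1999999 * e)) ^ 3 = 2 ^ (lam + ρ + ie) * 2 ^ m := by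
    rw [← pow_mul, ← pow_add, ← pow_add]
    congr 1
    omega
  obtain ⟨z1, D1, h1, d1⟩ := sla_int (2 ^ (3 * e + ρ) * (q * r) * p.P1 ν) r m _ _ (by
    rw [div_eq_iff hpm.ne']
    have h5 : (0 : ℝ) < 2 ^ (5999997 * e) := by positivity
    push_cast
    field_simp
    calc (2 : ℝ) ^ (3 * e + ρ) * q * r * p.P1 ν * 2 ^ (5999997 * e)
        = (2 ^ (3 * e + ρ) * 2 ^ (5999997 * e)) * (q * r * p.P1 ν) := by ring
      _ = _ := by rw [e1]; ring) c1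
  obtain ⟨z2, D2, h2, d2⟩ := sla_int (2 ^ (3 * e + ρ) * (q * r) * (2 ^ (1999999 * e) * v) * (2 * p.P2 ν))
    (r * v) m _ _ (by
    rw [div_eq_iff hpm.ne']
    have h5 : (0 : ℝ) < 2 ^ (3999998 * e) := by positivity
    push_cast
    field_simp
    calc (2 : ℝ) ^ (3 * e + ρ) * q * r * 2 ^ (1999999 * e) * v * p.P2 ν * 2 ^ (3999998 * e)
        = (2 ^ (3 * e + ρ) * 2 ^ (1999999 * e) * 2 ^ (3999998 * e)) * (q * r * v * p.P2 ν) := by ring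
      _ = _ := by rw [e2]; ring) c2
  obtain ⟨z3, D3, h3, d3⟩ := sla_int (2 ^ (3 * e + ρ) * (q * r) * (2 ^ (1999999 * e) * v) ^ 2 * (3 * p.P3 ν))
    (r * v ^ 2) m _ _ (by
    rw [div_eq_iff hpm.ne']
    have h5 : (0 : ℝ) < 2 ^ (1999999 * e) := by positivity
    push_cast
    rw [mul_div_assoc', div_mul_eq_mul_div, eq_div_iff h5.ne']
    calc (2 : ℝ) ^ (3 * e + ρ) * (q * r) * (2 ^ (1999999 * e) * v) ^ 2 * (3 * p.P3 ν) * 2 ^ (1999999 * e)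
        = (2 ^ (3 * e + ρ) * (2 ^ (1999999 * e)) ^ 2 * 2 ^ (1999999 * e)) * (q * r * v ^ 2 * (3 * p.P3 ν)) := by
          ring
      _ = _ := by rw [e3]; ring) c3
  refine ⟨D1 + D2 + D3 + R0, z1 + z2 + z3 + 4 * p.a * q * r * v ^ 3 * 2 ^ (lam + ρ + ie), ?_, ?_⟩
  · rw [hR1]
    push_cast at h1 h2 h3 ⊢
    rw [h1, h2, h3]
    have h6 : (4 : ℤ) * p.a * (2 ^ (3 * e + ρ) * (q * r)) * (2 ^ (1999999 * e) * v) ^ 3
        = 4 * p.a * q * r * v ^ 3 * 2 ^ (lam + ρ + ie) * 2 ^ m := by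
      calc (4 : ℤ) * p.a * (2 ^ (3 * e + ρ) * (q * r)) * (2 ^ (1999999 * e) * v) ^ 3
          = 4 * p.a * q * r * v ^ 3 * (2 ^ (3 * e + ρ) * (2 ^ (1999999 * e)) ^ 3) := by ring
        _ = _ := by rw [e4]; ring
    rw [h6]
    ring
  · -- the size
    rw [hi1]
    set A := 6000000 * e - lam - (ie + e) - e / 2 with hA
    have hAm : m = A + e / 2 + e := by omega
    have hA0 : (0 : ℝ) < 2 ^ A := by positivity
    have hR3 : (R0 : ℝ) ≤ 2 ^ A / 2 := by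
      rw [le_div_iff₀ (by norm_num)]
      have h6 : R0 * 2 ≤ 2 ^ A := by
        calc R0 * 2 ≤ 2 ^ (4001899 * e) * 2 := Nat.mul_le_mul_right _ hR2
          _ = 2 ^ (4001899 * e + 1) := by rw [pow_succ]
          _ ≤ 2 ^ A := Nat.pow_le_pow_right (by norm_num) (by omega)
      exact_mod_cast h6
    have hrR : (r : ℝ) ≤ R := by exact_mod_cast hr.le
    have hv1 : (v : ℝ) ≤ 2 ^ (e + s0) := by exact_mod_cast hv
    have hv2 : (1 : ℝ) ≤ 2 ^ (e + s0) := one_le_pow₀ (by norm_num)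
    have hR0' : (0 : ℝ) ≤ R := Nat.cast_nonneg _
    have hv0 : (0 : ℝ) ≤ v := Nat.cast_nonneg _
    have hr0 : (0 : ℝ) ≤ r := Nat.cast_nonneg _
    have hV : (0 : ℝ) ≤ 2 ^ (e + s0) := by positivity
    have g1 : (r : ℝ) ≤ R * (2 ^ (e + s0)) ^ 2 := by
      calc (r : ℝ) ≤ R := hrR
        _ ≤ R * (2 ^ (e + s0)) ^ 2 := le_mul_of_one_le_right hR0' (one_le_pow₀ hv2)
    have g2 : ((r * v : ℕ) : ℝ) ≤ R * (2 ^ (e + s0)) ^ 2 := by
      push_cast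
      calc (r : ℝ) * v ≤ R * 2 ^ (e + s0) := mul_le_mul hrR hv1 hv0 hR0'
        _ ≤ R * (2 ^ (e + s0)) ^ 2 := by
          refine mul_le_mul_of_nonneg_left ?_ hR0'
          nlinarith
    have g3 : ((r * v ^ 2 : ℕ) : ℝ) ≤ R * (2 ^ (e + s0)) ^ 2 := by
      push_cast
      exact mul_le_mul hrR (pow_le_pow_left₀ hv0 hv1 2) (by positivity) hR0'
    have hδ : (0 : ℝ) ≤ 1 / 2 ^ (4 * e) * 2 ^ m := by positivity
    have k1 : |(D1 : ℝ)| ≤ R * (2 ^ (e + s0)) ^ 2 * (1 / 2 ^ (4 * e) * 2 ^ m) := by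
      refine d1.trans ?_
      rw [mul_assoc]
      exact mul_le_mul_of_nonneg_right g1 hδ
    have k2 : |(D2 : ℝ)| ≤ R * (2 ^ (e + s0)) ^ 2 * (1 / 2 ^ (4 * e) * 2 ^ m) := by
      refine d2.trans ?_
      rw [mul_assoc]
      exact mul_le_mul_of_nonneg_right g2 hδ
    have k3 : |(D3 : ℝ)| ≤ R * (2 ^ (e + s0)) ^ 2 * (1 / 2 ^ (4 * e) * 2 ^ m) := by
      refine d3.trans ?_
      rw [mul_assoc]
      exact mul_le_mul_of_nonneg_right g3 hδ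
    have k4 : (R : ℝ) * ((2 : ℝ) ^ (e + s0)) ^ 2 * (1 / 2 ^ (4 * e) * 2 ^ m) ≤ 2 ^ A / 6 := by
      have h7 : (2 : ℝ) ^ (4 * e) = 2 ^ (e - e / 2) * 2 ^ (3 * e + e / 2) := by
        rw [← pow_add]
        congr 1
        omega
      have h8 : ((2 : ℝ) ^ (e + s0)) ^ 2 * 2 ^ m = 2 ^ (2 * s0) * (2 ^ A * 2 ^ (3 * e + e / 2)) := by
        rw [← pow_mul, ← pow_add, ← pow_add, ← pow_add, hAm]
        congr 1
        omega
      have h9 : (6 * R * 2 ^ (2 * s0) : ℝ) ≤ 2 ^ (e - e / 2) := by exact_mod_cast hC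
      have hp1 : (0 : ℝ) < 2 ^ (e - e / 2) := by positivity
      have hp2 : (0 : ℝ) < 2 ^ (3 * e + e / 2) := by positivity
      calc (R : ℝ) * ((2 : ℝ) ^ (e + s0)) ^ 2 * (1 / 2 ^ (4 * e) * 2 ^ m)
          = (R : ℝ) * (((2 : ℝ) ^ (e + s0)) ^ 2 * 2 ^ m) / 2 ^ (4 * e) := by ring
        _ = (R : ℝ) * 2 ^ (2 * s0) * 2 ^ A / 2 ^ (e - e / 2) := by
            rw [h8, h7]
            field_simp
        _ ≤ 2 ^ A / 6 := by
            rw [div_le_div_iff₀ hp1 (by norm_num)]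
            calc (R : ℝ) * 2 ^ (2 * s0) * 2 ^ A * 6 = (6 * R * 2 ^ (2 * s0)) * 2 ^ A := by ring
              _ ≤ 2 ^ (e - e / 2) * 2 ^ A := mul_le_mul_of_nonneg_right h9 hA0.le
              _ = 2 ^ A * 2 ^ (e - e / 2) := mul_comm _ _
    have k5 : |((D1 + D2 + D3 + R0 : ℤ) : ℝ)| ≤ 2 ^ A := by
      push_cast
      have a1 := abs_add_le ((D1 : ℝ) + D2 + D3) R0
      have a2 := abs_add_le ((D1 : ℝ) + D2) D3
      have a3 := abs_add_le (D1 : ℝ) D2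
      have a4 : |(R0 : ℝ)| = R0 := abs_of_nonneg (Nat.cast_nonneg _)
      linarith
    exact_mod_cast k5

theorem sla_dig (p : Co) (lam ρ R s0 t : ℕ) : ∀ᶠ e : ℕ in Filter.atTop, ∀ i Y ν q r s v : ℕ,
    i < 1998090 → ν < 2 ^ (1999999 * e) → q ≤ 2 ^ (940 * e) → r < R → s ≤ 2 ^ (951 * e) →
    v ≤ 2 ^ (e + s0) → QC p e (lam + ρ) i Y ν q →
    1 / 2 ^ t < di ((p.P (ν + s + 2 ^ (1999999 * e) * v) : ℝ)
      / 2 ^ (6000000 * e - lam - (i + 1) * e)) →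
    p.P (ν + s + 2 ^ (3 * e + ρ) * (q * r) + 2 ^ (1999999 * e) * v)
        / 2 ^ (6000000 * e - lam - (i + 1) * e) % 2 ^ e
      = p.P (ν + s + 2 ^ (1999999 * e) * v) / 2 ^ (6000000 * e - lam - (i + 1) * e) % 2 ^ e := by
  filter_upwards [sla p lam ρ R s0, Filter.eventually_ge_atTop (4 * lam + 2 * t + 4)] with
    e hsla he i Y ν q r s v hi hν hq hr hs hv hQC hdi
  obtain ⟨D, z, h1, h2⟩ := hsla i Y ν q r s v hi hν hq hr hs hv hQC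
  have hie : i * e ≤ 1998089 * e := Nat.mul_le_mul_right _ (by omega)
  have hi1 : (i + 1) * e = i * e + e := by ring
  rw [hi1] at h2 hdi ⊢
  generalize i * e = ie at *
  set lo := 6000000 * e - lam - (ie + e) with hlo
  have hm : 6000000 * e - lam - ie = lo + e := by omega
  rw [hm] at h1
  refine C3.stab _ _ lo e D z h1 ?_
  have hlo2 : (2 : ℝ) ^ (lo - e / 2) * 2 ^ t ≤ 2 ^ lo := by
    rw [← pow_add]
    exact pow_le_pow_right₀ (by norm_num) (by omega)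
  have h3 : |(D : ℝ)| ≤ 2 ^ (lo - e / 2) := by exact_mod_cast h2
  have hp : (0 : ℝ) < 2 ^ lo := by positivity
  have ht : (0 : ℝ) < 2 ^ t := by positivity
  calc |(D : ℝ)| ≤ 2 ^ (lo - e / 2) := h3
    _ ≤ 1 / 2 ^ t * 2 ^ lo := by
      rw [one_div, inv_mul_eq_div, le_div_iff₀ ht]
      exact hlo2
    _ < _ := mul_lt_mul_of_pos_right hdi hp

end Pool.Agent.Lib.MP_8fac0f_nt.Q4
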