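import Pool.Agent.Lib.MP_8fac0f_nt.Q4.PAIR0
import Pool.Agent.Lib.MP_8fac0f_nt.Q4.PB
import Pool.Agent.Lib.MP_8fac0f_nt.Q4.APH
import Pool.Agent.Lib.MP_8fac0f_nt.Q4.CQ4
import Pool.Agent.Lib.MP_8fac0f_nt.Q4.BDS
import Pool.Agent.Lib.MP_8fac0f_nt.Q4.GDC
import Pool.Agent.Lib.MP_8fac0f_nt.Q4.SLA
import Pool.Agent.Lib.MP_8fac0f_nt.Q4.PID
import Pool.Agent.Lib.MP_8fac0f_nt.Q4.SHY

/-!
# PAIR: one typical pair

Text TM4.md chapter 5. `MA = 1998090`, `nA = 2 MA`, directions `i : Fin nA` with `sl i = i / 2`, `sd i = (i % 2 = 1)`.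
Order of constants: `R` from `aph nA (ε/4)` (then its `εA`), `E = 16 (2 |U| 2 ^ nA + 4)`, `κ = κ0 E`, `pair_b` with `ε := εA / 4`: `l0, y0, l2, ε1`;
given `l1, r0`: `Ξ`; `ε2` small (`ε2 |S| .. ≤ εA ε1 / ..`), `t` from `bds`, `c ≥ c1` of `pair_id`; `l` large.
`bad` = bad set of `cq4` (W = lam + ρ) and of `bds`. For a pair: (1) outside the `(y, v)` with `di (P (ν + y + u + 2 ^ j v) / 2 ^ (3999998 e)) ≤ 2 ^ (-t)` for
some `u` (`shy` and `GoodS` with the cut `i = 1999999 E`) the product is that of `pair_id`. (2) `aph` with `φ i y v = Phi (sl i) (pick (sd i)) y v`,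
`q' i = 2 ^ (3e + ρ) q i` (`q i` from `cq4` at `pick ν ν' (sd i)`, slice `sl i`, target `bet R i * Th`), bad sets: some `u ∈ U` with
`di (P (pick (sd i) + y + u + 2 ^ j v) / 2 ^ slo) ≤ 2 ^ (-t)`; outside `sla` and `C3.stab` give `φ (y + q' r) = φ y`. (3) the last hypothesis of `aph`:
for `r` fixed sum over `y` of `|sum_v|`; the bad `y` are those of `gdc` and those with too many `v` for some `i < 1999999 E` (`shy` with the shifts
`u + x_w`, `x_w = sum_{i in w} 2 ^ (3 e + ρ) q i r i`, at most `2 |U| 2 ^ nA` of them, and `shy_markov`); for the others `pair_b`.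
-/

set_option autoImplicit false

namespace Pool.Agent.Lib.MP_8fac0f_nt.Q4

open Finset Filter Topology
open Pool.Agent.Lib.MP_8fac0f_nt.N (sg sg_cases abs_sg CorrZero)
open Pool.Agent.Lib.MP_8fac0f_nt.C3 (di ex)

private theorem PAIR_Phi (p : Co) (U : Finset ℕ) (lam e i ν y v : ℕ) :
    Phi p U lam e i ν y v = 1 ∨ Phi p U lam e i ν y v = -1 :=
  PAIR0_sign _ _ fun _ _ => sg_cases _

private theorem PAIR_Psi (p : Co) (U : Finset ℕ) (lam ρ e ν ν' y v : ℕ) :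
    |Psi p U lam ρ e ν ν' y v| ≤ 1 := by
  refine PAIR0_abs_prod _ _ fun σ _ => PAIR0_abs_prod _ _ fun u _ => ?_
  rw [abs_mul, abs_sg, abs_sg, one_mul]

private theorem PAIR_FF (p : Co) (U : Finset ℕ) (ρ e n : ℕ) : |FF p U ρ e n| ≤ 1 :=
  PAIR0_abs_prod _ _ fun _ _ => (abs_sg _).le

/-- eventual inequality -/
private theorem PAIR_ev (C : ℝ) : ∀ᶠ e : ℕ in atTop, C ≤ (2 : ℝ) ^ e :=
  (tendsto_pow_atTop_atTop_of_one_lt (by norm_num : (1 : ℝ) < 2)).eventually_ge_atTop _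

/-- choice of the density of the bad places -/
private theorem PAIR_eps (u nI nY : ℕ) (ε ε' ε1 : ℝ) (hε : 0 < ε) (hε' : 0 < ε') (hε1 : 0 < ε1)
    (hu : 0 < u) (hnI : 0 < nI) (hnY : 0 < nY) : ∃ ε2 : ℝ, 0 < ε2 ∧ u * ε2 ≤ ε' ∧
      u * ε2 ≤ ε / 4 ∧ nI * (nY * ε2) / ε1 ≤ ε' / 4 := by
  have hUr : (0 : ℝ) < u := by exact_mod_cast hu
  have hnIr : (0 : ℝ) < nI := by exact_mod_cast hnI
  have hnYr : (0 : ℝ) < nY := by exact_mod_cast hnY
  refine ⟨min (ε' / u) (min (ε / 4 / u) (ε' / 4 * ε1 / (nI * nY))), by positivity, ?_, ?_, ?_⟩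
  · calc (u : ℝ) * min (ε' / u) (min (ε / 4 / u) (ε' / 4 * ε1 / (nI * nY)))
        ≤ u * (ε' / u) := mul_le_mul_of_nonneg_left (min_le_left _ _) hUr.le
      _ = ε' := by field_simp
  · calc (u : ℝ) * min (ε' / u) (min (ε / 4 / u) (ε' / 4 * ε1 / (nI * nY)))
        ≤ u * (ε / 4 / u) := mul_le_mul_of_nonneg_left
          ((min_le_right _ _).trans (min_le_left _ _)) hUr.le
      _ = ε / 4 := by field_simp
  · rw [div_le_iff₀ hε1]
    calc (nI : ℝ) * (nY * min (ε' / u) (min (ε / 4 / u) (ε' / 4 * ε1 / (nI * nY))))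
        ≤ nI * (nY * (ε' / 4 * ε1 / (nI * nY))) := mul_le_mul_of_nonneg_left
          (mul_le_mul_of_nonneg_left ((min_le_right _ _).trans (min_le_right _ _)) hnYr.le)
          hnIr.le
      _ = ε' / 4 * ε1 := by field_simp

private theorem PAIR_arr (a y x u b : ℕ) : a + (y + x) + u + b = a + (y + u) + x + b := by omega

private theorem PAIR_arr2 (a y u x b : ℕ) : a + y + u + x + b = a + (y + (u + x)) + b := by omega

/-- sizes of the shifts -/
private theorem PAIR_size (e ρ nA R Um : ℕ) (h : nA * (2 ^ ρ * R) + Um ≤ 2 ^ e)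
    (q r : Fin nA → ℕ) (hq : ∀ i, q i ≤ 2 ^ (940 * e)) (hr : ∀ i, r i < R)
    (w : Finset (Fin nA)) (u : ℕ) (hu : u ≤ Um) :
    u + ∑ i ∈ w, 2 ^ (3 * e + ρ) * q i * r i ≤ 2 ^ (950 * e) := by
  have h1 : ∀ i ∈ w, 2 ^ (3 * e + ρ) * q i * r i ≤ 2 ^ (943 * e) * (2 ^ ρ * R) := by
    intro i _
    have h2 : 2 ^ (3 * e + ρ) * q i * r i ≤ 2 ^ (3 * e + ρ) * 2 ^ (940 * e) * R :=
      Nat.mul_le_mul (Nat.mul_le_mul_left _ (hq i)) (hr i).le
    refine h2.trans_eq ?_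
    rw [← pow_add, ← mul_assoc, ← pow_add]
    congr 2
    ring
  have h3 : ∑ i ∈ w, 2 ^ (3 * e + ρ) * q i * r i ≤ nA * (2 ^ (943 * e) * (2 ^ ρ * R)) := by
    refine (sum_le_card_nsmul w _ _ h1).trans ?_
    rw [smul_eq_mul]
    refine Nat.mul_le_mul_right _ ?_
    have := card_le_univ w
    rwa [Fintype.card_fin] at this
  have h4 : u ≤ 2 ^ (943 * e) * Um := hu.trans (Nat.le_mul_of_pos_left _ (by positivity))
  calc u + ∑ i ∈ w, 2 ^ (3 * e + ρ) * q i * r i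
      ≤ 2 ^ (943 * e) * Um + nA * (2 ^ (943 * e) * (2 ^ ρ * R)) := Nat.add_le_add h4 h3
    _ = 2 ^ (943 * e) * (nA * (2 ^ ρ * R) + Um) := by
        generalize 2 ^ (943 * e) = x
        ring
    _ ≤ 2 ^ (943 * e) * 2 ^ e := Nat.mul_le_mul_left _ h
    _ ≤ 2 ^ (950 * e) := by
        rw [← pow_add]
        exact Nat.pow_le_pow_right (by norm_num) (by omega)

theorem pair (p : Co) (ha : 1 ≤ p.a) (U : Finset ℕ) (hU : U.Nonempty) (κ0 : ℕ → ℕ) (ε : ℝ)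
    (hε : 0 < ε) : ∃ E l0 y0 l2 : ℕ, 1 ≤ E ∧ 1 ≤ l0 ∧ y0 < 2 ^ l0 ∧ ∀ l1 r0 : ℕ, 1 ≤ l1 →
      ∃ c : ℕ, ∀ᶠ l : ℕ in atTop, ∀ e V : ℕ, e = E * l → 2 ^ e ≤ V →
      V ≤ κ0 E * 2 ^ e →
      ∃ bad : Finset ℕ, (bad.card : ℝ) ≤ ε * 2 ^ (1999999 * e) ∧ ∀ ν ν' : ℕ,
      ν < 2 ^ (1999999 * e) → ν' < 2 ^ (1999999 * e) → ν ∉ bad → ν' ∉ bad →
      cl p c e ν = cl p c e ν' →
      l2 ≤ ((range l1).filter fun i =>
        Th p e (l1 * l0) (r0 * l0) ν ν' / 2 ^ (i * l0) % 2 ^ l0 = y0).card →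
      |∑ y ∈ range (2 ^ (950 * e)), ∑ v ∈ range V,
        FF p U (r0 * l0) e (ν + y + 2 ^ (1999999 * e) * v)
          * FF p U (r0 * l0) e (ν' + y + 2 ^ (1999999 * e) * v)|
        ≤ ε * 2 ^ (950 * e) * V := by
  classical
  obtain ⟨MA, hMA⟩ : ∃ MA : ℕ, MA = 1998090 := ⟨_, rfl⟩
  obtain ⟨nA, hnA⟩ : ∃ nA : ℕ, nA = 2 * MA := ⟨_, rfl⟩
  obtain ⟨R, hR2, haph⟩ := aph nA (ε / 2) (by positivity)
  obtain ⟨ε', hε', haph⟩ := haph R le_rfl
  obtain ⟨E, hE⟩ : ∃ E : ℕ, E = 16 * (2 * U.card * 2 ^ nA + 4) := ⟨_, rfl⟩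
  obtain ⟨κ, hκ⟩ : ∃ κ : ℕ, κ = κ0 E := ⟨_, rfl⟩
  obtain ⟨l0, y0, l2, ε1, hl0, hy0, hε1, hpb⟩ :=
    pair_b p ha U hU nA R E κ hE (ε' / 2) (by positivity)
  have hE1 : 1 ≤ E := by omega
  refine ⟨E, l0, y0, l2, hE1, hl0, hy0, fun l1 r0 hl1 => ?_⟩
  obtain ⟨Ξ, hpb⟩ := hpb l1 r0 hl1
  obtain ⟨lam, hlam⟩ : ∃ lam : ℕ, lam = l1 * l0 := ⟨_, rfl⟩
  obtain ⟨ρ, hρ⟩ : ∃ ρ : ℕ, ρ = r0 * l0 := ⟨_, rfl⟩
  simp only [← hlam, ← hρ] at hpb ⊢
  obtain ⟨nI, hnI⟩ : ∃ nI : ℕ, nI = 1999999 * E := ⟨_, rfl⟩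
  obtain ⟨nY, hnY⟩ : ∃ nY : ℕ, nY = 2 * U.card * 2 ^ nA := ⟨_, rfl⟩
  have hUc : 0 < U.card := Finset.card_pos.2 hU
  have hUr : (0 : ℝ) < U.card := by exact_mod_cast hUc
  have hnI0 : 0 < nI := by omega
  have hnIr : (0 : ℝ) < nI := by exact_mod_cast hnI0
  have hnY0 : 0 < nY := by
    rw [hnY]
    exact Nat.mul_pos (by omega) (Nat.pos_of_ne_zero (by positivity))
  have hnYr : (0 : ℝ) < nY := by exact_mod_cast hnY0
  obtain ⟨ε2, hε2, ha1, ha2, ha3⟩ := PAIR_eps U.card nI nY ε ε' ε1 hε hε' hε1 hUc hnI0 hnY0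
  obtain ⟨t, hbds⟩ := bds p ha E lam κ hE1 (ε / 4) ε2 (by positivity) hε2
  obtain ⟨Um, hUm⟩ : ∃ Um : ℕ, ∀ u ∈ U, u ≤ Um :=
    ⟨U.sup id, fun u hu => Finset.le_sup (f := id) hu⟩
  obtain ⟨c, hpid⟩ := pair_id p MA Um κ lam ρ t hMA
  refine ⟨c, ?_⟩
  -- eventual conditions
  obtain ⟨l3, hbds⟩ := eventually_atTop.1 hbds
  obtain ⟨l4, hpb⟩ := eventually_atTop.1 (hpb c t)
  obtain ⟨e1, hpid⟩ := eventually_atTop.1 (hpid c le_rfl)
  obtain ⟨e2, hcq⟩ := eventually_atTop.1 (cq4 p ha (lam + ρ) (ε / 4) (by positivity))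
  obtain ⟨e3, hgdc⟩ := eventually_atTop.1 (gdc p ha ρ κ Ξ (ε' / 4) (by positivity))
  obtain ⟨e4, hsla⟩ := eventually_atTop.1 (sla_dig p lam ρ R κ t)
  obtain ⟨e5, hev1⟩ := eventually_atTop.1 (PAIR_ev (2 ^ ρ * R / ε'))
  obtain ⟨e6, hev2⟩ := eventually_atTop.1 (PAIR_ev ((nA * (2 ^ ρ * R) + Um : ℕ) : ℝ))
  refine eventually_atTop.2 ⟨l3 + l4 + e1 + e2 + e3 + e4 + e5 + e6 + lam + 1, ?_⟩
  intro l hl e V he hV1 hV2
  rw [← hκ] at hV2
  have hle : l ≤ e := by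
    rw [he]
    exact Nat.le_mul_of_pos_left l hE1
  obtain ⟨b1, hb1, hbds⟩ := hbds l (by omega) e V he hV1 hV2
  obtain ⟨b2, hb2, hcq⟩ := hcq e (by omega)
  have hpid := hpid e (by omega)
  have hgdc := hgdc e (by omega)
  have hsla := hsla e (by omega)
  have hev1 := hev1 e (by omega)
  have hev2 := hev2 e (by omega)
  have hpb := hpb l (by omega) e he
  refine ⟨b1 ∪ b2, ?_, ?_⟩
  · have h1 : ((b1 ∪ b2).card : ℝ) ≤ b1.card + b2.card := by exact_mod_cast card_union_le _ _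
    have h2 : (0 : ℝ) < ε * 2 ^ (1999999 * e) := by positivity
    linarith
  intro ν ν' hν hν' hb hb' hcl hTp
  rw [mem_union, not_or] at hb hb'
  have hVpos : 0 < V := lt_of_lt_of_le (Nat.pos_of_ne_zero (by positivity)) hV1
  have hVr : (0 : ℝ) < V := by exact_mod_cast hVpos
  obtain ⟨Y, hY⟩ : ∃ Y : ℕ, Y = 2 ^ (950 * e) := ⟨_, rfl⟩
  have hYpos : 0 < Y := hY ▸ Nat.pos_of_ne_zero (by positivity)
  have hYr0 : (0 : ℝ) < Y := by exact_mod_cast hYpos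
  have hYr : (Y : ℝ) = 2 ^ (950 * e) := by rw [hY]; push_cast; rfl
  have h2Y : 2 * Y = 2 ^ (950 * e + 1) := by rw [hY, pow_succ, mul_comm]
  have hsz : nA * (2 ^ ρ * R) + Um ≤ 2 ^ e := by exact_mod_cast hev2
  have hκe : ∀ v, v < V → v ≤ 2 ^ (e + κ) := by
    intro v hv
    have h1 : κ * 2 ^ e ≤ 2 ^ κ * 2 ^ e := Nat.mul_le_mul_right _ Nat.lt_two_pow_self.le
    rw [pow_add, mul_comm (2 ^ e)]
    exact (hv.le.trans hV2).trans h1
  -- both points are good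
  have hpick : ∀ σ : Bool, pick ν ν' σ < 2 ^ (1999999 * e) ∧ pick ν ν' σ ∉ b1 ∧
      pick ν ν' σ ∉ b2 := by
    intro σ
    cases σ
    · exact ⟨hν, hb.1, hb.2⟩
    · exact ⟨hν', hb'.1, hb'.2⟩
  have hcount : ∀ (σ : Bool) (S : Finset ℕ), (∀ s ∈ S, s ≤ Y) → ∀ s, Cut E lam l e s →
      (((range Y ×ˢ range V).filter fun z : ℕ × ℕ => ∃ x ∈ S,
        di (p.P (pick ν ν' σ + (z.1 + x) + 2 ^ (1999999 * e) * z.2) / 2 ^ s)
          ≤ 1 / 2 ^ t).card : ℝ) ≤ S.card * (ε2 * (Y * V)) := by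
    intro σ S hS s hs
    have h1 := shy Y V S hS fun y v =>
      di (p.P (pick ν ν' σ + y + 2 ^ (1999999 * e) * v) / 2 ^ s) ≤ 1 / 2 ^ t
    have h2 := hbds _ (hpick σ).1 (hpick σ).2.1 s hs
    rw [← h2Y, ← hYr] at h2
    have h3 : (((range Y ×ˢ range V).filter fun z : ℕ × ℕ => ∃ x ∈ S,
        di (p.P (pick ν ν' σ + (z.1 + x) + 2 ^ (1999999 * e) * z.2) / 2 ^ s)
          ≤ 1 / 2 ^ t).card : ℝ) ≤ S.card * ((((range (2 * Y)) ×ˢ (range V)).filter
          fun z : ℕ × ℕ => di (p.P (pick ν ν' σ + z.1 + 2 ^ (1999999 * e) * z.2) / 2 ^ s)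
            ≤ 1 / 2 ^ t).card : ℝ) := by
      exact_mod_cast h1
    exact h3.trans (mul_le_mul_of_nonneg_left h2 (Nat.cast_nonneg _))
  -- the directions
  obtain ⟨sd, hsd⟩ : ∃ sd : Fin nA → Bool, ∀ i, sd i = decide (i.val % 2 = 1) := ⟨_, fun _ => rfl⟩
  obtain ⟨sl, hsl⟩ : ∃ sl : Fin nA → ℕ, ∀ i, sl i = i.val / 2 := ⟨_, fun _ => rfl⟩
  have hsl1 : ∀ i, sl i < 1998090 := by
    intro i
    have := i.isLt
    rw [hsl]
    omega
  have hqex : ∀ i : Fin nA, ∃ q : ℕ, q ≤ 2 ^ (940 * e) ∧ QC p e (lam + ρ) (sl i)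
      (bet R i * Th p e lam ρ ν ν') (pick ν ν' (sd i)) q := by
    intro i
    obtain ⟨q, _, h1, h2⟩ := hcq _ (hpick (sd i)).1 (hpick (sd i)).2.2 (sl i) (hsl1 i)
      (bet R i * Th p e lam ρ ν ν')
    exact ⟨q, h1, h2⟩
  choose q hq1 hq2 using hqex
  have hcutA : ∀ i, Cut E lam l e (slo lam e (sl i)) := by
    intro i
    refine Or.inr ⟨sl i, hsl1 i, ?_⟩
    have h1 : (sl i + 1) * e ≤ 1998090 * e := Nat.mul_le_mul_right e (hsl1 i)
    unfold slo
    omega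
  have hUY : ∀ u ∈ U, u ≤ Y := by
    intro u hu
    have h1 := PAIR_size e ρ nA R Um hsz (fun _ => 0) (fun _ => 0) (fun _ => Nat.zero_le _)
      (fun _ => by omega) ∅ u (hUm u hu)
    rw [sum_empty, add_zero, ← hY] at h1
    exact h1
  have hyu : ∀ y < Y, ∀ u ∈ U, y + u ≤ 2 ^ (951 * e) := by
    intro y hy u hu
    have h1 := hUY u hu
    have h2 : y + u ≤ 2 * Y := by omega
    rw [h2Y] at h2
    exact h2.trans (Nat.pow_le_pow_right (by norm_num) (by omega))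
  -- the shifts do not change the slices
  have hkill : ∀ (i : Fin nA) (r y v : ℕ), y < Y → v < V → 1 ≤ r → r < R →
      ¬ (∃ x ∈ U, di (p.P (pick ν ν' (sd i) + (y + x) + 2 ^ (1999999 * e) * v)
        / 2 ^ slo lam e (sl i)) ≤ 1 / 2 ^ t) →
      Phi p U lam e (sl i) (pick ν ν' (sd i)) y v *
        Phi p U lam e (sl i) (pick ν ν' (sd i)) (y + 2 ^ (3 * e + ρ) * q i * r) v = 1 := by
    intro i r y v hy hv _ hr2 hnb
    have h1 : Phi p U lam e (sl i) (pick ν ν' (sd i)) (y + 2 ^ (3 * e + ρ) * q i * r) v =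
        Phi p U lam e (sl i) (pick ν ν' (sd i)) y v := by
      unfold Phi
      refine prod_congr rfl fun u hu => ?_
      congr 1
      have h2 := hsla (sl i) (bet R i * Th p e lam ρ ν ν') (pick ν ν' (sd i)) (q i) r (y + u) v
        (hsl1 i) (hpick _).1 (hq1 i) hr2 (hyu y hy u hu) (hκe v hv) (hq2 i) (by
          by_contra hcon
          exact hnb ⟨u, hu, not_lt.1 hcon⟩)
      rw [mul_assoc, PAIR_arr]
      unfold slo
      rw [h2, ← add_assoc]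
    rw [h1]
    rcases PAIR_Phi p U lam e (sl i) (pick ν ν' (sd i)) y v with h | h <;> rw [h] <;> norm_num
  -- the average after the shifts
  have hmain : ∀ r : Fin nA → ℕ, (∀ i, 1 ≤ r i ∧ r i < R) →
      |∑ y ∈ range Y, ∑ v ∈ range V, ∏ w : Finset (Fin nA),
        Psi p U lam ρ e ν ν' (y + ∑ i ∈ w, 2 ^ (3 * e + ρ) * q i * r i) v| ≤ ε' * (Y * V) := by
    intro r hr
    obtain ⟨bg, hbg, hgdc⟩ := hgdc ν
    rw [← hYr] at hbg
    -- the B-cuts
    obtain ⟨S, hSdef⟩ : ∃ S : Finset ℕ, S = (U ×ˢ (univ : Finset (Finset (Fin nA)))).image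
        fun x => x.1 + ∑ i ∈ x.2, 2 ^ (3 * e + ρ) * q i * r i := ⟨_, rfl⟩
    have hSc : S.card ≤ U.card * 2 ^ nA := by
      rw [hSdef]
      refine card_image_le.trans_eq ?_
      rw [card_product, card_univ, Fintype.card_finset, Fintype.card_fin]
    have hSY : ∀ s ∈ S, s ≤ Y := by
      intro s hs
      rw [hSdef, mem_image] at hs
      obtain ⟨x, hx, rfl⟩ := hs
      rw [mem_product] at hx
      have h1 := PAIR_size e ρ nA R Um hsz q r hq1 (fun i => (hr i).2) x.2 x.1 (hUm _ hx.1)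
      rw [← hY] at h1
      exact h1
    have hcutB : ∀ i < nI, Cut E lam l e (1999999 * e + i * l) := by
      intro i hi
      exact Or.inl ⟨i, by omega, rfl⟩
    obtain ⟨bm, hbm, hbm2⟩ := PAIR0_markov Y V nI
      (fun i y v => ∃ (σ : Bool) (w : Finset (Fin nA)), ∃ u ∈ U,
        di (p.P (pick ν ν' σ + y + u + (∑ i ∈ w, 2 ^ (3 * e + ρ) * q i * r i)
          + 2 ^ (1999999 * e) * v) / 2 ^ (1999999 * e + i * l)) ≤ 1 / 2 ^ t) ε1 (nY * ε2) hε1
      hVpos (by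
        intro i hi
        have h0 := hcount false S hSY _ (hcutB i hi)
        have h1 := hcount true S hSY _ (hcutB i hi)
        have h2 : ((range Y ×ˢ range V).filter fun z : ℕ × ℕ => ∃ (σ : Bool)
            (w : Finset (Fin nA)), ∃ u ∈ U,
            di (p.P (pick ν ν' σ + z.1 + u + (∑ i ∈ w, 2 ^ (3 * e + ρ) * q i * r i)
              + 2 ^ (1999999 * e) * z.2) / 2 ^ (1999999 * e + i * l)) ≤ 1 / 2 ^ t) ⊆
            ((range Y ×ˢ range V).filter fun z : ℕ × ℕ => ∃ x ∈ S,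
              di (p.P (pick ν ν' false + (z.1 + x) + 2 ^ (1999999 * e) * z.2)
                / 2 ^ (1999999 * e + i * l)) ≤ 1 / 2 ^ t) ∪
            ((range Y ×ˢ range V).filter fun z : ℕ × ℕ => ∃ x ∈ S,
              di (p.P (pick ν ν' true + (z.1 + x) + 2 ^ (1999999 * e) * z.2)
                / 2 ^ (1999999 * e + i * l)) ≤ 1 / 2 ^ t) := by
          intro z hz
          rw [mem_filter] at hz
          obtain ⟨hz1, σ, w, u, hu, hz2⟩ := hz
          rw [PAIR_arr2] at hz2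
          have hxS : u + ∑ i ∈ w, 2 ^ (3 * e + ρ) * q i * r i ∈ S := by
            rw [hSdef, mem_image]
            exact ⟨(u, w), mem_product.2 ⟨hu, mem_univ _⟩, rfl⟩
          rw [mem_union, mem_filter, mem_filter]
          cases σ
          · exact Or.inl ⟨hz1, _, hxS, hz2⟩
          · exact Or.inr ⟨hz1, _, hxS, hz2⟩
        have h3 := (card_le_card h2).trans (card_union_le _ _)
        have h4 : (((range Y ×ˢ range V).filter fun z : ℕ × ℕ => ∃ (σ : Bool)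
            (w : Finset (Fin nA)), ∃ u ∈ U,
            di (p.P (pick ν ν' σ + z.1 + u + (∑ i ∈ w, 2 ^ (3 * e + ρ) * q i * r i)
              + 2 ^ (1999999 * e) * z.2) / 2 ^ (1999999 * e + i * l)) ≤ 1 / 2 ^ t).card : ℝ) ≤
            (((range Y ×ˢ range V).filter fun z : ℕ × ℕ => ∃ x ∈ S,
              di (p.P (pick ν ν' false + (z.1 + x) + 2 ^ (1999999 * e) * z.2)
                / 2 ^ (1999999 * e + i * l)) ≤ 1 / 2 ^ t).card : ℝ) +
            (((range Y ×ˢ range V).filter fun z : ℕ × ℕ => ∃ x ∈ S,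
              di (p.P (pick ν ν' true + (z.1 + x) + 2 ^ (1999999 * e) * z.2)
                / 2 ^ (1999999 * e + i * l)) ≤ 1 / 2 ^ t).card : ℝ) := by
          exact_mod_cast h3
        have h5 : (2 : ℝ) * S.card ≤ nY := by
          rw [hnY]
          have : 2 * S.card ≤ 2 * U.card * 2 ^ nA := by
            rw [mul_assoc]
            exact Nat.mul_le_mul_left 2 hSc
          exact_mod_cast this
        have h6 : (2 : ℝ) * S.card * (ε2 * (Y * V)) ≤ nY * (ε2 * (Y * V)) :=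
          mul_le_mul_of_nonneg_right h5 (by positivity)
        linarith)
    have hG : ∀ y : ℕ, |∑ v ∈ range V, ∏ w : Finset (Fin nA),
        Psi p U lam ρ e ν ν' (y + ∑ i ∈ w, 2 ^ (3 * e + ρ) * q i * r i) v| ≤ V := by
      intro y
      refine (abs_sum_le_sum_abs _ _).trans ?_
      refine (sum_le_sum (g := fun _ => (1 : ℝ)) fun v _ =>
        PAIR0_abs_prod _ _ fun w _ => PAIR_Psi _ _ _ _ _ _ _ _ _).trans_eq ?_
      rw [sum_const, card_range, nsmul_eq_mul, mul_one]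
    have hbad : ((bg ∪ bm).card : ℝ) ≤ ε' / 2 * Y := by
      have h1 : ((bg ∪ bm).card : ℝ) ≤ bg.card + bm.card := by exact_mod_cast card_union_le _ _
      have h2 : (nI : ℝ) * (nY * ε2) / ε1 * Y ≤ ε' / 4 * Y :=
        mul_le_mul_of_nonneg_right ha3 hYr0.le
      linarith
    have h1 := PAIR0_avg Y V (ε' / 2) (ε' / 2) hVr.le (by positivity) _ (bg ∪ bm) hbad hG (by
      intro y hy hyb
      rw [mem_union, not_or] at hyb
      refine hpb ν ν' hν hν' hcl hTp sd sl q r hsl1 hq1 hr hq2 y (hY ▸ hy)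
        (hgdc y (hY ▸ hy) hyb.1) V hV1 hV2 ?_
      intro i hi
      exact hbm2 y hy hyb.2 i (by omega))
    rw [add_halves] at h1
    exact h1
  -- van der Corput
  have hA := haph Y V (2 ^ (3 * e + ρ) * 2 ^ (940 * e)) (fun i => 2 ^ (3 * e + ρ) * q i)
    (fun i y v => Phi p U lam e (sl i) (pick ν ν' (sd i)) y v)
    (fun y v => Psi p U lam ρ e ν ν' y v)
    (fun i y v => ∃ x ∈ U, di (p.P (pick ν ν' (sd i) + (y + x) + 2 ^ (1999999 * e) * v)
        / 2 ^ slo lam e (sl i)) ≤ 1 / 2 ^ t) hYpos hVpos (by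
      rw [hYr]
      push_cast
      rw [div_le_iff₀ hε'] at hev1
      have h1 : (2 : ℝ) ^ (3 * e + ρ) * 2 ^ (940 * e) * R = 2 ^ (943 * e) * (2 ^ ρ * R) := by
        rw [← pow_add, ← mul_assoc, ← pow_add]
        congr 2
        ring
      rw [h1]
      calc (2 : ℝ) ^ (943 * e) * (2 ^ ρ * R) ≤ 2 ^ (943 * e) * (2 ^ e * ε') :=
            mul_le_mul_of_nonneg_left hev1 (by positivity)
        _ = 2 ^ (944 * e) * ε' := by
            rw [← mul_assoc, ← pow_add]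
            congr 2
            ring
        _ ≤ 2 ^ (950 * e) * ε' := by
            apply mul_le_mul_of_nonneg_right _ hε'.le
            exact pow_le_pow_right₀ (by norm_num) (by omega)
        _ = ε' * 2 ^ (950 * e) := mul_comm _ _) (fun i => Nat.mul_le_mul_left _ (hq1 i))
    (fun i y v => PAIR_Phi _ _ _ _ _ _ _ _) (fun y v => PAIR_Psi _ _ _ _ _ _ _ _ _)
    hkill (by
      intro i
      refine (hcount (sd i) U hUY _ (hcutA i)).trans ?_
      calc (U.card : ℝ) * (ε2 * (Y * V)) = U.card * ε2 * (Y * V) := by ring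
        _ ≤ ε' * (Y * V) := mul_le_mul_of_nonneg_right ha1 (by positivity)) hmain
  -- conclusion
  have hcutM : Cut E lam l e (3999998 * e) := by
    refine Or.inl ⟨1999999 * E, le_rfl, ?_⟩
    have : 1999999 * E * l = 1999999 * e := by rw [he]; ring
    omega
  have hfin := PAIR0_change Y V (fun y v => ∃ x ∈ U,
      di (p.P (pick ν ν' false + (y + x) + 2 ^ (1999999 * e) * v) / 2 ^ (3999998 * e))
        ≤ 1 / 2 ^ t)
    (fun y v => FF p U ρ e (ν + y + 2 ^ (1999999 * e) * v)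
      * FF p U ρ e (ν' + y + 2 ^ (1999999 * e) * v))
    (fun y v => (∏ i : Fin nA, Phi p U lam e (sl i) (pick ν ν' (sd i)) y v)
      * Psi p U lam ρ e ν ν' y v) (by
      intro y v
      rw [abs_mul]
      exact mul_le_one₀ (PAIR_FF _ _ _ _ _) (abs_nonneg _) (PAIR_FF _ _ _ _ _)) (by
      intro y v
      rw [abs_mul]
      refine mul_le_one₀ (PAIR0_abs_prod _ _ fun i _ => ?_) (abs_nonneg _)
        (PAIR_Psi _ _ _ _ _ _ _ _ _)
      rcases PAIR_Phi p U lam e (sl i) (pick ν ν' (sd i)) y v with h | h <;> rw [h] <;> norm_num)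
    (by
      intro y v hy hv hnb
      have h1 := hpid U hUm ν ν' hν hν' hcl y v (hY ▸ hy) (hv.le.trans hV2) (by
        intro u hu
        by_contra hcon
        refine hnb ⟨u, hu, ?_⟩
        rw [← add_assoc]
        exact not_lt.1 hcon)
      rw [h1]
      congr 1
      subst hnA
      have h2 := PAIR0_prod MA fun i => Phi p U lam e (i / 2)
        (pick ν ν' (decide (i % 2 = 1))) y v
      simp only [hsl, hsd]
      rw [h2]
      refine prod_congr rfl fun i _ => ?_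
      have h3 : 2 * i / 2 = i := by omega
      have h4 : 2 * i % 2 = 0 := by omega
      have h5 : (2 * i + 1) / 2 = i := by omega
      have h6 : (2 * i + 1) % 2 = 1 := by omega
      rw [h3, h4, h5, h6]
      simp [pick])
  have h1 := hcount false U hUY _ hcutM
  have h2 : (U.card : ℝ) * (ε2 * (Y * V)) ≤ ε / 4 * (Y * V) := by
    rw [← mul_assoc]
    exact mul_le_mul_of_nonneg_right ha2 (by positivity)
  rw [hY] at hfin hA h1 h2
  push_cast at hfin hA h1 h2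
  have h3 : ε * 2 ^ (950 * e) * (V : ℝ) = ε * (2 ^ (950 * e) * V) := by ring
  rw [h3]
  linarith

end Pool.Agent.Lib.MP_8fac0f_nt.Q4
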