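import Pool.Agent.Lib.MP_8fac0f_nt.Q4.Defs4

/-!
# PAIR0: counting lemmas for the row PAIR
-/

set_option autoImplicit false

namespace Pool.Agent.Lib.MP_8fac0f_nt.Q4

open Finset Filter Topology
open Pool.Agent.Lib.MP_8fac0f_nt.N (sg)
open Pool.Agent.Lib.MP_8fac0f_nt.C3 (di ex)

/-- The directions `2 i`, `2 i + 1` belong to the slice `i`. -/
theorem PAIR0_prod (MA : ℕ) (g : ℕ → ℝ) :
    ∏ i : Fin (2 * MA), g i = ∏ i ∈ range MA, (g (2 * i) * g (2 * i + 1)) := by
  rw [Fin.prod_univ_eq_prod_range]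
  induction MA with
  | zero => simp
  | succ MA ih =>
    rw [show 2 * (MA + 1) = 2 * MA + 1 + 1 by ring, prod_range_succ, prod_range_succ, ih,
      prod_range_succ, mul_assoc]

/-- Changing a bounded summand of a double sum on few places. -/
theorem PAIR0_change (Y V : ℕ) (B : ℕ → ℕ → Prop) [∀ y v, Decidable (B y v)] (f g : ℕ → ℕ → ℝ)
    (hf : ∀ y v, |f y v| ≤ 1) (hg : ∀ y v, |g y v| ≤ 1)
    (h : ∀ y v, y < Y → v < V → ¬ B y v → f y v = g y v) :
    |∑ y ∈ range Y, ∑ v ∈ range V, f y v| ≤ |∑ y ∈ range Y, ∑ v ∈ range V, g y v| +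
      2 * (((range Y ×ˢ range V).filter fun z : ℕ × ℕ => B z.1 z.2).card : ℝ) := by
  have h1 : ∑ y ∈ range Y, ∑ v ∈ range V, f y v - ∑ y ∈ range Y, ∑ v ∈ range V, g y v =
      ∑ z ∈ (range Y ×ˢ range V).filter fun z : ℕ × ℕ => B z.1 z.2, (f z.1 z.2 - g z.1 z.2) := by
    rw [← sum_product', ← sum_product', ← sum_sub_distrib, sum_filter]
    refine sum_congr rfl fun z hz => ?_
    rw [mem_product, mem_range, mem_range] at hz
    split_ifs with hb
    · rfl
    · rw [h z.1 z.2 hz.1 hz.2 hb, sub_self]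
  have h2 : |∑ z ∈ (range Y ×ˢ range V).filter fun z : ℕ × ℕ => B z.1 z.2,
      (f z.1 z.2 - g z.1 z.2)| ≤
      2 * (((range Y ×ˢ range V).filter fun z : ℕ × ℕ => B z.1 z.2).card : ℝ) := by
    refine (abs_sum_le_sum_abs _ _).trans ?_
    refine (sum_le_sum (g := fun _ => (2 : ℝ)) fun z _ => ?_).trans ?_
    · have a := hf z.1 z.2
      have b := hg z.1 z.2
      rw [abs_le] at a b ⊢
      constructor <;> linarith
    · rw [sum_const, nsmul_eq_mul]; linarith
  have h3 : ∑ y ∈ range Y, ∑ v ∈ range V, f y v = ∑ y ∈ range Y, ∑ v ∈ range V, g y v +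
      ∑ z ∈ (range Y ×ˢ range V).filter fun z : ℕ × ℕ => B z.1 z.2, (f z.1 z.2 - g z.1 z.2) := by
    rw [← h1]; ring
  rw [h3]
  exact (abs_add_le _ _).trans (by linarith)

/-- An average over `y` with few bad `y`. -/
theorem PAIR0_avg (Y : ℕ) (V δ1 δ2 : ℝ) (hV : 0 ≤ V) (hδ : 0 ≤ δ1) (G : ℕ → ℝ)
    (bad : Finset ℕ) (hbad : (bad.card : ℝ) ≤ δ2 * Y) (hG : ∀ y, |G y| ≤ V)
    (hG2 : ∀ y < Y, y ∉ bad → |G y| ≤ δ1 * V) :
    |∑ y ∈ range Y, G y| ≤ (δ1 + δ2) * (Y * V) := by
  classical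
  have h1 : ∀ y ∈ range Y, |G y| ≤ δ1 * V + if y ∈ bad then V else 0 := by
    intro y hy
    by_cases hb : y ∈ bad
    · rw [if_pos hb]
      have := hG y
      have : 0 ≤ δ1 * V := mul_nonneg hδ hV
      linarith [hG y]
    · rw [if_neg hb, add_zero]
      exact hG2 y (mem_range.1 hy) hb
  refine (abs_sum_le_sum_abs _ _).trans ((sum_le_sum h1).trans ?_)
  rw [sum_add_distrib, sum_const, card_range, nsmul_eq_mul, ← sum_filter, sum_const, nsmul_eq_mul]
  have h2 : (((range Y).filter fun y => y ∈ bad).card : ℝ) ≤ bad.card := by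
    have : (range Y).filter (fun y => y ∈ bad) ⊆ bad := fun y hy => (mem_filter.1 hy).2
    exact_mod_cast card_le_card this
  have h3 : (((range Y).filter fun y => y ∈ bad).card : ℝ) * V ≤ δ2 * Y * V :=
    mul_le_mul_of_nonneg_right (h2.trans hbad) hV
  linarith

/-- The number of `y` for which one of the rows is too large. -/
theorem PAIR0_markov (Y V n : ℕ) (D : ℕ → ℕ → ℕ → Prop) [∀ i y v, Decidable (D i y v)] (ε1 δ : ℝ)
    (hε1 : 0 < ε1) (hV : 0 < V)
    (h : ∀ i < n, (((range Y ×ˢ range V).filter fun z : ℕ × ℕ => D i z.1 z.2).card : ℝ)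
      ≤ δ * (Y * V)) :
    ∃ bad : Finset ℕ, (bad.card : ℝ) ≤ n * δ / ε1 * Y ∧ ∀ y < Y, y ∉ bad → ∀ i < n,
      (((range V).filter fun v => D i y v).card : ℝ) ≤ ε1 * V := by
  classical
  have hVr : (0 : ℝ) < V := by exact_mod_cast hV
  let b : ℕ → Finset ℕ := fun i => (range Y).filter fun y =>
    ε1 * V < (((range V).filter fun v => D i y v).card : ℝ)
  have hb : ∀ i ∈ range n, ((b i).card : ℝ) ≤ δ / ε1 * Y := by
    intro i hi
    have h1 := h i (mem_range.1 hi)
    have h2 : ((b i).card : ℝ) * (ε1 * V) ≤ δ * (Y * V) := by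
      refine le_trans ?_ h1
      have h3 : (((range Y ×ˢ range V).filter fun z : ℕ × ℕ => D i z.1 z.2).card : ℝ) =
          ∑ y ∈ range Y, (((range V).filter fun v => D i y v).card : ℝ) := by
        have : ((range Y ×ˢ range V).filter fun z : ℕ × ℕ => D i z.1 z.2).card =
            ∑ y ∈ range Y, ((range V).filter fun v => D i y v).card := by
          rw [card_filter, sum_product]
          exact sum_congr rfl fun y _ => (card_filter _ _).symm
        exact_mod_cast this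
      rw [h3]
      calc ((b i).card : ℝ) * (ε1 * V) = ∑ y ∈ b i, ε1 * V := by rw [sum_const, nsmul_eq_mul]
        _ ≤ ∑ y ∈ b i, (((range V).filter fun v => D i y v).card : ℝ) :=
            sum_le_sum fun y hy => (mem_filter.1 hy).2.le
        _ ≤ _ := sum_le_sum_of_subset_of_nonneg (filter_subset _ _) fun _ _ _ => Nat.cast_nonneg _
    have h4 : ((b i).card : ℝ) * ε1 ≤ δ * Y := by
      have : ((b i).card : ℝ) * ε1 * V ≤ δ * Y * V := by linarith
      exact le_of_mul_le_mul_right this hVr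
    rw [div_mul_eq_mul_div, le_div_iff₀ hε1]
    exact h4
  refine ⟨(range n).biUnion b, ?_, ?_⟩
  · have h1 : (((range n).biUnion b).card : ℝ) ≤ ∑ i ∈ range n, ((b i).card : ℝ) := by
      exact_mod_cast card_biUnion_le
    refine (h1.trans (sum_le_sum hb)).trans_eq ?_
    rw [sum_const, card_range, nsmul_eq_mul]
    ring
  · intro y hy hn i hi
    by_contra hcon
    rw [not_le] at hcon
    exact hn (mem_biUnion.2 ⟨i, mem_range.2 hi, mem_filter.2 ⟨mem_range.2 hy, hcon⟩⟩)

/-- products of signs are bounded by one -/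
theorem PAIR0_abs_prod {ι : Type*} (s : Finset ι) (f : ι → ℝ) (h : ∀ i ∈ s, |f i| ≤ 1) :
    |∏ i ∈ s, f i| ≤ 1 := by
  rw [abs_prod]
  exact prod_le_one (fun _ _ => abs_nonneg _) h

/-- products of signs are signs -/
theorem PAIR0_sign {ι : Type*} (s : Finset ι) (f : ι → ℝ) (h : ∀ i ∈ s, f i = 1 ∨ f i = -1) :
    ∏ i ∈ s, f i = 1 ∨ ∏ i ∈ s, f i = -1 := by
  classical
  induction s using Finset.induction_on with
  | empty => simp
  | insert a s ha ih =>
    rw [prod_insert ha]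
    have h1 := h a (mem_insert_self a s)
    have h2 := ih fun i hi => h i (mem_insert_of_mem hi)
    rcases h1 with h1 | h1 <;> rcases h2 with h2 | h2 <;> rw [h1, h2] <;> simp

end Pool.Agent.Lib.MP_8fac0f_nt.Q4
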