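import Pool.Agent.Lib.MP_8fac0f_nt.Q4.Defs4
import Pool.Agent.Lib.MP_8fac0f_nt.C3.Pigeon

/-!
# PIGF: Dirichlet for a family

`C3.pigeon` for a family `A : ι → ℕ` instead of a finset of points (copy of its proof; or apply
`C3.pigeon` with `Y = (univ : Finset (Fin n))` images along an enumeration `ι ≃ Fin n`:
`Y := (univ : Finset (Fin (card ι))).image Fin.val`, `A' k := A (e.symm ⟨k, _⟩)`, `Y.card = card ι`).
-/

set_option autoImplicit false

namespace Pool.Agent.Lib.MP_8fac0f_nt.Q4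

open Finset Filter Topology
open Pool.Agent.Lib.MP_8fac0f_nt.N (sg)
open Pool.Agent.Lib.MP_8fac0f_nt.C3 (di ex)

theorem pigf {ι : Type} [Fintype ι] (A : ι → ℕ) (m L Q : ℕ) (hQ : 1 ≤ Q) :
    ∃ K : Finset ℕ, (∀ q ∈ K, 1 ≤ q ∧ q < Q ∧ ∀ x, di (q * A x / 2 ^ m) ≤ 1 / 2 ^ L) ∧
      Q ≤ (K.card + 1) * 2 ^ (L * Fintype.card ι) := by
  classical
  let n := Fintype.card ι
  let e : ι ≃ Fin n := Fintype.equivFin ι
  let A' : ℕ → ℕ := fun k => if h : k < n then A (e.symm ⟨k, h⟩) else 0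
  obtain ⟨K, hK, hQK⟩ := C3.pigeon (range n) A' m L Q hQ
  refine ⟨K, fun q hq => ?_, ?_⟩
  · obtain ⟨h1, h2, h3⟩ := hK q hq
    refine ⟨h1, h2, fun x => ?_⟩
    have h4 := h3 (e x : ℕ) (mem_range.2 (e x).2)
    have h5 : A' (e x : ℕ) = A x := by
      simp only [A']
      rw [dif_pos (e x).2]
      simp
    rwa [h5] at h4
  · rw [card_range] at hQK
    exact hQK

end Pool.Agent.Lib.MP_8fac0f_nt.Q4
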