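import Pool.Agent.Lib.MP_8fac0f_nt.Q4.DIG2

/-!
# POOR: few environment numbers have fewer than `l2` blocks equal to `y0`
-/

set_option autoImplicit false

namespace Pool.Agent.Lib.MP_8fac0f_nt.Q4

open Finset Filter Topology
open Pool.Agent.Lib.MP_8fac0f_nt.C3 (di ex)

/-- (POOR) -/
theorem poor (l0 y0 l2 : ℕ) (hy : y0 < 2 ^ l0) (ε : ℝ) (hε : 0 < ε) :
    ∃ l1' : ℕ, ∀ l1 : ℕ, l1' ≤ l1 → ∀ r0 : ℕ,
      ((((range (2 ^ ((l1 + r0) * l0))).filter fun τ =>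
        ((range l1).filter fun i => τ / 2 ^ (i * l0) % 2 ^ l0 = y0).card < l2).card : ℕ) : ℝ)
        ≤ ε * 2 ^ ((l1 + r0) * l0) := by
  have h2' : (0 : ℝ) < 2 ^ l0 := by positivity
  have h2 : (1 : ℝ) ≤ 2 ^ l0 := one_le_pow₀ (by norm_num)
  obtain ⟨θ, hθ⟩ : ∃ θ : ℝ, θ = 1 - (1 / 2) / 2 ^ l0 := ⟨_, rfl⟩
  have hle : (1 / 2 : ℝ) / 2 ^ l0 ≤ 1 / 2 := by
    rw [div_le_iff₀ h2']; linarith
  have hpos : (0 : ℝ) < (1 / 2) / 2 ^ l0 := by positivity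
  have hθ0 : 0 ≤ θ := by rw [hθ]; linarith
  have hθ1 : θ < 1 := by rw [hθ]; linarith
  obtain ⟨n, hn⟩ := exists_pow_lt_of_lt_one (show (0 : ℝ) < ε / 2 ^ l2 by positivity) hθ1
  refine ⟨n, fun l1 hl1 r0 => ?_⟩
  have hsum := digsum2 l0 y0 l1 (2 ^ (r0 * l0)) hy (1 / 2) (range l1) (Finset.Subset.refl _)
  rw [card_range, ← hθ] at hsum
  have e0 : 2 ^ (r0 * l0) * 2 ^ (l1 * l0) = 2 ^ ((l1 + r0) * l0) := by
    rw [← pow_add]; congr 1; ring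
  rw [e0] at hsum
  have key : ((((range (2 ^ ((l1 + r0) * l0))).filter fun τ =>
        ((range l1).filter fun i => τ / 2 ^ (i * l0) % 2 ^ l0 = y0).card < l2).card : ℕ) : ℝ)
        * (1 / 2) ^ l2 ≤ ∑ τ ∈ range (2 ^ ((l1 + r0) * l0)),
        (1 - (1 / 2 : ℝ)) ^ (((range l1).filter fun i => τ / 2 ^ (i * l0) % 2 ^ l0 = y0).card) := by
    rw [← nsmul_eq_mul, ← sum_const]
    refine (sum_le_sum (fun τ hτ => ?_)).trans
      (sum_le_sum_of_subset_of_nonneg (filter_subset _ _) (fun τ _ _ => by positivity))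
    rw [mem_filter] at hτ
    rw [show (1 - (1 / 2 : ℝ)) = 1 / 2 by norm_num]
    exact pow_le_pow_of_le_one (by norm_num) (by norm_num) hτ.2.le
  rw [hsum] at key
  have e1 : (((2 ^ (r0 * l0) : ℕ) : ℝ)) * 2 ^ (l1 * l0) = 2 ^ ((l1 + r0) * l0) := by
    exact_mod_cast e0
  rw [e1] at key
  have h3 : θ ^ l1 ≤ ε / 2 ^ l2 := (pow_le_pow_of_le_one hθ0 hθ1.le hl1).trans hn.le
  have hp : (0 : ℝ) < 2 ^ ((l1 + r0) * l0) := by positivity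
  have h4 := mul_le_mul_of_nonneg_left h3 hp.le
  have h5 := key.trans h4
  have hl2 : (0 : ℝ) < 2 ^ l2 := by positivity
  have e2 : ((1 : ℝ) / 2) ^ l2 = 1 / 2 ^ l2 := by rw [div_pow, one_pow]
  rw [e2] at h5
  have h6 := mul_le_mul_of_nonneg_right h5 hl2.le
  have e3 : ∀ a : ℝ, a * (1 / 2 ^ l2) * 2 ^ l2 = a := fun a => by field_simp
  rw [e3] at h6
  refine h6.trans (le_of_eq ?_)
  field_simp

end Pool.Agent.Lib.MP_8fac0f_nt.Q4
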