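import Pool.Agent.Lib.MP_8fac0f_nt.Q4.Defs

/-!
# PairSum: the sum over the same-class pairs

Proof. Split the pairs `q = (nu, nu')` (`cls nu = cls nu'`): (a) `nu in B`: at most `|B|` choices of `nu` and
for each at most `C A / Nc` choices of `nu'` (`hcl` with `kappa = cls nu`), each term at most `T`; (b) `nu' in B`: the
same; (c) `bad nu nu'`: for each `nu` at most `Cp A / Nc` choices (`hp`); (d) the others: at most
`A * (C A / Nc)` pairs, each term at most `eps T`. Sum: `T A ^ 2 / Nc (2 C epsb + Cp + C eps)`.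
-/

set_option autoImplicit false

namespace Pool.Agent.Lib.MP_8fac0f_nt.Q4

open Finset Filter Topology
open Pool.Agent.Lib.MP_8fac0f_nt.C3 (di ex)

private theorem pairSum_fst {T : Type} [DecidableEq T] (cls : ℕ → T) (A : ℕ) (Nc D : ℝ)
    (w : ℕ → ℝ) (hw : ∀ ν, 0 ≤ w ν)
    (hcl : ∀ κ, (((range A).filter fun ν' => cls ν' = κ).card : ℝ) * Nc ≤ D) :
    (∑ q ∈ (range A ×ˢ range A).filter (fun q => cls q.1 = cls q.2), w q.1) * Nc
      ≤ (∑ ν ∈ range A, w ν) * D := by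
  rw [sum_filter, sum_product, sum_mul, sum_mul]
  refine sum_le_sum fun ν _ => ?_
  have h1 : (∑ y ∈ range A, if cls (ν, y).1 = cls (ν, y).2 then w (ν, y).1 else 0)
      = (((range A).filter fun ν' => cls ν' = cls ν).card : ℝ) * w ν := by
    rw [← sum_filter]
    change ∑ y ∈ (range A).filter (fun y => cls ν = cls y), w ν = _
    rw [sum_const, nsmul_eq_mul]
    congr 3
    exact filter_congr fun y _ => eq_comm
  rw [h1]
  have h2 := hcl (cls ν)
  have h3 := mul_le_mul_of_nonneg_left h2 (hw ν)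
  calc _ = w ν * ((((range A).filter fun ν' => cls ν' = cls ν).card : ℝ) * Nc) := by ring
    _ ≤ _ := h3

private theorem pairSum_snd {T : Type} [DecidableEq T] (cls : ℕ → T) (A : ℕ) (Nc D : ℝ)
    (w : ℕ → ℝ) (hw : ∀ ν, 0 ≤ w ν)
    (hcl : ∀ κ, (((range A).filter fun ν' => cls ν' = κ).card : ℝ) * Nc ≤ D) :
    (∑ q ∈ (range A ×ˢ range A).filter (fun q => cls q.1 = cls q.2), w q.2) * Nc
      ≤ (∑ ν ∈ range A, w ν) * D := by
  rw [sum_filter, sum_product, sum_comm, sum_mul, sum_mul]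
  refine sum_le_sum fun ν _ => ?_
  have h1 : (∑ y ∈ range A, if cls (y, ν).1 = cls (y, ν).2 then w (y, ν).2 else 0)
      = (((range A).filter fun ν' => cls ν' = cls ν).card : ℝ) * w ν := by
    rw [← sum_filter]
    change ∑ y ∈ (range A).filter (fun y => cls y = cls ν), w ν = _
    rw [sum_const, nsmul_eq_mul]
  rw [h1]
  have h2 := hcl (cls ν)
  have h3 := mul_le_mul_of_nonneg_left h2 (hw ν)
  calc _ = w ν * ((((range A).filter fun ν' => cls ν' = cls ν).card : ℝ) * Nc) := by ring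
    _ ≤ _ := h3

private theorem pairSum_ind (A : ℕ) (εb : ℝ) (B : Finset ℕ) (hB : (B.card : ℝ) ≤ εb * A) :
    ∑ ν ∈ range A, (if ν ∈ B then (1 : ℝ) else 0) ≤ εb * A := by
  refine le_trans ?_ hB
  rw [← sum_filter, sum_const, nsmul_eq_mul, mul_one]
  exact_mod_cast card_le_card fun x hx => (mem_filter.1 hx).2

theorem pair_sum {T : Type} [DecidableEq T] (cls : ℕ → T) (A : ℕ) (Nc C Cp εb ε t : ℝ)
    (hNc : 0 < Nc) (hC : 0 ≤ C) (hCp : 0 ≤ Cp) (hε : 0 ≤ ε) (ht : 0 ≤ t) (S : ℕ → ℕ → ℝ)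
    (hS : ∀ ν ν', 0 ≤ S ν ν' ∧ S ν ν' ≤ t) (B : Finset ℕ) (hB : (B.card : ℝ) ≤ εb * A)
    (bad : ℕ → ℕ → Prop) [∀ ν, DecidablePred (bad ν)]
    (hcl : ∀ κ, (((range A).filter fun ν' => cls ν' = κ).card : ℝ) * Nc ≤ C * A)
    (hp : ∀ ν, (((range A).filter fun ν' => cls ν' = cls ν ∧ bad ν ν').card : ℝ) * Nc ≤ Cp * A)
    (h : ∀ ν < A, ∀ ν' < A, cls ν = cls ν' → ν ∉ B → ν' ∉ B → ¬ bad ν ν' → S ν ν' ≤ ε * t) :
    (∑ q ∈ (range A ×ˢ range A).filter (fun q => cls q.1 = cls q.2), S q.1 q.2) * Nc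
      ≤ (2 * C * εb + Cp + C * ε) * t * A ^ 2 := by
  have hεt := mul_nonneg hε ht
  have key : ∀ q ∈ (range A ×ˢ range A).filter (fun q => cls q.1 = cls q.2),
      S q.1 q.2 ≤ t * (if q.1 ∈ B then (1 : ℝ) else 0) + t * (if q.2 ∈ B then (1 : ℝ) else 0)
        + t * (if bad q.1 q.2 then (1 : ℝ) else 0) + ε * t * 1 := by
    intro q hq
    rw [mem_filter, mem_product, mem_range, mem_range] at hq
    obtain ⟨⟨h1, h2⟩, h3⟩ := hq
    have hs := (hS q.1 q.2).2
    have n1 : 0 ≤ t * (if q.1 ∈ B then (1 : ℝ) else 0) := by split_ifs <;> simp [ht]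
    have n2 : 0 ≤ t * (if q.2 ∈ B then (1 : ℝ) else 0) := by split_ifs <;> simp [ht]
    have n3 : 0 ≤ t * (if bad q.1 q.2 then (1 : ℝ) else 0) := by split_ifs <;> simp [ht]
    by_cases hb1 : q.1 ∈ B
    · rw [if_pos hb1]; linarith
    by_cases hb2 : q.2 ∈ B
    · rw [if_pos hb2]; linarith
    by_cases hb3 : bad q.1 q.2
    · rw [if_pos hb3]; linarith
    have := h q.1 h1 q.2 h2 h3 hb1 hb2 hb3
    linarith
  have h1 := pairSum_fst cls A Nc (C * A) (fun ν => if ν ∈ B then (1 : ℝ) else 0)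
    (fun ν => by split_ifs <;> norm_num) hcl
  have h2 := pairSum_snd cls A Nc (C * A) (fun ν => if ν ∈ B then (1 : ℝ) else 0)
    (fun ν => by split_ifs <;> norm_num) hcl
  have h4 := pairSum_fst cls A Nc (C * A) (fun _ => (1 : ℝ)) (fun _ => zero_le_one) hcl
  have h5 := pairSum_ind A εb B hB
  have hA : (0 : ℝ) ≤ A := Nat.cast_nonneg A
  have hCA : 0 ≤ C * A := mul_nonneg hC hA
  have h3 : (∑ q ∈ (range A ×ˢ range A).filter (fun q => cls q.1 = cls q.2),
      (if bad q.1 q.2 then (1 : ℝ) else 0)) * Nc ≤ A * (Cp * A) := by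
    rw [sum_filter, sum_product, sum_mul]
    have : (A : ℝ) * (Cp * A) = ∑ ν ∈ range A, Cp * A := by
      rw [sum_const, card_range, nsmul_eq_mul]
    rw [this]
    refine sum_le_sum fun ν _ => ?_
    refine le_trans (le_of_eq ?_) (hp ν)
    congr 1
    rw [← sum_filter, ← sum_filter, sum_const, nsmul_eq_mul, mul_one, filter_filter]
    congr 2
    refine filter_congr fun y _ => ?_
    exact and_congr_left fun _ => eq_comm
  have hsum := sum_le_sum key
  rw [sum_add_distrib, sum_add_distrib, sum_add_distrib, ← mul_sum, ← mul_sum, ← mul_sum,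
    ← mul_sum] at hsum
  have h6 : (∑ ν ∈ range A, (1 : ℝ)) = A := by simp
  rw [h6] at h4
  have h7 := mul_le_mul_of_nonneg_right hsum hNc.le
  have h8 := mul_le_mul_of_nonneg_right h5 hCA
  have e1 := mul_le_mul_of_nonneg_left (h1.trans h8) ht
  have e2 := mul_le_mul_of_nonneg_left (h2.trans h8) ht
  have e3 := mul_le_mul_of_nonneg_left h3 ht
  have e4 := mul_le_mul_of_nonneg_left h4 hεt
  refine h7.trans ?_
  nlinarith [e1, e2, e3, e4]

end Pool.Agent.Lib.MP_8fac0f_nt.Q4
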