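import Pool.Agent.Lib.MP_8fac0f_nt.Q4.Defs
import Pool.Agent.Lib.MP_8fac0f_nt.Q4.CLB
import Pool.Agent.Lib.MP_8fac0f_nt.Q4.CLB

/-!
# PoorPair: few pairs have a poor environment number

Proof. `m = 6000000 e - lam`, `W = lam + rho`, `K = m + W` (large `e`: `lam <= 6000000 e`). Fix `nu` and
`tau in Poor` and let `Th nu nu' = tau`. `Dl = (P nu' - P nu) mod 2 ^ K`, so `P nu' = P nu + Dl` modulo `2 ^ K`;
dividing by `2 ^ m`: `P nu' / 2 ^ m % 2 ^ W` is `(P nu / 2 ^ m + tau) % 2 ^ W` or `(P nu / 2 ^ m + tau + 1) % 2 ^ W`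
(carry from the digits below `m`). So the set is contained in the union over `tau in Poor` of two sets of the
form of `clb` with `kappa = cl nu`: `card * 2 ^ (..) <= 2 |Poor| 4 ^ 6 2 ^ (1999999 e)`.
`Dl_spec` is the defining property of `Dl`.
-/

set_option autoImplicit false

namespace Pool.Agent.Lib.MP_8fac0f_nt.Q4

open Finset Filter Topology
open Pool.Agent.Lib.MP_8fac0f_nt.C3 (di ex)

theorem Dl_spec (p : Co) (K ν ν' : ℕ) :
    Dl p K ν ν' < 2 ^ K ∧ ∃ z : ℤ, (p.P ν' : ℤ) - p.P ν = Dl p K ν ν' + z * 2 ^ K := by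
  have h2 : (0 : ℤ) < 2 ^ K := by positivity
  have h0 := Int.emod_nonneg ((p.P ν' : ℤ) - p.P ν) h2.ne'
  have h1 := Int.emod_lt_of_pos ((p.P ν' : ℤ) - p.P ν) h2
  have h3 : ((Dl p K ν ν' : ℕ) : ℤ) = ((p.P ν' : ℤ) - p.P ν) % 2 ^ K := by
    unfold Dl
    exact Int.toNat_of_nonneg h0
  refine ⟨?_, ((p.P ν' : ℤ) - p.P ν) / 2 ^ K, ?_⟩
  · have h4 : ((Dl p K ν ν' : ℕ) : ℤ) < ((2 ^ K : ℕ) : ℤ) := by
      rw [h3]; push_cast; exact h1
    exact_mod_cast h4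
  · rw [h3]
    have h5 := Int.emod_add_mul_ediv ((p.P ν' : ℤ) - p.P ν) (2 ^ K)
    linarith

theorem Th_lt (p : Co) (e lam ρ ν ν' : ℕ) (h : lam ≤ 6000000 * e) :
    Th p e lam ρ ν ν' < 2 ^ (lam + ρ) := by
  unfold Th
  apply Nat.div_lt_of_lt_mul
  rw [← pow_add, show 6000000 * e - lam + (lam + ρ) = 6000000 * e + ρ by omega]
  exact (Dl_spec p _ ν ν').1

private theorem mod_of_int {x y d K : ℕ} {z : ℤ} (h : (y : ℤ) - x = d + z * 2 ^ K) :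
    y % 2 ^ K = (x + d) % 2 ^ K := by
  have h1 : (y : ℤ) = ((x + d : ℕ) : ℤ) + z * ((2 ^ K : ℕ) : ℤ) := by
    push_cast
    linarith
  have h2 : (y : ℤ) % ((2 ^ K : ℕ) : ℤ) = ((x + d : ℕ) : ℤ) % ((2 ^ K : ℕ) : ℤ) := by
    rw [h1, Int.add_mul_emod_self_right]
  exact_mod_cast h2

private theorem win_add {x y d m W : ℕ} {z : ℤ} (h : (y : ℤ) - x = d + z * 2 ^ (m + W)) :
    y / 2 ^ m % 2 ^ W = (x / 2 ^ m + d / 2 ^ m) % 2 ^ W ∨
      y / 2 ^ m % 2 ^ W = (x / 2 ^ m + d / 2 ^ m + 1) % 2 ^ W := by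
  have h1 := mod_of_int h
  rw [pow_add] at h1
  have h2 : y / 2 ^ m % 2 ^ W = (x + d) / 2 ^ m % 2 ^ W := by
    rw [← Nat.mod_mul_right_div_self, ← Nat.mod_mul_right_div_self, h1]
  have h3 : (x + d) / 2 ^ m = x / 2 ^ m + d / 2 ^ m + if 2 ^ m ≤ x % 2 ^ m + d % 2 ^ m then 1 else 0 :=
    Nat.add_div (Nat.two_pow_pos m)
  rw [h2, h3]
  split_ifs
  · exact Or.inr rfl
  · exact Or.inl rfl

theorem poor_pair (p : Co) (ha : 1 ≤ p.a) (c lam ρ : ℕ) : ∀ᶠ e : ℕ in atTop,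
    ∀ (Poor : Finset ℕ) (ν : ℕ),
      ((range (2 ^ (1999999 * e))).filter fun ν' =>
        cl p c e ν' = cl p c e ν ∧ Th p e lam ρ ν ν' ∈ Poor).card
        * 2 ^ (13372 * e + 4 * c + (lam + ρ)) ≤ 2 * Poor.card * (4 ^ 6 * 2 ^ (1999999 * e)) := by
  filter_upwards [clb p ha c lam ρ, Filter.eventually_ge_atTop lam] with e he hle Poor ν
  have hlam : lam ≤ 6000000 * e := by omega
  obtain ⟨M, hM⟩ : ∃ M, M = 2 ^ (13372 * e + 4 * c + (lam + ρ)) := ⟨_, rfl⟩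
  obtain ⟨B, hB⟩ : ∃ B, B = 4 ^ 6 * 2 ^ (1999999 * e) := ⟨_, rfl⟩
  obtain ⟨m, hm⟩ : ∃ m, m = 6000000 * e - lam := ⟨_, rfl⟩
  obtain ⟨W, hW⟩ : ∃ W, W = lam + ρ := ⟨_, rfl⟩
  have hK : 6000000 * e + ρ = m + W := by omega
  have hS : ∀ t, ((range (2 ^ (1999999 * e))).filter fun ν' => cl p c e ν' = cl p c e ν ∧
      p.P ν' / 2 ^ m % 2 ^ W = t).card * M ≤ B := by
    intro t
    rw [hM, hB, hm, hW]
    exact he (cl p c e ν) t
  obtain ⟨S, hSd⟩ : ∃ S : ℕ → Finset ℕ, S = fun t => (range (2 ^ (1999999 * e))).filter fun ν' =>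
      cl p c e ν' = cl p c e ν ∧ p.P ν' / 2 ^ m % 2 ^ W = t := ⟨_, rfl⟩
  have hS' : ∀ t, (S t).card * M ≤ B := by
    intro t
    rw [hSd]
    exact hS t
  have hsub : ((range (2 ^ (1999999 * e))).filter fun ν' =>
      cl p c e ν' = cl p c e ν ∧ Th p e lam ρ ν ν' ∈ Poor) ⊆
      Poor.biUnion fun τ => S ((p.P ν / 2 ^ m + τ) % 2 ^ W) ∪
        S ((p.P ν / 2 ^ m + τ + 1) % 2 ^ W) := by
    intro ν' hν'
    rw [mem_filter] at hν'
    obtain ⟨h1, h2, h3⟩ := hν'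
    rw [mem_biUnion]
    refine ⟨_, h3, ?_⟩
    obtain ⟨-, z, hz⟩ := Dl_spec p (m + W) ν ν'
    have h4 := win_add hz
    have h5 : Th p e lam ρ ν ν' = Dl p (m + W) ν ν' / 2 ^ m := by
      unfold Th
      rw [hK, ← hm]
    rw [h5, mem_union, hSd]
    rcases h4 with h4 | h4
    · left
      exact mem_filter.2 ⟨h1, h2, h4⟩
    · right
      exact mem_filter.2 ⟨h1, h2, h4⟩
  rw [← hM, ← hB]
  refine (Nat.mul_le_mul_right M ((card_le_card hsub).trans card_biUnion_le)).trans ?_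
  rw [sum_mul]
  calc ∑ τ ∈ Poor, (S ((p.P ν / 2 ^ m + τ) % 2 ^ W) ∪ S ((p.P ν / 2 ^ m + τ + 1) % 2 ^ W)).card * M
      ≤ ∑ _τ ∈ Poor, 2 * B := by
        refine sum_le_sum fun τ _ => ?_
        refine (Nat.mul_le_mul_right M (card_union_le _ _)).trans ?_
        rw [add_mul, two_mul]
        exact Nat.add_le_add (hS' _) (hS' _)
    _ = 2 * Poor.card * B := by
        rw [sum_const, smul_eq_mul]
        ring

end Pool.Agent.Lib.MP_8fac0f_nt.Q4
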