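import Pool.Agent.Lib.MP_8fac0f_nt.Q4.Defs
import Pool.Agent.Lib.MP_8fac0f_nt.C3.LP

/-!
# S1: the extra average over `y`

Proof. `range (A * V)` is the set of the `nu + A v`, `nu < A`, `v < V`, so for each `y` the inner
double sum is `sum_(n < A V) F (n + y)`, and
`|sum_(n < N) F n - sum_(n < N) F (n + y)| <= 2 y <= 2 Y` (`C3.lp_shift`). Sum over `y < Y`.
-/

set_option autoImplicit false

namespace Pool.Agent.Lib.MP_8fac0f_nt.Q4

open Finset Filter Topology
open Pool.Agent.Lib.MP_8fac0f_nt.C3 (di ex)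

private theorem s1_split (A V : ℕ) (f : ℕ → ℝ) :
    ∑ v ∈ range V, ∑ ν ∈ range A, f (ν + A * v) = ∑ n ∈ range (A * V), f n := by
  induction V with
  | zero => simp
  | succ V ih =>
    rw [sum_range_succ, ih, Nat.mul_succ, sum_range_add]
    congr 1
    exact sum_congr rfl fun ν _ => by rw [add_comm]

theorem s1 (F : ℕ → ℝ) (hF : ∀ n, |F n| ≤ 1) (A V Y : ℕ) :
    |∑ n ∈ range (A * V), F n| * Y
      ≤ |∑ y ∈ range Y, ∑ v ∈ range V, ∑ ν ∈ range A, F (ν + y + A * v)| + 2 * Y ^ 2 := by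
  have h1 : ∀ y : ℕ, ∑ v ∈ range V, ∑ ν ∈ range A, F (ν + y + A * v)
      = ∑ n ∈ range (A * V), F (n + y) := by
    intro y
    rw [← s1_split A V (fun n => F (n + y))]
    refine sum_congr rfl fun v _ => sum_congr rfl fun ν _ => ?_
    congr 1
    ring
  simp only [h1]
  have h2 : ∀ y ∈ range Y,
      |∑ n ∈ range (A * V), F n - ∑ n ∈ range (A * V), F (n + y)| ≤ 2 * (Y : ℝ) := by
    intro y hy
    have h3 := C3.lp_shift F hF (A * V) y
    have h4 : (y : ℝ) ≤ Y := by exact_mod_cast (mem_range.mp hy).le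
    linarith
  have h5 : (Y : ℝ) * ∑ n ∈ range (A * V), F n
      = ∑ y ∈ range Y, ∑ n ∈ range (A * V), F (n + y)
        + ∑ y ∈ range Y, (∑ n ∈ range (A * V), F n - ∑ n ∈ range (A * V), F (n + y)) := by
    rw [sum_sub_distrib, sum_const, card_range, nsmul_eq_mul]
    ring
  have h6 : |∑ y ∈ range Y, (∑ n ∈ range (A * V), F n - ∑ n ∈ range (A * V), F (n + y))|
      ≤ 2 * (Y : ℝ) ^ 2 := by
    refine (abs_sum_le_sum_abs _ _).trans ?_
    refine (sum_le_sum h2).trans ?_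
    rw [sum_const, card_range, nsmul_eq_mul]
    apply le_of_eq
    ring
  have h7 : |∑ n ∈ range (A * V), F n| * Y = |(Y : ℝ) * ∑ n ∈ range (A * V), F n| := by
    rw [abs_mul, abs_of_nonneg (by positivity : (0 : ℝ) ≤ (Y : ℝ))]
    ring
  rw [h7, h5]
  exact (abs_add_le _ _).trans (by linarith)

end Pool.Agent.Lib.MP_8fac0f_nt.Q4
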