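import Pool.Agent.Lib.MP_8fac0f_nt.Q4.PAIR
import Pool.Agent.Lib.MP_8fac0f_nt.Q4.S1
import Pool.Agent.Lib.MP_8fac0f_nt.Q4.CSC
import Pool.Agent.Lib.MP_8fac0f_nt.Q4.PairSum
import Pool.Agent.Lib.MP_8fac0f_nt.Q4.CLB
import Pool.Agent.Lib.MP_8fac0f_nt.Q4.PoorPair
import Pool.Agent.Lib.MP_8fac0f_nt.Q4.POOR

/-!
# QUA: the truncated correlations along a quartic polynomial tend to zero

`pair` with `κ0 E = 2 ^ (2000000 * E)` and a small `ε'` (`(2 C ε' + 2 C ε' + C ε') ≤ ε ^ 2 / 16`, `C = 4 ^ 6`); `l1` from `poor` with `l2` and `ε'`;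
`l = log2 N / (2000000 E)`, `e = E l`, `V = N / 2 ^ (1999999 e)`: `2 ^ (2000000 e) ≤ N < 2 ^ (2000000 e + 2000000 E)`. The rest
`N - 2 ^ (1999999 e) V < 2 ^ (1999999 e)` is negligible. `s1` with `A = 2 ^ (1999999 e)`, `Y = 2 ^ (950 e)`, `F = FF`; `csc` with `I = ℕ × ℕ`,
`J = range Y ×ˢ range V`, `cls = cl p c e`, `s = clS c e` (`card_clS`); `pair_sum` with `S = |sum|`, `t = Y V`, `Nc = 2 ^ (13372 e + 4 c)`, `B = bad`,
`bad ν ν'` = `Th` is poor, `Cp = 2 ε' 4 ^ 6` (`poor_pair`, `poor`), `hcl` from `clb0`.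
So `(sum) ^ 2 Y ^ 2 ≤ ..`: `|sum_{n < 2^j V}| ≤ sqrt(5 C ε') 2 ^ j V + 2 Y`.
-/

set_option autoImplicit false

namespace Pool.Agent.Lib.MP_8fac0f_nt.Q4

open Finset Filter Topology
open Pool.Agent.Lib.MP_8fac0f_nt.N (sg abs_sg)
open Pool.Agent.Lib.MP_8fac0f_nt.C3 (di ex)

private theorem qua_fin {T : Type} [DecidableEq T] (F : ℕ → ℝ) (hF : ∀ n, |F n| ≤ 1)
    (A V Y : ℕ) (hY : 0 < Y) (cls : ℕ → T) (s : Finset T) (Nc : ℝ) (hNc : 0 < Nc)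
    (hs : (s.card : ℝ) = Nc) (hcl : ∀ ν < A, cls ν ∈ s) (σ ε : ℝ) (hσ : 0 ≤ σ) (hε : 0 < ε)
    (hσε : 5 * 4 ^ 6 * σ ≤ (ε / 2) ^ 2) (B : Finset ℕ) (hB : (B.card : ℝ) ≤ σ * A)
    (bad : ℕ → ℕ → Prop) [∀ ν, DecidablePred (bad ν)]
    (h1 : ∀ κ, (((range A).filter fun ν' => cls ν' = κ).card : ℝ) * Nc ≤ 4 ^ 6 * A)
    (h2 : ∀ ν, (((range A).filter fun ν' => cls ν' = cls ν ∧ bad ν ν').card : ℝ) * Nc
      ≤ 2 * σ * 4 ^ 6 * A)
    (h3 : ∀ ν < A, ∀ ν' < A, cls ν = cls ν' → ν ∉ B → ν' ∉ B → ¬ bad ν ν' →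
      |∑ y ∈ range Y, ∑ v ∈ range V, F (ν + y + A * v) * F (ν' + y + A * v)| ≤ σ * (Y * V)) :
    |∑ n ∈ range (A * V), F n| ≤ ε / 2 * (A * V) + 2 * Y := by
  have hYr : (0 : ℝ) < Y := by exact_mod_cast hY
  have hFF : ∀ n m, |F n * F m| ≤ 1 := by
    intro n m
    rw [abs_mul]
    exact mul_le_one₀ (hF _) (abs_nonneg _) (hF _)
  have hJ : ((range Y ×ˢ range V).card : ℝ) = Y * V := by
    rw [card_product, card_range, card_range]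
    push_cast
    rfl
  have hcsc := csc cls s A hcl (range Y ×ˢ range V) fun i ν => F (ν + i.1 + A * i.2)
  have hps := pair_sum cls A Nc (4 ^ 6) (2 * σ * 4 ^ 6) σ σ (Y * V) hNc (by positivity)
    (by positivity) hσ (by positivity)
    (fun ν ν' => |∑ i ∈ range Y ×ˢ range V, F (ν + i.1 + A * i.2) * F (ν' + i.1 + A * i.2)|)
    (by
      intro ν ν'
      refine ⟨abs_nonneg _, ?_⟩
      refine (abs_sum_le_sum_abs _ _).trans ?_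
      refine (sum_le_sum (g := fun _ => (1 : ℝ)) fun i _ => hFF _ _).trans_eq ?_
      rw [sum_const, nsmul_eq_mul, mul_one, hJ]) B hB bad h1 h2 (by
      intro ν hν ν' hν' hc hb hb' hbad
      have := h3 ν hν ν' hν' hc hb hb' hbad
      rw [← sum_product'] at this
      exact this)
  set X := ∑ i ∈ range Y ×ˢ range V, ∑ ν ∈ range A, F (ν + i.1 + A * i.2) with hX
  set Q := ∑ q ∈ (range A ×ˢ range A).filter (fun q => cls q.1 = cls q.2),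
    |∑ i ∈ range Y ×ˢ range V, F (q.1 + i.1 + A * i.2) * F (q.2 + i.1 + A * i.2)| with hQ
  have h4 : X ^ 2 ≤ (ε / 2 * (Y * V * A)) ^ 2 := by
    calc X ^ 2 ≤ ((range Y ×ˢ range V).card : ℝ) * s.card * Q := hcsc
      _ = Y * V * (Q * Nc) := by rw [hJ, hs]; ring
      _ ≤ Y * V * ((2 * 4 ^ 6 * σ + 2 * σ * 4 ^ 6 + 4 ^ 6 * σ) * (Y * V) * A ^ 2) :=
          mul_le_mul_of_nonneg_left hps (by positivity)
      _ = (5 * 4 ^ 6 * σ) * (Y * V * A) ^ 2 := by ring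
      _ ≤ (ε / 2) ^ 2 * (Y * V * A) ^ 2 := mul_le_mul_of_nonneg_right hσε (sq_nonneg _)
      _ = (ε / 2 * (Y * V * A)) ^ 2 := by ring
  have h5 : |X| ≤ ε / 2 * (Y * V * A) := abs_le_of_sq_le_sq h4 (by positivity)
  have h6 := s1 F hF A V Y
  have h7 : ∑ y ∈ range Y, ∑ v ∈ range V, ∑ ν ∈ range A, F (ν + y + A * v) = X := by
    rw [hX, sum_product]
  rw [h7] at h6
  have h8 : |∑ n ∈ range (A * V), F n| * Y ≤ (ε / 2 * (A * V) + 2 * Y) * Y := by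
    refine h6.trans ?_
    have : (ε / 2 * (A * V) + 2 * Y) * (Y : ℝ) = ε / 2 * (Y * V * A) + 2 * Y ^ 2 := by ring
    rw [this]
    linarith
  exact le_of_mul_le_mul_right h8 hYr

private theorem qua_ev (C : ℝ) : ∀ᶠ e : ℕ in atTop, C ≤ (2 : ℝ) ^ e :=
  (tendsto_pow_atTop_atTop_of_one_lt (by norm_num : (1 : ℝ) < 2)).eventually_ge_atTop _

/-- `Th` is a number of `lam + ρ` digits -/
private theorem qua_Th_lt (p : Co) (e lam ρ ν ν' : ℕ) (h : lam ≤ 6000000 * e) :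
    Th p e lam ρ ν ν' < 2 ^ (lam + ρ) := by
  unfold Th Dl
  rw [Nat.div_lt_iff_lt_mul (by positivity), ← pow_add,
    show lam + ρ + (6000000 * e - lam) = 6000000 * e + ρ by omega]
  have h1 : (0 : ℤ) < 2 ^ (6000000 * e + ρ) := by positivity
  have h2 := Int.emod_lt_of_pos ((p.P ν' : ℤ) - p.P ν) h1
  have h3 := Int.emod_nonneg ((p.P ν' : ℤ) - p.P ν) h1.ne'
  zify
  rw [Int.toNat_of_nonneg h3]
  exact h2

/-- The finite part for one `N`. -/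
private theorem qua_N (p : Co) (U : Finset ℕ) (c e lam ρ l1 l0 y0 l2 W V : ℕ) (σ ε : ℝ)
    (hW : lam + ρ = W) (hσ : 0 ≤ σ) (hε : 0 < ε) (hσε : 5 * 4 ^ 6 * σ ≤ (ε / 2) ^ 2)
    (hlam : lam ≤ 6000000 * e)
    (hclb : ∀ κ : ℕ × ℕ × ℕ × ℕ × ℕ × ℕ,
      ((range (2 ^ (1999999 * e))).filter fun ν => cl p c e ν = κ).card
        * 2 ^ (13372 * e + 4 * c) ≤ 4 ^ 6 * 2 ^ (1999999 * e))
    (hpp : ∀ (Poor : Finset ℕ) (ν : ℕ),
      ((range (2 ^ (1999999 * e))).filter fun ν' =>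
        cl p c e ν' = cl p c e ν ∧ Th p e lam ρ ν ν' ∈ Poor).card
        * 2 ^ (13372 * e + 4 * c + (lam + ρ)) ≤ 2 * Poor.card * (4 ^ 6 * 2 ^ (1999999 * e)))
    (hpoor : ((((range (2 ^ W)).filter fun τ =>
        ((range l1).filter fun i => τ / 2 ^ (i * l0) % 2 ^ l0 = y0).card < l2).card : ℕ) : ℝ)
        ≤ σ * 2 ^ W)
    (B : Finset ℕ) (hB : (B.card : ℝ) ≤ σ * 2 ^ (1999999 * e))
    (hpair : ∀ ν ν' : ℕ, ν < 2 ^ (1999999 * e) → ν' < 2 ^ (1999999 * e) → ν ∉ B → ν' ∉ B →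
      cl p c e ν = cl p c e ν' →
      l2 ≤ ((range l1).filter fun i =>
        Th p e lam ρ ν ν' / 2 ^ (i * l0) % 2 ^ l0 = y0).card →
      |∑ y ∈ range (2 ^ (950 * e)), ∑ v ∈ range V,
        FF p U ρ e (ν + y + 2 ^ (1999999 * e) * v)
          * FF p U ρ e (ν' + y + 2 ^ (1999999 * e) * v)|
        ≤ σ * 2 ^ (950 * e) * V) :
    |∑ n ∈ range (2 ^ (1999999 * e) * V), FF p U ρ e n|
      ≤ ε / 2 * (2 ^ (1999999 * e) * V) + 2 * 2 ^ (950 * e) := by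
  classical
  obtain ⟨A, hA⟩ : ∃ A : ℕ, A = 2 ^ (1999999 * e) := ⟨_, rfl⟩
  obtain ⟨Y, hY⟩ : ∃ Y : ℕ, Y = 2 ^ (950 * e) := ⟨_, rfl⟩
  obtain ⟨Nc, hNc⟩ : ∃ Nc : ℕ, Nc = 2 ^ (13372 * e + 4 * c) := ⟨_, rfl⟩
  have hAr : (A : ℝ) = 2 ^ (1999999 * e) := by rw [hA]; push_cast; rfl
  have hYr : (Y : ℝ) = 2 ^ (950 * e) := by rw [hY]; push_cast; rfl
  have hY0 : 0 < Y := hY ▸ Nat.pos_of_ne_zero (by positivity)
  have hNc0 : 0 < Nc := hNc ▸ Nat.pos_of_ne_zero (by positivity)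
  have hF : ∀ n, |FF p U ρ e n| ≤ 1 := fun n => PAIR0_abs_prod _ _ fun _ _ => (abs_sg _).le
  set Poor := (range (2 ^ W)).filter fun τ =>
    ((range l1).filter fun i => τ / 2 ^ (i * l0) % 2 ^ l0 = y0).card < l2 with hPoor
  rw [← hAr, ← hYr, ← hA]
  rw [← hAr] at hB
  refine qua_fin (FF p U ρ e) hF A V Y hY0 (fun ν => cl p c e ν) (clS c e) Nc
    (by exact_mod_cast hNc0) (by rw [card_clS, hNc]) (fun ν hν => cl_mem p c e ν (hA ▸ hν))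
    σ ε hσ hε hσε B hB (fun ν ν' => Th p e lam ρ ν ν' ∈ Poor) ?_ ?_ ?_
  · intro κ
    have h1 := hclb κ
    rw [← hA, ← hNc] at h1
    exact_mod_cast h1
  · intro ν
    have h1 := hpp Poor ν
    rw [pow_add, ← hA, ← hNc, hW] at h1
    have h2 : (((range A).filter fun ν' =>
        cl p c e ν' = cl p c e ν ∧ Th p e lam ρ ν ν' ∈ Poor).card : ℝ) * (Nc * 2 ^ W) ≤
        2 * Poor.card * (4 ^ 6 * A) := by exact_mod_cast h1
    have h3 : (2 : ℝ) * Poor.card * (4 ^ 6 * A) ≤ 2 * (σ * 2 ^ W) * (4 ^ 6 * A) :=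
      mul_le_mul_of_nonneg_right (mul_le_mul_of_nonneg_left hpoor (by norm_num)) (by positivity)
    have h4 : (((range A).filter fun ν' =>
        cl p c e ν' = cl p c e ν ∧ Th p e lam ρ ν ν' ∈ Poor).card : ℝ) * Nc * 2 ^ W ≤
        2 * σ * 4 ^ 6 * A * 2 ^ W := by linarith
    exact le_of_mul_le_mul_right h4 (by positivity)
  · intro ν hν ν' hν' hc hb hb' hbad
    have h1 := hpair ν ν' (hA ▸ hν) (hA ▸ hν') hb hb' hc (by
      by_contra hcon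
      apply hbad
      rw [hPoor, mem_filter, mem_range, ← hW]
      exact ⟨qua_Th_lt p e lam ρ ν ν' hlam, not_le.1 hcon⟩)
    rw [← hA, ← hY, ← hYr] at h1
    rw [← mul_assoc]
    exact h1

theorem qua (p : Co) (ha : 1 ≤ p.a) (U : Finset ℕ) (hU : U.Nonempty) (ε : ℝ) (hε : 0 < ε) :
    ∃ E l0 : ℕ, 1 ≤ E ∧ 1 ≤ l0 ∧ ∀ r0 : ℕ, ∀ᶠ N : ℕ in atTop,
      |∑ n ∈ range N, ∏ u ∈ U, sg (p.P (n + u)
        % 2 ^ (6000000 * (E * (Nat.log 2 N / (2000000 * E))) + r0 * l0))| ≤ ε * N := by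
  classical
  obtain ⟨σ, hσ, hσε⟩ : ∃ σ : ℝ, 0 < σ ∧ 5 * 4 ^ 6 * σ ≤ (ε / 2) ^ 2 :=
    ⟨(ε / 2) ^ 2 / (5 * 4 ^ 6), by positivity, by field_simp; exact le_rfl⟩
  obtain ⟨E, l0, y0, l2, hE, hl0, hy0, hpair⟩ :=
    pair p ha U hU (fun E => 2 ^ (2000000 * E)) σ hσ
  refine ⟨E, l0, hE, hl0, fun r0 => ?_⟩
  obtain ⟨l1, hpoor⟩ := poor l0 y0 l2 hy0 σ hσ
  obtain ⟨L1, hL1⟩ : ∃ L1, L1 = max l1 1 := ⟨_, rfl⟩
  have hpoor := hpoor L1 (hL1 ▸ le_max_left _ _) r0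
  obtain ⟨c, hpair⟩ := hpair L1 r0 (hL1 ▸ le_max_right _ _)
  obtain ⟨lam, hlam⟩ : ∃ lam, lam = L1 * l0 := ⟨_, rfl⟩
  obtain ⟨ρ, hρ⟩ : ∃ ρ, ρ = r0 * l0 := ⟨_, rfl⟩
  obtain ⟨W, hW⟩ : ∃ W, W = (L1 + r0) * l0 := ⟨_, rfl⟩
  have hlW : lam + ρ = W := by rw [hlam, hρ, hW]; ring
  rw [← hW] at hpoor
  simp only [← hlam, ← hρ] at hpair ⊢
  obtain ⟨G, hG⟩ : ∃ G, G = 2000000 * E := ⟨_, rfl⟩
  have hG0 : 0 < G := by omega
  obtain ⟨e1, hclb⟩ := eventually_atTop.1 (clb0 p ha c)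
  obtain ⟨e2, hpp⟩ := eventually_atTop.1 (poor_pair p ha c lam ρ)
  obtain ⟨q3, hpair⟩ := eventually_atTop.1 hpair
  obtain ⟨e4, hev⟩ := eventually_atTop.1 (qua_ev (6 / ε))
  obtain ⟨q0, hq0⟩ : ∃ q0, q0 = e1 + e2 + q3 + e4 + lam + 1 := ⟨_, rfl⟩
  refine eventually_atTop.2 ⟨2 ^ (G * q0), fun N hN => ?_⟩
  have hNpos : 0 < N := lt_of_lt_of_le (Nat.pos_of_ne_zero (by positivity)) hN
  have hNr : (0 : ℝ) < N := by exact_mod_cast hNpos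
  rw [← hG]
  obtain ⟨q, hq⟩ : ∃ q, q = Nat.log 2 N / G := ⟨_, rfl⟩
  rw [← hq]
  have hqq : q0 ≤ q := by
    rw [hq, Nat.le_div_iff_mul_le hG0, mul_comm]
    exact Nat.le_log_of_pow_le (by norm_num) hN
  obtain ⟨e, he⟩ : ∃ e, e = E * q := ⟨_, rfl⟩
  rw [← he]
  have hqe : q ≤ e := he ▸ Nat.le_mul_of_pos_left q hE
  have hGq : G * q = 2000000 * e := by rw [hG, he]; ring
  have hN1 : 2 ^ (2000000 * e) ≤ N := by
    rw [← hGq]
    refine (Nat.pow_le_pow_right (by norm_num) ?_).trans (Nat.pow_log_le_self 2 hNpos.ne')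
    rw [hq]
    exact Nat.mul_div_le _ _
  have hN2 : N < 2 ^ (2000000 * e + G) := by
    rw [← hGq]
    refine (Nat.lt_pow_succ_log_self (b := 2) (by norm_num) N).trans_le ?_
    refine Nat.pow_le_pow_right (by norm_num) ?_
    have := Nat.lt_mul_div_succ (Nat.log 2 N) hG0
    rw [← hq, Nat.mul_succ] at this
    exact this
  obtain ⟨A, hA⟩ : ∃ A : ℕ, A = 2 ^ (1999999 * e) := ⟨_, rfl⟩
  have hA0 : 0 < A := hA ▸ Nat.pos_of_ne_zero (by positivity)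
  have hAe : A * 2 ^ e = 2 ^ (2000000 * e) := by rw [hA, ← pow_add]; congr 1; ring
  obtain ⟨V, hV⟩ : ∃ V : ℕ, V = N / A := ⟨_, rfl⟩
  have hV1 : 2 ^ e ≤ V := by
    rw [hV, Nat.le_div_iff_mul_le hA0, mul_comm, hAe]
    exact hN1
  have hV2 : V ≤ 2 ^ (2000000 * E) * 2 ^ e := by
    rw [hV, ← hG]
    refine (Nat.div_lt_of_lt_mul ?_).le
    rw [mul_comm (2 ^ G), ← mul_assoc, hAe, ← pow_add]
    exact hN2
  obtain ⟨B, hB, hpair⟩ := hpair q (by omega) e V he hV1 hV2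
  have hfin := qua_N p U c e lam ρ L1 l0 y0 l2 W V σ ε hlW hσ.le hε hσε (by omega)
    (hclb e (by omega)) (hpp e (by omega)) hpoor B hB hpair
  rw [← hA] at hfin
  have hAV : A * V ≤ N := hV ▸ Nat.mul_div_le N A
  have hrest : N - A * V ≤ A := by
    have := Nat.lt_mul_div_succ N hA0
    rw [← hV, Nat.mul_succ] at this
    omega
  have hsplit : ∑ n ∈ range N, FF p U ρ e n = ∑ n ∈ range (A * V), FF p U ρ e n +
      ∑ n ∈ range (N - A * V), FF p U ρ e (A * V + n) := by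
    rw [← sum_range_add, Nat.add_sub_cancel' hAV]
  have hrest2 : |∑ n ∈ range (N - A * V), FF p U ρ e (A * V + n)| ≤ A := by
    refine (abs_sum_le_sum_abs _ _).trans ?_
    refine (sum_le_sum (g := fun _ => (1 : ℝ)) fun i _ =>
      PAIR0_abs_prod _ _ fun _ _ => (abs_sg _).le).trans ?_
    rw [sum_const, card_range, nsmul_eq_mul, mul_one]
    exact_mod_cast hrest
  have hAr : (A : ℝ) = 2 ^ (1999999 * e) := by rw [hA]; push_cast; rfl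
  have hYA : (2 : ℝ) ^ (950 * e) ≤ A := by
    rw [hAr]
    exact pow_le_pow_right₀ (by norm_num) (by omega)
  have hAN : (3 : ℝ) * A ≤ ε / 2 * N := by
    have h1 := hev e (by omega)
    rw [div_le_iff₀ hε] at h1
    have h2 : (A : ℝ) * 2 ^ e ≤ N := by exact_mod_cast hAe ▸ hN1
    have h3 : (A : ℝ) * 6 ≤ A * (2 ^ e * ε) :=
      mul_le_mul_of_nonneg_left h1 (Nat.cast_nonneg _)
    have h4 : (A : ℝ) * 2 ^ e * ε ≤ N * ε := mul_le_mul_of_nonneg_right h2 hε.le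
    linarith
  have hAVr : (A : ℝ) * V ≤ N := by exact_mod_cast hAV
  have hAVε : ε / 2 * ((A : ℝ) * V) ≤ ε / 2 * N :=
    mul_le_mul_of_nonneg_left hAVr (by positivity)
  have hgoal : |∑ n ∈ range N, FF p U ρ e n| ≤ ε * N := by
    rw [hsplit]
    refine (abs_add_le _ _).trans ?_
    rw [← hAr] at hfin
    linarith
  exact hgoal

end Pool.Agent.Lib.MP_8fac0f_nt.Q4
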