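import Pool.Agent.Lib.MP_8fac0f_nt.C3.Lin
import Pool.Agent.Lib.MP_8fac0f_nt.Q4.Defs

/-!
# Row SL1: sublevel sets of linear functions modulo one
-/

set_option autoImplicit false

namespace Pool.Agent.Lib.MP_8fac0f_nt.Q4

open Finset
open Pool.Agent.Lib.MP_8fac0f_nt.C3 (di ex)

private theorem sl1_pos (A B η : ℝ) (N : ℕ) (hA : 0 < A) (h0 : 0 ≤ η) (hη : η ≤ 1 / 2) :
    (((range N).filter fun n : ℕ => di (A * n + B) ≤ η).card : ℝ)
      ≤ (A * N + 2) * (2 * η / A + 1) := by
  rcases N with _ | I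
  · simp only [range_zero, filter_empty, card_empty, Nat.cast_zero, mul_zero, zero_add]
    positivity
  · have h1 := C3.lin_one B A η I hA h0 hη
    have h2 : ((range (I + 1)).filter fun n : ℕ => di (A * n + B) ≤ η)
        = (range (I + 1)).filter fun i : ℕ => di (B + i * A) ≤ η := by
      refine Finset.filter_congr fun n _ => ?_
      rw [show A * n + B = B + n * A by ring]
    rw [h2]
    refine h1.trans ?_
    refine mul_le_mul_of_nonneg_right ?_ (by positivity)
    push_cast
    nlinarith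

theorem sl1_gen (A B η : ℝ) (N : ℕ) (hA : A ≠ 0) (h0 : 0 ≤ η) :
    (((range N).filter fun n : ℕ => di (A * n + B) ≤ η).card : ℝ)
      ≤ (|A| * N + 2) * (2 * η / |A| + 1) := by
  have hA0 : 0 < |A| := abs_pos.2 hA
  by_cases hη : η ≤ 1 / 2
  · rcases lt_or_gt_of_ne hA with h1 | h1
    · have h2 := sl1_pos (-A) (-B) η N (by linarith) h0 hη
      have h3 : ((range N).filter fun n : ℕ => di (A * n + B) ≤ η)
          = (range N).filter fun n : ℕ => di (-A * n + -B) ≤ η := by
        refine Finset.filter_congr fun n _ => ?_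
        rw [show -A * (n : ℝ) + -B = -(A * n + B) by ring, C3.di_neg]
      rw [h3, abs_of_neg h1]
      exact h2
    · rw [abs_of_pos h1]
      exact sl1_pos A B η N h1 h0 hη
  · have hη' : 1 / 2 < η := not_le.1 hη
    have h1 : (((range N).filter fun n : ℕ => di (A * n + B) ≤ η).card : ℝ) ≤ N := by
      exact_mod_cast (Finset.card_filter_le _ _).trans (card_range N).le
    have h2 : (N : ℝ) ≤ (|A| * N) * (2 * η / |A|) := by
      have h3 : (|A| * N) * (2 * η / |A|) = 2 * η * N := by
        field_simp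
      rw [h3]
      have h4 : (0 : ℝ) ≤ N := Nat.cast_nonneg N
      nlinarith
    have h5 : (0 : ℝ) ≤ |A| * N := by positivity
    have h6 : 0 ≤ 2 * η / |A| := by positivity
    nlinarith

theorem sl1 (A B η : ℝ) (N : ℕ) (h0 : 0 ≤ η) (h1 : 1 ≤ |A| * N) (h2 : |A| ≤ η) :
    (((range N).filter fun n : ℕ => di (A * n + B) ≤ η).card : ℝ) ≤ 9 * η * N := by
  have hA : A ≠ 0 := by
    rintro rfl
    rw [abs_zero, zero_mul] at h1
    linarith
  have hA0 : 0 < |A| := abs_pos.2 hA
  refine (sl1_gen A B η N hA h0).trans ?_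
  have h3 : |A| * N + 2 ≤ 3 * (|A| * N) := by linarith
  have h4 : 2 * η / |A| + 1 ≤ 3 * η / |A| := by
    have : 1 ≤ η / |A| := (one_le_div hA0).2 h2
    have h5 : 2 * η / |A| = 2 * (η / |A|) := by ring
    have h6 : 3 * η / |A| = 3 * (η / |A|) := by ring
    rw [h5, h6]
    linarith
  have h5 : 0 ≤ 2 * η / |A| + 1 := by positivity
  calc (|A| * N + 2) * (2 * η / |A| + 1) ≤ (3 * (|A| * N)) * (3 * η / |A|) :=
        mul_le_mul h3 h4 h5 (by positivity)
    _ = 9 * η * N := by
        field_simp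
        ring

end Pool.Agent.Lib.MP_8fac0f_nt.Q4
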