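import Pool.Agent.Lib.MP_8fac0f_nt.Q4.SL1

/-!
# Row SL2: sublevel sets of quadratic functions modulo one

PROOF IN WORDS.
`pair_count` (also used for SL3): for a finset `S ⊆ range N`, `|S| ^ 2 ≤ 2 ∑_{h<N} |S_h|`,
`S_h = {n ∈ S : n + h ∈ S}`.  Every pair `(n, n') ∈ S × S` has `n ≤ n'` or `n' ≤ n`; the pairs with
`n ≤ n'` are in bijection with the pairs `(h, n)`, `h = n' - n < N`, `n ∈ S_h`; the pairs with
`n' ≤ n` are as many.

`sl2`: let `η = th ^ 4`, `S` the set.  From `hA1`, `hA2`: `1 ≤ N * (|A| N) ≤ η N` (so `N ≥ 1`).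
For `n ∈ S_h` both `A n² + B n + C` and `A (n+h)² + B (n+h) + C` are within `η` of an integer, so
the difference `2 A h n + (A h² + B h)` is within `2 η`: `S_h ⊆ {n < N : di (2 A h n + c_h) ≤ 2 η}`,
and by `sl1_gen`, for `h ≥ 1`, `|S_h| ≤ (2 |A| h N + 2) (4 η / (2 |A| h) + 1)
= 4 η N + 2 |A| h N + 4 η / (|A| h) + 2`.
If `h ≥ th² N`: `2 |A| h N ≤ 2 η N` (`h ≤ N`, `|A| N ≤ η`),
`4 η / (|A| h) ≤ 4 η N² / h ≤ 4 th² N` (`1 / |A| ≤ N²`), `2 ≤ 2 η N`; so
`|S_h| ≤ 8 th⁴ N + 4 th² N ≤ 12 th² N`.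
There are at most `th² N + 1 ≤ 2 th² N` values `h < th² N`, each with `|S_h| ≤ N`.
Total: `|S|² ≤ 2 (2 th² N · N + N · 12 th² N) = 28 th² N² ≤ (6 th N)²`.
-/

set_option autoImplicit false

namespace Pool.Agent.Lib.MP_8fac0f_nt.Q4

open Finset
open Pool.Agent.Lib.MP_8fac0f_nt.C3 (di ex)

theorem pair_count (S : Finset ℕ) (N : ℕ) (hS : ∀ n ∈ S, n < N) :
    S.card ^ 2 ≤ 2 * ∑ h ∈ range N, (S.filter fun n : ℕ => n + h ∈ S).card := by
  classical
  have h1 : (S ×ˢ S).card ≤ ((S ×ˢ S).filter fun p : ℕ × ℕ => p.1 ≤ p.2).card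
      + ((S ×ˢ S).filter fun p : ℕ × ℕ => p.2 ≤ p.1).card := by
    rw [← Finset.card_union_add_card_inter]
    refine le_trans (Finset.card_le_card fun p hp => ?_) (Nat.le_add_right _ _)
    rw [mem_union, mem_filter, mem_filter]
    rcases le_total p.1 p.2 with h | h
    · exact Or.inl ⟨hp, h⟩
    · exact Or.inr ⟨hp, h⟩
  have h2 : ((S ×ˢ S).filter fun p : ℕ × ℕ => p.1 ≤ p.2).card
      ≤ ((range N).sigma fun h => S.filter fun n : ℕ => n + h ∈ S).card := by
    refine Finset.card_le_card_of_injOn (fun p => ⟨p.2 - p.1, p.1⟩) (fun p hp => ?_) fun p hp p' hp' h => ?_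
    · have hp1 := mem_filter.1 (Finset.mem_coe.1 hp)
      have hp2 := mem_product.1 hp1.1
      rw [Finset.mem_coe, mem_sigma, mem_range, mem_filter]
      have h3 := hS _ hp2.2
      refine ⟨by show p.2 - p.1 < N; omega, hp2.1, ?_⟩
      show p.1 + (p.2 - p.1) ∈ S
      rw [Nat.add_sub_cancel' hp1.2]
      exact hp2.2
    · have hp1 := (mem_filter.1 (Finset.mem_coe.1 hp)).2
      have hp1' := (mem_filter.1 (Finset.mem_coe.1 hp')).2
      simp only [Sigma.mk.injEq, heq_eq_eq] at h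
      refine Prod.ext h.2 ?_
      omega
  have h3 : ((S ×ˢ S).filter fun p : ℕ × ℕ => p.2 ≤ p.1).card
      ≤ ((S ×ˢ S).filter fun p : ℕ × ℕ => p.1 ≤ p.2).card := by
    refine Finset.card_le_card_of_injOn (fun p => (p.2, p.1)) (fun p hp => ?_) fun p _ p' _ h => ?_
    · have hp1 := mem_filter.1 (Finset.mem_coe.1 hp)
      have hp2 := mem_product.1 hp1.1
      rw [Finset.mem_coe, mem_filter, mem_product]
      exact ⟨⟨hp2.2, hp2.1⟩, hp1.2⟩
    · simp only [Prod.mk.injEq] at h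
      exact Prod.ext h.2 h.1
  rw [Finset.card_sigma] at h2
  rw [card_product] at h1
  rw [sq]
  omega

private theorem sl2_dist (x y η : ℝ) (hx : di x ≤ η) (hy : di y ≤ η) : di (x - y) ≤ 2 * η := by
  have h1 := C3.di_add x (-y)
  rw [C3.di_neg, ← sub_eq_add_neg] at h1
  linarith

theorem sl2 (A B C th : ℝ) (N : ℕ) (h0 : 0 < th) (h1 : th ≤ 1) (hA1 : 1 ≤ |A| * N ^ 2)
    (hA2 : |A| * N ≤ th ^ 4) :
    (((range N).filter fun n : ℕ => di (A * n ^ 2 + B * n + C) ≤ th ^ 4).card : ℝ)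
      ≤ 6 * th * N := by
  set S := (range N).filter fun n : ℕ => di (A * n ^ 2 + B * n + C) ≤ th ^ 4 with hS
  have hN0 : (0 : ℝ) ≤ N := Nat.cast_nonneg N
  have hA0 : 0 ≤ |A| := abs_nonneg A
  have hApos : 0 < |A| := by
    rcases hA0.lt_or_eq with h | h
    · exact h
    · rw [← h, zero_mul] at hA1
      linarith
  have hη : 1 ≤ th ^ 4 * N := by
    have : |A| * (N : ℝ) ^ 2 = (|A| * N) * N := by ring
    rw [this] at hA1
    exact hA1.trans (mul_le_mul_of_nonneg_right hA2 hN0)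
  have hth2 : th ^ 4 ≤ th ^ 2 := pow_le_pow_of_le_one h0.le h1 (by norm_num)
  have hth2N : 1 ≤ th ^ 2 * N := hη.trans (mul_le_mul_of_nonneg_right hth2 hN0)
  -- the large `h`
  have hlarge : ∀ h : ℕ, h ∈ range N → th ^ 2 * N ≤ h →
      ((S.filter fun n : ℕ => n + h ∈ S).card : ℝ) ≤ 12 * th ^ 2 * N := by
    intro h hh hle
    have hhN : (h : ℝ) ≤ N := by exact_mod_cast (mem_range.1 hh).le
    have hh1 : (1 : ℝ) ≤ h := hth2N.trans hle
    have hne : 2 * A * h ≠ 0 := by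
      have : A ≠ 0 := abs_pos.1 hApos
      have h2 : (h : ℝ) ≠ 0 := by linarith
      positivity
    have h2 := sl1_gen (2 * A * h) (A * h ^ 2 + B * h) (2 * th ^ 4) N hne (by positivity)
    have h3 : (S.filter fun n : ℕ => n + h ∈ S)
        ⊆ (range N).filter fun n : ℕ => di (2 * A * h * n + (A * h ^ 2 + B * h)) ≤ 2 * th ^ 4 := by
      intro n hn
      rw [mem_filter] at hn
      have h4 := (mem_filter.1 hn.1).2
      have h5 := (mem_filter.1 hn.2).2
      rw [mem_filter]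
      refine ⟨(mem_filter.1 hn.1).1, ?_⟩
      have h6 := sl2_dist _ _ _ h5 h4
      push_cast at h6
      rw [show 2 * A * h * n + (A * h ^ 2 + B * h)
        = A * ((n : ℝ) + h) ^ 2 + B * ((n : ℝ) + h) + C - (A * n ^ 2 + B * n + C) by ring]
      exact h6
    have h4 : ((S.filter fun n : ℕ => n + h ∈ S).card : ℝ)
        ≤ (|2 * A * h| * N + 2) * (2 * (2 * th ^ 4) / |2 * A * h| + 1) :=
      le_trans (by exact_mod_cast Finset.card_le_card h3) h2
    have h5 : |2 * A * (h : ℝ)| = 2 * (|A| * h) := by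
      rw [abs_mul, abs_mul, abs_two, abs_of_nonneg (by linarith : (0 : ℝ) ≤ h)]
      ring
    rw [h5] at h4
    have hAh : 0 < |A| * h := mul_pos hApos (by linarith)
    have h6 : (2 * (|A| * h) * N + 2) * (2 * (2 * th ^ 4) / (2 * (|A| * h)) + 1)
        = 4 * th ^ 4 * N + 2 * (|A| * h) * N + 4 * th ^ 4 / (|A| * h) + 2 := by
      field_simp
      ring
    rw [h6] at h4
    have h7 : 2 * (|A| * h) * N ≤ 2 * th ^ 4 * N := by
      have h8 : |A| * h ≤ th ^ 4 := (mul_le_mul_of_nonneg_left hhN hA0).trans hA2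
      nlinarith
    have h8 : 4 * th ^ 4 / (|A| * h) ≤ 4 * th ^ 2 * N := by
      rw [div_le_iff₀ hAh]
      have h9 : th ^ 2 ≤ N * (|A| * h) := by
        calc th ^ 2 = th ^ 2 * 1 := (mul_one _).symm
          _ ≤ th ^ 2 * (|A| * N ^ 2) := mul_le_mul_of_nonneg_left hA1 (by positivity)
          _ = (N * |A|) * (th ^ 2 * N) := by ring
          _ ≤ (N * |A|) * h := mul_le_mul_of_nonneg_left hle (by positivity)
          _ = N * (|A| * h) := by ring
      calc 4 * th ^ 4 = 4 * th ^ 2 * th ^ 2 := by ring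
        _ ≤ 4 * th ^ 2 * (N * (|A| * h)) := mul_le_mul_of_nonneg_left h9 (by positivity)
        _ = _ := by ring
    have h9 : th ^ 4 * N ≤ th ^ 2 * N := mul_le_mul_of_nonneg_right hth2 hN0
    linarith
  -- the sum over `h`
  have hp := pair_count S N fun n hn => mem_range.1 (mem_filter.1 hn).1
  have hp' : (S.card : ℝ) ^ 2 ≤ 2 * ∑ h ∈ range N, ((S.filter fun n : ℕ => n + h ∈ S).card : ℝ) := by
    exact_mod_cast hp
  have hsm : (((range N).filter fun h : ℕ => (h : ℝ) < th ^ 2 * N).card : ℝ) ≤ 2 * (th ^ 2 * N) := by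
    have h2 : ((range N).filter fun h : ℕ => (h : ℝ) < th ^ 2 * N) ⊆ range (⌈th ^ 2 * N⌉₊) := by
      intro h hh
      rw [mem_range]
      exact Nat.lt_ceil.2 (mem_filter.1 hh).2
    have h3 : (((range N).filter fun h : ℕ => (h : ℝ) < th ^ 2 * N).card : ℝ) ≤ (⌈th ^ 2 * N⌉₊ : ℝ) := by
      have := Finset.card_le_card h2
      rw [card_range] at this
      exact_mod_cast this
    have h4 := Nat.ceil_lt_add_one (by positivity : (0 : ℝ) ≤ th ^ 2 * N)
    linarith
  have hsum : ∑ h ∈ range N, ((S.filter fun n : ℕ => n + h ∈ S).card : ℝ) ≤ 14 * th ^ 2 * N ^ 2 := by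
    have h2 : ∀ h ∈ range N, ((S.filter fun n : ℕ => n + h ∈ S).card : ℝ)
        ≤ (if (h : ℝ) < th ^ 2 * N then (N : ℝ) else 0) + 12 * th ^ 2 * N := by
      intro h hh
      by_cases hlt : (h : ℝ) < th ^ 2 * N
      · rw [if_pos hlt]
        have h3 : (S.filter fun n : ℕ => n + h ∈ S).card ≤ N := by
          refine (Finset.card_filter_le _ _).trans ((Finset.card_filter_le _ _).trans ?_)
          rw [card_range]
        have h4 : ((S.filter fun n : ℕ => n + h ∈ S).card : ℝ) ≤ N := by exact_mod_cast h3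
        have h5 : 0 ≤ 12 * th ^ 2 * (N : ℝ) := by positivity
        linarith
      · rw [if_neg hlt, zero_add]
        exact hlarge h hh (not_lt.1 hlt)
    refine (Finset.sum_le_sum h2).trans ?_
    rw [Finset.sum_add_distrib, ← Finset.sum_filter, Finset.sum_const, Finset.sum_const, card_range,
      nsmul_eq_mul, nsmul_eq_mul]
    have h3 := mul_le_mul_of_nonneg_right hsm hN0
    nlinarith
  have hfin : (S.card : ℝ) ^ 2 ≤ (6 * th * N) ^ 2 := by
    have h2 : (0 : ℝ) ≤ th ^ 2 * N ^ 2 := by positivity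
    nlinarith
  exact (sq_le_sq₀ (Nat.cast_nonneg _) (by positivity)).1 hfin

end Pool.Agent.Lib.MP_8fac0f_nt.Q4
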