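import Pool.Agent.Lib.MP_8fac0f_nt.Q4.Defs4
import Pool.Agent.Lib.MP_8fac0f_nt.C3.BPhase

/-!
# SPL: splitting of the digits

`sg_mod_div` at `2j = 3999998 e`, then at `4001910 e - lam = slo lam e (MA - 1)` (relative position `1912 e - lam`), then the `MA = 1998090`
slices (`slo lam e i = 4001910 e - lam + (MA - 1 - i) e`: `C3.BPhase_split` gives the product over the slices from below; reflect
with `Finset.prod_range_reflect`), then the window from `6000000 e - lam` on.
-/

set_option autoImplicit false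

namespace Pool.Agent.Lib.MP_8fac0f_nt.Q4

open Finset Filter Topology
open Pool.Agent.Lib.MP_8fac0f_nt.C3 (di ex)
open Pool.Agent.Lib.MP_8fac0f_nt.N (sg)

private theorem SPL_two (x a b c : ℕ) (h : c = a + b) :
    sg (x % 2 ^ c) = sg (x % 2 ^ a) * sg (x / 2 ^ a % 2 ^ b) := by
  have h1 := Pool.Agent.Lib.MP_8fac0f_nt.N.sg_mod_div a (x % 2 ^ c)
  have e1 : 2 ^ c = 2 ^ a * 2 ^ b := by rw [← pow_add, h]
  rw [h1, Nat.mod_mod_of_dvd _ (e1 ▸ Dvd.intro _ rfl), e1, Nat.mod_mul_right_div_self]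

private theorem SPL_slices (x j l M : ℕ) :
    sg (x % 2 ^ (j + M * l)) =
      sg (x % 2 ^ j) * ∏ i ∈ range M, sg (x / 2 ^ (j + (M - 1 - i) * l) % 2 ^ l) := by
  rw [Pool.Agent.Lib.MP_8fac0f_nt.C3.BPhase_split j l x M,
    Fin.prod_univ_eq_prod_range (fun i => sg (x / 2 ^ (j + i * l) % 2 ^ l)) M,
    ← Finset.prod_range_reflect (fun i => sg (x / 2 ^ (j + i * l) % 2 ^ l)) M]

theorem split4 (MA lam ρ e x : ℕ) (hMA : MA = 1998090) (h : lam ≤ e) :
    sg (x % 2 ^ (6000000 * e + ρ)) = sg (x % 2 ^ (3999998 * e))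
      * sg (x / 2 ^ (3999998 * e) % 2 ^ (1912 * e - lam))
      * (∏ i ∈ range MA, sg (x / 2 ^ slo lam e i % 2 ^ e))
      * sg (x / 2 ^ (6000000 * e - lam) % 2 ^ (lam + ρ)) := by
  have hMe : MA * e = 1998090 * e := by rw [hMA]
  have h1 := SPL_two x (6000000 * e - lam) (lam + ρ) (6000000 * e + ρ) (by omega)
  have h2 := SPL_slices x (4001910 * e - lam) e MA
  have h3 := SPL_two x (3999998 * e) (1912 * e - lam) (4001910 * e - lam) (by omega)
  have e2 : 4001910 * e - lam + MA * e = 6000000 * e - lam := by omega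
  rw [e2] at h2
  have h4 : ∏ i ∈ range MA, sg (x / 2 ^ (4001910 * e - lam + (MA - 1 - i) * e) % 2 ^ e) =
      ∏ i ∈ range MA, sg (x / 2 ^ slo lam e i % 2 ^ e) := by
    refine prod_congr rfl fun i hi => ?_
    have hi := mem_range.1 hi
    have e3 : 4001910 * e - lam + (MA - 1 - i) * e = slo lam e i := by
      unfold slo
      have h5 : (MA - 1 - i) * e + (i + 1) * e = MA * e := by
        rw [← add_mul]
        congr 1
        omega
      omega
    rw [e3]
  rw [h1, h2, h3, h4]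

end Pool.Agent.Lib.MP_8fac0f_nt.Q4
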